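import Mathlib

set_option autoImplicit false

namespace Pool.Agent.Helper923.Fourier

open Finset ZMod

/-- Fourier transform of a real function on `ZMod M`. -/
noncomputable def ft {M : ℕ} [NeZero M] (f : ZMod M → ℝ) (r : ZMod M) : ℂ :=
  ∑ x, (f x : ℂ) * stdAddChar (x * r)

variable {M : ℕ} [NeZero M]

lemma sum_char (b : ZMod M) :
    ∑ x : ZMod M, (stdAddChar (x * b) : ℂ) = if b = 0 then (M : ℂ) else 0 := by
  have h := AddChar.sum_mulShift (R' := ℂ) b (isPrimitive_stdAddChar M)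
  rw [h]
  split_ifs with hb
  · simp [ZMod.card]
  · simp

lemma ft_add (f g : ZMod M → ℝ) (r : ZMod M) : ft (fun x => f x + g x) r = ft f r + ft g r := by
  simp only [ft, ← sum_add_distrib]
  refine sum_congr rfl fun x _ => ?_
  push_cast
  ring

lemma parseval (f : ZMod M → ℝ) :
    ∑ r, ‖ft f r‖ ^ 2 = (M : ℝ) * ∑ x, f x ^ 2 := by
  have h : (∑ r, ((‖ft f r‖ : ℂ)) ^ 2) = (M : ℂ) * ∑ x, (f x : ℂ) ^ 2 := by
    have h1 : ∀ r, ((‖ft f r‖ : ℂ)) ^ 2
        = ∑ x, ∑ y, (f x : ℂ) * (f y : ℂ) * stdAddChar (r * (x - y)) := by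
      intro r
      rw [← Complex.mul_conj']
      simp only [ft, map_sum, map_mul, Complex.conj_ofReal, Finset.sum_mul_sum]
      refine sum_congr rfl fun x _ => sum_congr rfl fun y _ => ?_
      have : (stdAddChar (r * (x - y)) : ℂ)
          = stdAddChar (x * r) * (starRingEnd ℂ) (stdAddChar (y * r)) := by
        rw [← AddChar.map_neg_eq_conj, ← AddChar.map_add_eq_mul]
        congr 1
        ring
      rw [this]
      ring
    simp only [h1]
    rw [sum_comm, mul_sum]
    refine sum_congr rfl fun x _ => ?_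
    rw [sum_comm]
    have h2 : ∀ y : ZMod M, ∑ r : ZMod M, (f x : ℂ) * (f y : ℂ) * stdAddChar (r * (x - y))
        = if x = y then (M : ℂ) * (f x : ℂ) ^ 2 else 0 := by
      intro y
      rw [← mul_sum, sum_char]
      by_cases hxy : x = y
      · subst hxy
        simp
        ring
      · rw [if_neg (sub_ne_zero.mpr hxy), if_neg hxy, mul_zero]
    simp only [h2]
    rw [Finset.sum_ite_eq]
    simp
  have h3 : ((∑ r, ‖ft f r‖ ^ 2 : ℝ) : ℂ) = (((M : ℝ) * ∑ x, f x ^ 2 : ℝ) : ℂ) := by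
    push_cast
    exact h
  exact_mod_cast h3

/-- the trilinear count of solutions of `x + z = 2 y`. -/
noncomputable def T (f g h : ZMod M → ℝ) : ℝ :=
  ∑ x, ∑ y, ∑ z, if x + z = 2 * y then f x * g y * h z else 0

lemma T_eq (f g h : ZMod M → ℝ) :
    ∑ r, ft f r * ft g (-2 * r) * ft h r = (M : ℂ) * (T f g h : ℂ) := by
  have h1 : ∀ r : ZMod M, ft f r * ft g (-2 * r) * ft h r
      = ∑ x, ∑ y, ∑ z, (f x : ℂ) * (g y : ℂ) * (h z : ℂ) * stdAddChar (r * (x + z - 2 * y)) := by
    intro r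
    simp only [ft]
    rw [sum_mul_sum]
    simp only [Finset.sum_mul]
    simp only [mul_sum]
    refine sum_congr rfl fun x _ => ?_
    refine sum_congr rfl fun y _ => sum_congr rfl fun z _ => ?_
    have : (stdAddChar (r * (x + z - 2 * y)) : ℂ)
        = stdAddChar (x * r) * stdAddChar (y * (-2 * r)) * stdAddChar (z * r) := by
      rw [← AddChar.map_add_eq_mul, ← AddChar.map_add_eq_mul]
      congr 1
      ring
    rw [this]
    ring
  simp only [h1]
  rw [sum_comm]
  simp only [T]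
  push_cast
  rw [mul_sum]
  refine sum_congr rfl fun x _ => ?_
  rw [sum_comm, mul_sum]
  refine sum_congr rfl fun y _ => ?_
  rw [sum_comm, mul_sum]
  refine sum_congr rfl fun z _ => ?_
  rw [← mul_sum, sum_char]
  by_cases hxy : x + z = 2 * y
  · rw [if_pos (sub_eq_zero.mpr hxy), if_pos hxy]
    push_cast
    ring
  · rw [if_neg (sub_ne_zero.mpr hxy), if_neg hxy]
    simp

lemma ft_norm_le (f : ZMod M → ℝ) (r : ZMod M) : ‖ft f r‖ ≤ ∑ x, |f x| := by
  unfold ft
  refine (norm_sum_le _ _).trans (sum_le_sum fun x _ => ?_)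
  rw [norm_mul]
  simp

/-- correlation with the progression `0, d, …, (L-1) d`. -/
noncomputable def corr (L : ℕ) (d : ZMod M) (f : ZMod M → ℝ) (x : ZMod M) : ℝ :=
  ∑ j ∈ range L, f (x + j * d)

lemma ft_corr (L : ℕ) (d : ZMod M) (f : ZMod M → ℝ) (r : ZMod M) :
    ft (corr L d f) r = ft f r * ∑ j ∈ range L, stdAddChar (-((j : ZMod M) * d * r)) := by
  simp only [ft, corr]
  push_cast
  simp only [sum_mul]
  rw [sum_comm]
  simp only [mul_sum]
  rw [sum_comm (s := univ) (t := range L)]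
  refine sum_congr rfl fun j _ => ?_
  refine Fintype.sum_equiv (Equiv.addRight ((j : ZMod M) * d)) _ _ fun x => ?_
  simp only [Equiv.coe_addRight]
  rw [mul_assoc, ← AddChar.map_add_eq_mul]
  congr 2
  ring

end Pool.Agent.Helper923.Fourier
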