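import Mathlib
import Pool.Agent.Helper923.Fourier

set_option autoImplicit false

namespace Pool.Agent.Helper923.Energy

open Finset ZMod Pool.Agent.Helper923.Fourier

/-- truncation to large values -/
noncomputable def big (τ u : ℝ) : ℝ := if τ ≤ u then u else 0

lemma big_cases {τ u : ℝ} : (τ ≤ u ∧ big τ u = u) ∨ (u < τ ∧ big τ u = 0) := by
  unfold big
  by_cases h : τ ≤ u
  · left; exact ⟨h, if_pos h⟩
  · right; exact ⟨not_le.mp h, if_neg h⟩

lemma pointwise {τ U V u v u' v' : ℝ} (hτ : 0 ≤ τ) (hu : 0 ≤ u) (hv : 0 ≤ v) (hu' : 0 ≤ u')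
    (hv' : 0 ≤ v') (huU : u ≤ U) (hvV : v ≤ V) (huU' : u' ≤ U) (hvV' : v' ≤ V) :
    u ^ 2 * u' + 2 * (u * v * u') + v ^ 2 * u' + u ^ 2 * v' + 2 * (u * v * v')
      ≤ (U * big τ u ^ 2 + τ * (u ^ 2 + u' ^ 2) / 2)
        + 2 * (V * (big τ u ^ 2 + big τ u' ^ 2) / 2 + τ * (u ^ 2 + v ^ 2) / 2
          + τ * (v ^ 2 + u' ^ 2) / 2)
        + (V * (v ^ 2 / 30 + 30 * big τ u' ^ 2) / 2 + τ * v ^ 2)
        + (V * big τ u ^ 2 + τ * (u ^ 2 + v' ^ 2) / 2)
        + 2 * (V * (v ^ 2 / 30 + 30 * big τ u ^ 2) / 2 + τ * (v ^ 2 + v' ^ 2) / 2) := by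
  have hU : 0 ≤ U := hu.trans huU
  have hV : 0 ≤ V := hv.trans hvV
  have key : ∀ a b : ℝ, 0 ≤ a → 0 ≤ b → a * b ≤ (a ^ 2 + b ^ 2) / 2 := by
    intro a b _ _
    nlinarith [sq_nonneg (a - b)]
  -- term 1
  have t1 : u ^ 2 * u' ≤ U * big τ u ^ 2 + τ * (u ^ 2 + u' ^ 2) / 2 := by
    rcases big_cases (τ := τ) (u := u) with ⟨h, hb⟩ | ⟨h, hb⟩
    · rw [hb]
      have : u ^ 2 * u' ≤ u ^ 2 * U := by gcongr
      have h0 : 0 ≤ τ * (u ^ 2 + u' ^ 2) / 2 := by positivity
      linarith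
    · rw [hb]
      have h1 : u ^ 2 * u' ≤ τ * (u * u') := by
        have : u * (u * u') ≤ τ * (u * u') := by
          have : 0 ≤ u * u' := by positivity
          exact mul_le_mul_of_nonneg_right h.le this
        linarith [this, show u ^ 2 * u' = u * (u * u') by ring]
      have h2 := mul_le_mul_of_nonneg_left (key u u' hu hu') hτ
      nlinarith
  -- term 2
  have t2 : u * v * u' ≤ V * (big τ u ^ 2 + big τ u' ^ 2) / 2 + τ * (u ^ 2 + v ^ 2) / 2
          + τ * (v ^ 2 + u' ^ 2) / 2 := by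
    have a1 := mul_le_mul_of_nonneg_left (key u v hu hv) hτ
    have a2 := mul_le_mul_of_nonneg_left (key v u' hv hu') hτ
    have p1 : 0 ≤ τ * (u ^ 2 + v ^ 2) / 2 := by positivity
    have p2 : 0 ≤ τ * (v ^ 2 + u' ^ 2) / 2 := by positivity
    rcases big_cases (τ := τ) (u := u) with ⟨h, hb⟩ | ⟨h, hb⟩
    · rcases big_cases (τ := τ) (u := u') with ⟨h', hb'⟩ | ⟨h', hb'⟩
      · rw [hb, hb']
        have b1 := mul_le_mul_of_nonneg_left (key u u' hu hu') hV
        have b2 : u * v * u' ≤ V * (u * u') := by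
          have : v * (u * u') ≤ V * (u * u') :=
            mul_le_mul_of_nonneg_right hvV (by positivity)
          linarith [show u * v * u' = v * (u * u') by ring]
        linarith
      · have b1 : u * v * u' ≤ τ * (u * v) := by
          have : u' * (u * v) ≤ τ * (u * v) :=
            mul_le_mul_of_nonneg_right h'.le (by positivity)
          linarith [show u * v * u' = u' * (u * v) by ring]
        have b2 : 0 ≤ V * (big τ u ^ 2 + big τ u' ^ 2) / 2 := by positivity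
        linarith
    · have b1 : u * v * u' ≤ τ * (v * u') := by
        have : u * (v * u') ≤ τ * (v * u') :=
          mul_le_mul_of_nonneg_right h.le (by positivity)
        linarith [show u * v * u' = u * (v * u') by ring]
      have b2 : 0 ≤ V * (big τ u ^ 2 + big τ u' ^ 2) / 2 := by positivity
      linarith
  -- term 3
  have t3 : v ^ 2 * u' ≤ V * (v ^ 2 / 30 + 30 * big τ u' ^ 2) / 2 + τ * v ^ 2 := by
    rcases big_cases (τ := τ) (u := u') with ⟨h', hb'⟩ | ⟨h', hb'⟩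
    · rw [hb']
      have b1 : v * u' ≤ (v ^ 2 / 30 + 30 * u' ^ 2) / 2 := by nlinarith [sq_nonneg (v - 30 * u')]
      have b2 : v ^ 2 * u' ≤ V * (v * u') := by
        have : v * (v * u') ≤ V * (v * u') := mul_le_mul_of_nonneg_right hvV (by positivity)
        linarith [show v ^ 2 * u' = v * (v * u') by ring]
      have b3 := mul_le_mul_of_nonneg_left b1 hV
      have b4 : 0 ≤ τ * v ^ 2 := by positivity
      linarith
    · rw [hb']
      have : v ^ 2 * u' ≤ v ^ 2 * τ := by gcongr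
      have b4 : 0 ≤ V * (v ^ 2 / 30 + 30 * 0 ^ 2) / 2 := by positivity
      linarith
  -- term 4
  have t4 : u ^ 2 * v' ≤ V * big τ u ^ 2 + τ * (u ^ 2 + v' ^ 2) / 2 := by
    rcases big_cases (τ := τ) (u := u) with ⟨h, hb⟩ | ⟨h, hb⟩
    · rw [hb]
      have : u ^ 2 * v' ≤ u ^ 2 * V := by gcongr
      have h0 : 0 ≤ τ * (u ^ 2 + v' ^ 2) / 2 := by positivity
      linarith
    · rw [hb]
      have h1 : u ^ 2 * v' ≤ τ * (u * v') := by
        have : u * (u * v') ≤ τ * (u * v') :=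
          mul_le_mul_of_nonneg_right h.le (by positivity)
        linarith [show u ^ 2 * v' = u * (u * v') by ring]
      have h2 := mul_le_mul_of_nonneg_left (key u v' hu hv') hτ
      nlinarith
  -- term 5
  have t5 : u * v * v' ≤ V * (v ^ 2 / 30 + 30 * big τ u ^ 2) / 2 + τ * (v ^ 2 + v' ^ 2) / 2 := by
    rcases big_cases (τ := τ) (u := u) with ⟨h, hb⟩ | ⟨h, hb⟩
    · rw [hb]
      have b1 : v * u ≤ (v ^ 2 / 30 + 30 * u ^ 2) / 2 := by nlinarith [sq_nonneg (v - 30 * u)]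
      have b2 : u * v * v' ≤ V * (v * u) := by
        have : v' * (v * u) ≤ V * (v * u) := mul_le_mul_of_nonneg_right hvV' (by positivity)
        linarith [show u * v * v' = v' * (v * u) by ring]
      have b3 := mul_le_mul_of_nonneg_left b1 hV
      have b4 : 0 ≤ τ * (v ^ 2 + v' ^ 2) / 2 := by positivity
      linarith
    · rw [hb]
      have h1 : u * v * v' ≤ τ * (v * v') := by
        have : u * (v * v') ≤ τ * (v * v') :=
          mul_le_mul_of_nonneg_right h.le (by positivity)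
        linarith [show u * v * v' = u * (v * v') by ring]
      have h2 := mul_le_mul_of_nonneg_left (key v v' hv hv') hτ
      have b4 : 0 ≤ V * (v ^ 2 / 30 + 30 * 0 ^ 2) / 2 := by positivity
      nlinarith
  linarith

variable {M : ℕ} [NeZero M]

lemma sum_neg_two (hM : Odd M) (φ : ZMod M → ℝ) : ∑ r, φ (-2 * r) = ∑ r, φ r := by
  have hc : Nat.Coprime 2 M := by
    rw [Nat.coprime_two_left]; exact hM
  let u : (ZMod M)ˣ := ZMod.unitOfCoprime 2 hc
  have hu : (u : ZMod M) = 2 := by simp [u, ZMod.coe_unitOfCoprime]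
  refine Fintype.sum_equiv (Units.mulLeft (-u)) _ _ fun r => ?_
  simp [Units.mulLeft_apply, hu]

lemma T_diff (hM : Odd M) (f w : ZMod M → ℝ) {τ U V : ℝ} (hτ : 0 ≤ τ)
    (hU : ∀ r, ‖ft f r‖ ≤ U) (hV : ∀ r, ‖ft w r‖ ≤ V) :
    (M : ℝ) * |T (fun x => f x + w x) (fun x => f x + w x) (fun x => f x + w x) - T w w w|
      ≤ (U + 48 * V) * ∑ r, big τ ‖ft f r‖ ^ 2 + V / 20 * ∑ r, ‖ft w r‖ ^ 2
        + τ * (3.5 * ∑ r, ‖ft f r‖ ^ 2 + 5.5 * ∑ r, ‖ft w r‖ ^ 2) := by
  set a : ZMod M → ℝ := fun x => f x + w x with ha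
  have h1 : (M : ℂ) * ((T a a a - T w w w : ℝ) : ℂ)
      = ∑ r, (ft a r * ft a (-2 * r) * ft a r - ft w r * ft w (-2 * r) * ft w r) := by
    rw [sum_sub_distrib, T_eq, T_eq]
    push_cast
    ring
  have h2 : (M : ℝ) * |T a a a - T w w w|
      = ‖∑ r, (ft a r * ft a (-2 * r) * ft a r - ft w r * ft w (-2 * r) * ft w r)‖ := by
    rw [← h1, norm_mul, Complex.norm_natCast, Complex.norm_real, Real.norm_eq_abs]
  rw [h2]
  have h3 : ∀ r, ‖ft a r * ft a (-2 * r) * ft a r - ft w r * ft w (-2 * r) * ft w r‖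
      ≤ ‖ft f r‖ ^ 2 * ‖ft f (-2 * r)‖ + 2 * (‖ft f r‖ * ‖ft w r‖ * ‖ft f (-2 * r)‖)
        + ‖ft w r‖ ^ 2 * ‖ft f (-2 * r)‖ + ‖ft f r‖ ^ 2 * ‖ft w (-2 * r)‖
        + 2 * (‖ft f r‖ * ‖ft w r‖ * ‖ft w (-2 * r)‖) := by
    intro r
    have hA : ∀ s, ft a s = ft f s + ft w s := fun s => ft_add f w s
    have : ft a r * ft a (-2 * r) * ft a r - ft w r * ft w (-2 * r) * ft w r
        = ft f r ^ 2 * ft f (-2 * r) + 2 * (ft f r * ft w r * ft f (-2 * r))
        + ft w r ^ 2 * ft f (-2 * r) + ft f r ^ 2 * ft w (-2 * r)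
        + 2 * (ft f r * ft w r * ft w (-2 * r)) := by
      rw [hA, hA]; ring
    rw [this]
    refine (norm_add_le _ _).trans ?_
    refine add_le_add ((norm_add_le _ _).trans ?_) (by simp [norm_mul])
    refine add_le_add ((norm_add_le _ _).trans ?_) (by simp [norm_mul, norm_pow])
    refine add_le_add ((norm_add_le _ _).trans ?_) (by simp [norm_mul, norm_pow])
    refine add_le_add (by simp [norm_mul, norm_pow]) (by simp [norm_mul])
  refine (norm_sum_le _ _).trans ?_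
  refine (sum_le_sum fun r _ => (h3 r).trans (pointwise (τ := τ) (U := U) (V := V) hτ
    (norm_nonneg _) (norm_nonneg _) (norm_nonneg _) (norm_nonneg _)
    (hU _) (hV _) (hU _) (hV _))).trans ?_
  have e1 := sum_neg_two hM (fun r => ‖ft f r‖ ^ 2)
  have e2 := sum_neg_two hM (fun r => ‖ft w r‖ ^ 2)
  have e3 := sum_neg_two hM (fun r => big τ ‖ft f r‖ ^ 2)
  beta_reduce at e1 e2 e3
  simp only [sum_add_distrib, ← mul_sum, ← sum_div, mul_add, add_div, e1, e2, e3]
  apply le_of_eq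
  ring

end Pool.Agent.Helper923.Energy
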