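import Mathlib
import Pool.Agent.Helper923.Energy

set_option autoImplicit false

namespace Pool.Agent.Helper923.Count

open Finset ZMod Pool.Agent.Helper923.Fourier Pool.Agent.Helper923.Energy

/-- no nontrivial three-term progression -/
def Free (A : Finset ℕ) : Prop := ∀ x ∈ A, ∀ y ∈ A, ∀ z ∈ A, x + z = 2 * y → x = y

/-- indicator function on `ZMod M` -/
noncomputable def ind {M : ℕ} (A : Finset ℕ) (x : ZMod M) : ℝ := if x.val ∈ A then 1 else 0

lemma sum_val {M : ℕ} [NeZero M] (g : ℕ → ℝ) : ∑ x : ZMod M, g x.val = ∑ n ∈ range M, g n := by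
  obtain ⟨m, rfl⟩ : ∃ m, M = m + 1 := ⟨M - 1, (Nat.succ_pred_eq_of_ne_zero (NeZero.ne M)).symm⟩
  exact Fin.sum_univ_eq_sum_range g (m + 1)

lemma sum_ind {M N : ℕ} [NeZero M] (hNM : N ≤ M) (A : Finset ℕ) (hA : A ⊆ range N) :
    ∑ x : ZMod M, ind A x = (A.card : ℝ) := by
  unfold ind
  rw [sum_val (fun n => if n ∈ A then (1 : ℝ) else 0)]
  rw [← sum_filter]
  simp only [sum_const, nsmul_eq_mul, mul_one]
  congr 2
  ext n
  simp only [mem_filter, mem_range, and_iff_right_iff_imp]
  intro hn
  exact lt_of_lt_of_le (mem_range.mp (hA hn)) hNM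

lemma ind_nonneg {M : ℕ} (A : Finset ℕ) (x : ZMod M) : 0 ≤ ind A x := by
  unfold ind; split_ifs <;> norm_num

lemma ind_le_one {M : ℕ} (A : Finset ℕ) (x : ZMod M) : ind A x ≤ 1 := by
  unfold ind; split_ifs <;> norm_num

lemma eq_of_mod {M N : ℕ} [NeZero M] (hM : M = 2 * N + 1) {x y z : ZMod M} (hx : x.val < N)
    (hy : y.val < N) (hz : z.val < N) (h : x + z = 2 * y) : x.val + z.val = 2 * y.val := by
  have h1 : ((x.val + z.val : ℕ) : ZMod M) = ((2 * y.val : ℕ) : ZMod M) := by
    push_cast
    rw [ZMod.natCast_zmod_val, ZMod.natCast_zmod_val, ZMod.natCast_zmod_val, h]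
  rw [ZMod.natCast_eq_natCast_iff'] at h1
  rw [Nat.mod_eq_of_lt (by omega), Nat.mod_eq_of_lt (by omega)] at h1
  exact h1

lemma T_free {M N : ℕ} [NeZero M] (hM : M = 2 * N + 1) (A : Finset ℕ) (hA : A ⊆ range N)
    (hf : Free A) : T (ind (M := M) A) (ind A) (ind A) ≤ (A.card : ℝ) := by
  rw [← sum_ind (M := M) (N := N) (by omega) A hA]
  unfold T
  refine sum_le_sum fun x _ => ?_
  have : ∑ y : ZMod M, ∑ z : ZMod M, (if y = x then (if z = x then ind A x else 0) else 0)
      = ind A x := by
    simp
  refine le_trans ?_ (le_of_eq this)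
  clear this
  refine sum_le_sum fun y _ => sum_le_sum fun z _ => ?_
  by_cases h : x + z = 2 * y
  · rw [if_pos h]
    by_cases hx : x.val ∈ A
    · by_cases hy : y.val ∈ A
      · by_cases hz : z.val ∈ A
        · have hx' := mem_range.mp (hA hx)
          have hy' := mem_range.mp (hA hy)
          have hz' := mem_range.mp (hA hz)
          have e := eq_of_mod hM hx' hy' hz' h
          have exy := hf _ hx _ hy _ hz e
          have ezx : z.val = x.val := by omega
          have e1 : y = x := ZMod.val_injective M exy.symm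
          have e2 : z = x := ZMod.val_injective M ezx
          subst e1; subst e2
          simp [ind, hx]
        · have : ind A z = 0 := by simp [ind, hz]
          rw [this, mul_zero]
          split_ifs <;> first | exact ind_nonneg A x | exact le_refl _
      · have : ind A y = 0 := by simp [ind, hy]
        rw [this, mul_zero, zero_mul]
        split_ifs <;> first | exact ind_nonneg A x | exact le_refl _
    · have : ind A x = 0 := by simp [ind, hx]
      rw [this, zero_mul, zero_mul]
      split_ifs <;> exact le_refl _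
  · rw [if_neg h]
    split_ifs <;> first | exact ind_nonneg A x | exact le_refl _

lemma T_range {M N : ℕ} [NeZero M] (hM : M = 2 * N + 1) :
    (N : ℝ) ^ 2 / 2 ≤ T (ind (M := M) (range N)) (ind (range N)) (ind (range N)) := by
  set I : ZMod M → ℝ := ind (range N) with hI
  have h1 : T I I I = ∑ x, ∑ z, ∑ y, if x + z = 2 * y then I x * I y * I z else 0 := by
    unfold T
    refine sum_congr rfl fun x _ => ?_
    rw [sum_comm]
  rw [h1]
  have h2 : ∀ x z : ZMod M, I x * I z * ((1 + (-1) ^ x.val * (-1) ^ z.val) / 2)
      ≤ ∑ y, if x + z = 2 * y then I x * I y * I z else 0 := by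
    intro x z
    have hnn : ∀ y ∈ (univ : Finset (ZMod M)),
        (0 : ℝ) ≤ if x + z = 2 * y then I x * I y * I z else 0 := by
      intro y _
      split_ifs
      · exact mul_nonneg (mul_nonneg (ind_nonneg _ _) (ind_nonneg _ _)) (ind_nonneg _ _)
      · exact le_refl _
    by_cases hx : x.val < N
    · by_cases hz : z.val < N
      · have hIx : I x = 1 := by simp [hI, ind, hx]
        have hIz : I z = 1 := by simp [hI, ind, hz]
        rcases Nat.even_or_odd (x.val + z.val) with he | ho
        · obtain ⟨k, hk⟩ := he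
          have hkN : k < N := by omega
          have hkv : ((k : ZMod M)).val = k := ZMod.val_natCast_of_lt (by omega)
          have hIk : I (k : ZMod M) = 1 := by simp [hI, ind, hkv, hkN]
          have hxz : x + z = 2 * (k : ZMod M) := by
            have : ((x.val + z.val : ℕ) : ZMod M) = ((k + k : ℕ) : ZMod M) := by rw [hk]
            push_cast at this
            rw [ZMod.natCast_zmod_val, ZMod.natCast_zmod_val] at this
            rw [this]; ring
          have hs := single_le_sum hnn (mem_univ (k : ZMod M))
          rw [if_pos hxz, hIx, hIz, hIk] at hs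
          have hp : ((-1 : ℝ)) ^ x.val * (-1) ^ z.val = 1 := by
            rw [← pow_add, hk]
            exact Even.neg_one_pow ⟨k, rfl⟩
          rw [hp, hIx, hIz]
          linarith
        · have hp : ((-1 : ℝ)) ^ x.val * (-1) ^ z.val = -1 := by
            rw [← pow_add]
            exact Odd.neg_one_pow ho
          rw [hp]
          have := sum_nonneg hnn
          linarith
      · have hIz : I z = 0 := by simp [hI, ind]; omega
        have := sum_nonneg hnn
        rw [hIz] at this ⊢
        simpa using this
    · have hIx : I x = 0 := by simp [hI, ind]; omega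
      have := sum_nonneg hnn
      rw [hIx] at this ⊢
      simpa using this
  refine le_trans ?_ (sum_le_sum fun x _ => sum_le_sum fun z _ => h2 x z)
  have h3 : ∑ x : ZMod M, ∑ z : ZMod M, I x * I z * ((1 + (-1) ^ x.val * (-1) ^ z.val) / 2)
      = ((∑ x, I x) ^ 2 + (∑ x, I x * (-1) ^ x.val) ^ 2) / 2 := by
    rw [sq, sq, sum_mul_sum, sum_mul_sum, ← sum_add_distrib, sum_div]
    refine sum_congr rfl fun x _ => ?_
    rw [← sum_add_distrib, sum_div]
    refine sum_congr rfl fun z _ => ?_
    ring
  rw [h3, sum_ind (by omega : N ≤ M) (range N) (Subset.refl _), card_range]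
  have := sq_nonneg (∑ x : ZMod M, I x * (-1) ^ x.val)
  linarith

end Pool.Agent.Helper923.Count
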