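import Mathlib
import Pool.Agent.Helper923.Count

set_option autoImplicit false

namespace Pool.Agent.Helper923.Bound

open Finset ZMod Pool.Agent.Helper923.Fourier Pool.Agent.Helper923.Energy
  Pool.Agent.Helper923.Count

lemma T_smul {M : ℕ} [NeZero M] (c : ℝ) (g : ZMod M → ℝ) :
    T (fun x => c * g x) (fun x => c * g x) (fun x => c * g x) = c ^ 3 * T g g g := by
  unfold T
  rw [mul_sum]
  refine sum_congr rfl fun x _ => ?_
  rw [mul_sum]
  refine sum_congr rfl fun y _ => ?_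
  rw [mul_sum]
  refine sum_congr rfl fun z _ => ?_
  split_ifs
  · ring
  · ring

/-- balanced function -/
noncomputable def bal {M : ℕ} (A : Finset ℕ) (N : ℕ) (δ : ℝ) (x : ZMod M) : ℝ :=
  ind A x - δ * ind (range N) x

lemma bal_abs {M : ℕ} {N : ℕ} {A : Finset ℕ} {δ : ℝ} (h0 : 0 ≤ δ)
    (x : ZMod M) : |bal A N δ x| ≤ ind A x + δ * ind (range N) x := by
  unfold bal
  refine (abs_sub _ _).trans ?_
  rw [abs_of_nonneg (ind_nonneg _ _), abs_of_nonneg (mul_nonneg h0 (ind_nonneg _ _))]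

lemma bal_sq {M : ℕ} {N : ℕ} {A : Finset ℕ} (hA : A ⊆ range N) {δ : ℝ}
    (x : ZMod M) : bal A N δ x ^ 2 = (1 - 2 * δ) * ind A x + δ ^ 2 * ind (range N) x := by
  unfold bal ind
  by_cases hx : x.val ∈ A
  · have := hA hx
    rw [if_pos hx, if_pos this]; ring
  · rw [if_neg hx]
    split_ifs <;> ring

lemma sum_bal_sq {M N : ℕ} [NeZero M] (hNM : N ≤ M) {A : Finset ℕ} (hA : A ⊆ range N) {δ : ℝ}
    (hcard : (A.card : ℝ) = δ * N) : ∑ x : ZMod M, bal A N δ x ^ 2 = δ * N - δ ^ 2 * N := by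
  simp only [bal_sq hA]
  rw [sum_add_distrib, ← mul_sum, ← mul_sum, sum_ind hNM A hA,
    sum_ind hNM (range N) (Subset.refl _), card_range, hcard]
  ring

theorem energy_lb {M N : ℕ} [NeZero M] (hM : M = 2 * N + 1) {A : Finset ℕ} (hA : A ⊆ range N)
    (hf : Free A) {δ : ℝ} (hδ : 0 < δ) (hcard : (A.card : ℝ) = δ * N) (hN : 4 ≤ δ ^ 2 * N) :
    (M : ℝ) * (δ ^ 2 * N / 1000)
      ≤ ∑ r : ZMod M, big (δ ^ 2 * N / 90) ‖ft (bal A N δ) r‖ ^ 2 := by
  by_contra hcon
  push Not at hcon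
  have hNpos : (0 : ℝ) < N := by
    by_contra h
    push Not at h
    nlinarith [sq_nonneg δ]
  have hδ1 : δ ≤ 1 := by
    have h1 : (A.card : ℝ) ≤ N := by
      have := card_le_card hA
      rw [card_range] at this
      exact_mod_cast this
    rw [hcard] at h1
    by_contra h
    push Not at h
    nlinarith
  have hMpos : (0 : ℝ) < M := by
    have : M ≠ 0 := NeZero.ne M
    positivity
  set w : ZMod M → ℝ := fun x => δ * ind (range N) x with hw
  have hsum : (fun x : ZMod M => bal A N δ x + w x) = ind A := by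
    funext x; simp [bal, hw]
  have hU : ∀ r : ZMod M, ‖ft (bal A N δ) r‖ ≤ 2 * δ * N := by
    intro r
    refine (ft_norm_le _ _).trans ?_
    refine (sum_le_sum fun x _ => bal_abs hδ.le x).trans ?_
    rw [sum_add_distrib, ← mul_sum, sum_ind (by omega : N ≤ M) A hA,
      sum_ind (by omega : N ≤ M) (range N) (Subset.refl _), card_range, hcard]
    linarith
  have hV : ∀ r : ZMod M, ‖ft w r‖ ≤ δ * N := by
    intro r
    refine (ft_norm_le _ _).trans ?_
    have : ∀ x, |w x| = δ * ind (range N) x :=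
      fun x => abs_of_nonneg (mul_nonneg hδ.le (ind_nonneg _ _))
    simp only [this]
    rw [← mul_sum, sum_ind (by omega : N ≤ M) (range N) (Subset.refl _), card_range]
  have hodd : Odd M := ⟨N, hM⟩
  have hτ : 0 ≤ δ ^ 2 * N / 90 := by positivity
  have key := T_diff hodd (bal A N δ) w hτ hU hV
  rw [hsum, parseval, parseval, sum_bal_sq (by omega) hA hcard] at key
  have hw2 : ∑ x, w x ^ 2 = δ ^ 2 * N := by
    have : ∀ x, w x ^ 2 = δ ^ 2 * ind (range N) x := by
      intro x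
      simp only [hw, ind]
      split_ifs <;> ring
    simp only [this]
    rw [← mul_sum, sum_ind (by omega : N ≤ M) (range N) (Subset.refl _), card_range]
  rw [hw2, hw, T_smul] at key
  have hT1 := T_free hM A hA hf
  have hT2 := T_range hM
  rw [hcard] at hT1
  have hlow : δ ^ 3 * N ^ 2 / 4 ≤ abs (T (ind (M := M) A) (ind A) (ind A)
      - δ ^ 3 * T (ind (M := M) (range N)) (ind (range N)) (ind (range N))) := by
    rw [abs_sub_comm]
    refine le_trans ?_ (le_abs_self _)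
    have h3 : δ ^ 3 * ((N : ℝ) ^ 2 / 2)
        ≤ δ ^ 3 * T (ind (M := M) (range N)) (ind (range N)) (ind (range N)) := by
      gcongr
    have h4 : δ * N ≤ δ ^ 3 * N ^ 2 / 4 := by
      have : δ * N * 4 ≤ δ * N * (δ ^ 2 * N) := by
        apply mul_le_mul_of_nonneg_left hN; positivity
      nlinarith
    linarith
  have h5 : (M : ℝ) * (δ ^ 3 * N ^ 2 / 4) ≤ (2 * δ * N + 48 * (δ * N))
        * ∑ r : ZMod M, big (δ ^ 2 * N / 90) ‖ft (bal A N δ) r‖ ^ 2
      + δ * N / 20 * (M * (δ ^ 2 * N)) + δ ^ 2 * N / 90 * (3.5 * (M * (δ * N - δ ^ 2 * N))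
        + 5.5 * (M * (δ ^ 2 * N))) := by
    refine le_trans ?_ key
    gcongr
  have h6 : (2 * δ * N + 48 * (δ * N)) * ∑ r : ZMod M, big (δ ^ 2 * N / 90) ‖ft (bal A N δ) r‖ ^ 2
      ≤ (2 * δ * N + 48 * (δ * N)) * (M * (δ ^ 2 * N / 1000)) := by
    gcongr
  have h7 : δ ^ 2 * N / 90 * (3.5 * (M * (δ * N - δ ^ 2 * N))
        + 5.5 * (M * (δ ^ 2 * N))) ≤ δ ^ 2 * N / 90 * (9 * (M * (δ * N))) := by
    gcongr
    have : δ ^ 2 * N ≤ δ * N := by
      have : δ ^ 2 ≤ δ := by nlinarith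
      gcongr
    nlinarith
  have h8 : 0 < (M : ℝ) * (δ ^ 3 * N ^ 2) := by positivity
  nlinarith

end Pool.Agent.Helper923.Bound
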