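import Mathlib

set_option autoImplicit false

namespace Pool.Agent.Helper923.Geo

open Finset

/-- distance of `z` to the nearest multiple of `M` -/
def nd (M z : ℕ) : ℕ := min (z % M) (M - z % M)

/-- the statistic -/
noncomputable def F (m n : ℕ) (R : Fin n → ℕ) (s : ℕ) : ℝ :=
  ∑ j : Fin n, ((((s + R j) % m ^ (j.val + 1) : ℕ) : ℝ) / (m : ℝ) ^ (j.val + 1)) ^ 2

/-- the pattern -/
def pat (m n : ℕ) (R : Fin n → ℕ) (x : ℕ) (j : Fin n) : Bool :=
  ((2 * x + R j) / m ^ (j.val + 1)) % 2 == 1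

/-- squared distance between classes, depends only on the difference -/
noncomputable def Q (m n : ℕ) (z : ℕ) : ℝ :=
  ∑ j : Fin n, ((nd (m ^ (j.val + 1)) z : ℝ) / (m : ℝ) ^ (j.val + 1)) ^ 2

lemma nd_le_of_eq {M : ℕ} (z : ℕ) (t w : ℤ) (h : (z : ℤ) - t * M = w) : (nd M z : ℤ) ≤ |w| := by
  unfold nd
  rcases Nat.eq_zero_or_pos M with hM | hM
  · subst hM
    simp at h ⊢
  · have h1 := Nat.div_add_mod z M
    have h2 := Nat.mod_lt z hM
    set r := z % M
    set q := z / M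
    have hz : (z : ℤ) = M * q + r := by exact_mod_cast h1.symm
    have hw : w = (q - t) * M + r := by rw [← h, hz]; ring
    have hle : (min r (M - r) : ℕ) ≤ r := min_le_left _ _
    have hle2 : (min r (M - r) : ℕ) ≤ M - r := min_le_right _ _
    rcases lt_or_ge (q - t) 0 with hneg | hpos
    · have : w ≤ -(M : ℤ) + r := by
        rw [hw]; nlinarith
      have h3 : ((min r (M - r) : ℕ) : ℤ) ≤ M - r := by omega
      have := neg_le_abs w
      linarith
    · have : (r : ℤ) ≤ w := by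
        rw [hw]; nlinarith
      have h3 : ((min r (M - r) : ℕ) : ℤ) ≤ r := by omega
      have := le_abs_self w
      linarith

/-- midpoint identity for one modulus -/
lemma midpoint {M : ℕ} (hM : 0 < M) (x y R : ℕ) (hxy : y ≤ x)
    (h : ((2 * x + R) / M) % 2 = ((2 * y + R) / M) % 2) :
    2 * ((x + y + R) % M) = (2 * x + R) % M + (2 * y + R) % M ∧
    (2 * nd M (x - y) : ℤ) ≤ |(((2 * x + R) % M : ℕ) : ℤ) - (((2 * y + R) % M : ℕ) : ℤ)| := by
  have ha := Nat.div_add_mod (2 * x + R) M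
  have hb := Nat.div_add_mod (2 * y + R) M
  have ha' := Nat.mod_lt (2 * x + R) hM
  have hb' := Nat.mod_lt (2 * y + R) hM
  set a := (2 * x + R) % M
  set b := (2 * y + R) % M
  set q := (2 * x + R) / M
  set q' := (2 * y + R) / M
  constructor
  · obtain ⟨t, ht⟩ : ∃ t, q + q' = 2 * t := ⟨(q + q') / 2, by omega⟩
    have h1 : 2 * (x + y + R) = 2 * (M * t) + (a + b) := by
      have : M * q + M * q' = 2 * (M * t) := by rw [← mul_add, ht]; ring
      omega
    have h2 : x + y + R = M * t + (a + b) / 2 := by omega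
    have h3 : (a + b) / 2 < M := by omega
    have h4 : (x + y + R) % M = (a + b) / 2 := by
      rw [h2, Nat.mul_add_mod, Nat.mod_eq_of_lt h3]
    rw [h4]; omega
  · have hge : q' ≤ q := Nat.div_le_div_right (by omega)
    obtain ⟨t, ht⟩ : ∃ t, q = q' + 2 * t := ⟨(q - q') / 2, by omega⟩
    have h1 : (x : ℤ) - y = M * t + ((a : ℤ) - b) / 2 ∧ (2 : ℤ) ∣ (a : ℤ) - b := by
      have e : 2 * ((x : ℤ) - y) = 2 * (M * t) + (a - b) := by
        have e1 : (2 * (x : ℤ) + R) = M * q + a := by exact_mod_cast ha.symm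
        have e2 : (2 * (y : ℤ) + R) = M * q' + b := by exact_mod_cast hb.symm
        have e3 : (q : ℤ) = q' + 2 * t := by exact_mod_cast ht
        rw [e3] at e1
        linear_combination e1 - e2
      constructor <;> omega
    obtain ⟨h1, w, hw⟩ := h1
    have h2 : ((x - y : ℕ) : ℤ) - (t : ℤ) * M = w := by
      rw [Nat.cast_sub hxy, h1, hw]
      have : (2 * w) / 2 = w := by omega
      rw [this]; ring
    have h3 := nd_le_of_eq (x - y) t w h2
    rw [hw, abs_mul]
    simpa using h3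

lemma F_mid {m n : ℕ} (hm : 0 < m) (R : Fin n → ℕ) {x y : ℕ} (hxy : y ≤ x)
    (hp : pat m n R x = pat m n R y) :
    F m n R (x + y) ≤ (F m n R (2 * x) + F m n R (2 * y)) / 2 - Q m n (x - y) := by
  unfold F Q
  rw [← sum_add_distrib, sum_div, ← sum_sub_distrib]
  apply sum_le_sum
  intro j _
  have hM : 0 < m ^ (j.val + 1) := by positivity
  have hpj : ((2 * x + R j) / m ^ (j.val + 1)) % 2 = ((2 * y + R j) / m ^ (j.val + 1)) % 2 := by
    have := congrFun hp j
    unfold pat at this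
    have h1 := Nat.mod_two_eq_zero_or_one ((2 * x + R j) / m ^ (j.val + 1))
    have h2 := Nat.mod_two_eq_zero_or_one ((2 * y + R j) / m ^ (j.val + 1))
    rcases h1 with h1 | h1 <;> rcases h2 with h2 | h2 <;> simp_all
  obtain ⟨h1, h2⟩ := midpoint hM x y (R j) hxy hpj
  set a := (2 * x + R j) % m ^ (j.val + 1)
  set b := (2 * y + R j) % m ^ (j.val + 1)
  set c := (x + y + R j) % m ^ (j.val + 1)
  set e := nd (m ^ (j.val + 1)) (x - y)
  have hMr : (0 : ℝ) < (m : ℝ) ^ (j.val + 1) := by positivity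
  have h1' : (c : ℝ) = (a + b) / 2 := by
    have : (2 * c : ℝ) = a + b := by exact_mod_cast h1
    linarith
  have h2' : (e : ℝ) ^ 2 ≤ ((a : ℝ) - b) ^ 2 / 4 := by
    have h3 : ((2 * e : ℤ) : ℝ) ≤ ((|(a : ℤ) - b| : ℤ) : ℝ) := by exact_mod_cast h2
    push_cast at h3
    have h4 : (2 * (e : ℝ)) ^ 2 ≤ |(a : ℝ) - b| ^ 2 := by gcongr
    rw [sq_abs] at h4
    nlinarith
  rw [div_pow, div_pow, div_pow, div_pow, h1', ← add_div, div_div, ← sub_nonneg]
  have : ((a : ℝ) ^ 2 + b ^ 2) / ((m ^ (j.val + 1)) ^ 2 * 2) - (e : ℝ) ^ 2 / (m ^ (j.val + 1)) ^ 2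
      - ((a + b) / 2) ^ 2 / (m ^ (j.val + 1)) ^ 2
      = (((a : ℝ) - b) ^ 2 / 4 - e ^ 2) / (m ^ (j.val + 1)) ^ 2 := by
    field_simp
    ring
  rw [this]
  apply div_nonneg _ (by positivity)
  linarith

end Pool.Agent.Helper923.Geo
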