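import Mathlib
import Pool.Agent.Helper923.Geo

set_option autoImplicit false

namespace Pool.Agent.Helper923.Digits

open Finset Pool.Agent.Helper923.Geo

/-- balanced residue of `z` modulo `m ^ j` -/
def c (m z j : ℕ) : ℤ := Int.bmod z (m ^ j)

/-- balanced digit -/
def t (m z j : ℕ) : ℤ := (c m z (j + 1) - c m z j) / (m : ℤ) ^ j

lemma c_dvd (m z j : ℕ) : (m : ℤ) ^ j ∣ c m z (j + 1) - c m z j := by
  unfold c
  have h1 : ((m ^ (j + 1) : ℕ) : ℤ) ∣ Int.bmod z (m ^ (j + 1)) - z := Int.dvd_bmod_sub_self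
  have h2 : ((m ^ j : ℕ) : ℤ) ∣ Int.bmod z (m ^ j) - z := Int.dvd_bmod_sub_self
  push_cast at h1 h2
  have h3 : (m : ℤ) ^ j ∣ Int.bmod z (m ^ (j + 1)) - z := (pow_dvd_pow _ (Nat.le_succ j)).trans h1
  have := dvd_sub h3 h2
  simpa using this

lemma t_mul (m z j : ℕ) : t m z j * (m : ℤ) ^ j = c m z (j + 1) - c m z j :=
  Int.ediv_mul_cancel (c_dvd m z j)

lemma sum_t (m z n : ℕ) : ∑ j ∈ range n, t m z j * (m : ℤ) ^ j = c m z n - c m z 0 := by
  simp only [t_mul]
  exact Finset.sum_range_sub (fun j => c m z j) n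

lemma c_zero (m z : ℕ) : c m z 0 = 0 := by
  unfold c
  simp

lemma c_top {m z n N : ℕ} (hz : z < N) (hN : 2 * N ≤ m ^ n) : c m z n = z := by
  unfold c
  apply Int.bmod_eq_of_le_mul_two
  · have : (0 : ℤ) ≤ ((m ^ n : ℕ) : ℤ) := by positivity
    have : (0 : ℤ) ≤ (z : ℤ) := by positivity
    linarith
  · have : ((2 * z : ℕ) : ℤ) < ((m ^ n : ℕ) : ℤ) := by
      exact_mod_cast (by omega : 2 * z < m ^ n)
    push_cast at this ⊢
    linarith

lemma nd_eq {M : ℕ} (hM : 0 < M) (z : ℕ) : (nd M z : ℤ) = |Int.bmod z M| := by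
  have hr := Nat.mod_lt z hM
  have h1 : ((z : ℤ) % (M : ℤ)) = ((z % M : ℕ) : ℤ) := by push_cast; rfl
  unfold nd
  rw [Int.bmod_def, h1]
  set r := z % M
  split_ifs with h
  · rw [abs_of_nonneg (by positivity)]
    have : min r (M - r) = r := min_eq_left (by omega)
    rw [this]
  · rw [abs_of_nonpos (by omega)]
    have : min r (M - r) = M - r := min_eq_right (by omega)
    rw [this]
    omega

lemma t_zero {m z j : ℕ} (hm : 0 < m) (h : 2 * nd (m ^ (j + 1)) z < m ^ j) : t m z j = 0 := by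
  have hM : 0 < m ^ (j + 1) := by positivity
  have h1 := nd_eq hM z
  have h2 : 2 * |c m z (j + 1)| < ((m ^ j : ℕ) : ℤ) := by
    unfold c
    rw [← h1]
    exact_mod_cast h
  have h3 : c m z j = c m z (j + 1) := by
    unfold c
    rw [← Int.bmod_bmod_of_dvd (a := (z : ℤ)) (n := m ^ j) (m := m ^ (j + 1))
      (pow_dvd_pow m (Nat.le_succ j))]
    have h4 := abs_lt.mp (show |c m z (j + 1) * 2| < ((m ^ j : ℕ) : ℤ) by
      rw [abs_mul]; simpa [mul_comm] using h2)
    exact Int.bmod_eq_of_le_mul_two h4.1.le h4.2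
  unfold t
  rw [h3]
  simp

lemma abs_bmod_le {M : ℕ} (hM : 0 < M) (z : ℤ) : 2 * |Int.bmod z M| ≤ M := by
  have h1 := Int.le_bmod (x := z) hM
  have h2 := Int.bmod_le (x := z) hM
  rcases abs_cases (Int.bmod z M) with ⟨h, _⟩ | ⟨h, _⟩ <;> rw [h] <;> omega

lemma t_bound {m : ℕ} (hm : 1 ≤ m) (z j : ℕ) : t m z j ∈ Icc (-(m : ℤ)) m := by
  have h1 := abs_bmod_le (M := m ^ (j + 1)) (by positivity) z
  have h2 := abs_bmod_le (M := m ^ j) (by positivity) z
  have h3 := t_mul m z j
  have hp : (0 : ℤ) < (m : ℤ) ^ j := by positivity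
  have h4 : 2 * (|t m z j| * (m : ℤ) ^ j) ≤ (m + 1) * (m : ℤ) ^ j := by
    have : |t m z j| * (m : ℤ) ^ j = |c m z (j + 1) - c m z j| := by
      rw [← h3, abs_mul, abs_of_pos hp]
    rw [this]
    have := abs_sub (c m z (j + 1)) (c m z j)
    unfold c at *
    push_cast at h1 h2
    have e : (m : ℤ) ^ (j + 1) = m * m ^ j := by ring
    rw [e] at h1
    linarith
  have h5 : 2 * |t m z j| ≤ m + 1 := by
    have : (2 * |t m z j|) * (m : ℤ) ^ j ≤ (m + 1) * (m : ℤ) ^ j := by linarith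
    exact le_of_mul_le_mul_right this hp
  rw [mem_Icc, ← abs_le]
  have : (1 : ℤ) ≤ m := by exact_mod_cast hm
  omega

/-- the set of bad differences -/
noncomputable def Z (m n N : ℕ) (D : ℝ) : Finset ℕ := by
  classical
  exact (range N).filter (fun z => z ≠ 0 ∧ Q m n z < D)

lemma support_card {m n z h : ℕ} (hm : 1 ≤ m) {D : ℝ} (hD : 4 * (m : ℝ) ^ 2 * D ≤ h)
    (hz : Q m n z < D) :
    ((univ : Finset (Fin n)).filter (fun j => t m z j.val ≠ 0)).card ≤ h := by
  have h1 : (((univ : Finset (Fin n)).filter (fun j => t m z j.val ≠ 0)).card : ℝ)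
      * (1 / (4 * (m : ℝ) ^ 2)) ≤ Q m n z := by
    unfold Q
    calc (((univ : Finset (Fin n)).filter (fun j => t m z j.val ≠ 0)).card : ℝ)
        * (1 / (4 * (m : ℝ) ^ 2))
        = ∑ j ∈ (univ : Finset (Fin n)).filter (fun j => t m z j.val ≠ 0),
          (1 / (4 * (m : ℝ) ^ 2)) := by simp
      _ ≤ ∑ j ∈ (univ : Finset (Fin n)).filter (fun j => t m z j.val ≠ 0),
          ((nd (m ^ (j.val + 1)) z : ℝ) / (m : ℝ) ^ (j.val + 1)) ^ 2 := by
          apply sum_le_sum
          intro j hj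
          rw [mem_filter] at hj
          have h2 : m ^ j.val ≤ 2 * nd (m ^ (j.val + 1)) z := by
            by_contra hcon
            push Not at hcon
            exact hj.2 (t_zero (by omega) hcon)
          have h3 : (m : ℝ) ^ j.val ≤ 2 * nd (m ^ (j.val + 1)) z := by exact_mod_cast h2
          have hmr : (0 : ℝ) < m := by exact_mod_cast hm
          have h4 : 1 / (2 * (m : ℝ)) ≤ (nd (m ^ (j.val + 1)) z : ℝ) / (m : ℝ) ^ (j.val + 1) := by
            rw [div_le_div_iff₀ (by positivity) (by positivity)]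
            have : (m : ℝ) ^ (j.val + 1) = m ^ j.val * m := by ring
            rw [this]
            nlinarith
          calc (1 / (4 * (m : ℝ) ^ 2)) = (1 / (2 * (m : ℝ))) ^ 2 := by
                rw [div_pow, mul_pow]; norm_num
            _ ≤ _ := by gcongr
      _ ≤ _ := by
          apply sum_le_sum_of_subset_of_nonneg (filter_subset _ _)
          intro j _ _
          positivity
  have hmr : (0 : ℝ) < m := by exact_mod_cast hm
  have h5 : (((univ : Finset (Fin n)).filter (fun j => t m z j.val ≠ 0)).card : ℝ) ≤ h := by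
    have h6 := h1.trans hz.le
    rw [mul_one_div, div_le_iff₀ (by positivity)] at h6
    linarith
  exact_mod_cast h5

theorem Z_card {m n N h : ℕ} (hm : 1 ≤ m) (hN : 2 * N ≤ m ^ n) {D : ℝ}
    (hD : 4 * (m : ℝ) ^ 2 * D ≤ h) {X : ℝ} (hX : 1 ≤ X) :
    ((Z m n N D).card : ℝ) ≤ X ^ h * (1 + 2 * m / X) ^ n := by
  classical
  have hX0 : 0 < X := by linarith
  set ψ : ℤ → ℝ := fun v => if v = 0 then 1 else X⁻¹ with hψ
  have hψpos : ∀ v, 0 < ψ v := by
    intro v; simp only [hψ]; split_ifs <;> positivity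
  set φ : ℕ → (Fin n → ℤ) := fun z j => t m z j.val with hφ
  have hinj : Set.InjOn φ (Z m n N D : Set ℕ) := by
    intro z hz w hw hzw
    rw [mem_coe, Z, mem_filter, mem_range] at hz hw
    have e1 := sum_t m z n
    have e2 := sum_t m w n
    rw [c_zero, c_top hz.1 hN] at e1
    rw [c_zero, c_top hw.1 hN] at e2
    have e3 : ∑ j ∈ range n, t m z j * (m : ℤ) ^ j = ∑ j ∈ range n, t m w j * (m : ℤ) ^ j := by
      apply sum_congr rfl
      intro j hj
      rw [mem_range] at hj
      have := congrFun hzw ⟨j, hj⟩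
      simp only [hφ] at this
      rw [this]
    have : (z : ℤ) = w := by linarith
    exact_mod_cast this
  have hmaps : ∀ z ∈ Z m n N D, φ z ∈ Fintype.piFinset (fun _ : Fin n => Icc (-(m : ℤ)) m) := by
    intro z _
    rw [Fintype.mem_piFinset]
    intro j
    exact t_bound hm z j.val
  have hone : ∀ z ∈ Z m n N D, (1 : ℝ) ≤ X ^ h * ∏ j, ψ (φ z j) := by
    intro z hz
    rw [Z, mem_filter] at hz
    have hs := support_card hm hD hz.2.2
    have e : ∏ j, ψ (φ z j) = (X⁻¹) ^ ((univ : Finset (Fin n)).filter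
        (fun j => t m z j.val ≠ 0)).card := by
      rw [← prod_const, prod_filter]
      apply prod_congr rfl
      intro j _
      simp only [hψ, hφ]
      by_cases hj : t m z j.val = 0 <;> simp [hj]
    rw [e]
    calc (1 : ℝ) = X ^ h * (X⁻¹) ^ h := by
          rw [← mul_pow, mul_inv_cancel₀ hX0.ne', one_pow]
      _ ≤ _ := by
          apply mul_le_mul_of_nonneg_left _ (by positivity)
          apply pow_le_pow_of_le_one (by positivity) _ hs
          exact inv_le_one_of_one_le₀ hX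
  calc ((Z m n N D).card : ℝ) = ∑ z ∈ Z m n N D, (1 : ℝ) := by simp
    _ ≤ ∑ z ∈ Z m n N D, X ^ h * ∏ j, ψ (φ z j) := sum_le_sum hone
    _ = ∑ τ ∈ (Z m n N D).image φ, X ^ h * ∏ j, ψ (τ j) := by
        rw [sum_image hinj]
    _ ≤ ∑ τ ∈ Fintype.piFinset (fun _ : Fin n => Icc (-(m : ℤ)) m), X ^ h * ∏ j, ψ (τ j) := by
        apply sum_le_sum_of_subset_of_nonneg
        · intro τ hτ
          rw [mem_image] at hτ
          obtain ⟨z, hz, rfl⟩ := hτ
          exact hmaps z hz
        · intro τ _ _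
          have : 0 < ∏ j, ψ (τ j) := prod_pos (fun j _ => hψpos _)
          positivity
    _ = X ^ h * ∏ _j : Fin n, ∑ v ∈ Icc (-(m : ℤ)) m, ψ v := by
        rw [← mul_sum, Finset.prod_univ_sum]
    _ = X ^ h * (1 + 2 * m / X) ^ n := by
        have e : ∑ v ∈ Icc (-(m : ℤ)) m, ψ v = 1 + 2 * m / X := by
          have h0 : (0 : ℤ) ∈ Icc (-(m : ℤ)) m := by
            rw [mem_Icc]; constructor <;> omega
          rw [← add_sum_erase _ _ h0]
          have h1 : ∀ v ∈ (Icc (-(m : ℤ)) m).erase 0, ψ v = X⁻¹ := by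
            intro v hv
            rw [mem_erase] at hv
            simp only [hψ, if_neg hv.1]
          rw [sum_congr rfl h1]
          simp only [hψ, sum_const, nsmul_eq_mul, card_erase_of_mem h0, Int.card_Icc]
          have h2 : ((m : ℤ) + 1 - -(m : ℤ)).toNat - 1 = 2 * m := by omega
          rw [h2]
          push_cast
          rw [div_eq_mul_inv]
        rw [e, prod_const, card_univ, Fintype.card_fin]

end Pool.Agent.Helper923.Digits
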