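import Mathlib
import Pool.Agent.Helper923.Digits

set_option autoImplicit false

namespace Pool.Agent.Helper923.Tails

open Finset Pool.Agent.Helper923.Geo Pool.Agent.Helper923.Digits

/-- greedy colouring avoiding a finite set of differences -/
theorem greedy (Z : Finset ℕ) (N : ℕ) : ∃ col : ℕ → ℕ, (∀ x, col x ≤ Z.card) ∧
    ∀ x < N, ∀ y < x, x - y ∈ Z → col x ≠ col y := by
  induction N with
  | zero => exact ⟨fun _ => 0, fun _ => Nat.zero_le _, fun x hx => absurd hx (Nat.not_lt_zero x)⟩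
  | succ N ih =>
    obtain ⟨col, h1, h2⟩ := ih
    -- a free colour for N
    obtain ⟨k, hk, hk2⟩ : ∃ k ∈ range (Z.card + 1),
        k ∉ Z.image (fun z => col (N - z)) := by
      apply exists_mem_notMem_of_card_lt_card
      rw [card_range]
      exact Nat.lt_succ_of_le card_image_le
    refine ⟨Function.update col N k, ?_, ?_⟩
    · intro x
      by_cases hx : x = N
      · subst hx
        rw [Function.update_self]
        rw [mem_range] at hk; omega
      · rw [Function.update_of_ne hx]; exact h1 x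
    · intro x hx y hy hxy
      by_cases hxN : x = N
      · subst hxN
        rw [Function.update_self, Function.update_of_ne (by omega)]
        intro he
        apply hk2
        rw [mem_image]
        exact ⟨x - y, hxy, by rw [he]; congr 1; omega⟩
      · rw [Function.update_of_ne hxN, Function.update_of_ne (by omega)]
        exact h2 x (by omega) y hy hxy

/-- the sample space -/
def Om (m n : ℕ) : Finset (Fin n → ℕ) := Fintype.piFinset (fun j => range (m ^ (j.val + 1)))

lemma sum_shift (M s : ℕ) (hM : 0 < M) (φ : ℕ → ℝ) :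
    ∑ r ∈ range M, φ ((s + r) % M) = ∑ u ∈ range M, φ u := by
  have hinj : Set.InjOn (fun r => (s + r) % M) (range M : Set ℕ) := by
    intro a ha b hb hab
    rw [mem_coe, mem_range] at ha hb
    simp only at hab
    have h : a ≡ b [MOD M] := Nat.ModEq.add_left_cancel' s hab
    have := Nat.ModEq.eq_of_lt_of_lt h ha hb
    exact this
  have himg : (range M).image (fun r => (s + r) % M) = range M := by
    apply eq_of_subset_of_card_le
    · intro u hu
      rw [mem_image] at hu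
      obtain ⟨r, _, rfl⟩ := hu
      rw [mem_range]
      exact Nat.mod_lt _ hM
    · rw [card_image_of_injOn hinj]
  rw [← sum_image hinj, himg]

lemma sum_sq_bounds {M : ℕ} (hM : 0 < M) :
    (M : ℝ) * (1 / 3 - 1 / (2 * M)) ≤ ∑ u ∈ range M, ((u : ℝ) / M) ^ 2 ∧
    ∑ u ∈ range M, ((u : ℝ) / M) ^ 2 ≤ (M : ℝ) / 3 := by
  have hMr : (0 : ℝ) < M := by exact_mod_cast hM
  have h : ∀ k : ℕ, ∑ u ∈ range k, (u : ℝ) ^ 2 = (k : ℝ) * (k - 1) * (2 * k - 1) / 6 := by
    intro k
    induction k with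
    | zero => simp
    | succ k ih => rw [sum_range_succ, ih]; push_cast; ring
  have e : ∑ u ∈ range M, ((u : ℝ) / M) ^ 2 = (M : ℝ) * (M - 1) * (2 * M - 1) / 6 / M ^ 2 := by
    rw [← h, sum_div]
    apply sum_congr rfl
    intro u _
    rw [div_pow]
  rw [e]
  have hM1 : (1 : ℝ) ≤ M := by exact_mod_cast hM
  constructor
  · rw [le_div_iff₀ (by positivity)]
    have : (M : ℝ) * (1 / 3 - 1 / (2 * M)) * M ^ 2 = M ^ 2 * (M / 3 - 1 / 2) := by
      field_simp
    rw [this]
    nlinarith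
  · rw [div_le_iff₀ (by positivity)]
    nlinarith

lemma exp_neg_le (v : ℝ) (hv : 0 ≤ v) : Real.exp (-v) ≤ 1 - v + v ^ 2 / 2 := by
  -- multiply with exp v
  have h1 := Real.quadratic_le_exp_of_nonneg hv
  have h2 : 0 < Real.exp v := Real.exp_pos v
  rw [Real.exp_neg, inv_le_iff_one_le_mul₀ h2]
  have h3 : 0 ≤ 1 - v + v ^ 2 / 2 := by nlinarith [sq_nonneg (v - 1)]
  calc (1 : ℝ) ≤ (1 - v + v ^ 2 / 2) * (1 + v + v ^ 2 / 2) := by nlinarith [sq_nonneg (v ^ 2)]
    _ ≤ _ := by gcongr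

lemma exp_le_quad (v : ℝ) (hv : 0 ≤ v) (hv1 : v ≤ 1) : Real.exp v ≤ 1 + v + v ^ 2 := by
  have := Real.abs_exp_sub_one_sub_id_le (x := v) (by rw [abs_of_nonneg hv]; exact hv1)
  have h2 := (abs_le.mp this).2
  linarith

lemma mgf_lower {M : ℕ} (hM : 0 < M) {t : ℝ} (ht : 0 ≤ t) :
    ∑ u ∈ range M, Real.exp (-(t * ((u : ℝ) / M) ^ 2))
      ≤ (M : ℝ) * Real.exp (-(t / 3) + t / (2 * M) + t ^ 2 / 2) := by
  have hMr : (0 : ℝ) < M := by exact_mod_cast hM
  have h1 : ∀ u ∈ range M, Real.exp (-(t * ((u : ℝ) / M) ^ 2))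
      ≤ 1 - t * ((u : ℝ) / M) ^ 2 + t ^ 2 / 2 := by
    intro u hu
    rw [mem_range] at hu
    have hu' : (u : ℝ) / M ≤ 1 := by
      rw [div_le_one hMr]; exact_mod_cast hu.le
    have hu0 : 0 ≤ (u : ℝ) / M := by positivity
    have h0 : 0 ≤ ((u : ℝ) / M) ^ 2 := by positivity
    have h3 : ((u : ℝ) / M) ^ 2 ≤ 1 := pow_le_one₀ hu0 hu'
    refine (exp_neg_le _ (by positivity)).trans ?_
    have h4 : (t * ((u : ℝ) / M) ^ 2) ^ 2 ≤ t ^ 2 := by
      rw [mul_pow]
      have : (((u : ℝ) / M) ^ 2) ^ 2 ≤ 1 := pow_le_one₀ h0 h3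
      nlinarith [sq_nonneg t]
    linarith
  refine (sum_le_sum h1).trans ?_
  rw [sum_add_distrib, sum_sub_distrib, ← mul_sum]
  simp only [sum_const, card_range, nsmul_eq_mul]
  have h2 := (sum_sq_bounds hM).1
  have h3 := mul_le_mul_of_nonneg_left h2 ht
  have h4 : (M : ℝ) * (1 + (-(t / 3) + t / (2 * M) + t ^ 2 / 2))
      ≤ (M : ℝ) * Real.exp (-(t / 3) + t / (2 * M) + t ^ 2 / 2) := by
    have := Real.add_one_le_exp (-(t / 3) + t / (2 * M) + t ^ 2 / 2)
    gcongr
    linarith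
  refine le_trans ?_ h4
  have e : (M : ℝ) * (1 + (-(t / 3) + t / (2 * M) + t ^ 2 / 2))
      = M - t * (M * (1 / 3 - 1 / (2 * M))) + M * (t ^ 2 / 2) := by ring
  rw [e]
  linarith

lemma mgf_upper {M : ℕ} (hM : 0 < M) {t : ℝ} (ht : 0 ≤ t) (ht1 : t ≤ 1) :
    ∑ u ∈ range M, Real.exp (t * ((u : ℝ) / M) ^ 2)
      ≤ (M : ℝ) * Real.exp (t / 3 + t ^ 2) := by
  have hMr : (0 : ℝ) < M := by exact_mod_cast hM
  have h1 : ∀ u ∈ range M, Real.exp (t * ((u : ℝ) / M) ^ 2)
      ≤ 1 + t * ((u : ℝ) / M) ^ 2 + t ^ 2 := by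
    intro u hu
    rw [mem_range] at hu
    have hu' : (u : ℝ) / M ≤ 1 := by
      rw [div_le_one hMr]; exact_mod_cast hu.le
    have hu0 : 0 ≤ (u : ℝ) / M := by positivity
    have h0 : 0 ≤ ((u : ℝ) / M) ^ 2 := by positivity
    have h3 : ((u : ℝ) / M) ^ 2 ≤ 1 := pow_le_one₀ hu0 hu'
    have h5 : t * ((u : ℝ) / M) ^ 2 ≤ 1 := by nlinarith
    refine (exp_le_quad _ (by positivity) h5).trans ?_
    have h4 : (t * ((u : ℝ) / M) ^ 2) ^ 2 ≤ t ^ 2 := by
      rw [mul_pow]
      have : (((u : ℝ) / M) ^ 2) ^ 2 ≤ 1 := pow_le_one₀ h0 h3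
      nlinarith [sq_nonneg t]
    linarith
  refine (sum_le_sum h1).trans ?_
  rw [sum_add_distrib, sum_add_distrib, ← mul_sum]
  simp only [sum_const, card_range, nsmul_eq_mul]
  have h2 := (sum_sq_bounds hM).2
  have h3 := mul_le_mul_of_nonneg_left h2 ht
  have h4 : (M : ℝ) * (1 + (t / 3 + t ^ 2)) ≤ (M : ℝ) * Real.exp (t / 3 + t ^ 2) := by
    have := Real.add_one_le_exp (t / 3 + t ^ 2)
    gcongr
    linarith
  refine le_trans ?_ h4
  linarith

/-- exponential moment of the statistic: product formula -/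
lemma sum_exp {m n : ℕ} (hm : 0 < m) (s : ℕ) (κ : ℝ) :
    ∑ R ∈ Om m n, Real.exp (κ * F m n R s)
      = ∏ j : Fin n, ∑ u ∈ range (m ^ (j.val + 1)),
        Real.exp (κ * ((u : ℝ) / (m : ℝ) ^ (j.val + 1)) ^ 2) := by
  have h1 : ∀ R ∈ Om m n, Real.exp (κ * F m n R s)
      = ∏ j : Fin n, Real.exp (κ * ((((s + R j) % m ^ (j.val + 1) : ℕ) : ℝ)
        / (m : ℝ) ^ (j.val + 1)) ^ 2) := by
    intro R _
    rw [← Real.exp_sum]
    congr 1
    unfold F
    rw [mul_sum]
  rw [sum_congr rfl h1]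
  unfold Om
  rw [← Finset.prod_univ_sum (t := fun j : Fin n => range (m ^ (j.val + 1)))
    (f := fun j r => Real.exp (κ * ((((s + r) % m ^ (j.val + 1) : ℕ) : ℝ)
        / (m : ℝ) ^ (j.val + 1)) ^ 2))]
  apply prod_congr rfl
  intro j _
  exact sum_shift (m ^ (j.val + 1)) s (by positivity)
    (fun u => Real.exp (κ * ((u : ℝ) / (m : ℝ) ^ (j.val + 1)) ^ 2))

lemma card_Om (m n : ℕ) : ((Om m n).card : ℝ) = ∏ j : Fin n, ((m ^ (j.val + 1) : ℕ) : ℝ) := by
  unfold Om
  rw [Fintype.card_piFinset]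
  simp

lemma sum_geom {m n : ℕ} (hm : 2 ≤ m) :
    ∑ j : Fin n, 1 / (2 * (m : ℝ) ^ (j.val + 1)) ≤ 1 / 2 := by
  rw [Fin.sum_univ_eq_sum_range (fun j => 1 / (2 * (m : ℝ) ^ (j + 1))) n]
  have hmr : (2 : ℝ) ≤ m := by exact_mod_cast hm
  have h : ∀ k : ℕ, ∑ j ∈ range k, 1 / (2 * (m : ℝ) ^ (j + 1)) ≤ 1 / 2 - 1 / (2 * (m : ℝ) ^ k) := by
    intro k
    induction k with
    | zero => simp
    | succ k ih =>
      rw [sum_range_succ]
      have h1 : 1 / (2 * (m : ℝ) ^ (k + 1)) + 1 / (2 * (m : ℝ) ^ (k + 1))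
          ≤ 1 / (2 * (m : ℝ) ^ k) := by
        rw [← add_div, div_le_div_iff₀ (by positivity) (by positivity)]
        have : (m : ℝ) ^ (k + 1) = m ^ k * m := by ring
        rw [this]
        have h0 : 0 < (m : ℝ) ^ k := by positivity
        nlinarith
      linarith
  refine (h n).trans ?_
  have : 0 ≤ 1 / (2 * (m : ℝ) ^ n) := by positivity
  linarith

/-- lower tail -/
lemma tail_lower {m n : ℕ} (hm : 2 ≤ m) (s : ℕ) {t lam : ℝ} (ht : 0 ≤ t) :
    (((Om m n).filter (fun R => F m n R s ≤ n / 3 - lam)).card : ℝ)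
      ≤ (Om m n).card * Real.exp (-(t * lam) + t / 2 + n * t ^ 2 / 2) := by
  have hm0 : 0 < m := by omega
  have h1 : (((Om m n).filter (fun R => F m n R s ≤ n / 3 - lam)).card : ℝ)
      * Real.exp (-(t * (n / 3 - lam))) ≤ ∑ R ∈ Om m n, Real.exp ((-t) * F m n R s) := by
    calc (((Om m n).filter (fun R => F m n R s ≤ n / 3 - lam)).card : ℝ)
        * Real.exp (-(t * (n / 3 - lam)))
        = ∑ R ∈ (Om m n).filter (fun R => F m n R s ≤ n / 3 - lam),
          Real.exp (-(t * (n / 3 - lam))) := by simp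
      _ ≤ ∑ R ∈ (Om m n).filter (fun R => F m n R s ≤ n / 3 - lam),
          Real.exp ((-t) * F m n R s) := by
          apply sum_le_sum
          intro R hR
          rw [mem_filter] at hR
          rw [Real.exp_le_exp]
          have := mul_le_mul_of_nonneg_left hR.2 ht
          linarith
      _ ≤ _ := sum_le_sum_of_subset_of_nonneg (filter_subset _ _)
          (fun _ _ _ => (Real.exp_pos _).le)
  rw [sum_exp hm0] at h1
  have h2 : ∏ j : Fin n, ∑ u ∈ range (m ^ (j.val + 1)),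
        Real.exp ((-t) * ((u : ℝ) / (m : ℝ) ^ (j.val + 1)) ^ 2)
      ≤ (Om m n).card * Real.exp (-(t * n / 3) + t / 2 + n * t ^ 2 / 2) := by
    calc ∏ j : Fin n, ∑ u ∈ range (m ^ (j.val + 1)),
        Real.exp ((-t) * ((u : ℝ) / (m : ℝ) ^ (j.val + 1)) ^ 2)
        ≤ ∏ j : Fin n, (((m ^ (j.val + 1) : ℕ) : ℝ)
          * Real.exp (-(t / 3) + t / (2 * ((m ^ (j.val + 1) : ℕ) : ℝ)) + t ^ 2 / 2)) := by
          apply prod_le_prod
          · intro j _
            exact sum_nonneg (fun _ _ => (Real.exp_pos _).le)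
          · intro j _
            have := mgf_lower (M := m ^ (j.val + 1)) (by positivity) ht
            refine le_trans (le_of_eq ?_) this
            apply sum_congr rfl
            intro u _
            push_cast
            ring_nf
      _ = (Om m n).card * Real.exp (∑ j : Fin n,
          (-(t / 3) + t / (2 * ((m ^ (j.val + 1) : ℕ) : ℝ)) + t ^ 2 / 2)) := by
          rw [prod_mul_distrib, card_Om, Real.exp_sum]
      _ ≤ _ := by
          apply mul_le_mul_of_nonneg_left _ (by positivity)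
          rw [Real.exp_le_exp, sum_add_distrib, sum_add_distrib]
          simp only [sum_const, card_univ, Fintype.card_fin, nsmul_eq_mul]
          have h3 := sum_geom (n := n) hm
          have h4 : ∑ j : Fin n, t / (2 * ((m ^ (j.val + 1) : ℕ) : ℝ))
              = t * ∑ j : Fin n, 1 / (2 * (m : ℝ) ^ (j.val + 1)) := by
            rw [mul_sum]
            apply sum_congr rfl
            intro j _
            push_cast
            ring
          rw [h4]
          have h5 := mul_le_mul_of_nonneg_left h3 ht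
          linarith
  have h3 := h1.trans h2
  have h4 : 0 < Real.exp (-(t * (n / 3 - lam))) := Real.exp_pos _
  rw [← le_div_iff₀ h4] at h3
  refine h3.trans (le_of_eq ?_)
  rw [mul_div_assoc, ← Real.exp_sub]
  congr 2
  ring

/-- upper tail -/
lemma tail_upper {m n : ℕ} (hm : 2 ≤ m) (s : ℕ) {t lam : ℝ} (ht : 0 ≤ t) (ht1 : t ≤ 1) :
    (((Om m n).filter (fun R => n / 3 + lam < F m n R s)).card : ℝ)
      ≤ (Om m n).card * Real.exp (-(t * lam) + n * t ^ 2) := by
  have hm0 : 0 < m := by omega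
  have h1 : (((Om m n).filter (fun R => n / 3 + lam < F m n R s)).card : ℝ)
      * Real.exp (t * (n / 3 + lam)) ≤ ∑ R ∈ Om m n, Real.exp (t * F m n R s) := by
    calc (((Om m n).filter (fun R => n / 3 + lam < F m n R s)).card : ℝ)
        * Real.exp (t * (n / 3 + lam))
        = ∑ R ∈ (Om m n).filter (fun R => n / 3 + lam < F m n R s),
          Real.exp (t * (n / 3 + lam)) := by simp
      _ ≤ ∑ R ∈ (Om m n).filter (fun R => n / 3 + lam < F m n R s),
          Real.exp (t * F m n R s) := by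
          apply sum_le_sum
          intro R hR
          rw [mem_filter] at hR
          rw [Real.exp_le_exp]
          exact mul_le_mul_of_nonneg_left hR.2.le ht
      _ ≤ _ := sum_le_sum_of_subset_of_nonneg (filter_subset _ _)
          (fun _ _ _ => (Real.exp_pos _).le)
  rw [sum_exp hm0] at h1
  have h2 : ∏ j : Fin n, ∑ u ∈ range (m ^ (j.val + 1)),
        Real.exp (t * ((u : ℝ) / (m : ℝ) ^ (j.val + 1)) ^ 2)
      ≤ (Om m n).card * Real.exp (t * n / 3 + n * t ^ 2) := by
    calc ∏ j : Fin n, ∑ u ∈ range (m ^ (j.val + 1)),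
        Real.exp (t * ((u : ℝ) / (m : ℝ) ^ (j.val + 1)) ^ 2)
        ≤ ∏ j : Fin n, (((m ^ (j.val + 1) : ℕ) : ℝ) * Real.exp (t / 3 + t ^ 2)) := by
          apply prod_le_prod
          · intro j _
            exact sum_nonneg (fun _ _ => (Real.exp_pos _).le)
          · intro j _
            have := mgf_upper (M := m ^ (j.val + 1)) (by positivity) ht ht1
            refine le_trans (le_of_eq ?_) this
            apply sum_congr rfl
            intro u _
            push_cast
            ring_nf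
      _ = (Om m n).card * Real.exp (∑ j : Fin n, (t / 3 + t ^ 2)) := by
          rw [prod_mul_distrib, card_Om, Real.exp_sum]
      _ = _ := by
          simp only [sum_const, card_univ, Fintype.card_fin, nsmul_eq_mul]
          congr 2
          ring
  have h3 := h1.trans h2
  have h4 : 0 < Real.exp (t * (n / 3 + lam)) := Real.exp_pos _
  rw [← le_div_iff₀ h4] at h3
  refine h3.trans (le_of_eq ?_)
  rw [mul_div_assoc, ← Real.exp_sub]
  congr 2
  ring

end Pool.Agent.Helper923.Tails
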