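import Mathlib
import Pool.Agent.Helper923.Tails

set_option autoImplicit false

namespace Pool.Agent.Helper923.Cover

open Finset Pool.Agent.Helper923.Geo Pool.Agent.Helper923.Digits Pool.Agent.Helper923.Tails

/-- atypical sums for the shift vector `R` -/
noncomputable def S (m n N : ℕ) (lam : ℝ) (R : Fin n → ℕ) : Finset ℕ :=
  (range (2 * N + 1)).filter (fun s => F m n R s ≤ n / 3 - lam)

lemma few_bad {m n N : ℕ} {lam e1 : ℝ} (he1 : 0 < e1)
    (h1 : ∀ s, (((Om m n).filter (fun R => F m n R s ≤ n / 3 - lam)).card : ℝ)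
      ≤ (Om m n).card * e1) :
    (((Om m n).filter (fun R => ¬ (((S m n N lam R).card : ℝ) ≤ 4 * (2 * N + 1) * e1))).card : ℝ)
      ≤ (Om m n).card / 4 := by
  set B : ℝ := 4 * (2 * N + 1) * e1 with hB
  have hBpos : 0 < B := by positivity
  have h2 : B * (((Om m n).filter (fun R => ¬ (((S m n N lam R).card : ℝ) ≤ B))).card : ℝ)
      ≤ ∑ R ∈ Om m n, ((S m n N lam R).card : ℝ) := by
    calc B * (((Om m n).filter (fun R => ¬ (((S m n N lam R).card : ℝ) ≤ B))).card : ℝ)
        = ∑ R ∈ (Om m n).filter (fun R => ¬ (((S m n N lam R).card : ℝ) ≤ B)), B := by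
          simp; ring
      _ ≤ ∑ R ∈ (Om m n).filter (fun R => ¬ (((S m n N lam R).card : ℝ) ≤ B)),
          ((S m n N lam R).card : ℝ) := by
          apply sum_le_sum
          intro R hR
          rw [mem_filter] at hR
          exact (not_le.mp hR.2).le
      _ ≤ _ := sum_le_sum_of_subset_of_nonneg (filter_subset _ _) (fun _ _ _ => by positivity)
  have h3 : ∑ R ∈ Om m n, ((S m n N lam R).card : ℝ) ≤ (2 * N + 1) * ((Om m n).card * e1) := by
    have e : ∀ R ∈ Om m n, ((S m n N lam R).card : ℝ)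
        = ∑ s ∈ range (2 * N + 1), if F m n R s ≤ n / 3 - lam then (1 : ℝ) else 0 := by
      intro R _
      unfold S
      rw [← sum_filter]
      simp
    rw [sum_congr rfl e, sum_comm]
    calc ∑ s ∈ range (2 * N + 1), ∑ R ∈ Om m n, (if F m n R s ≤ n / 3 - lam then (1 : ℝ) else 0)
        ≤ ∑ s ∈ range (2 * N + 1), ((Om m n).card * e1) := by
          apply sum_le_sum
          intro s _
          rw [← sum_filter]
          simpa using h1 s
      _ = _ := by simp
  have h4 := h2.trans h3
  have h5 : B * ((Om m n).card / 4) = (2 * N + 1) * ((Om m n).card * e1) := by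
    rw [hB]; ring
  rw [← h5] at h4
  exact le_of_mul_le_mul_left h4 hBpos

lemma pick {m n N : ℕ} (hm : 0 < m) {lam mu e1 : ℝ} (he1 : 0 < e1)
    (h1 : ∀ s, (((Om m n).filter (fun R => F m n R s ≤ n / 3 - lam)).card : ℝ)
      ≤ (Om m n).card * e1)
    (h2 : ∀ s, (((Om m n).filter (fun R => n / 3 + mu < F m n R s)).card : ℝ)
      ≤ (Om m n).card * 0.4) (X : Finset ℕ) :
    ∃ R ∈ Om m n, ((S m n N lam R).card : ℝ) ≤ 4 * (2 * N + 1) * e1 ∧
      ((X.filter (fun x => n / 3 + mu < F m n R (2 * x))).card : ℝ) ≤ 2 / 3 * X.card := by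
  classical
  by_contra hcon
  push Not at hcon
  set good := (Om m n).filter (fun R => ((S m n N lam R).card : ℝ) ≤ 4 * (2 * N + 1) * e1)
    with hgood
  have hOpos : (0 : ℝ) < (Om m n).card := by
    rw [card_Om]
    apply prod_pos
    intro j _
    positivity
  have h3 : ((Om m n).card : ℝ) * (3 / 4) ≤ good.card := by
    have h4 := few_bad (N := N) he1 h1
    have h5 := Finset.card_filter_add_card_filter_not (s := Om m n)
      (fun R => ((S m n N lam R).card : ℝ) ≤ 4 * (2 * N + 1) * e1)
    have h6 : (good.card : ℝ) + (((Om m n).filter (fun R =>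
      ¬ (((S m n N lam R).card : ℝ) ≤ 4 * (2 * N + 1) * e1))).card : ℝ) = (Om m n).card := by
      rw [hgood]
      exact_mod_cast h5
    linarith
  have h4 : ∑ R ∈ good, ((X.filter (fun x => n / 3 + mu < F m n R (2 * x))).card : ℝ)
      ≤ X.card * ((Om m n).card * 0.4) := by
    calc ∑ R ∈ good, ((X.filter (fun x => n / 3 + mu < F m n R (2 * x))).card : ℝ)
        ≤ ∑ R ∈ Om m n, ((X.filter (fun x => n / 3 + mu < F m n R (2 * x))).card : ℝ) :=
          sum_le_sum_of_subset_of_nonneg (filter_subset _ _) (fun _ _ _ => by positivity)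
      _ = ∑ R ∈ Om m n, ∑ x ∈ X, (if n / 3 + mu < F m n R (2 * x) then (1 : ℝ) else 0) := by
          apply sum_congr rfl
          intro R _
          rw [← sum_filter]
          simp
      _ = ∑ x ∈ X, ∑ R ∈ Om m n, (if n / 3 + mu < F m n R (2 * x) then (1 : ℝ) else 0) :=
          sum_comm
      _ ≤ ∑ x ∈ X, ((Om m n).card * 0.4 : ℝ) := by
          apply sum_le_sum
          intro x _
          rw [← sum_filter]
          simpa using h2 (2 * x)
      _ = _ := by simp
  have h5 : (good.card : ℝ) * (2 / 3 * X.card)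
      ≤ ∑ R ∈ good, ((X.filter (fun x => n / 3 + mu < F m n R (2 * x))).card : ℝ) := by
    calc (good.card : ℝ) * (2 / 3 * X.card) = ∑ R ∈ good, (2 / 3 * X.card : ℝ) := by simp
      _ ≤ _ := by
        apply sum_le_sum
        intro R hR
        rw [hgood, mem_filter] at hR
        exact (hcon R hR.1 hR.2).le
  -- X nonempty since otherwise trivial
  rcases X.eq_empty_or_nonempty with hX | hX
  · subst hX
    have hg : 0 < (good.card : ℝ) := by
      have : (0 : ℝ) < ((Om m n).card : ℝ) * (3 / 4) := by positivity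
      linarith
    have hg2 : 0 < good.card := by exact_mod_cast hg
    obtain ⟨R, hR⟩ := card_pos.mp hg2
    rw [hgood, mem_filter] at hR
    have := hcon R hR.1 hR.2
    simp at this
  · have hXpos : (0 : ℝ) < X.card := by
      have := card_pos.mpr hX
      exact_mod_cast this
    have h6 := h5.trans h4
    have h7 : ((Om m n).card : ℝ) * (3 / 4) * (2 / 3 * X.card) ≤ X.card * ((Om m n).card * 0.4) := by
      refine le_trans ?_ h6
      gcongr
    have h8 : 0 < ((Om m n).card : ℝ) * X.card := by positivity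
    linarith [show ((Om m n).card : ℝ) * (3 / 4) * (2 / 3 * X.card)
      = 0.5 * (((Om m n).card : ℝ) * X.card) by ring,
      show X.card * ((Om m n).card * 0.4) = 0.4 * (((Om m n).card : ℝ) * X.card) by ring]

lemma cover {m n N : ℕ} (hm : 0 < m) {lam mu e1 : ℝ} (he1 : 0 < e1)
    (h1 : ∀ s, (((Om m n).filter (fun R => F m n R s ≤ n / 3 - lam)).card : ℝ)
      ≤ (Om m n).card * e1)
    (h2 : ∀ s, (((Om m n).filter (fun R => n / 3 + mu < F m n R s)).card : ℝ)
      ≤ (Om m n).card * 0.4) (l : ℕ) (X : Finset ℕ) :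
    ∃ R : Fin l → (Fin n → ℕ), (∀ i, ((S m n N lam (R i)).card : ℝ) ≤ 4 * (2 * N + 1) * e1) ∧
      ((X.filter (fun x => ∀ i, n / 3 + mu < F m n (R i) (2 * x))).card : ℝ)
        ≤ (2 / 3) ^ l * X.card := by
  classical
  induction l with
  | zero =>
    refine ⟨fun i => i.elim0, fun i => i.elim0, ?_⟩
    simp
  | succ l ih =>
    obtain ⟨R, hR1, hR2⟩ := ih
    obtain ⟨R', _, hR'1, hR'2⟩ := pick (N := N) hm he1 h1 h2
      (X.filter (fun x => ∀ i, n / 3 + mu < F m n (R i) (2 * x)))
    refine ⟨Fin.cons R' R, ?_, ?_⟩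
    · intro i
      refine Fin.cases ?_ ?_ i
      · simpa using hR'1
      · intro j; simpa using hR1 j
    · have e : X.filter (fun x => ∀ i : Fin (l + 1),
          n / 3 + mu < F m n ((Fin.cons R' R : Fin (l + 1) → (Fin n → ℕ)) i) (2 * x))
          = (X.filter (fun x => ∀ i, n / 3 + mu < F m n (R i) (2 * x))).filter
            (fun x => n / 3 + mu < F m n R' (2 * x)) := by
        ext x
        simp only [mem_filter, Fin.forall_fin_succ, Fin.cons_zero, Fin.cons_succ]
        tauto
      rw [e]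
      refine hR'2.trans ?_
      calc 2 / 3 * ((X.filter (fun x => ∀ i, n / 3 + mu < F m n (R i) (2 * x))).card : ℝ)
          ≤ 2 / 3 * ((2 / 3) ^ l * X.card) := by gcongr
        _ = _ := by ring

/-- main construction -/
theorem construction {m n N l : ℕ} (hm : 2 ≤ m) {lam mu e1 D : ℝ} (he1 : 0 < e1)
    (h1 : ∀ s, (((Om m n).filter (fun R => F m n R s ≤ n / 3 - lam)).card : ℝ)
      ≤ (Om m n).card * e1)
    (h2 : ∀ s, (((Om m n).filter (fun R => n / 3 + mu < F m n R s)).card : ℝ)
      ≤ (Om m n).card * 0.4) (hD : lam + mu ≤ D)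
    (hl : (2 / 3 : ℝ) ^ l * (N + 1) < 1) :
    ∃ (c : ℕ → Fin l × (Fin n → Bool) × Fin ((Z m n (N + 1) D).card + 1)) (T : Finset ℕ),
      (T.card : ℝ) ≤ l * (4 * (2 * N + 1) * e1) ∧
      ∀ x ≤ N, ∀ y < x, c x = c y → x + y ∈ T := by
  classical
  obtain ⟨R, hR1, hR2⟩ := cover (N := N) (by omega : 0 < m) he1 h1 h2 l (range (N + 1))
  obtain ⟨col, hcol1, hcol2⟩ := greedy (Z m n (N + 1) D) (N + 1)
  have hempty : (range (N + 1)).filter (fun x => ∀ i, n / 3 + mu < F m n (R i) (2 * x)) = ∅ := by
    rw [← card_eq_zero]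
    rw [card_range] at hR2
    push_cast at hR2
    have h3 := lt_of_le_of_lt hR2 hl
    have h4 : ((range (N + 1)).filter
      (fun x => ∀ i, n / 3 + mu < F m n (R i) (2 * x))).card < 1 := by exact_mod_cast h3
    omega
  have hex : ∀ x ≤ N, ∃ i, F m n (R i) (2 * x) ≤ n / 3 + mu := by
    intro x hx
    by_contra hcon
    push Not at hcon
    have : x ∈ (range (N + 1)).filter (fun x => ∀ i, n / 3 + mu < F m n (R i) (2 * x)) := by
      rw [mem_filter, mem_range]
      exact ⟨by omega, hcon⟩
    rw [hempty] at this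
    simp at this
  have hl0 : 0 < l := by
    obtain ⟨i, _⟩ := hex 0 (Nat.zero_le _)
    exact i.pos
  -- index function
  set idx : ℕ → Fin l := fun x => if h : ∃ i, F m n (R i) (2 * x) ≤ n / 3 + mu
    then h.choose else ⟨0, hl0⟩ with hidx
  have hidx2 : ∀ x ≤ N, F m n (R (idx x)) (2 * x) ≤ n / 3 + mu := by
    intro x hx
    simp only [hidx, dif_pos (hex x hx)]
    exact (hex x hx).choose_spec
  refine ⟨fun x => (idx x, pat m n (R (idx x)) x, ⟨col x, Nat.lt_succ_of_le (hcol1 x)⟩),
    univ.biUnion (fun i => S m n N lam (R i)), ?_, ?_⟩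
  · have h3 : ((univ.biUnion (fun i : Fin l => S m n N lam (R i))).card : ℝ)
        ≤ ∑ i : Fin l, ((S m n N lam (R i)).card : ℝ) := by
      exact_mod_cast card_biUnion_le
    refine h3.trans ((sum_le_sum (fun i _ => hR1 i)).trans (le_of_eq ?_))
    simp
  · intro x hx y hy hc
    simp only [Prod.mk.injEq, Fin.mk.injEq] at hc
    obtain ⟨hi, hp, hcol⟩ := hc
    rw [mem_biUnion]
    refine ⟨idx x, mem_univ _, ?_⟩
    unfold S
    rw [mem_filter, mem_range]
    refine ⟨by omega, ?_⟩
    have hnot : x - y ∉ Z m n (N + 1) D := fun h => hcol2 x (by omega) y hy h hcol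
    have hQ : D ≤ Q m n (x - y) := by
      by_contra h
      push Not at h
      apply hnot
      unfold Z
      rw [mem_filter, mem_range]
      exact ⟨by omega, by omega, h⟩
    rw [← hi] at hp
    have h3 := F_mid (by omega : 0 < m) (R (idx x)) hy.le hp
    have h4 := hidx2 x hx
    have h5 := hidx2 y (by omega)
    rw [← hi] at h5
    linarith

end Pool.Agent.Helper923.Cover
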