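import Mathlib

set_option autoImplicit false

namespace Pool.Agent.Helper923.HRho

open MeasureTheory intervalIntegral Set

/-- approximations of the Dickman function by the method of steps -/
noncomputable def R : ℕ → ℝ → ℝ
  | 0, _ => 1
  | k + 1, v => 1 - ∫ s in (1:ℝ)..(max v 1), R k (s - 1) / max s 1

lemma R_cont (k : ℕ) : Continuous (R k) := by
  induction k with
  | zero => exact continuous_const
  | succ k ih =>
    have h : Continuous fun s : ℝ => R k (s - 1) / max s 1 := by
      apply Continuous.div (by fun_prop) (by fun_prop)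
      intro s
      have := le_max_right s 1
      linarith
    have h2 : Continuous fun v : ℝ => ∫ s in (1:ℝ)..v, R k (s - 1) / max s 1 :=
      intervalIntegral.continuous_primitive (fun a b => h.intervalIntegrable a b) 1
    have h3 : R (k + 1) = fun v => 1 - ∫ s in (1:ℝ)..(max v 1), R k (s - 1) / max s 1 := rfl
    rw [h3]
    exact continuous_const.sub (h2.comp (by fun_prop : Continuous fun v : ℝ => max v 1))

lemma R_succ_eq (k : ℕ) : ∀ v : ℝ, v ≤ k + 1 → R (k + 1) v = R k v := by
  induction k with
  | zero =>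
    intro v hv
    have h : max v 1 = 1 := max_eq_right (by simpa using hv)
    simp [R, h]
  | succ k ih =>
    intro v hv
    have h1 : R (k + 1 + 1) v = 1 - ∫ s in (1:ℝ)..(max v 1), R (k + 1) (s - 1) / max s 1 := rfl
    have h2 : R (k + 1) v = 1 - ∫ s in (1:ℝ)..(max v 1), R k (s - 1) / max s 1 := rfl
    rw [h1, h2]
    congr 1
    apply intervalIntegral.integral_congr
    intro s hs
    rw [uIcc_of_le (le_max_right v 1)] at hs
    push_cast at hv
    have hle : s - 1 ≤ k + 1 := by
      rcases le_max_iff.mp hs.2 with h | h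
      · linarith
      · have : (0:ℝ) ≤ k := by positivity
        linarith
    simp only [ih (s - 1) hle]

lemma R_eq (k m : ℕ) (hkm : k ≤ m) (v : ℝ) (hv : v ≤ k + 1) : R m v = R k v := by
  induction m, hkm using Nat.le_induction with
  | base => rfl
  | succ m hm ih =>
    rw [R_succ_eq m v, ih]
    have : (k : ℝ) ≤ m := by exact_mod_cast hm
    linarith

/-- the Dickman function -/
noncomputable def rho (v : ℝ) : ℝ := R ⌈v⌉₊ v

lemma rho_eq (k : ℕ) (v : ℝ) (hv : v ≤ k + 1) : rho v = R k v := by
  unfold rho
  rcases le_total k ⌈v⌉₊ with h | h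
  · exact R_eq k _ h v hv
  · symm
    apply R_eq _ k h v
    have := Nat.le_ceil v
    linarith

lemma rho_cont : Continuous rho := by
  rw [continuous_iff_continuousAt]
  intro v
  obtain ⟨k, hk⟩ := exists_nat_gt v
  have h : rho =ᶠ[nhds v] R k := by
    filter_upwards [Iio_mem_nhds (show v < (k:ℝ) + 1 by linarith)] with w hw
    exact rho_eq k w (le_of_lt hw)
  exact ((R_cont k).continuousAt).congr h.symm

lemma rho_int (v : ℝ) : rho v = 1 - ∫ s in (1:ℝ)..(max v 1), rho (s - 1) / max s 1 := by
  obtain ⟨k, hk⟩ := exists_nat_gt v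
  have h0 : (0:ℝ) ≤ k := by positivity
  rw [rho_eq (k + 1) v (by push_cast; linarith)]
  have h1 : R (k + 1) v = 1 - ∫ s in (1:ℝ)..(max v 1), R k (s - 1) / max s 1 := rfl
  rw [h1]
  congr 1
  apply intervalIntegral.integral_congr
  intro s hs
  rw [uIcc_of_le (le_max_right v 1)] at hs
  have hle : s - 1 ≤ (k:ℝ) + 1 := by
    rcases le_max_iff.mp hs.2 with h | h <;> linarith
  simp only [rho_eq k (s - 1) hle]

lemma rho_one {v : ℝ} (hv : v ≤ 1) : rho v = 1 := by
  rw [rho_int, max_eq_right hv]
  simp

lemma integrand_cont : Continuous fun s : ℝ => rho (s - 1) / max s 1 := by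
  apply Continuous.div (rho_cont.comp (by fun_prop)) (by fun_prop)
  intro s
  have := le_max_right s 1
  linarith

/-- difference formula -/
lemma rho_sub {a b : ℝ} (ha : 1 ≤ a) (hab : a ≤ b) :
    rho a - rho b = ∫ s in a..b, rho (s - 1) / s := by
  rw [rho_int a, rho_int b, max_eq_left ha, max_eq_left (ha.trans hab)]
  have h1 : (∫ s in (1:ℝ)..b, rho (s - 1) / max s 1)
      = (∫ s in (1:ℝ)..a, rho (s - 1) / max s 1) + ∫ s in a..b, rho (s - 1) / max s 1 :=
    (intervalIntegral.integral_add_adjacent_intervals
      (integrand_cont.intervalIntegrable _ _) (integrand_cont.intervalIntegrable _ _)).symm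
  rw [h1]
  have h2 : (∫ s in a..b, rho (s - 1) / max s 1) = ∫ s in a..b, rho (s - 1) / s := by
    apply intervalIntegral.integral_congr
    intro s hs
    rw [uIcc_of_le hab] at hs
    have : max s 1 = s := max_eq_left (ha.trans hs.1)
    simp only [this]
  rw [h2]; ring

lemma rho_hasDerivAt {v : ℝ} (hv : 1 < v) : HasDerivAt rho (-rho (v - 1) / v) v := by
  have h1 : HasDerivAt (fun w : ℝ => 1 - ∫ s in (1:ℝ)..w, rho (s - 1) / max s 1)
      (-(rho (v - 1) / max v 1)) v :=
    (intervalIntegral.integral_hasDerivAt_right (integrand_cont.intervalIntegrable _ _)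
      (integrand_cont.stronglyMeasurableAtFilter _ _) integrand_cont.continuousAt).const_sub 1
  have h2 : max v 1 = v := max_eq_left hv.le
  rw [h2] at h1
  have h3 : rho =ᶠ[nhds v] fun w : ℝ => 1 - ∫ s in (1:ℝ)..w, rho (s - 1) / max s 1 := by
    filter_upwards [Ioi_mem_nhds hv] with w hw
    rw [rho_int w, max_eq_left (le_of_lt hw)]
  have h4 := h1.congr_of_eventuallyEq h3
  rwa [neg_div]

/-- `v ρ(v) = ∫_{v-1}^v ρ` -/
lemma rho_mul {v : ℝ} (hv : 1 ≤ v) : v * rho v = ∫ s in (v - 1)..v, rho s := by
  have hii : ∀ a b : ℝ, IntervalIntegrable rho volume a b :=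
    fun a b => rho_cont.intervalIntegrable a b
  set F : ℝ → ℝ := fun w => w * rho w - ∫ s in (w - 1)..w, rho s with hF
  have hprim : ∀ w : ℝ, HasDerivAt (fun w : ℝ => ∫ s in (0:ℝ)..w, rho s) (rho w) w := fun w =>
    intervalIntegral.integral_hasDerivAt_right (hii _ _)
      (rho_cont.stronglyMeasurableAtFilter _ _) rho_cont.continuousAt
  have hFe : F = fun w => w * rho w - ((∫ s in (0:ℝ)..w, rho s) - ∫ s in (0:ℝ)..(w - 1), rho s) := by
    funext w
    simp only [hF]
    rw [intervalIntegral.integral_interval_sub_left (hii _ _) (hii _ _)]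
  have hFc : Continuous F := by
    rw [hFe]
    have h1 : Continuous fun w : ℝ => ∫ s in (0:ℝ)..w, rho s :=
      intervalIntegral.continuous_primitive hii 0
    have h2 : Continuous fun w : ℝ => ∫ s in (0:ℝ)..(w - 1), rho s :=
      h1.comp (by fun_prop : Continuous fun w : ℝ => w - 1)
    exact (continuous_id.mul rho_cont).sub (h1.sub h2)
  have hder : ∀ w ∈ Ioo (1:ℝ) (v + 1), HasDerivAt F 0 w := by
    intro w hw
    rw [hFe]
    have h1 := (hasDerivAt_id w).mul (rho_hasDerivAt hw.1)
    have h2 := hprim w
    have h3 : HasDerivAt (fun w : ℝ => ∫ s in (0:ℝ)..(w - 1), rho s) (rho (w - 1)) w := by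
      have := (hprim (w - 1)).comp w ((hasDerivAt_id w).sub_const 1)
      simpa [Function.comp_def] using this
    have h4 := h1.sub (h2.sub h3)
    have hw0 : w ≠ 0 := by linarith [hw.1]
    have e : 1 * rho w + id w * (-rho (w - 1) / w) - (rho w - rho (w - 1)) = 0 := by
      simp only [id]; field_simp; ring
    rw [e] at h4
    exact h4
  have hF1 : F 1 = 0 := by
    simp only [hF]
    have : (∫ s in (1 - 1:ℝ)..1, rho s) = ∫ s in (1 - 1:ℝ)..1, (1:ℝ) := by
      apply intervalIntegral.integral_congr
      intro s hs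
      rw [uIcc_of_le (by norm_num)] at hs
      exact rho_one hs.2
    rw [this, rho_one le_rfl]
    simp
  have key : F v = F 1 := by
    rcases eq_or_lt_of_le hv with h | h
    · rw [← h]
    · have hdiff : DifferentiableOn ℝ F (interior (Icc 1 v)) := by
        rw [interior_Icc]
        intro w hw
        exact (hder w ⟨hw.1, by linarith [hw.2]⟩).differentiableAt.differentiableWithinAt
      obtain ⟨c, hc, hc2⟩ := exists_deriv_eq_slope F h hFc.continuousOn
        (by rw [interior_Icc] at hdiff; exact hdiff)
      rw [(hder c ⟨hc.1, by linarith [hc.2]⟩).deriv] at hc2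
      have : v - 1 ≠ 0 := by linarith
      field_simp at hc2
      linarith
  rw [hF1] at key
  simp only [hF] at key
  linarith

lemma rho_pos (v : ℝ) : 0 < rho v := by
  by_contra hv
  push Not at hv
  have hv1 : 1 < v := by
    by_contra h
    push Not at h
    rw [rho_one h] at hv
    linarith
  set S : Set ℝ := Icc 1 v ∩ {w | rho w ≤ 0} with hS
  have hSc : IsCompact S := isCompact_Icc.inter_right (isClosed_le rho_cont continuous_const)
  have hSn : S.Nonempty := ⟨v, ⟨hv1.le, le_rfl⟩, hv⟩
  obtain ⟨w, hw, hwmin⟩ := hSc.exists_isLeast hSn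
  have hw1 : 1 < w := by
    by_contra h
    push Not at h
    have := hw.2
    simp only [Set.mem_ofPred_eq] at this
    rw [rho_one h] at this
    linarith
  have hpos : ∀ s, s < w → 0 < rho s := by
    intro s hs
    by_contra hs2
    push Not at hs2
    rcases le_or_gt s 1 with h | h
    · rw [rho_one h] at hs2; linarith
    · have := hwmin ⟨⟨h.le, by linarith [hw.1.2]⟩, hs2⟩
      linarith
  have h1 := rho_mul hw1.le
  have h2 : 0 < ∫ s in (w - 1)..w, rho s := by
    apply intervalIntegral.intervalIntegral_pos_of_pos_on (rho_cont.intervalIntegrable _ _)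
    · intro s hs
      exact hpos s hs.2
    · linarith
  have h3 : w * rho w ≤ 0 := by
    have := hw.2
    simp only [Set.mem_ofPred_eq] at this
    nlinarith
  linarith

lemma rho_anti : Antitone rho := by
  have h1 : ∀ a b : ℝ, 1 ≤ a → a ≤ b → rho b ≤ rho a := by
    intro a b ha hab
    have := rho_sub ha hab
    have h2 : 0 ≤ ∫ s in a..b, rho (s - 1) / s := by
      apply intervalIntegral.integral_nonneg hab
      intro s hs
      have := rho_pos (s - 1)
      have : 0 < s := by linarith [hs.1]
      positivity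
    linarith
  intro a b hab
  rcases le_total a 1 with ha | ha
  · rcases le_total b 1 with hb | hb
    · rw [rho_one ha, rho_one hb]
    · have := h1 1 b le_rfl hb
      rw [rho_one ha]
      rwa [rho_one le_rfl] at this
  · exact h1 a b ha hab

lemma rho_le_one (v : ℝ) : rho v ≤ 1 := by
  rcases le_total v 1 with h | h
  · rw [rho_one h]
  · have := rho_anti h
    rwa [rho_one le_rfl] at this

/-- `ρ` is 1-Lipschitz -/
lemma rho_lip {a b : ℝ} (hab : a ≤ b) : rho a - rho b ≤ b - a := by
  have h1 : ∀ a b : ℝ, 1 ≤ a → a ≤ b → rho a - rho b ≤ b - a := by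
    intro a b ha hab
    rw [rho_sub ha hab]
    have h2 : (∫ s in a..b, rho (s - 1) / s) ≤ ∫ s in a..b, (1:ℝ) := by
      apply intervalIntegral.integral_mono_on hab
      · apply ContinuousOn.intervalIntegrable
        rw [uIcc_of_le hab]
        apply ContinuousOn.div (rho_cont.comp (by fun_prop)).continuousOn continuousOn_id
        intro s hs
        have : 0 < s := by linarith [hs.1]
        exact this.ne'
      · exact intervalIntegrable_const
      · intro s hs
        have : 1 ≤ s := by linarith [hs.1]
        rw [div_le_one (by linarith)]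
        exact (rho_le_one _).trans this
    have h3 : (∫ s in a..b, (1:ℝ)) = b - a := by simp
    linarith
  rcases le_total a 1 with ha | ha
  · rcases le_total b 1 with hb | hb
    · rw [rho_one ha, rho_one hb]; linarith
    · have := h1 1 b le_rfl hb
      rw [rho_one ha]
      rw [rho_one le_rfl] at this
      linarith
  · exact h1 a b ha hab

/-- `x ρ(x) ≤ 1` -/
lemma mul_rho_le {v : ℝ} (hv : 1 ≤ v) : v * rho v ≤ 1 := by
  rw [rho_mul hv]
  have h2 : (∫ s in (v - 1)..v, rho s) ≤ ∫ s in (v - 1)..v, (1:ℝ) := by
    apply intervalIntegral.integral_mono_on (by linarith) (rho_cont.intervalIntegrable _ _)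
      intervalIntegrable_const
    intro s _
    exact rho_le_one s
  have h3 : (∫ s in (v - 1)..v, (1:ℝ)) = 1 := by simp
  linarith

end Pool.Agent.Helper923.HRho
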