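import Mathlib
import Pool.Agent.Helper923.HRho

set_option autoImplicit false

namespace Pool.Agent.Helper923.HRho

open MeasureTheory intervalIntegral Set

lemma rho_log {v : ℝ} (h1 : 1 ≤ v) (h2 : v ≤ 2) : rho v = 1 - Real.log v := by
  have h := rho_sub le_rfl h1
  rw [rho_one le_rfl] at h
  have h3 : (∫ s in (1:ℝ)..v, rho (s - 1) / s) = ∫ s in (1:ℝ)..v, 1 / s := by
    apply intervalIntegral.integral_congr
    intro s hs
    rw [uIcc_of_le h1] at hs
    simp only [rho_one (show s - 1 ≤ 1 by linarith [hs.2])]
  rw [h3, integral_one_div_of_pos (by norm_num) (by linarith)] at h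
  simp only [div_one] at h
  linarith

lemma div_ii {a b : ℝ} (ha : 0 < a) (hab : a ≤ b) :
    IntervalIntegrable (fun s : ℝ => rho (s - 1) / s) volume a b := by
  apply ContinuousOn.intervalIntegrable
  rw [uIcc_of_le hab]
  apply ContinuousOn.div (rho_cont.comp (by fun_prop)).continuousOn continuousOn_id
  intro s hs
  have : 0 < s := by linarith [hs.1]
  exact this.ne'

/-- comparison of a small sieving modulus of size `1/δ` with large primes -/
theorem rho_small {d v : ℝ} (hd0 : 0 ≤ d) (hd : d ≤ Real.log 2) (hv : Real.exp d ≤ v) :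
    rho v ≤ (1 - d) * rho (v * Real.exp (-d)) := by
  rcases eq_or_lt_of_le hd0 with h0 | h0
  · subst h0; simp
  set e : ℝ := Real.exp d with he
  set r : ℝ := Real.exp (-d) with hr
  have her : e * r = 1 := by rw [he, hr, ← Real.exp_add]; simp
  have he1 : 1 < e := by rw [he]; exact Real.one_lt_exp_iff.mpr h0
  have he2 : e ≤ 2 := by
    rw [he, ← Real.le_log_iff_exp_le (by norm_num)]; exact hd
  have hr0 : 0 < r := Real.exp_pos _
  have hr1 : r < 1 := by
    have := Real.exp_lt_exp.mpr (show -d < 0 by linarith)
    simpa [hr] using this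
  have hrhoe : rho e = 1 - d := by
    rw [rho_log he1.le he2, he, Real.log_exp]
  have hd1 : d < 1 := by
    have := Real.log_two_lt_d9
    linarith
  -- base interval
  have base : ∀ w : ℝ, e ≤ w → w ≤ 1 + e → rho w ≤ (1 - d) * rho (w * r) := by
    intro w hw1 hw2
    have hw0 : 0 < w := by linarith
    have hwr1 : 1 ≤ w * r := by
      calc (1:ℝ) = e * r := her.symm
        _ ≤ w * r := by gcongr
    have hwr2 : w * r ≤ 2 := by
      calc w * r ≤ (1 + e) * r := by gcongr
        _ = r + e * r := by ring
        _ ≤ 2 := by rw [her]; linarith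
    rw [rho_log hwr1 hwr2]
    have h1 := rho_sub he1.le hw1
    have h2 : (∫ s in e..w, (1 - d) * (1 / s)) ≤ ∫ s in e..w, rho (s - 1) / s := by
      apply intervalIntegral.integral_mono_on hw1
      · apply ContinuousOn.intervalIntegrable
        rw [uIcc_of_le hw1]
        apply ContinuousOn.mul continuousOn_const
        apply ContinuousOn.div continuousOn_const continuousOn_id
        intro s hs
        have : 0 < s := by linarith [hs.1]
        exact this.ne'
      · exact div_ii (by linarith) hw1
      · intro s hs
        have hs0 : 0 < s := by linarith [hs.1]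
        have h3 : 1 - d ≤ rho (s - 1) := by
          rw [← hrhoe]; exact rho_anti (by linarith [hs.2])
        rw [mul_one_div]
        gcongr
    rw [intervalIntegral.integral_const_mul, integral_one_div_of_pos (by linarith) hw0] at h2
    have h3 : Real.log (w / e) = Real.log (w * r) := by
      congr 1
      rw [div_eq_iff (by linarith)]
      calc w = w * (e * r) := by rw [her]; ring
        _ = _ := by ring
    rw [h3] at h2
    rw [hrhoe] at h1
    nlinarith
  by_contra hcon
  push Not at hcon
  have hve : 1 + e < v := by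
    by_contra h
    push Not at h
    exact absurd (base v hv h) (by linarith)
  set G : ℝ → ℝ := fun w => (1 - d) * rho (w * r) - rho w with hG
  have hGc : Continuous G :=
    (continuous_const.mul (rho_cont.comp (by fun_prop))).sub rho_cont
  set S : Set ℝ := Icc (1 + e) v ∩ {w | G w ≤ 0} with hS
  have hSc : IsCompact S := isCompact_Icc.inter_right (isClosed_le hGc continuous_const)
  have hSn : S.Nonempty := ⟨v, ⟨hve.le, le_rfl⟩, by
    simp only [hG, Set.mem_ofPred_eq]; linarith⟩
  obtain ⟨w, hw, hwmin⟩ := hSc.exists_isLeast hSn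
  have hw1 : 1 + e ≤ w := hw.1.1
  have hwG : G w ≤ 0 := hw.2
  have hpos : ∀ s, e ≤ s → s < w → 0 ≤ G s := by
    intro s hs1 hs2
    rcases le_or_gt s (1 + e) with h | h
    · have := base s hs1 h
      simp only [hG]; linarith
    · by_contra hs3
      push Not at hs3
      have := hwmin ⟨⟨h.le, by linarith [hw.1.2]⟩, hs3.le⟩
      linarith
  have hwr : 1 ≤ w * r := by
    calc (1:ℝ) = e * r := her.symm
      _ ≤ w * r := by gcongr; linarith
  -- integral formula
  have h1 : w * rho (w * r) = ∫ s in (w - e)..w, rho (s * r) := by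
    have h2 := rho_mul hwr
    have h3 : (∫ s in (w - e)..w, rho (s * r)) = r⁻¹ • ∫ s in ((w - e) * r)..(w * r), rho s :=
      intervalIntegral.integral_comp_mul_right (fun s => rho s) hr0.ne'
    have h4 : (w - e) * r = w * r - 1 := by rw [sub_mul, her]
    rw [h3, h4, ← h2, smul_eq_mul]
    field_simp
  have h2 := rho_mul (show (1:ℝ) ≤ w by linarith)
  have hc1 : Continuous fun s : ℝ => rho (s * r) := rho_cont.comp (by fun_prop)
  have h3 : (∫ s in (w - e)..w, rho (s * r))
      = (∫ s in (w - e)..(w - 1), rho (s * r)) + ∫ s in (w - 1)..w, rho (s * r) :=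
    (intervalIntegral.integral_add_adjacent_intervals
      (hc1.intervalIntegrable _ _) (hc1.intervalIntegrable _ _)).symm
  have h4 : (∫ s in (w - 1)..w, G s)
      = (1 - d) * (∫ s in (w - 1)..w, rho (s * r)) - ∫ s in (w - 1)..w, rho s := by
    simp only [hG]
    rw [intervalIntegral.integral_sub ((hc1.const_mul _).intervalIntegrable _ _)
      (rho_cont.intervalIntegrable _ _), intervalIntegral.integral_const_mul]
  have h5 : 0 ≤ ∫ s in (w - 1)..w, G s := by
    apply intervalIntegral.integral_nonneg_of_ae_restrict (by linarith)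
    rw [Filter.EventuallyLE, ae_restrict_iff' measurableSet_Icc]
    have : ∀ᵐ s : ℝ, s ≠ w := by
      simp [ae_iff]
    filter_upwards [this] with s hs hs2
    exact hpos s (by linarith [hs2.1]) (lt_of_le_of_ne hs2.2 hs)
  have h6 : 0 < ∫ s in (w - e)..(w - 1), rho (s * r) := by
    apply intervalIntegral.intervalIntegral_pos_of_pos_on (hc1.intervalIntegrable _ _)
    · intro s _
      exact rho_pos _
    · linarith
  have h7 : w * G w = (∫ s in (w - 1)..w, G s) + (1 - d) * ∫ s in (w - e)..(w - 1), rho (s * r) := by
    have : w * G w = (1 - d) * (w * rho (w * r)) - w * rho w := by simp only [hG]; ring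
    rw [this, h1, h2, h3, h4]; ring
  have h8 : 0 < w * G w := by
    rw [h7]
    have : 0 < (1 - d) * ∫ s in (w - e)..(w - 1), rho (s * r) := mul_pos (by linarith) h6
    linarith
  have h9 : 0 < w := by linarith
  nlinarith

end Pool.Agent.Helper923.HRho
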