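import Mathlib
import Pool.Agent.Helper923.HRhoG

set_option autoImplicit false

namespace Pool.Agent.Helper923.HKey

open Finset Pool.Agent.Helper923.HRho MeasureTheory

noncomputable def W (r : ℕ → ℝ) (n : ℕ) : ℝ := ∑ q ∈ range n, r q

noncomputable def E (r : ℕ → ℝ) (n : ℕ) : ℝ := Real.exp (W r n)

lemma W_succ (r : ℕ → ℝ) (n : ℕ) : W r (n + 1) = W r n + r n := by
  unfold W; rw [sum_range_succ]

lemma E_succ (r : ℕ → ℝ) (n : ℕ) : E r (n + 1) = E r n * Real.exp (r n) := by
  unfold E; rw [W_succ, Real.exp_add]

lemma E_zero (r : ℕ → ℝ) : E r 0 = 1 := by simp [E, W]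

lemma E_pos (r : ℕ → ℝ) (n : ℕ) : 0 < E r n := Real.exp_pos _

lemma W_mono {r : ℕ → ℝ} (hr : ∀ i, 0 ≤ r i) : Monotone (W r) := by
  apply monotone_nat_of_le_succ
  intro n
  rw [W_succ]
  have := hr n
  linarith

lemma E_mono {r : ℕ → ℝ} (hr : ∀ i, 0 ≤ r i) : Monotone (E r) := by
  intro a b hab
  exact Real.exp_le_exp.mpr (W_mono hr hab)

lemma one_le_E {r : ℕ → ℝ} (hr : ∀ i, 0 ≤ r i) (n : ℕ) : 1 ≤ E r n := by
  rw [← E_zero r]; exact E_mono hr (Nat.zero_le n)

/-- integral of `ρ(s-1) - ρ(v-1)` -/
noncomputable def Phi (v x : ℝ) : ℝ := ∫ s in (v - 1)..x, (rho (s - 1) - rho (v - 1))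

lemma phi_cont (v : ℝ) : Continuous fun s : ℝ => rho (s - 1) - rho (v - 1) :=
  (rho_cont.comp (by fun_prop)).sub continuous_const

lemma Phi_sub (v a b : ℝ) : Phi v b - Phi v a = ∫ s in a..b, (rho (s - 1) - rho (v - 1)) := by
  unfold Phi
  exact intervalIntegral.integral_interval_sub_left ((phi_cont v).intervalIntegrable _ _)
    ((phi_cont v).intervalIntegrable _ _)

lemma Phi_v {v : ℝ} (hv : 2 ≤ v) : Phi v v = (v - 2) * rho (v - 1) := by
  unfold Phi
  have hc1 : Continuous fun s : ℝ => rho (s - 1) := rho_cont.comp (by fun_prop)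
  rw [intervalIntegral.integral_sub (hc1.intervalIntegrable _ _) intervalIntegrable_const]
  have h1 : (∫ s in (v - 1)..v, rho (s - 1)) = ∫ s in (v - 1 - 1)..(v - 1), rho s := by
    rw [← intervalIntegral.integral_comp_sub_right (fun s => rho s) 1]
  rw [h1, ← rho_mul (by linarith)]
  simp
  ring

/-- the per-step inequality -/
lemma step {v a b : ℝ} (hv : 2 < v) (ha : v - 1 ≤ a) (hab : a ≤ b) (hb : b ≤ v) :
    (1 / b) * (Phi v b - Phi v a) ≤ rho a - rho b - rho (v - 1) * Real.log (b / a)
      ∧ 0 ≤ Phi v b - Phi v a := by
  have ha1 : 1 ≤ a := by linarith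
  have ha0 : 0 < a := by linarith
  have hb0 : 0 < b := by linarith
  have hnn : ∀ s ∈ Set.Icc a b, 0 ≤ rho (s - 1) - rho (v - 1) := by
    intro s hs
    have := rho_anti (show s - 1 ≤ v - 1 by linarith [hs.2])
    linarith
  constructor
  · rw [Phi_sub, rho_sub ha1 hab]
    have h1 : Real.log (b / a) = ∫ s in a..b, 1 / s := (integral_one_div_of_pos ha0 hb0).symm
    have hii : IntervalIntegrable (fun s : ℝ => 1 / s) volume a b := by
      apply ContinuousOn.intervalIntegrable
      rw [Set.uIcc_of_le hab]
      apply ContinuousOn.div continuousOn_const continuousOn_id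
      intro s hs
      have : 0 < s := by linarith [hs.1]
      exact this.ne'
    rw [h1, ← intervalIntegral.integral_const_mul (rho (v - 1)),
      ← intervalIntegral.integral_sub (div_ii ha0 hab) (hii.const_mul _),
      ← intervalIntegral.integral_const_mul]
    apply intervalIntegral.integral_mono_on hab
    · exact (((phi_cont v).const_mul _).intervalIntegrable _ _)
    · exact (div_ii ha0 hab).sub (hii.const_mul _)
    · intro s hs
      have hs0 : 0 < s := by linarith [hs.1]
      have h2 := hnn s hs
      have h3 : rho (s - 1) / s - rho (v - 1) * (1 / s) = (1 / s) * (rho (s - 1) - rho (v - 1)) := by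
        field_simp
      rw [h3]
      apply mul_le_mul_of_nonneg_right _ h2
      apply one_div_le_one_div_of_le hs0 hs.2
  · rw [Phi_sub]
    exact intervalIntegral.integral_nonneg hab hnn

theorem key (r t : ℕ → ℝ) (hr : ∀ i, 0 ≤ r i) (ht : ∀ i, 0 ≤ t i) (k : ℕ) (C : ℝ) (hC : 0 ≤ C)
    (h : ∀ j i, j ≤ i → i < k → 0 < r j → 0 < r i → t j / E r j ≤ t i / E r (i + 1) + C) :
    rho (E r k - 1) * (∑ i ∈ range k, t i * r i) - C ≤
      ∑ i ∈ range k, t i * (rho (max (E r i) (E r k - 1)) - rho (max (E r (i + 1)) (E r k - 1))) := by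
  set v := E r k with hvdef
  have hmono := E_mono hr
  have hE1 := one_le_E hr
  rcases le_or_gt v 2 with hv | hv
  · -- small case
    have h1 : rho (v - 1) = 1 := rho_one (by linarith)
    have h2 : ∀ i ∈ range k, t i * (rho (max (E r i) (v - 1)) - rho (max (E r (i + 1)) (v - 1)))
        = t i * r i := by
      intro i hi
      rw [mem_range] at hi
      have h3 : max (E r i) (v - 1) = E r i := max_eq_left (by linarith [hE1 i])
      have h4 : max (E r (i + 1)) (v - 1) = E r (i + 1) := max_eq_left (by linarith [hE1 (i + 1)])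
      have h5 : E r (i + 1) ≤ v := hmono (by omega)
      have h6 : E r i ≤ v := hmono (by omega)
      rw [h3, h4, rho_log (hE1 i) (by linarith), rho_log (hE1 _) (by linarith)]
      unfold E
      rw [Real.log_exp, Real.log_exp, W_succ]
      ring
    rw [sum_congr rfl h2, h1]
    linarith
  · -- main case
    obtain ⟨κ, hκ1, hκ2⟩ : ∃ κ : ℝ, (∀ i < k, 0 < r i → E r i < v - 1 → t i / E r i ≤ κ) ∧
        (∀ i < k, 0 < r i → v - 1 < E r (i + 1) → κ - C ≤ t i / E r (i + 1)) := by
      classical
      rcases (((range k).filter (fun i => 0 < r i ∧ E r i < v - 1))).eq_empty_or_nonempty with h0 | h0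
      · refine ⟨0, ?_, ?_⟩
        · intro i hi hri hEi
          exfalso
          have : i ∈ (range k).filter (fun i => 0 < r i ∧ E r i < v - 1) := by
            rw [mem_filter, mem_range]; exact ⟨hi, hri, hEi⟩
          rw [h0] at this
          simp at this
        · intro i _ _ _
          have := ht i
          have := E_pos r (i + 1)
          have : 0 ≤ t i / E r (i + 1) := by positivity
          linarith
      · obtain ⟨j, hj, hmax⟩ := exists_max_image _ (fun i => t i / E r i) h0
        rw [mem_filter, mem_range] at hj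
        refine ⟨t j / E r j, ?_, ?_⟩
        · intro i hi hri hEi
          exact hmax i (by rw [mem_filter, mem_range]; exact ⟨hi, hri, hEi⟩)
        · intro i hi hri hEi
          have hji : j ≤ i := by
            by_contra hlt
            push Not at hlt
            have := hmono (show i + 1 ≤ j by omega)
            linarith [hj.2.2]
          have := h j i hji hi hj.2.1 hri
          linarith
    set a : ℕ → ℝ := fun i => min (E r i) (v - 1) with ha
    set b : ℕ → ℝ := fun i => max (E r i) (v - 1) with hb
    have hper : ∀ i ∈ range k, (κ - C) * (Phi v (b (i + 1)) - Phi v (b i))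
        - rho (v - 1) * κ * (a (i + 1) - a i) ≤
        t i * (rho (b i) - rho (b (i + 1))) - rho (v - 1) * (t i * r i) := by
      intro i hi
      rw [mem_range] at hi
      rcases eq_or_lt_of_le (hr i) with hri | hri
      · have h1 : E r (i + 1) = E r i := by rw [E_succ, ← hri]; simp
        simp only [ha, hb, h1, ← hri]
        simp
      have hEi := E_pos r i
      have hEi1 := E_pos r (i + 1)
      have hle : E r i ≤ E r (i + 1) := hmono (by omega)
      have hlev : E r (i + 1) ≤ v := hmono (by omega)
      have ha0 : 0 < a i := lt_min hEi (by linarith)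
      have ha1 : 0 < a (i + 1) := lt_min hEi1 (by linarith)
      have hb0 : 0 < b i := lt_of_lt_of_le hEi (le_max_left _ _)
      have hb1 : 0 < b (i + 1) := lt_of_lt_of_le hEi1 (le_max_left _ _)
      have hal : a i ≤ a (i + 1) := min_le_min_right _ hle
      have hbl : b i ≤ b (i + 1) := max_le_max_right _ hle
      have hab : ∀ j, a j * b j = E r j * (v - 1) := fun j => min_mul_max _ _
      have hrlog : r i = Real.log (a (i + 1) / a i) + Real.log (b (i + 1) / b i) := by
        rw [← Real.log_mul (by positivity) (by positivity)]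
        have h1 : a (i + 1) / a i * (b (i + 1) / b i) = Real.exp (r i) := by
          rw [div_mul_div_comm, hab, hab, E_succ]
          have : v - 1 ≠ 0 := by linarith
          field_simp
        rw [h1, Real.log_exp]
      have hti := ht i
      have hrp := (rho_pos (v - 1)).le
      -- first part
      have hA : t i * Real.log (a (i + 1) / a i) ≤ κ * (a (i + 1) - a i) := by
        rcases lt_or_ge (E r i) (v - 1) with hc | hc
        · have h1 : a i = E r i := min_eq_left hc.le
          have h2 : Real.log (a (i + 1) / a i) ≤ a (i + 1) / a i - 1 :=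
            Real.log_le_sub_one_of_pos (by positivity)
          have h3 := hκ1 i hi hri hc
          calc t i * Real.log (a (i + 1) / a i) ≤ t i * (a (i + 1) / a i - 1) := by gcongr
            _ = (t i / E r i) * (a (i + 1) - a i) := by rw [h1]; field_simp
            _ ≤ κ * (a (i + 1) - a i) := by
                apply mul_le_mul_of_nonneg_right h3; linarith
        · have h1 : a i = v - 1 := min_eq_right hc
          have h2 : a (i + 1) = v - 1 := min_eq_right (hc.trans hle)
          rw [h1, h2]
          have : v - 1 ≠ 0 := by linarith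
          rw [div_self this]
          simp
      have hB : (κ - C) * (Phi v (b (i + 1)) - Phi v (b i)) ≤
          t i * (rho (b i) - rho (b (i + 1)) - rho (v - 1) * Real.log (b (i + 1) / b i)) := by
        rcases lt_or_ge (v - 1) (E r (i + 1)) with hc | hc
        · have h1 : b (i + 1) = E r (i + 1) := max_eq_left hc.le
          obtain ⟨h2, h3⟩ := step hv (le_max_right (E r i) (v - 1)) hbl
            (by rw [h1]; exact hlev)
          have h4 := hκ2 i hi hri hc
          calc (κ - C) * (Phi v (b (i + 1)) - Phi v (b i))
              ≤ (t i / E r (i + 1)) * (Phi v (b (i + 1)) - Phi v (b i)) :=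
                mul_le_mul_of_nonneg_right h4 h3
            _ = t i * ((1 / b (i + 1)) * (Phi v (b (i + 1)) - Phi v (b i))) := by
                rw [h1]; field_simp
            _ ≤ _ := mul_le_mul_of_nonneg_left h2 hti
        · have h1 : b (i + 1) = v - 1 := max_eq_right hc
          have h2 : b i = v - 1 := max_eq_right (hle.trans hc)
          rw [h1, h2]
          have : v - 1 ≠ 0 := by linarith
          rw [div_self this]
          simp
      have hA' := mul_le_mul_of_nonneg_left hA hrp
      have e1 : t i * (rho (b i) - rho (b (i + 1))) - rho (v - 1) * (t i * r i)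
          = t i * (rho (b i) - rho (b (i + 1)) - rho (v - 1) * Real.log (b (i + 1) / b i))
            - rho (v - 1) * (t i * Real.log (a (i + 1) / a i)) := by
        rw [hrlog]; ring
      rw [e1]
      linarith
    have hsum := sum_le_sum hper
    rw [sum_sub_distrib, sum_sub_distrib, ← mul_sum, ← mul_sum, ← mul_sum] at hsum
    rw [sum_range_sub (fun i => Phi v (b i)), sum_range_sub a] at hsum
    have hb0 : b 0 = v - 1 := by
      simp only [hb]; rw [E_zero]; exact max_eq_right (by linarith)
    have hbk : b k = v := by
      simp only [hb]; rw [← hvdef]; exact max_eq_left (by linarith)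
    have ha0 : a 0 = 1 := by
      simp only [ha]; rw [E_zero]; exact min_eq_left (by linarith)
    have hak : a k = v - 1 := by
      simp only [ha]; rw [← hvdef]; exact min_eq_right (by linarith)
    have hPhi0 : Phi v (v - 1) = 0 := by simp [Phi]
    rw [hb0, hbk, ha0, hak, hPhi0, Phi_v hv.le] at hsum
    have h1 : (v - 2) * rho (v - 1) ≤ 1 := by
      have h2 := mul_rho_le (show (1:ℝ) ≤ v - 1 by linarith)
      have h3 := (rho_pos (v - 1)).le
      nlinarith
    have h2 : C * ((v - 2) * rho (v - 1)) ≤ C * 1 := mul_le_mul_of_nonneg_left h1 hC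
    have e : (κ - C) * ((v - 2) * rho (v - 1) - 0) - rho (v - 1) * κ * (v - 1 - 1)
        = -(C * ((v - 2) * rho (v - 1))) := by ring
    rw [e] at hsum
    linarith

end Pool.Agent.Helper923.HKey
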