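import Mathlib

set_option autoImplicit false

namespace Pool.Agent.Helper923.HMertens

open Finset

/-! ## First Mertens theorem -/

/-- primes up to `N` -/
abbrev PP (N : ℕ) : Finset ℕ := (Finset.Icc 1 N).filter Nat.Prime

lemma log_factorial_eq (N : ℕ) :
    Real.log (N.factorial : ℝ) = ∑ p ∈ PP N, (N.factorial.factorization p : ℝ) * Real.log p := by
  rw [Real.log_nat_eq_sum_factorization, Finsupp.sum]
  have h1 : N.factorial.factorization.support ⊆ PP N := by
    intro p hp
    rw [Nat.support_factorization, Nat.mem_primeFactors] at hp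
    rw [Finset.mem_filter, Finset.mem_Icc]
    exact ⟨⟨hp.1.one_lt.le, (hp.1.dvd_factorial).1 hp.2.1⟩, hp.1⟩
  refine Finset.sum_subset h1 fun p _ hp => ?_
  rw [Finsupp.notMem_support_iff] at hp
  rw [hp]; simp

lemma sum_small_bound : ∃ C : ℝ, 0 ≤ C ∧ ∀ N : ℕ, ∑ p ∈ PP N, Real.log p / (p * (p - 1)) ≤ C := by
  have hs : Summable (fun n : ℕ => 4 / (n : ℝ) ^ (3 / 2 : ℝ)) := by
    have := Real.summable_nat_rpow_inv (p := (3 / 2 : ℝ)).2 (by norm_num)
    have h2 := this.mul_left 4
    exact h2.congr fun n => (div_eq_mul_inv _ _).symm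
  refine ⟨∑' n : ℕ, 4 / (n : ℝ) ^ (3 / 2 : ℝ), tsum_nonneg fun n => by positivity, fun N => ?_⟩
  refine le_trans ?_ (hs.sum_le_tsum (PP N) fun n _ => by positivity)
  refine Finset.sum_le_sum fun p hp => ?_
  rw [Finset.mem_filter] at hp
  have h2 : (2 : ℝ) ≤ p := by exact_mod_cast hp.2.two_le
  have hp0 : (0 : ℝ) < p := by linarith
  have hlog : Real.log p ≤ 2 * (p : ℝ) ^ (1 / 2 : ℝ) := by
    have := Real.log_le_rpow_div hp0.le (ε := 1 / 2) (by norm_num)
    linarith
  rw [div_le_div_iff₀ (by nlinarith) (by positivity)]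
  have h3 : (p : ℝ) ^ (1 / 2 : ℝ) * (p : ℝ) ^ (3 / 2 : ℝ) = p ^ 2 := by
    rw [← Real.rpow_add hp0]; norm_num
  have h4 : 0 < (p : ℝ) ^ (3 / 2 : ℝ) := by positivity
  calc Real.log p * (p : ℝ) ^ (3 / 2 : ℝ) ≤ 2 * (p : ℝ) ^ (1 / 2 : ℝ) * (p : ℝ) ^ (3 / 2 : ℝ) :=
        mul_le_mul_of_nonneg_right hlog h4.le
    _ = 2 * p ^ 2 := by rw [mul_assoc, h3]
    _ ≤ 4 * (p * (p - 1)) := by nlinarith

lemma theta_le (N : ℕ) : ∑ p ∈ PP N, Real.log p ≤ 2 * N := by
  have h := Chebyshev.theta_le_log4_mul_x (x := (N : ℝ)) (by positivity)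
  have h2 : Chebyshev.theta (N : ℝ) = ∑ p ∈ PP N, Real.log p := by
    rw [Chebyshev.theta, Nat.floor_natCast]
    rfl
  rw [h2] at h
  have h3 : Real.log 4 ≤ 2 := by
    have : Real.log 4 = 2 * Real.log 2 := by
      rw [show (4 : ℝ) = 2 ^ 2 by norm_num, Real.log_pow]; norm_num
    have := Real.log_two_lt_d9
    linarith
  have : (0 : ℝ) ≤ N := by positivity
  nlinarith

theorem mertens_log : ∃ C : ℝ, ∀ N : ℕ, 1 ≤ N →
    |∑ p ∈ (Finset.Icc 1 N).filter Nat.Prime, Real.log p / p - Real.log N| ≤ C := by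
  obtain ⟨C, hC0, hC⟩ := sum_small_bound
  refine ⟨C + 2, fun N hN => ?_⟩
  have hN' : (0 : ℝ) < N := by exact_mod_cast hN
  have hN1 : (1 : ℝ) ≤ N := by exact_mod_cast hN
  have hfac := log_factorial_eq N
  set P := ∑ p ∈ PP N, Real.log p / p with hP
  -- upper bound for the factorial
  have hup : Real.log (N.factorial : ℝ) ≤ N * Real.log N := by
    rw [← Real.log_pow]
    apply Real.log_le_log
    · exact_mod_cast N.factorial_pos
    · exact_mod_cast N.factorial_le_pow
  have hlo : N * Real.log N - N ≤ Real.log (N.factorial : ℝ) := by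
    have h1 := Stirling.le_log_factorial_stirling (n := N) (by omega)
    have h2 : 0 ≤ Real.log N := Real.log_nonneg hN1
    have h3 : 0 ≤ Real.log (2 * Real.pi) := Real.log_nonneg (by linarith [Real.pi_gt_three])
    linarith
  -- lower bound for valuations
  have h1 : (N : ℝ) * P - 2 * N ≤ Real.log (N.factorial : ℝ) := by
    rw [hfac]
    have h2 := theta_le N
    have h3 : (N : ℝ) * P - ∑ p ∈ PP N, Real.log p ≤
        ∑ p ∈ PP N, (N.factorial.factorization p : ℝ) * Real.log p := by
      rw [hP, Finset.mul_sum, ← Finset.sum_sub_distrib]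
      refine Finset.sum_le_sum fun p hp => ?_
      rw [Finset.mem_filter] at hp
      have hp0 : (0 : ℝ) < p := by exact_mod_cast hp.2.pos
      have hlog : 0 ≤ Real.log p := Real.log_nonneg (by exact_mod_cast hp.2.one_lt.le)
      have h4 : N / p ≤ N.factorial.factorization p := by
        rw [Nat.factorization_factorial hp.2 (Nat.lt_succ_self (Nat.log p N))]
        by_cases h5 : p ≤ N
        · have h6 : 1 ≤ Nat.log p N := by
            have := Nat.log_pos hp.2.one_lt h5
            omega
          have h7 : N / p = N / p ^ 1 := by rw [pow_one]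
          rw [h7]
          exact Finset.single_le_sum (f := fun i => N / p ^ i) (fun i _ => Nat.zero_le _)
            (Finset.mem_Ico.2 ⟨le_rfl, by omega⟩)
        · rw [Nat.div_eq_of_lt (by omega)]; exact Nat.zero_le _
      have h5 : (N : ℝ) / p - 1 ≤ N.factorial.factorization p := by
        have h6 : (N : ℝ) / p < ((N / p : ℕ) : ℝ) + 1 := by
          rw [← Nat.floor_div_eq_div (K := ℝ)]
          exact Nat.lt_floor_add_one _
        have h7 : ((N / p : ℕ) : ℝ) ≤ N.factorial.factorization p := by exact_mod_cast h4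
        linarith
      calc (N : ℝ) * (Real.log p / p) - Real.log p = (N / p - 1) * Real.log p := by ring
        _ ≤ _ := mul_le_mul_of_nonneg_right h5 hlog
    linarith
  -- upper bound for valuations
  have h2 : Real.log (N.factorial : ℝ) ≤ N * P + N * C := by
    rw [hfac]
    have h3 : ∑ p ∈ PP N, (N.factorial.factorization p : ℝ) * Real.log p ≤
        ∑ p ∈ PP N, ((N : ℝ) * (Real.log p / p) + N * (Real.log p / (p * (p - 1)))) := by
      refine Finset.sum_le_sum fun p hp => ?_
      rw [Finset.mem_filter] at hp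
      have h2' : (2 : ℝ) ≤ p := by exact_mod_cast hp.2.two_le
      have hlog : 0 ≤ Real.log p := Real.log_nonneg (by linarith)
      have h4 : (N.factorial.factorization p : ℝ) ≤ N / (p - 1) := by
        have h5 := Nat.factorization_factorial_le_div_pred hp.2 N
        have h6 : (N.factorial.factorization p : ℝ) ≤ ((N / (p - 1) : ℕ) : ℝ) := by exact_mod_cast h5
        refine h6.trans ?_
        have h7 : ((p - 1 : ℕ) : ℝ) = (p : ℝ) - 1 := by
          rw [Nat.cast_sub hp.2.one_lt.le]; norm_num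
        rw [← h7]
        exact Nat.cast_div_le
      have h8 : (N : ℝ) * (Real.log p / p) + N * (Real.log p / (p * (p - 1))) =
          N / (p - 1) * Real.log p := by
        have : (p : ℝ) ≠ 0 := by linarith
        have : (p : ℝ) - 1 ≠ 0 := by linarith
        field_simp
        ring
      rw [h8]
      exact mul_le_mul_of_nonneg_right h4 hlog
    refine h3.trans ?_
    rw [Finset.sum_add_distrib, ← Finset.mul_sum, ← Finset.mul_sum]
    have := hC N
    have := mul_le_mul_of_nonneg_left this hN'.le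
    linarith
  change |P - Real.log N| ≤ C + 2
  rw [abs_le]
  constructor
  · have h3 : (N : ℝ) * (Real.log N - 1) ≤ N * (P + C) := by linarith
    have := le_of_mul_le_mul_left h3 hN'
    linarith
  · have h3 : (N : ℝ) * (P - 2) ≤ N * Real.log N := by linarith
    have := le_of_mul_le_mul_left h3 hN'
    linarith

/-! ## Second Mertens theorem -/

/-- partial sums of `log p / p` -/
noncomputable def AA (N : ℕ) : ℝ := ∑ p ∈ PP N, Real.log p / p

lemma PP_succ (N : ℕ) : PP (N + 1) = if (N + 1).Prime then insert (N + 1) (PP N) else PP N := by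
  ext p
  split_ifs with h
  · simp only [Finset.mem_filter, Finset.mem_Icc, Finset.mem_insert]
    constructor
    · rintro ⟨⟨h1, h2⟩, h3⟩
      rcases Nat.lt_or_ge p (N + 1) with h4 | h4
      · right; exact ⟨⟨h1, by omega⟩, h3⟩
      · left; omega
    · rintro (h1 | ⟨⟨h1, h2⟩, h3⟩)
      · subst h1; exact ⟨⟨by omega, le_rfl⟩, h⟩
      · exact ⟨⟨h1, by omega⟩, h3⟩
  · simp only [Finset.mem_filter, Finset.mem_Icc]
    constructor
    · rintro ⟨⟨h1, h2⟩, h3⟩
      rcases Nat.lt_or_ge p (N + 1) with h4 | h4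
      · exact ⟨⟨h1, by omega⟩, h3⟩
      · have : p = N + 1 := by omega
        subst this; exact absurd h3 h
    · rintro ⟨⟨h1, h2⟩, h3⟩
      exact ⟨⟨h1, by omega⟩, h3⟩

lemma notMem_PP_succ (N : ℕ) : (N + 1) ∉ PP N := by
  simp only [Finset.mem_filter, Finset.mem_Icc]
  omega

lemma sum_PP_succ (f : ℕ → ℝ) (N : ℕ) :
    ∑ p ∈ PP (N + 1), f p = ∑ p ∈ PP N, f p + if (N + 1).Prime then f (N + 1) else 0 := by
  rw [PP_succ]
  split_ifs with h
  · rw [Finset.sum_insert (notMem_PP_succ N)]; ring
  · ring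

/-- summation by parts -/
lemma inv_eq (N : ℕ) (hN : 2 ≤ N) : ∑ p ∈ PP N, (1 : ℝ) / p =
    AA N / Real.log N +
      ∑ n ∈ Finset.Ico 2 N, AA n * (1 / Real.log n - 1 / Real.log ((n + 1 : ℕ) : ℝ)) := by
  induction N, hN using Nat.le_induction with
  | base =>
    have h : PP 2 = {2} := by decide
    unfold AA
    rw [h]
    have h2 : Real.log 2 ≠ 0 := by have := Real.log_two_gt_d9; linarith
    simp
    field_simp
  | succ N hN ih =>
    rw [Finset.sum_Ico_succ_top hN, sum_PP_succ, ih]
    have h1 : AA (N + 1) = AA N + if (N + 1).Prime then Real.log ((N + 1 : ℕ) : ℝ) / ((N + 1 : ℕ) : ℝ) else 0 := by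
      unfold AA
      rw [sum_PP_succ (fun p => Real.log p / p)]
    rw [h1]
    have h3 : (2 : ℝ) ≤ N := by exact_mod_cast hN
    have hl1 : Real.log N ≠ 0 := (Real.log_pos (by linarith)).ne'
    have hl2 : Real.log ((N + 1 : ℕ) : ℝ) ≠ 0 := by
      refine (Real.log_pos ?_).ne'
      push_cast; linarith
    have hN1 : ((N + 1 : ℕ) : ℝ) ≠ 0 := by positivity
    split_ifs with h
    · field_simp
      ring
    · field_simp
      ring

/-- Mertens with the error term `C / log a` -/
theorem mertens_ratio : ∃ C : ℝ, 0 ≤ C ∧ ∀ a b : ℕ, 2 ≤ a → a ≤ b →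
    |∑ p ∈ (Finset.Ioc a b).filter Nat.Prime, (1 : ℝ) / p
      - Real.log (Real.log b / Real.log a)| ≤ C / Real.log a := by
  obtain ⟨C, hC⟩ := mertens_log
  have hC0 : 0 ≤ C := (abs_nonneg _).trans (hC 1 le_rfl)
  have hl2 : (0 : ℝ) < Real.log 2 := by have := Real.log_two_gt_d9; linarith
  refine ⟨2 * C + 1 / Real.log 2, by positivity, fun a b ha hab => ?_⟩
  have hlogpos : ∀ n : ℕ, 2 ≤ n → 0 < Real.log n := fun n hn =>
    Real.log_pos (by exact_mod_cast (by omega : 1 < n))
  have hA : ∀ n : ℕ, 2 ≤ n → |AA n - Real.log n| ≤ C := fun n hn => hC n (by omega)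
  have hla := hlogpos a ha
  have hlb := hlogpos b (by omega)
  have hl2a : Real.log 2 ≤ Real.log a := Real.log_le_log (by norm_num) (by exact_mod_cast ha)
  -- the sum as a difference
  have hsplit : ∑ p ∈ (Finset.Ioc a b).filter Nat.Prime, (1 : ℝ) / p
      = ∑ p ∈ PP b, (1 : ℝ) / p - ∑ p ∈ PP a, (1 : ℝ) / p := by
    have h1 : PP b = PP a ∪ (Finset.Ioc a b).filter Nat.Prime := by
      ext p
      simp only [Finset.mem_union, Finset.mem_filter, Finset.mem_Icc, Finset.mem_Ioc]
      constructor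
      · rintro ⟨⟨h1, h2⟩, h3⟩
        rcases le_or_gt p a with h | h
        · left; exact ⟨⟨h1, h⟩, h3⟩
        · right; exact ⟨⟨h, h2⟩, h3⟩
      · rintro (⟨⟨h1, h2⟩, h3⟩ | ⟨⟨h1, h2⟩, h3⟩)
        · exact ⟨⟨h1, by omega⟩, h3⟩
        · exact ⟨⟨by omega, h2⟩, h3⟩
    have h2 : Disjoint (PP a) ((Finset.Ioc a b).filter Nat.Prime) := by
      rw [Finset.disjoint_left]
      intro p hp hq
      simp only [Finset.mem_filter, Finset.mem_Icc, Finset.mem_Ioc] at hp hq
      omega
    rw [h1, Finset.sum_union h2]; ring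
  set d : ℕ → ℝ := fun n => 1 / Real.log n - 1 / Real.log ((n + 1 : ℕ) : ℝ) with hd
  have hd0 : ∀ n : ℕ, 2 ≤ n → 0 ≤ d n := by
    intro n hn
    have h1 := hlogpos n hn
    have h2 : Real.log n ≤ Real.log ((n + 1 : ℕ) : ℝ) :=
      Real.log_le_log (by exact_mod_cast (by omega : 0 < n)) (by exact_mod_cast Nat.le_succ n)
    have := one_div_le_one_div_of_le h1 h2
    simp only [hd]; linarith
  have hIco : ∑ n ∈ Finset.Ico 2 b, AA n * d n
      = ∑ n ∈ Finset.Ico 2 a, AA n * d n + ∑ n ∈ Finset.Ico a b, AA n * d n :=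
    (Finset.sum_Ico_consecutive _ ha hab).symm
  have hS : ∑ p ∈ (Finset.Ioc a b).filter Nat.Prime, (1 : ℝ) / p
      = AA b / Real.log b - AA a / Real.log a + ∑ n ∈ Finset.Ico a b, AA n * d n := by
    rw [hsplit, inv_eq b (by omega), inv_eq a ha]
    change AA b / Real.log b + ∑ n ∈ Finset.Ico 2 b, AA n * d n
      - (AA a / Real.log a + ∑ n ∈ Finset.Ico 2 a, AA n * d n) = _
    rw [hIco]; ring
  have hdsum : ∑ n ∈ Finset.Ico a b, d n = 1 / Real.log a - 1 / Real.log b := by
    have := Finset.sum_Ico_sub (fun n : ℕ => -(1 / Real.log (n : ℝ))) hab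
    have h2 : ∑ n ∈ Finset.Ico a b, d n =
        ∑ i ∈ Finset.Ico a b, (-(1 / Real.log ((i + 1 : ℕ) : ℝ)) - -(1 / Real.log (i : ℝ))) := by
      refine Finset.sum_congr rfl fun n _ => ?_
      simp only [hd]; ring
    rw [h2, this]; ring
  have hlogsum : Real.log (Real.log b / Real.log a)
      = ∑ n ∈ Finset.Ico a b, (Real.log (Real.log ((n + 1 : ℕ) : ℝ)) - Real.log (Real.log (n : ℝ))) := by
    have := Finset.sum_Ico_sub (fun n : ℕ => Real.log (Real.log (n : ℝ))) hab
    rw [this, Real.log_div hlb.ne' hla.ne']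
  -- errors
  set e : ℕ → ℝ := fun n => AA n - Real.log n with he
  have hAe : ∀ n, AA n = Real.log n + e n := fun n => by simp only [he]; ring
  have hmain : ∑ p ∈ (Finset.Ioc a b).filter Nat.Prime, (1 : ℝ) / p
      - Real.log (Real.log b / Real.log a)
      = (e b / Real.log b - e a / Real.log a + ∑ n ∈ Finset.Ico a b, e n * d n)
        + ∑ n ∈ Finset.Ico a b, (Real.log n * d n
          - (Real.log (Real.log ((n + 1 : ℕ) : ℝ)) - Real.log (Real.log (n : ℝ)))) := by
    have h1 : ∑ n ∈ Finset.Ico a b, AA n * d n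
        = ∑ n ∈ Finset.Ico a b, Real.log n * d n + ∑ n ∈ Finset.Ico a b, e n * d n := by
      rw [← Finset.sum_add_distrib]
      refine Finset.sum_congr rfl fun n _ => ?_
      rw [hAe n]; ring
    have h2 : ∑ n ∈ Finset.Ico a b, (Real.log n * d n
          - (Real.log (Real.log ((n + 1 : ℕ) : ℝ)) - Real.log (Real.log (n : ℝ))))
        = ∑ n ∈ Finset.Ico a b, Real.log n * d n - ∑ n ∈ Finset.Ico a b,
          (Real.log (Real.log ((n + 1 : ℕ) : ℝ)) - Real.log (Real.log (n : ℝ))) :=
      Finset.sum_sub_distrib _ _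
    rw [h2, hS, hlogsum, hAe b, hAe a, h1, add_div, add_div, div_self hlb.ne', div_self hla.ne']
    ring
  rw [hmain]
  have herr1 : |e b / Real.log b - e a / Real.log a + ∑ n ∈ Finset.Ico a b, e n * d n|
      ≤ 2 * C / Real.log a := by
    have h1 : |e b / Real.log b| ≤ C / Real.log b := by
      rw [abs_div, abs_of_pos hlb]
      exact div_le_div_of_nonneg_right (hA b (by omega)) hlb.le
    have h2 : |e a / Real.log a| ≤ C / Real.log a := by
      rw [abs_div, abs_of_pos hla]
      exact div_le_div_of_nonneg_right (hA a ha) hla.le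
    have h3 : |∑ n ∈ Finset.Ico a b, e n * d n| ≤ C * (1 / Real.log a - 1 / Real.log b) := by
      rw [← hdsum, Finset.mul_sum]
      refine (Finset.abs_sum_le_sum_abs _ _).trans (Finset.sum_le_sum fun n hn => ?_)
      rw [Finset.mem_Ico] at hn
      rw [abs_mul, abs_of_nonneg (hd0 n (by omega))]
      exact mul_le_mul_of_nonneg_right (hA n (by omega)) (hd0 n (by omega))
    have h4 : |e b / Real.log b - e a / Real.log a + ∑ n ∈ Finset.Ico a b, e n * d n|
        ≤ |e b / Real.log b| + |e a / Real.log a| + |∑ n ∈ Finset.Ico a b, e n * d n| := by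
      refine (abs_add_le _ _).trans ?_
      have := abs_sub (e b / Real.log b) (e a / Real.log a)
      linarith
    refine h4.trans ?_
    have h5 : C / Real.log b + C / Real.log a + C * (1 / Real.log a - 1 / Real.log b)
        = 2 * C / Real.log a := by ring
    linarith
  have herr2 : |∑ n ∈ Finset.Ico a b, (Real.log n * d n
          - (Real.log (Real.log ((n + 1 : ℕ) : ℝ)) - Real.log (Real.log (n : ℝ))))|
      ≤ (1 / Real.log 2) / Real.log a := by
    have hterm : ∀ n ∈ Finset.Ico a b, |Real.log n * d n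
          - (Real.log (Real.log ((n + 1 : ℕ) : ℝ)) - Real.log (Real.log (n : ℝ)))|
        ≤ (1 / Real.log a ^ 2) * (1 / ((n : ℝ) - 1) - 1 / (n : ℝ)) := by
      intro n hn
      rw [Finset.mem_Ico] at hn
      have hn2 : 2 ≤ n := by omega
      have hL := hlogpos n hn2
      have hL' := hlogpos (n + 1) (by omega)
      have hnR : (2 : ℝ) ≤ n := by exact_mod_cast hn2
      set L := Real.log (n : ℝ)
      set L' := Real.log ((n + 1 : ℕ) : ℝ)
      have hLL : L ≤ L' := Real.log_le_log (by linarith) (by push_cast; linarith)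
      have hdiff : L' - L ≤ 1 / n := by
        have h1 : L' - L = Real.log (((n + 1 : ℕ) : ℝ) / n) := by
          rw [Real.log_div (by positivity) (by positivity)]
        rw [h1]
        have h2 := Real.log_le_sub_one_of_pos (show 0 < ((n + 1 : ℕ) : ℝ) / n by positivity)
        have h3 : ((n + 1 : ℕ) : ℝ) / n - 1 = 1 / n := by push_cast; field_simp; ring
        linarith
      have h1 : L * d n = 1 - L / L' := by
        change L * (1 / L - 1 / L') = _
        field_simp
      have h2 : Real.log L' - Real.log L = Real.log (L' / L) :=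
        (Real.log_div hL'.ne' hL.ne').symm
      have h3 : Real.log (L' / L) ≤ L' / L - 1 := Real.log_le_sub_one_of_pos (by positivity)
      have h4 : 1 - L / L' ≤ Real.log (L' / L) := by
        have := Real.log_le_sub_one_of_pos (show 0 < L / L' by positivity)
        have h5 : Real.log (L / L') = - Real.log (L' / L) := by
          rw [← Real.log_inv, inv_div]
        linarith
      rw [h1, h2]
      have h5 : |1 - L / L' - Real.log (L' / L)| = Real.log (L' / L) - (1 - L / L') := by
        rw [abs_sub_comm, abs_of_nonneg]; linarith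
      rw [h5]
      have hLa : Real.log a ≤ L := Real.log_le_log (by exact_mod_cast (by omega : 0 < a))
        (by exact_mod_cast hn.1)
      calc Real.log (L' / L) - (1 - L / L') ≤ L' / L - 1 - (1 - L / L') := by linarith
        _ = (L' - L) ^ 2 / (L * L') := by field_simp
        _ ≤ (1 / n) ^ 2 / (L * L) := by
            have : 0 ≤ L' - L := by linarith
            gcongr
        _ ≤ (1 / n) ^ 2 / (Real.log a * Real.log a) := by gcongr
        _ = (1 / Real.log a ^ 2) * (1 / (n : ℝ) ^ 2) := by field_simp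
        _ ≤ (1 / Real.log a ^ 2) * (1 / ((n : ℝ) - 1) - 1 / (n : ℝ)) := by
            apply mul_le_mul_of_nonneg_left _ (by positivity)
            have h6 : 1 / ((n : ℝ) - 1) - 1 / (n : ℝ) = 1 / (((n : ℝ) - 1) * n) := by
              have : (n : ℝ) - 1 ≠ 0 := by linarith
              field_simp
              ring
            rw [h6]
            apply one_div_le_one_div_of_le
            · nlinarith
            · nlinarith
    refine (Finset.abs_sum_le_sum_abs _ _).trans ((Finset.sum_le_sum hterm).trans ?_)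
    rw [← Finset.mul_sum]
    have htel : ∑ n ∈ Finset.Ico a b, (1 / ((n : ℝ) - 1) - 1 / (n : ℝ))
        = 1 / ((a : ℝ) - 1) - 1 / ((b : ℝ) - 1) := by
      have := Finset.sum_Ico_sub (fun n : ℕ => -(1 / ((n : ℝ) - 1))) hab
      have h2 : ∑ n ∈ Finset.Ico a b, (1 / ((n : ℝ) - 1) - 1 / (n : ℝ)) =
          ∑ i ∈ Finset.Ico a b, (-(1 / (((i + 1 : ℕ) : ℝ) - 1)) - -(1 / ((i : ℝ) - 1))) := by
        refine Finset.sum_congr rfl fun n _ => ?_
        push_cast; ring
      rw [h2, this]; ring
    rw [htel]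
    have haR : (2 : ℝ) ≤ a := by exact_mod_cast ha
    have hbR : (2 : ℝ) ≤ b := by exact_mod_cast (by omega : 2 ≤ b)
    have h1 : 1 / ((a : ℝ) - 1) ≤ 1 := by
      rw [div_le_one (by linarith)]; linarith
    have h2 : 0 ≤ 1 / ((b : ℝ) - 1) := by
      apply div_nonneg (by norm_num); linarith
    calc (1 / Real.log a ^ 2) * (1 / ((a : ℝ) - 1) - 1 / ((b : ℝ) - 1))
        ≤ (1 / Real.log a ^ 2) * 1 := by
          apply mul_le_mul_of_nonneg_left _ (by positivity)
          linarith
      _ = (1 / Real.log a) / Real.log a := by field_simp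
      _ ≤ (1 / Real.log 2) / Real.log a := by gcongr
  refine (abs_add_le _ _).trans ?_
  have : (2 * C + 1 / Real.log 2) / Real.log a = 2 * C / Real.log a + (1 / Real.log 2) / Real.log a := by
    ring
  rw [this]
  linarith

end Pool.Agent.Helper923.HMertens
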