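import Mathlib
import Pool.Agent.Helper923.HKey
import Pool.Agent.Helper923.HMertens

set_option autoImplicit false

namespace Pool.Agent.Helper923.HCount

open Finset Pool.Agent.Helper923.HRho Pool.Agent.Helper923.HKey Pool.Agent.Helper923.HMertens

/-- integers in `[1,n]` divisible by no element of `A` -/
def free (A : Finset ℕ) (n : ℕ) : Finset ℕ := (Icc 1 n).filter (fun m => ∀ a ∈ A, ¬ a ∣ m)

/-- their number -/
def F (A : Finset ℕ) (n : ℕ) : ℕ := (free A n).card

lemma mem_free {A : Finset ℕ} {n m : ℕ} :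
    m ∈ free A n ↔ (1 ≤ m ∧ m ≤ n) ∧ ∀ a ∈ A, ¬ a ∣ m := by
  simp only [free, mem_filter, mem_Icc]

lemma sum_log_primeFactors_le {m : ℕ} (hm : 1 ≤ m) :
    ∑ p ∈ m.primeFactors, Real.log p ≤ Real.log m := by
  rw [← Real.log_prod (fun p hp => by
    have := (Nat.prime_of_mem_primeFactors hp).pos
    positivity)]
  apply Real.log_le_log
  · apply prod_pos
    intro p hp
    have := (Nat.prime_of_mem_primeFactors hp).pos
    exact_mod_cast this
  · have h := Nat.le_of_dvd (by omega) (Nat.prod_primeFactors_dvd m)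
    have h' : ((∏ p ∈ m.primeFactors, p : ℕ) : ℝ) ≤ m := Nat.cast_le.mpr h
    rwa [Nat.cast_prod] at h'

/-- the logarithmic inequality -/
theorem log_ineq (A : Finset ℕ) (n : ℕ) (G : Finset ℕ)
    (hG : ∀ p ∈ G, 1 ≤ p ∧ p ≤ n ∧ p.Prime ∧ ∀ a ∈ A, Nat.Coprime a p) :
    ∑ p ∈ G, Real.log p * F A (n / p) ≤ F A n * Real.log n := by
  classical
  have h1 : ∀ m ∈ free A n, ∑ p ∈ G.filter (fun p => p ∣ m), Real.log p ≤ Real.log n := by
    intro m hm
    rw [mem_free] at hm
    have h2 : ∑ p ∈ G.filter (fun p => p ∣ m), Real.log p ≤ ∑ p ∈ m.primeFactors, Real.log p := by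
      apply sum_le_sum_of_subset_of_nonneg
      · intro p hp
        rw [mem_filter] at hp
        rw [Nat.mem_primeFactors]
        exact ⟨(hG p hp.1).2.2.1, hp.2, by omega⟩
      · intro p hp _
        have := (Nat.prime_of_mem_primeFactors hp).one_lt.le
        exact Real.log_nonneg (by exact_mod_cast this)
    have h3 : Real.log (m : ℝ) ≤ Real.log n := by
      apply Real.log_le_log
      · exact_mod_cast hm.1.1
      · exact_mod_cast hm.1.2
    linarith [sum_log_primeFactors_le hm.1.1]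
  have h2 : ∑ m ∈ free A n, ∑ p ∈ G.filter (fun p => p ∣ m), Real.log p ≤ F A n * Real.log n := by
    have := sum_le_sum h1
    rw [sum_const, nsmul_eq_mul] at this
    exact this
  refine le_trans ?_ h2
  have h3 : ∑ m ∈ free A n, ∑ p ∈ G.filter (fun p => p ∣ m), Real.log p
      = ∑ p ∈ G, ∑ m ∈ (free A n).filter (fun m => p ∣ m), Real.log p := by
    apply sum_comm'
    intro m p
    simp only [mem_filter]
    tauto
  rw [h3]
  apply sum_le_sum
  intro p hp
  obtain ⟨hp1, hpn, hpp, hpc⟩ := hG p hp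
  rw [sum_const, nsmul_eq_mul, mul_comm]
  have hlog : 0 ≤ Real.log (p : ℝ) := Real.log_nonneg (by exact_mod_cast hp1)
  apply mul_le_mul_of_nonneg_right _ hlog
  have : F A (n / p) ≤ ((free A n).filter (fun m => p ∣ m)).card := by
    unfold F
    apply card_le_card_of_injOn (fun m => p * m)
    · intro m hm
      rw [mem_coe, mem_free] at hm
      simp only [coe_filter, Set.mem_ofPred_eq, mem_free]
      refine ⟨⟨⟨?_, ?_⟩, ?_⟩, Dvd.intro m rfl⟩
      · exact Nat.mul_pos hpp.pos hm.1.1
      · have := Nat.mul_le_of_le_div p m n hm.1.2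
        rwa [Nat.mul_comm] at this
      · intro a ha hdvd
        exact hm.2 a ha ((hpc a ha).dvd_of_dvd_mul_left hdvd)
    · intro x _ y _ hxy
      exact Nat.eq_of_mul_eq_mul_left hpp.pos hxy
  exact_mod_cast this

/-- adding an element coprime to the others -/
lemma F_insert (S : Finset ℕ) (s : ℕ) (hs : 1 ≤ s) (hc : ∀ a ∈ S, Nat.Coprime a s) (n : ℕ) :
    F (insert s S) n + F S (n / s) = F S n := by
  classical
  have h1 : (free S n).filter (fun m => s ∣ m) = (free S (n / s)).image (fun m => s * m) := by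
    ext m
    simp only [mem_filter, mem_image, mem_free]
    constructor
    · rintro ⟨⟨⟨h1, h2⟩, h3⟩, ⟨k, rfl⟩⟩
      refine ⟨k, ⟨⟨?_, ?_⟩, ?_⟩, rfl⟩
      · exact Nat.pos_of_mul_pos_left h1
      · rw [Nat.le_div_iff_mul_le (by omega), Nat.mul_comm]; exact h2
      · intro a ha hd
        exact h3 a ha (hd.mul_left s)
    · rintro ⟨k, ⟨⟨h1, h2⟩, h3⟩, rfl⟩
      refine ⟨⟨⟨?_, ?_⟩, ?_⟩, Dvd.intro k rfl⟩
      · exact Nat.mul_pos (by omega) h1
      · have := Nat.mul_le_of_le_div s k n h2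
        rwa [Nat.mul_comm] at this
      · intro a ha hd
        exact h3 a ha ((hc a ha).dvd_of_dvd_mul_left hd)
  have h2 : free (insert s S) n = (free S n).filter (fun m => ¬ s ∣ m) := by
    ext m
    simp only [mem_filter, mem_free, mem_insert]
    constructor
    · rintro ⟨h1, h2⟩
      exact ⟨⟨h1, fun a ha => h2 a (Or.inr ha)⟩, h2 s (Or.inl rfl)⟩
    · rintro ⟨⟨h1, h2⟩, h3⟩
      refine ⟨h1, ?_⟩
      rintro a (rfl | ha)
      · exact h3
      · exact h2 a ha
  have h3 : ((free S (n / s)).image (fun m => s * m)).card = (free S (n / s)).card := by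
    apply card_image_of_injective
    intro x y hxy
    exact Nat.eq_of_mul_eq_mul_left (by omega) hxy
  unfold F
  rw [h2, ← h3, ← h1]
  have := card_filter_add_card_filter_not (s := free S n) (fun m => s ∣ m)
  omega

lemma F_empty (n : ℕ) : F ∅ n = n := by
  simp [F, free]

/-- density of the integers free of `S` -/
noncomputable def kap (S : Finset ℕ) : ℝ := ∏ s ∈ S, (1 - 1 / (s : ℝ))

lemma kap_pos {S : Finset ℕ} (hS : ∀ s ∈ S, 2 ≤ s) : 0 < kap S := by
  apply prod_pos
  intro s hs
  have h2 : (2 : ℝ) ≤ s := by exact_mod_cast hS s hs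
  have : 1 / (s : ℝ) ≤ 1 / 2 := one_div_le_one_div_of_le (by norm_num) h2
  linarith

lemma kap_le_one {S : Finset ℕ} (hS : ∀ s ∈ S, 2 ≤ s) : kap S ≤ 1 := by
  apply prod_le_one
  · intro s hs
    have h2 : (2 : ℝ) ≤ s := by exact_mod_cast hS s hs
    have : 1 / (s : ℝ) ≤ 1 / 2 := one_div_le_one_div_of_le (by norm_num) h2
    linarith
  · intro s _
    have : 0 ≤ 1 / (s : ℝ) := by positivity
    linarith

theorem F_density (S : Finset ℕ) : (∀ s ∈ S, 2 ≤ s) →
    (∀ a ∈ S, ∀ b ∈ S, a ≠ b → Nat.Coprime a b) →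
    ∃ M : ℝ, 0 ≤ M ∧ ∀ n : ℕ, |(F S n : ℝ) - kap S * n| ≤ M := by
  classical
  induction S using Finset.induction_on with
  | empty =>
    intro _ _
    refine ⟨0, le_rfl, fun n => ?_⟩
    rw [F_empty]
    simp [kap]
  | insert s S hs ih =>
    intro h1 h2
    obtain ⟨M, hM0, hM⟩ := ih (fun a ha => h1 a (mem_insert_of_mem ha))
      (fun a ha b hb => h2 a (mem_insert_of_mem ha) b (mem_insert_of_mem hb))
    have hs2 : 2 ≤ s := h1 s (mem_insert_self s S)
    have hc : ∀ a ∈ S, Nat.Coprime a s := by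
      intro a ha
      apply h2 a (mem_insert_of_mem ha) s (mem_insert_self s S)
      rintro rfl
      exact hs ha
    refine ⟨2 * M + 1, by positivity, fun n => ?_⟩
    have h3 := F_insert S s (by omega) hc n
    have h3' : (F (insert s S) n : ℝ) = F S n - F S (n / s) := by
      have : (F (insert s S) n : ℝ) + F S (n / s) = F S n := by exact_mod_cast h3
      linarith
    have hk : kap (insert s S) = (1 - 1 / (s : ℝ)) * kap S := prod_insert hs
    have h4 := hM n
    have h5 := hM (n / s)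
    have hs0 : (0 : ℝ) < s := by
      have : 0 < s := by omega
      exact_mod_cast this
    have h6 : ((n / s : ℕ) : ℝ) ≤ n / s := Nat.cast_div_le
    have h7 : (n : ℝ) / s - 1 ≤ ((n / s : ℕ) : ℝ) := by
      have : (n : ℝ) / s < ((n / s : ℕ) : ℝ) + 1 := by
        rw [← Nat.floor_div_eq_div (K := ℝ)]
        exact Nat.lt_floor_add_one _
      linarith
    have hk0 : 0 ≤ kap S := (kap_pos (fun a ha => h1 a (mem_insert_of_mem ha))).le
    have hk1 : kap S ≤ 1 := kap_le_one (fun a ha => h1 a (mem_insert_of_mem ha))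
    rw [h3', hk]
    rw [abs_le] at h4 h5 ⊢
    have h8 : kap S * ((n / s : ℕ) : ℝ) ≤ kap S * (n / s) := mul_le_mul_of_nonneg_left h6 hk0
    have h9 : kap S * ((n : ℝ) / s - 1) ≤ kap S * ((n / s : ℕ) : ℝ) :=
      mul_le_mul_of_nonneg_left h7 hk0
    have h10 : (1 - 1 / (s : ℝ)) * kap S * n = kap S * n - kap S * (n / s) := by ring
    rw [h10]
    constructor <;> linarith

end Pool.Agent.Helper923.HCount
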