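import Mathlib
import Pool.Agent.Helper923.HCount

set_option autoImplicit false

namespace Pool.Agent.Helper923.HB

open Finset Pool.Agent.Helper923.HRho Pool.Agent.Helper923.HKey Pool.Agent.Helper923.HMertens

noncomputable def rr (P : Finset ℕ) (q : ℕ) : ℝ := if q ∈ P then 1 / (q : ℝ) else 0

noncomputable def mm (P : Finset ℕ) (n : ℕ) : ℝ := rho (E (rr P) (n + 1))

lemma rr_nonneg (P : Finset ℕ) (q : ℕ) : 0 ≤ rr P q := by
  unfold rr; split_ifs <;> positivity

lemma rr_pos {P : Finset ℕ} {q : ℕ} (h : 0 < rr P q) : q ∈ P := by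
  by_contra hq
  simp [rr, hq] at h

lemma E_diff (P : Finset ℕ) (a b : ℕ) (hab : a ≤ b) :
    E (rr P) b = E (rr P) a * Real.exp (∑ q ∈ Ico a b, rr P q) := by
  unfold E W
  rw [← Real.exp_add, sum_range_add_sum_Ico _ hab]

/-- ratio condition from Mertens -/
theorem ratio_cond : ∃ C : ℝ, 0 ≤ C ∧ ∀ P : Finset ℕ, (∀ p ∈ P, p.Prime) →
    ∀ j i : ℕ, j ≤ i → 0 < rr P j → 0 < rr P i →
      Real.log j / E (rr P) j ≤ Real.log i / E (rr P) (i + 1) + C := by
  obtain ⟨C, hC0, hC⟩ := mertens_ratio
  refine ⟨C + 1, by positivity, fun P hP j i hji hj hi => ?_⟩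
  have hjp := hP j (rr_pos hj)
  have hip := hP i (rr_pos hi)
  have hlj : 0 < Real.log j := Real.log_pos (by exact_mod_cast hjp.one_lt)
  have hli : 0 < Real.log i := Real.log_pos (by exact_mod_cast hip.one_lt)
  have hj0 : (0 : ℝ) < j := by exact_mod_cast hjp.pos
  have h1 := E_diff P j (i + 1) (by omega)
  have h2 : ∑ q ∈ Ico j (i + 1), rr P q ≤ 1 / j + ∑ p ∈ (Ioc j i).filter Nat.Prime, (1 : ℝ) / p := by
    rw [sum_eq_sum_Ico_succ_bot (by omega)]
    have h3 : rr P j ≤ 1 / j := by
      unfold rr; split_ifs <;> [exact le_rfl; positivity]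
    have h4 : ∑ q ∈ Ico (j + 1) (i + 1), rr P q ≤ ∑ p ∈ (Ioc j i).filter Nat.Prime, (1 : ℝ) / p := by
      rw [sum_filter]
      have : Ioc j i = Ico (j + 1) (i + 1) := by
        ext x; simp only [mem_Ioc, mem_Ico]; omega
      rw [this]
      apply sum_le_sum
      intro q _
      unfold rr
      by_cases hq : q ∈ P
      · rw [if_pos hq, if_pos (hP q hq)]
      · rw [if_neg hq]; split_ifs <;> positivity
    linarith
  have h3 := (abs_le.mp (hC j i hjp.two_le hji)).2
  have h4 : (1 : ℝ) / j ≤ 1 / Real.log j := by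
    apply one_div_le_one_div_of_le hlj
    have := Real.log_le_sub_one_of_pos hj0
    linarith
  have h5 : ∑ q ∈ Ico j (i + 1), rr P q ≤ Real.log (Real.log i / Real.log j) + (C + 1) / Real.log j := by
    have : (C + 1) / Real.log j = C / Real.log j + 1 / Real.log j := by ring
    linarith
  have hEj := E_pos (rr P) j
  have hE1 := one_le_E (rr_nonneg P) j
  have h6 : E (rr P) (i + 1) ≤ E (rr P) j * ((Real.log i / Real.log j)
      * Real.exp ((C + 1) / Real.log j)) := by
    rw [h1]
    apply mul_le_mul_of_nonneg_left _ hEj.le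
    calc Real.exp (∑ q ∈ Ico j (i + 1), rr P q)
        ≤ Real.exp (Real.log (Real.log i / Real.log j) + (C + 1) / Real.log j) :=
          Real.exp_le_exp.mpr h5
      _ = _ := by rw [Real.exp_add, Real.exp_log (by positivity)]
  have hEi := E_pos (rr P) (i + 1)
  -- lower bound
  have h7 : (Real.log j / E (rr P) j) * Real.exp (-((C + 1) / Real.log j))
      ≤ Real.log i / E (rr P) (i + 1) := by
    rw [le_div_iff₀ hEi]
    calc (Real.log j / E (rr P) j) * Real.exp (-((C + 1) / Real.log j)) * E (rr P) (i + 1)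
        ≤ (Real.log j / E (rr P) j) * Real.exp (-((C + 1) / Real.log j)) *
          (E (rr P) j * ((Real.log i / Real.log j) * Real.exp ((C + 1) / Real.log j))) := by
          gcongr
      _ = Real.log i * (Real.exp (-((C + 1) / Real.log j)) * Real.exp ((C + 1) / Real.log j)) := by
          field_simp
      _ = Real.log i := by rw [← Real.exp_add]; simp
  have h8 : 1 - (C + 1) / Real.log j ≤ Real.exp (-((C + 1) / Real.log j)) := by
    have := Real.add_one_le_exp (-((C + 1) / Real.log j))
    linarith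
  have h9 : (Real.log j / E (rr P) j) * (1 - (C + 1) / Real.log j)
      ≤ (Real.log j / E (rr P) j) * Real.exp (-((C + 1) / Real.log j)) := by
    gcongr
  have h10 : (Real.log j / E (rr P) j) * (1 - (C + 1) / Real.log j)
      = Real.log j / E (rr P) j - (C + 1) / E (rr P) j := by
    field_simp
  have h11 : (C + 1) / E (rr P) j ≤ C + 1 := div_le_self (by positivity) hE1
  linarith

lemma rho_max_one (x : ℝ) : rho (max 1 x) = rho x := by
  rcases le_total x 1 with h | h
  · rw [max_eq_left h, rho_one h, rho_one le_rfl]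
  · rw [max_eq_right h]

lemma rho_min_add_max (x y : ℝ) : rho (min x y) + rho (max x y) = rho x + rho y := by
  rcases le_total x y with h | h
  · rw [min_eq_left h, max_eq_right h]
  · rw [min_eq_right h, max_eq_left h]; ring

/-- the main inequality for `m` -/
theorem B_ineq : ∃ CB : ℝ, 0 ≤ CB ∧ ∀ P : Finset ℕ, (∀ p ∈ P, p.Prime) → ∀ n : ℕ, 1 ≤ n →
    mm P n * Real.log n - CB ≤
      ∑ p ∈ (PP n).filter (fun p => p ∉ P), (Real.log p / p) * mm P (n / p) := by
  classical
  obtain ⟨C1, hC10, hC1⟩ := ratio_cond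
  obtain ⟨C0, hC0⟩ := mertens_log
  have hC00 : 0 ≤ C0 := (abs_nonneg _).trans (hC0 1 le_rfl)
  refine ⟨C1 + 3 * C0, by positivity, fun P hP n hn => ?_⟩
  set r := rr P with hr
  have hr0 : ∀ i, 0 ≤ r i := rr_nonneg P
  set v := E r (n + 1) with hv
  set G := (PP n).filter (fun p => p ∉ P) with hG
  set LP : ℝ := ∑ p ∈ (PP n).filter (fun p => p ∈ P), Real.log p / p with hLP
  have hkey := key r (fun q => Real.log q) hr0 (fun i => Real.log_natCast_nonneg i) (n + 1) C1 hC10
    (fun j i hji _ hj hi => hC1 P hP j i hji hj hi)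
  -- the sum of t r
  have hsum_tr : ∑ i ∈ range (n + 1), Real.log i * r i = LP := by
    rw [hLP]
    have h1 : (PP n).filter (fun p => p ∈ P) = (range (n + 1)).filter (fun p => p ∈ P) := by
      ext p
      simp only [mem_filter, mem_Icc, mem_range]
      constructor
      · rintro ⟨⟨⟨h1, h2⟩, h3⟩, h4⟩; exact ⟨by omega, h4⟩
      · rintro ⟨h1, h2⟩
        exact ⟨⟨⟨(hP p h2).one_lt.le, by omega⟩, hP p h2⟩, h2⟩
    rw [h1, sum_filter]
    apply sum_congr rfl
    intro q _
    simp only [hr, rr]
    split_ifs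
    · ring
    · ring
  rw [hsum_tr] at hkey
  set D : ℕ → ℝ := fun q => rho (E r q) - rho (E r (q + 1)) with hD
  set Db : ℕ → ℝ := fun q => rho (max (E r q) (v - 1)) - rho (max (E r (q + 1)) (v - 1)) with hDb
  have hEm := E_mono hr0
  have hDb0 : ∀ q, 0 ≤ Db q := by
    intro q
    have := rho_anti (max_le_max_right (v - 1) (hEm (show q ≤ q + 1 by omega)))
    simp only [hDb]; linarith
  have hDbD : ∀ q, Db q ≤ D q := by
    intro q
    have h1 := rho_min_add_max (E r q) (v - 1)
    have h2 := rho_min_add_max (E r (q + 1)) (v - 1)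
    have h3 := rho_anti (min_le_min_right (v - 1) (hEm (show q ≤ q + 1 by omega)))
    simp only [hDb, hD]; linarith
  have hD0 : ∀ q, 0 ≤ D q := fun q => (hDb0 q).trans (hDbD q)
  -- m (n / p) in terms of m n
  have hmp : ∀ p ∈ G, mm P (n / p) = mm P n + ∑ q ∈ (range (n + 1)).filter (fun q => n / p < q), D q := by
    intro p _
    have hle : n / p + 1 ≤ n + 1 := by
      have := Nat.div_le_self n p
      omega
    have h1 : (range (n + 1)).filter (fun q => n / p < q) = Ico (n / p + 1) (n + 1) := by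
      ext q; simp only [mem_filter, mem_range, mem_Ico]; omega
    rw [h1]
    have h2 := sum_Ico_sub (fun q => -rho (E r q)) hle
    have h3 : ∑ q ∈ Ico (n / p + 1) (n + 1), D q
        = ∑ i ∈ Ico (n / p + 1) (n + 1), (-rho (E r (i + 1)) - -rho (E r i)) := by
      apply sum_congr rfl; intro q _; simp only [hD]; ring
    rw [h3, h2]
    simp only [mm]
    ring
  have hmain : ∑ p ∈ G, (Real.log p / p) * mm P (n / p)
      = mm P n * ∑ p ∈ G, Real.log p / p
        + ∑ q ∈ range (n + 1), D q * ∑ p ∈ G.filter (fun p => n / p < q), Real.log p / p := by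
    have h1 : ∑ p ∈ G, (Real.log p / p) * mm P (n / p)
        = ∑ p ∈ G, (mm P n * (Real.log p / p)
          + ∑ q ∈ (range (n + 1)).filter (fun q => n / p < q), D q * (Real.log p / p)) := by
      apply sum_congr rfl
      intro p hp
      rw [hmp p hp, mul_add, ← sum_mul]
      ring
    rw [h1, sum_add_distrib, ← mul_sum]
    congr 1
    have h2 : ∀ q ∈ range (n + 1), D q * ∑ p ∈ G.filter (fun p => n / p < q), Real.log p / p
        = ∑ p ∈ G.filter (fun p => n / p < q), D q * (Real.log p / p) := fun q _ => mul_sum _ _ _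
    rw [sum_congr rfl h2]
    apply sum_comm'
    intro p q
    simp only [mem_filter]
    tauto
  rw [hmain]
  have hlogp : ∀ p ∈ G, 0 ≤ Real.log p / p := by
    intro p _
    have := Real.log_natCast_nonneg p
    positivity
  -- total over primes
  have hLam : ∀ k : ℕ, 1 ≤ k → |∑ p ∈ PP k, Real.log p / p - Real.log k| ≤ C0 := hC0
  have hsplit : ∑ p ∈ G, Real.log p / p = ∑ p ∈ PP n, Real.log p / p - LP := by
    have := sum_filter_add_sum_filter_not (PP n) (fun p => p ∈ P) (fun p => Real.log p / (p : ℝ))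
    rw [hLP, hG]
    linarith
  have hLP0 : 0 ≤ LP := by
    apply sum_nonneg
    intro p _
    have := Real.log_natCast_nonneg p
    positivity
  -- lower bound for the inner sums
  have hinner : ∀ q ∈ range (n + 1), 0 < r q →
      Real.log q - 2 * C0 - LP ≤ ∑ p ∈ G.filter (fun p => n / p < q), Real.log p / p := by
    intro q hq hrq
    rw [mem_range] at hq
    have hqP := rr_pos hrq
    have hqp := hP q hqP
    have hq0 : 0 < q := hqp.pos
    have hnq : 1 ≤ n / q := by
      rw [Nat.one_le_div_iff hq0]; omega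
    have h1 : G.filter (fun p => n / p < q) = G.filter (fun p => ¬ p ≤ n / q) := by
      apply filter_congr
      intro p hp
      rw [hG, mem_filter, mem_filter, mem_Icc] at hp
      have hp0 : 0 < p := hp.1.2.pos
      rw [Nat.div_lt_iff_lt_mul hp0, not_le, Nat.div_lt_iff_lt_mul hq0, Nat.mul_comm]
    rw [h1]
    have h2 := sum_filter_add_sum_filter_not G (fun p => p ≤ n / q) (fun p => Real.log p / (p : ℝ))
    have h3 : ∑ p ∈ G.filter (fun p => p ≤ n / q), Real.log p / (p : ℝ)
        ≤ ∑ p ∈ PP (n / q), Real.log p / p := by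
      apply sum_le_sum_of_subset_of_nonneg
      · intro p hp
        rw [mem_filter, hG, mem_filter, mem_filter, mem_Icc] at hp
        rw [mem_filter, mem_Icc]
        exact ⟨⟨hp.1.1.1.1, hp.2⟩, hp.1.1.2⟩
      · intro p _ _
        have := Real.log_natCast_nonneg p
        positivity
    have h4 := (abs_le.mp (hLam (n / q) hnq)).2
    have h5 := (abs_le.mp (hLam n hn)).1
    have h6 : Real.log ((n / q : ℕ) : ℝ) ≤ Real.log n - Real.log q := by
      rw [← Real.log_div (by positivity) (by positivity)]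
      apply Real.log_le_log
      · exact_mod_cast hnq
      · exact Nat.cast_div_le
    rw [hsplit] at h2
    linarith
  have hsum1 : ∑ q ∈ range (n + 1), Db q * (Real.log q - 2 * C0 - LP)
      ≤ ∑ q ∈ range (n + 1), D q * ∑ p ∈ G.filter (fun p => n / p < q), Real.log p / p := by
    apply sum_le_sum
    intro q hq
    have hnn : 0 ≤ ∑ p ∈ G.filter (fun p => n / p < q), Real.log p / p :=
      sum_nonneg (fun p hp => hlogp p (mem_filter.mp hp).1)
    rcases eq_or_lt_of_le (hr0 q) with h0 | h0
    · have h1 : E r (q + 1) = E r q := by rw [E_succ, ← h0]; simp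
      have h2 : Db q = 0 := by simp only [hDb, h1]; ring
      have h3 : D q = 0 := by simp only [hD, h1]; ring
      rw [h2, h3]; simp
    · calc Db q * (Real.log q - 2 * C0 - LP)
          ≤ Db q * ∑ p ∈ G.filter (fun p => n / p < q), Real.log p / p :=
            mul_le_mul_of_nonneg_left (hinner q hq h0) (hDb0 q)
        _ ≤ _ := mul_le_mul_of_nonneg_right (hDbD q) hnn
  have hsumDb : ∑ q ∈ range (n + 1), Db q = rho (v - 1) - rho v := by
    have h1 := sum_range_sub' (fun q => rho (max (E r q) (v - 1))) (n + 1)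
    have h2 : ∑ q ∈ range (n + 1), Db q
        = ∑ i ∈ range (n + 1), (rho (max (E r i) (v - 1)) - rho (max (E r (i + 1)) (v - 1))) := rfl
    rw [h2, h1, E_zero, rho_max_one, ← hv, max_eq_left (by linarith)]
  have hsum2 : ∑ q ∈ range (n + 1), Db q * (Real.log q - 2 * C0 - LP)
      = ∑ q ∈ range (n + 1), Real.log q * Db q - (2 * C0 + LP) * (rho (v - 1) - rho v) := by
    rw [← hsumDb, mul_sum, ← sum_sub_distrib]
    apply sum_congr rfl
    intro q _
    ring
  have hkey' : rho (v - 1) * LP - C1 ≤ ∑ q ∈ range (n + 1), Real.log q * Db q := hkey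
  have hm : mm P n = rho v := rfl
  have hv1 := rho_le_one v
  have hv0 := (rho_pos v).le
  have hv2 := rho_le_one (v - 1)
  have h5 := (abs_le.mp (hLam n hn)).1
  rw [hsplit, hm]
  have h7 : rho v * (Real.log n - C0) ≤ rho v * ∑ p ∈ PP n, Real.log p / p := by
    apply mul_le_mul_of_nonneg_left _ hv0
    linarith
  have h8 : 2 * C0 * (rho (v - 1) - rho v) ≤ 2 * C0 := by
    have : rho (v - 1) - rho v ≤ 1 := by linarith
    nlinarith
  have h9 : rho v * C0 ≤ C0 := by nlinarith
  nlinarith

end Pool.Agent.Helper923.HB
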