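import Mathlib
import Pool.Agent.Helper923.HB

set_option autoImplicit false

namespace Pool.Agent.Helper923.HLower

open Finset Pool.Agent.Helper923.HRho Pool.Agent.Helper923.HKey Pool.Agent.Helper923.HMertens
  Pool.Agent.Helper923.HCount Pool.Agent.Helper923.HB

lemma mm_one_of_lt {P : Finset ℕ} {W k : ℕ} (hP : ∀ p ∈ P, W < p) (hk : k ≤ W) : mm P k = 1 := by
  unfold mm E
  have : HKey.W (rr P) (k + 1) = 0 := by
    unfold HKey.W
    apply sum_eq_zero
    intro q hq
    rw [mem_range] at hq
    unfold rr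
    rw [if_neg]
    intro h
    have := hP q h
    omega
  rw [this, Real.exp_zero]
  exact rho_one le_rfl

lemma mm_le_one (P : Finset ℕ) (k : ℕ) : mm P k ≤ 1 := rho_le_one _

lemma mm_pos (P : Finset ℕ) (k : ℕ) : 0 < mm P k := rho_pos _

lemma F_union_small {S P : Finset ℕ} {k : ℕ} (hP : ∀ p ∈ P, k < p) :
    F (S ∪ P) k = F S k := by
  unfold F free
  congr 1
  apply filter_congr
  intro m hm
  rw [mem_Icc] at hm
  constructor
  · intro h a ha
    exact h a (mem_union_left _ ha)
  · intro h a ha hd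
    rcases mem_union.mp ha with ha | ha
    · exact h a ha hd
    · have := hP a ha
      have := Nat.le_of_dvd (by omega) hd
      omega

theorem lower (S : Finset ℕ) (hS2 : ∀ s ∈ S, 2 ≤ s)
    (hSc : ∀ a ∈ S, ∀ b ∈ S, a ≠ b → Nat.Coprime a b) (w : ℕ) (hw1 : 1 ≤ w)
    (hw : ∀ s ∈ S, s ≤ w) (δ : ℝ) (hδ : 0 < δ) :
    ∃ W₀ : ℕ, ∀ W : ℕ, W₀ ≤ W → ∀ P : Finset ℕ, (∀ p ∈ P, p.Prime ∧ W < p) →
      ∀ n : ℕ, W ≤ n → kap S * n * (mm P n - δ) ≤ F (S ∪ P) n := by
  classical
  obtain ⟨CB, hCB0, hCB⟩ := B_ineq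
  obtain ⟨C0, hC0⟩ := mertens_log
  have hC00 : 0 ≤ C0 := (abs_nonneg _).trans (hC0 1 le_rfl)
  obtain ⟨M, hM0, hM⟩ := F_density S hS2 hSc
  set κ := kap S with hκ
  have hκ0 : 0 < κ := kap_pos hS2
  have hκ1 : κ ≤ 1 := kap_le_one hS2
  -- choice of W₀
  obtain ⟨W₀, hW₀⟩ : ∃ W₀ : ℕ, 2 ≤ W₀ ∧ ∀ W : ℕ, W₀ ≤ W →
      κ * (CB + Real.log w + C0) + 2 * (κ + M) ≤ κ * δ * (Real.log W - C0) := by
    have ht : Filter.Tendsto (fun W : ℕ => Real.log (W : ℝ)) Filter.atTop Filter.atTop :=
      Real.tendsto_log_atTop.comp tendsto_natCast_atTop_atTop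
    have := (ht.eventually_ge_atTop ((κ * (CB + Real.log w + C0) + 2 * (κ + M)) / (κ * δ) + C0)).and
      (Filter.eventually_ge_atTop 2)
    obtain ⟨W₀, h⟩ := Filter.eventually_atTop.mp this
    refine ⟨W₀, (h W₀ le_rfl).2, fun W hW => ?_⟩
    have h1 := (h W hW).1
    have h2 : (κ * (CB + Real.log w + C0) + 2 * (κ + M)) / (κ * δ) ≤ Real.log W - C0 := by linarith
    rw [div_le_iff₀ (by positivity)] at h2
    linarith
  refine ⟨max W₀ w, fun W hW P hP n => ?_⟩
  have hWW : W₀ ≤ W := (le_max_left _ _).trans hW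
  have hwW : w ≤ W := (le_max_right _ _).trans hW
  have hWineq := hW₀.2 W hWW
  have hW2 : 2 ≤ W := hW₀.1.trans hWW
  have hPp : ∀ p ∈ P, p.Prime := fun p hp => (hP p hp).1
  induction n using Nat.strong_induction_on with
  | _ n ih =>
  intro hn
  have hn1 : 1 ≤ n := by omega
  set G := (PP n).filter (fun p => w < p ∧ p ∉ P) with hG
  have hmemG : ∀ p, p ∈ G ↔ ((1 ≤ p ∧ p ≤ n) ∧ p.Prime) ∧ (w < p ∧ p ∉ P) := by
    intro p; simp only [hG, mem_filter, mem_Icc]
  have hlog := log_ineq (S ∪ P) n G (by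
    intro p hp
    rw [hmemG] at hp
    refine ⟨hp.1.1.1, hp.1.1.2, hp.1.2, ?_⟩
    intro a ha
    rcases mem_union.mp ha with ha | ha
    · rw [Nat.coprime_comm, hp.1.2.coprime_iff_not_dvd]
      intro hd
      have := Nat.le_of_dvd (by have := hS2 a ha; omega) hd
      have := hw a ha
      omega
    · rw [Nat.coprime_primes (hPp a ha) hp.1.2]
      rintro rfl
      exact hp.2.2 ha)
  have hnpos : (0 : ℝ) < n := by exact_mod_cast hn1
  -- lower bound for each term
  have hterm : ∀ p ∈ G, κ * (n / p) * (mm P (n / p) - if W ≤ n / p then δ else 0) - (κ + M)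
      ≤ F (S ∪ P) (n / p) := by
    intro p hp
    rw [hmemG] at hp
    have hp0 : (0 : ℝ) < p := by exact_mod_cast hp.1.2.pos
    have h6 : ((n / p : ℕ) : ℝ) ≤ n / p := Nat.cast_div_le
    have h7 : (n : ℝ) / p - 1 ≤ ((n / p : ℕ) : ℝ) := by
      have : (n : ℝ) / p < ((n / p : ℕ) : ℝ) + 1 := by
        rw [← Nat.floor_div_eq_div (K := ℝ)]
        exact Nat.lt_floor_add_one _
      linarith
    have hlt : n / p < n := Nat.div_lt_self (by omega) hp.1.2.one_lt
    split_ifs with hc
    · have h1 := ih (n / p) hlt hc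
      refine le_trans ?_ h1
      have hx1 : mm P (n / p) - δ ≤ 1 := by have := mm_le_one P (n / p); linarith
      have h2 : (n : ℝ) / p * (mm P (n / p) - δ) - 1 ≤ ((n / p : ℕ) : ℝ) * (mm P (n / p) - δ) := by
        rcases le_total 0 (mm P (n / p) - δ) with h0 | h0
        · have := mul_le_mul_of_nonneg_right h7 h0
          have h3 : ((n : ℝ) / p - 1) * (mm P (n / p) - δ)
            = (n : ℝ) / p * (mm P (n / p) - δ) - (mm P (n / p) - δ) := by ring
          linarith
        · have := mul_le_mul_of_nonpos_right h6 h0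
          linarith
      have h3 := mul_le_mul_of_nonneg_left h2 hκ0.le
      have h4 : κ * ((n : ℝ) / p * (mm P (n / p) - δ) - 1)
        = κ * (n / p) * (mm P (n / p) - δ) - κ := by ring
      have h5 : κ * (((n / p : ℕ) : ℝ) * (mm P (n / p) - δ))
        = κ * ((n / p : ℕ) : ℝ) * (mm P (n / p) - δ) := by ring
      linarith
    · push Not at hc
      have h1 : F (S ∪ P) (n / p) = F S (n / p) := by
        apply F_union_small
        intro q hq
        have := (hP q hq).2
        omega
      rw [h1, mm_one_of_lt (W := W) (fun q hq => (hP q hq).2) hc.le]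
      have h2 := (abs_le.mp (hM (n / p))).1
      have h3 := mul_le_mul_of_nonneg_left h7 hκ0.le
      have h4 : κ * ((n : ℝ) / p) * (1 - 0) = κ * (n / p) := by ring
      have h5 : κ * ((n : ℝ) / p - 1) = κ * (n / p) - κ := by ring
      linarith
  have hlp : ∀ p ∈ G, 0 ≤ Real.log (p : ℝ) := fun p _ => Real.log_natCast_nonneg p
  have hsum : ∑ p ∈ G, Real.log p * (κ * (n / p) * (mm P (n / p) - if W ≤ n / p then δ else 0) - (κ + M))
      ≤ F (S ∪ P) n * Real.log n := by
    refine le_trans (sum_le_sum fun p hp => ?_) hlog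
    exact mul_le_mul_of_nonneg_left (hterm p hp) (hlp p hp)
  have hexp : ∑ p ∈ G, Real.log p * (κ * (n / p) * (mm P (n / p) - if W ≤ n / p then δ else 0) - (κ + M))
      = κ * n * ∑ p ∈ G, (Real.log p / p) * mm P (n / p)
        - κ * n * δ * ∑ p ∈ G.filter (fun p => W ≤ n / p), Real.log p / p
        - (κ + M) * ∑ p ∈ G, Real.log p := by
    have hf : ∑ p ∈ G.filter (fun p => W ≤ n / p), Real.log p / (p : ℝ)
        = ∑ p ∈ G, if W ≤ n / p then Real.log p / (p : ℝ) else 0 := sum_filter _ _
    rw [hf, mul_sum, mul_sum, mul_sum, ← sum_sub_distrib, ← sum_sub_distrib]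
    apply sum_congr rfl
    intro p _
    split_ifs
    · ring
    · ring
  rw [hexp] at hsum
  -- first sum
  have hA : mm P n * Real.log n - CB - (Real.log w + C0) ≤ ∑ p ∈ G, (Real.log p / p) * mm P (n / p) := by
    have h1 := hCB P hPp n hn1
    have h2 : ∑ p ∈ (PP n).filter (fun p => p ∉ P), (Real.log p / p) * mm P (n / p)
        ≤ ∑ p ∈ G, (Real.log p / p) * mm P (n / p) + ∑ p ∈ PP w, Real.log p / p := by
      have h3 : (PP n).filter (fun p => p ∉ P) ⊆ G ∪ ((PP n).filter (fun p => p ∉ P)).filter (fun p => p ≤ w) := by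
        intro p hp
        rw [mem_union, hmemG]
        simp only [mem_filter, mem_Icc] at hp ⊢
        by_cases h : w < p
        · left; exact ⟨hp.1, h, hp.2⟩
        · right; exact ⟨hp, by omega⟩
      have hnn : ∀ p : ℕ, 0 ≤ (Real.log p / p) * mm P (n / p) := by
        intro p
        have := Real.log_natCast_nonneg p
        have := (mm_pos P (n / p)).le
        positivity
      calc _ ≤ ∑ p ∈ G ∪ ((PP n).filter (fun p => p ∉ P)).filter (fun p => p ≤ w), (Real.log p / p) * mm P (n / p) :=
            sum_le_sum_of_subset_of_nonneg h3 (fun p _ _ => hnn p)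
        _ ≤ ∑ p ∈ G, (Real.log p / p) * mm P (n / p)
            + ∑ p ∈ ((PP n).filter (fun p => p ∉ P)).filter (fun p => p ≤ w), (Real.log p / p) * mm P (n / p) := by
            rw [← sum_union_inter]
            have : 0 ≤ ∑ p ∈ G ∩ ((PP n).filter (fun p => p ∉ P)).filter (fun p => p ≤ w), (Real.log p / p) * mm P (n / p) :=
              sum_nonneg (fun p _ => hnn p)
            linarith
        _ ≤ _ := by
            gcongr
            calc _ ≤ ∑ p ∈ ((PP n).filter (fun p => p ∉ P)).filter (fun p => p ≤ w), (Real.log p / p) := by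
                  apply sum_le_sum
                  intro p _
                  have := Real.log_natCast_nonneg p
                  have h4 : 0 ≤ Real.log p / p := by positivity
                  have := mul_le_mul_of_nonneg_left (mm_le_one P (n / p)) h4
                  linarith
              _ ≤ _ := by
                  apply sum_le_sum_of_subset_of_nonneg
                  · intro p hp
                    simp only [mem_filter, mem_Icc] at hp ⊢
                    exact ⟨⟨hp.1.1.1.1, hp.2⟩, hp.1.1.2⟩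
                  · intro p _ _
                    have := Real.log_natCast_nonneg p
                    positivity
    have h3 := (abs_le.mp (hC0 w hw1)).2
    linarith
  have hBs : ∑ p ∈ G.filter (fun p => W ≤ n / p), Real.log p / p ≤ Real.log n - Real.log W + C0 := by
    have h1 : ∑ p ∈ G.filter (fun p => W ≤ n / p), Real.log p / p ≤ ∑ p ∈ PP (n / W), Real.log p / p := by
      apply sum_le_sum_of_subset_of_nonneg
      · intro p hp
        rw [mem_filter, hmemG] at hp
        simp only [mem_filter, mem_Icc]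
        refine ⟨⟨hp.1.1.1.1, ?_⟩, hp.1.1.2⟩
        have h2 := hp.2
        rw [Nat.le_div_iff_mul_le (by omega)] at h2 ⊢
        linarith
      · intro p _ _
        have := Real.log_natCast_nonneg p
        positivity
    have hnW : 1 ≤ n / W := (Nat.one_le_div_iff (by omega)).mpr hn
    have h2 := (abs_le.mp (hC0 (n / W) hnW)).2
    have h3 : Real.log ((n / W : ℕ) : ℝ) ≤ Real.log n - Real.log W := by
      rw [← Real.log_div hnpos.ne' (by positivity)]
      apply Real.log_le_log
      · exact_mod_cast hnW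
      · exact Nat.cast_div_le
    linarith
  have hCs : ∑ p ∈ G, Real.log p ≤ 2 * n := by
    refine le_trans ?_ (theta_le n)
    apply sum_le_sum_of_subset_of_nonneg
    · exact filter_subset _ _
    · intro p _ _
      exact Real.log_natCast_nonneg p
  have hlogn : 0 < Real.log (n : ℝ) := by
    apply Real.log_pos
    have : 2 ≤ n := by omega
    exact_mod_cast this
  have hκn : 0 < κ * n := by positivity
  have h1 := mul_le_mul_of_nonneg_left hA hκn.le
  have h2 := mul_le_mul_of_nonneg_left hBs (show 0 ≤ κ * n * δ by positivity)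
  have h3 := mul_le_mul_of_nonneg_left hCs (show 0 ≤ κ + M by positivity)
  have h4 := mul_le_mul_of_nonneg_left hWineq hnpos.le
  have h5 : κ * n * (mm P n - δ) * Real.log n ≤ F (S ∪ P) n * Real.log n := by
    nlinarith [h1, h2, h3, h4, hsum]
  exact le_of_mul_le_mul_right h5 hlogn

end Pool.Agent.Helper923.HLower
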