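import Mathlib
import Pool.Agent.Helper923.HLower

set_option autoImplicit false

namespace Pool.Agent.Helper923.HBrun

open Finset Pool.Agent.Helper923.HCount

/-- error terms in the pure sieve -/
def RR : ℕ → ℕ → ℝ
  | 0, _ => 0
  | (k + 1), m => (1 + m : ℝ) ^ k

lemma bern {s r : ℝ} (hs : 0 ≤ s) (hr : 0 ≤ r) (n : ℕ) :
    s ^ (n + 1) + (n + 1) * (r * s ^ n) ≤ (s + r) ^ (n + 1) := by
  induction n with
  | zero => simp
  | succ n ih =>
    have h1 : 0 ≤ s ^ n := by positivity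
    calc s ^ (n + 1 + 1) + ((n + 1 : ℕ) + 1 : ℝ) * (r * s ^ (n + 1))
        ≤ (s + r) * (s ^ (n + 1) + (n + 1) * (r * s ^ n)) := by
          push_cast
          have h2 : 0 ≤ ((n : ℝ) + 1) * (r * (r * s ^ n)) := by positivity
          have e : (s + r) * (s ^ (n + 1) + (n + 1) * (r * s ^ n))
            = s ^ (n + 1 + 1) + (n + 1 + 1) * (r * s ^ (n + 1)) + (n + 1) * (r * (r * s ^ n)) := by
            ring
          rw [e]; linarith
      _ ≤ (s + r) * (s + r) ^ (n + 1) := by gcongr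
      _ = (s + r) ^ (n + 1 + 1) := by ring

theorem brun (P : Finset ℕ) : (∀ p ∈ P, 2 ≤ p) →
    (∀ a ∈ P, ∀ b ∈ P, a ≠ b → Nat.Coprime a b) →
    ∃ T : ℕ → ℝ, (∀ k, |T k - kap P| ≤ (∑ p ∈ P, (1 : ℝ) / p) ^ (k + 1) / ((k + 1).factorial : ℝ)) ∧
      ∀ k, ∀ x : ℝ, 0 ≤ x → (-1) ^ k * ((F P ⌊x⌋₊ : ℝ) - x * T k) ≤ RR k P.card := by
  classical
  induction P using Finset.induction_on with
  | empty =>
    intro _ _
    refine ⟨fun _ => 1, fun k => by simp [kap], fun k x hx => ?_⟩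
    rw [F_empty, mul_one]
    have h1 := Nat.floor_le hx
    have h2 := (Nat.lt_floor_add_one x).le
    cases k with
    | zero => simp [RR]; linarith
    | succ k =>
      have h3 : |(-1 : ℝ) ^ (k + 1) * ((⌊x⌋₊ : ℝ) - x)| ≤ 1 := by
        rw [abs_mul, abs_pow, abs_neg, abs_one, one_pow, one_mul, abs_le]
        constructor <;> linarith
      simp only [RR, card_empty, Nat.cast_zero, add_zero, one_pow]
      exact (le_abs_self _).trans h3
  | insert p P hp ih =>
    intro h1 h2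
    obtain ⟨T, hT1, hT2⟩ := ih (fun a ha => h1 a (mem_insert_of_mem ha))
      (fun a ha b hb => h2 a (mem_insert_of_mem ha) b (mem_insert_of_mem hb))
    have hp2 : 2 ≤ p := h1 p (mem_insert_self p P)
    have hc : ∀ a ∈ P, Nat.Coprime a p := by
      intro a ha
      apply h2 a (mem_insert_of_mem ha) p (mem_insert_self p P)
      rintro rfl
      exact hp ha
    have hp0 : (0 : ℝ) < p := by exact_mod_cast (by omega : 0 < p)
    have hk : kap (insert p P) = (1 - 1 / (p : ℝ)) * kap P := prod_insert hp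
    have hk0 : 0 ≤ kap P := (kap_pos (fun a ha => h1 a (mem_insert_of_mem ha))).le
    have hk1 : kap P ≤ 1 := kap_le_one (fun a ha => h1 a (mem_insert_of_mem ha))
    set s := ∑ p ∈ P, (1 : ℝ) / p with hs
    have hs0 : 0 ≤ s := sum_nonneg (fun a _ => by positivity)
    set r : ℝ := 1 / p with hr
    have hr0 : 0 ≤ r := by positivity
    have hF : ∀ x : ℝ, 0 ≤ x → (F (insert p P) ⌊x⌋₊ : ℝ) = F P ⌊x⌋₊ - F P ⌊x / p⌋₊ := by
      intro x hx
      have h3 := F_insert P p (by omega) hc ⌊x⌋₊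
      rw [Nat.floor_div_natCast]
      have : (F (insert p P) ⌊x⌋₊ : ℝ) + F P (⌊x⌋₊ / p) = F P ⌊x⌋₊ := by exact_mod_cast h3
      linarith
    refine ⟨fun k => Nat.casesOn k (T 0) (fun j => T (j + 1) - r * T j), ?_, ?_⟩
    · intro k
      rw [sum_insert hp, hk]
      cases k with
      | zero =>
        have h3 := hT1 0
        simp only [zero_add, pow_one, Nat.factorial_one, Nat.cast_one, div_one] at h3 ⊢
        show |T 0 - (1 - r) * kap P| ≤ r + s
        rw [abs_le] at h3 ⊢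
        have h4 : r * kap P ≤ r * 1 := mul_le_mul_of_nonneg_left hk1 hr0
        have h5 : 0 ≤ r * kap P := by positivity
        constructor <;> linarith
      | succ k =>
        have h3 := hT1 (k + 1)
        have h4 := hT1 k
        have e : T (k + 1) - r * T k - (1 - r) * kap P = (T (k + 1) - kap P) - r * (T k - kap P) := by
          ring
        show |T (k + 1) - r * T k - (1 - r) * kap P| ≤ _
        rw [e]
        calc |(T (k + 1) - kap P) - r * (T k - kap P)|
            ≤ |T (k + 1) - kap P| + |r * (T k - kap P)| := abs_sub _ _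
          _ ≤ s ^ (k + 1 + 1) / ((k + 1 + 1).factorial : ℝ)
              + r * (s ^ (k + 1) / ((k + 1).factorial : ℝ)) := by
              rw [abs_mul, abs_of_nonneg hr0]
              gcongr
          _ = (s ^ (k + 1 + 1) + ((k + 1 : ℕ) + 1) * (r * s ^ (k + 1))) / ((k + 1 + 1).factorial : ℝ) := by
              rw [Nat.factorial_succ (k + 1)]
              push_cast
              field_simp
          _ ≤ (s + r) ^ (k + 1 + 1) / ((k + 1 + 1).factorial : ℝ) := by
              gcongr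
              exact bern hs0 hr0 (k + 1)
          _ = (r + s) ^ (k + 1 + 1) / ((k + 1 + 1).factorial : ℝ) := by rw [add_comm s r]
    · intro k x hx
      rw [hF x hx, card_insert_of_notMem hp]
      have hxp : 0 ≤ x / p := by positivity
      cases k with
      | zero =>
        have h3 := hT2 0 x hx
        simp only [pow_zero, one_mul, RR] at h3 ⊢
        have : (0 : ℝ) ≤ F P ⌊x / p⌋₊ := by positivity
        show (F P ⌊x⌋₊ : ℝ) - F P ⌊x / p⌋₊ - x * T 0 ≤ 0
        linarith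
      | succ k =>
        have h3 := hT2 (k + 1) x hx
        have h4 := hT2 k (x / p) hxp
        have h5 : RR (k + 1) P.card + RR k P.card ≤ RR (k + 1) (P.card + 1) := by
          cases k with
          | zero => simp [RR]
          | succ j =>
            simp only [RR]
            push_cast
            have h6 : (1 + (P.card : ℝ)) ^ j ≤ (1 + ((P.card : ℝ) + 1)) ^ j := by
              gcongr
              linarith
            calc (1 + (P.card : ℝ)) ^ (j + 1) + (1 + (P.card : ℝ)) ^ j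
                = (1 + ((P.card : ℝ) + 1)) * (1 + (P.card : ℝ)) ^ j := by ring
              _ ≤ (1 + ((P.card : ℝ) + 1)) * (1 + ((P.card : ℝ) + 1)) ^ j := by gcongr
              _ = (1 + ((P.card : ℝ) + 1)) ^ (j + 1) := by ring
        refine le_trans ?_ h5
        show (-1) ^ (k + 1) * ((F P ⌊x⌋₊ : ℝ) - F P ⌊x / p⌋₊ - x * (T (k + 1) - r * T k)) ≤ _
        have e : (-1) ^ (k + 1) * ((F P ⌊x⌋₊ : ℝ) - F P ⌊x / p⌋₊ - x * (T (k + 1) - r * T k))
            = (-1) ^ (k + 1) * ((F P ⌊x⌋₊ : ℝ) - x * T (k + 1))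
              + (-1) ^ k * ((F P ⌊x / p⌋₊ : ℝ) - x / p * T k) := by
          rw [hr]; ring
        rw [e]
        linarith

/-- lower bound form for odd level -/
lemma brun_lower (P : Finset ℕ) (h1 : ∀ p ∈ P, 2 ≤ p)
    (h2 : ∀ a ∈ P, ∀ b ∈ P, a ≠ b → Nat.Coprime a b) (j n : ℕ) :
    (n : ℝ) * (kap P - (∑ p ∈ P, (1 : ℝ) / p) ^ (2 * j + 2) / ((2 * j + 2).factorial : ℝ))
      - (1 + P.card : ℝ) ^ (2 * j) ≤ F P n := by
  obtain ⟨T, hT1, hT2⟩ := brun P h1 h2
  have h3 := (abs_le.mp (hT1 (2 * j + 1))).1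
  have h4 := hT2 (2 * j + 1) n (by positivity)
  rw [Nat.floor_natCast] at h4
  have h5 : (-1 : ℝ) ^ (2 * j + 1) = -1 := by
    rw [pow_succ, pow_mul]; norm_num
  rw [h5] at h4
  simp only [RR] at h4
  have h6 : kap P - (∑ p ∈ P, (1 : ℝ) / p) ^ (2 * j + 2) / ((2 * j + 2).factorial : ℝ) ≤ T (2 * j + 1) := by
    have e : 2 * j + 1 + 1 = 2 * j + 2 := by ring
    rw [e] at h3
    linarith
  have h7 : (n : ℝ) * (kap P - (∑ p ∈ P, (1 : ℝ) / p) ^ (2 * j + 2) / ((2 * j + 2).factorial : ℝ))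
      ≤ n * T (2 * j + 1) := mul_le_mul_of_nonneg_left h6 (by positivity)
  linarith

lemma one_sub_ge {x : ℝ} (h0 : 0 ≤ x) (h1 : x ≤ 1 / 2) : Real.exp (-x - 2 * x ^ 2) ≤ 1 - x := by
  have h2 : 0 < 1 - x := by linarith
  have h3 := Real.add_one_le_exp (x / (1 - x))
  have h4 : x / (1 - x) + 1 = 1 / (1 - x) := by field_simp; ring
  rw [h4] at h3
  have h5 : Real.exp (-(x / (1 - x))) ≤ 1 - x := by
    rw [Real.exp_neg]
    calc (Real.exp (x / (1 - x)))⁻¹ ≤ (1 / (1 - x))⁻¹ := inv_anti₀ (by positivity) h3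
      _ = 1 - x := by rw [one_div, inv_inv]
  refine le_trans (Real.exp_le_exp.mpr ?_) h5
  have h6 : x / (1 - x) ≤ x + 2 * x ^ 2 := by
    rw [div_le_iff₀ h2]
    nlinarith [mul_nonneg h0 (mul_nonneg h0 (show 0 ≤ 1 - 2 * x by linarith))]
  linarith

lemma kap_lower (P : Finset ℕ) (K : ℕ) (hK : 1 ≤ K) (h : ∀ p ∈ P, 2 ≤ p ∧ K ≤ p) :
    Real.exp (-∑ p ∈ P, (1 : ℝ) / p) - 2 * (∑ p ∈ P, (1 : ℝ) / p) / K ≤ kap P := by
  set s := ∑ p ∈ P, (1 : ℝ) / p with hs
  have hK0 : (0 : ℝ) < K := by exact_mod_cast hK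
  have h1 : Real.exp (∑ p ∈ P, (-(1 / (p : ℝ)) - 2 * (1 / (p : ℝ)) ^ 2)) ≤ kap P := by
    rw [Real.exp_sum]
    unfold kap
    apply prod_le_prod
    · intro p _; positivity
    · intro p hp
      apply one_sub_ge (by positivity)
      have : (2 : ℝ) ≤ p := by exact_mod_cast (h p hp).1
      exact one_div_le_one_div_of_le (by norm_num) this
  have h2 : ∑ p ∈ P, (-(1 / (p : ℝ)) - 2 * (1 / (p : ℝ)) ^ 2) ≥ -s - 2 * s / K := by
    have e : -s - 2 * s / K = ∑ p ∈ P, (-(1 / (p : ℝ)) - 2 * (1 / (p : ℝ)) / K) := by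
      rw [sum_sub_distrib, sum_neg_distrib, ← sum_div, ← mul_sum]
    rw [e]
    apply sum_le_sum
    intro p hp
    have hp2 : (2 : ℝ) ≤ p := by exact_mod_cast (h p hp).1
    have hpK : (K : ℝ) ≤ p := by exact_mod_cast (h p hp).2
    have h3 : 1 / (p : ℝ) ≤ 1 / K := one_div_le_one_div_of_le hK0 hpK
    have h4 : (1 / (p : ℝ)) ^ 2 ≤ (1 / p) * (1 / K) := by
      rw [sq]; gcongr
    have h5 : 2 * (1 / (p : ℝ)) / K = 2 * ((1 / p) * (1 / K)) := by ring
    rw [h5]; linarith
  have hs0 : 0 ≤ s := sum_nonneg (fun p _ => by positivity)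
  calc Real.exp (-s) - 2 * s / K ≤ Real.exp (-s) * (1 - 2 * s / K) := by
        have h6 : Real.exp (-s) ≤ 1 := Real.exp_le_one_iff.mpr (by linarith)
        have h7 : 0 ≤ 2 * s / K := by positivity
        nlinarith
    _ ≤ Real.exp (-s) * Real.exp (-(2 * s / K)) := by
        gcongr
        have := Real.add_one_le_exp (-(2 * s / K))
        linarith
    _ = Real.exp (-s - 2 * s / K) := by rw [← Real.exp_add]; congr 1
    _ ≤ Real.exp (∑ p ∈ P, (-(1 / (p : ℝ)) - 2 * (1 / (p : ℝ)) ^ 2)) := Real.exp_le_exp.mpr h2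
    _ ≤ kap P := h1

end Pool.Agent.Helper923.HBrun
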