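import Mathlib
import Pool.Agent.Helper923.HLower
import Pool.Agent.Helper923.HRhoG

set_option autoImplicit false

namespace Pool.Agent.Helper923.HReduce

open Finset Pool.Agent.Helper923.HRho Pool.Agent.Helper923.HKey Pool.Agent.Helper923.HMertens
  Pool.Agent.Helper923.HCount Pool.Agent.Helper923.HB Pool.Agent.Helper923.HLower

/-- adding further elements removes at most `n / b` each -/
lemma F_union_ge (A B : Finset ℕ) (n : ℕ) :
    (F A n : ℝ) - n * ∑ b ∈ B, (1 : ℝ) / b ≤ F (A ∪ B) n := by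
  classical
  have h1 : free A n ⊆ free (A ∪ B) n ∪ B.biUnion (fun b => (Ioc 0 n).filter (fun m => b ∣ m)) := by
    intro m hm
    rw [mem_free] at hm
    rw [mem_union, mem_free, mem_biUnion]
    by_cases h : ∃ b ∈ B, b ∣ m
    · obtain ⟨b, hb, hd⟩ := h
      right
      exact ⟨b, hb, by rw [mem_filter, mem_Ioc]; exact ⟨⟨by omega, hm.1.2⟩, hd⟩⟩
    · push Not at h
      left
      refine ⟨hm.1, fun a ha => ?_⟩
      rcases mem_union.mp ha with ha | ha
      · exact hm.2 a ha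
      · exact h a ha
  have h2 : F A n ≤ F (A ∪ B) n + ∑ b ∈ B, n / b := by
    refine (card_le_card h1).trans ((card_union_le _ _).trans ?_)
    apply Nat.add_le_add_left
    refine card_biUnion_le.trans (sum_le_sum fun b _ => ?_)
    rw [Nat.Ioc_filter_dvd_card_eq_div]
  have h3 : (F A n : ℝ) ≤ F (A ∪ B) n + ∑ b ∈ B, ((n / b : ℕ) : ℝ) := by exact_mod_cast h2
  have h4 : ∑ b ∈ B, ((n / b : ℕ) : ℝ) ≤ n * ∑ b ∈ B, (1 : ℝ) / b := by
    rw [mul_sum]
    apply sum_le_sum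
    intro b _
    calc ((n / b : ℕ) : ℝ) ≤ (n : ℝ) / b := Nat.cast_div_le
      _ = n * (1 / b) := by ring
  linarith

/-- composites contribute little -/
lemma composites_small : ∃ Z : ℝ, 0 ≤ Z ∧ ∀ W : ℕ, 1 ≤ W → ∀ A : Finset ℕ,
    (∀ a ∈ A, W < a ∧ ¬ a.Prime) → (∀ a ∈ A, ∀ b ∈ A, a ≠ b → Nat.Coprime a b) →
    ∑ a ∈ A, (1 : ℝ) / a ≤ Z / (W : ℝ) ^ (1 / 4 : ℝ) := by
  classical
  have hs : Summable (fun n : ℕ => ((n : ℝ) ^ (3 / 2 : ℝ))⁻¹) :=
    Real.summable_nat_rpow_inv.2 (by norm_num)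
  refine ⟨∑' n : ℕ, ((n : ℝ) ^ (3 / 2 : ℝ))⁻¹, tsum_nonneg (fun n => by positivity), ?_⟩
  intro W hW A hA hc
  have hW0 : (0 : ℝ) < W := by exact_mod_cast hW
  have hinj : Set.InjOn Nat.minFac (A : Set ℕ) := by
    intro a ha b hb hab
    by_contra hne
    have h1 := hc a ha b hb hne
    have ha1 : a ≠ 1 := by have := (hA a ha).1; omega
    have h2 := Nat.minFac_prime ha1
    have h3 : a.minFac ∣ 1 := by
      rw [← Nat.Coprime.gcd_eq_one h1]
      apply Nat.dvd_gcd (Nat.minFac_dvd a)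
      rw [hab]
      exact Nat.minFac_dvd b
    have := Nat.dvd_one.mp h3
    exact h2.one_lt.ne' this
  have h1 : ∀ a ∈ A, (1 : ℝ) / a ≤ ((W : ℝ) ^ (1 / 4 : ℝ))⁻¹ * (((a.minFac : ℕ) : ℝ) ^ (3 / 2 : ℝ))⁻¹ := by
    intro a ha
    obtain ⟨hWa, hap⟩ := hA a ha
    have ha1 : a ≠ 1 := by omega
    have hm := Nat.minFac_prime ha1
    have hm0 : (0 : ℝ) < (a.minFac : ℝ) := by exact_mod_cast hm.pos
    have hsq : a.minFac ^ 2 ≤ a := Nat.minFac_sq_le_self (by omega) hap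
    have hsq' : ((a.minFac : ℝ)) ^ 2 ≤ a := by exact_mod_cast hsq
    have ha0 : (0 : ℝ) < a := by
      have : 0 < a := by omega
      exact_mod_cast this
    rw [← mul_inv, one_div]
    apply inv_anti₀ (by positivity)
    calc (W : ℝ) ^ (1 / 4 : ℝ) * (a.minFac : ℝ) ^ (3 / 2 : ℝ)
        = (W : ℝ) ^ (1 / 4 : ℝ) * ((a.minFac : ℝ) ^ 2) ^ (3 / 4 : ℝ) := by
          rw [← Real.rpow_natCast (a.minFac : ℝ) 2, ← Real.rpow_mul hm0.le]
          norm_num
      _ ≤ (a : ℝ) ^ (1 / 4 : ℝ) * (a : ℝ) ^ (3 / 4 : ℝ) := by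
          have : (W : ℝ) ≤ a := by exact_mod_cast hWa.le
          gcongr
      _ = a := by
          rw [← Real.rpow_add ha0]
          norm_num
  calc ∑ a ∈ A, (1 : ℝ) / a
      ≤ ∑ a ∈ A, ((W : ℝ) ^ (1 / 4 : ℝ))⁻¹ * (((a.minFac : ℕ) : ℝ) ^ (3 / 2 : ℝ))⁻¹ := sum_le_sum h1
    _ = ((W : ℝ) ^ (1 / 4 : ℝ))⁻¹ * ∑ a ∈ A, (((a.minFac : ℕ) : ℝ) ^ (3 / 2 : ℝ))⁻¹ := by
        rw [mul_sum]
    _ = ((W : ℝ) ^ (1 / 4 : ℝ))⁻¹ * ∑ p ∈ A.image Nat.minFac, ((p : ℝ) ^ (3 / 2 : ℝ))⁻¹ := by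
        rw [sum_image hinj]
    _ ≤ ((W : ℝ) ^ (1 / 4 : ℝ))⁻¹ * ∑' n : ℕ, ((n : ℝ) ^ (3 / 2 : ℝ))⁻¹ := by
        gcongr
        exact hs.sum_le_tsum _ (fun n _ => by positivity)
    _ = _ := by rw [mul_comm, ← div_eq_mul_inv]

/-- iterating `rho_small` -/
lemma kap_rho (S : Finset ℕ) : (∀ s ∈ S, 2 ≤ s) → ∀ x : ℝ, ∑ s ∈ S, (1 : ℝ) / s ≤ x →
    rho (Real.exp x) ≤ kap S * rho (Real.exp (x - ∑ s ∈ S, (1 : ℝ) / s)) := by
  classical
  induction S using Finset.induction_on with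
  | empty =>
    intro _ x _
    simp [kap]
  | insert s S hs ih =>
    intro h1 x hx
    rw [sum_insert hs] at hx ⊢
    have hs2 : 2 ≤ s := h1 s (mem_insert_self s S)
    have hs2' : (2 : ℝ) ≤ s := by exact_mod_cast hs2
    have hsS : 0 ≤ ∑ a ∈ S, (1 : ℝ) / a := sum_nonneg (fun a _ => by positivity)
    have hinv : 1 / (s : ℝ) ≤ 1 / 2 := one_div_le_one_div_of_le (by norm_num) hs2'
    have hinv0 : 0 ≤ 1 / (s : ℝ) := by positivity
    have hlog2 : (1 : ℝ) / 2 ≤ Real.log 2 := by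
      have := Real.log_two_gt_d9
      linarith
    have h2 := rho_small (d := 1 / (s : ℝ)) (v := Real.exp x) hinv0 (hinv.trans hlog2)
      (Real.exp_le_exp.mpr (by linarith))
    have h3 := ih (fun a ha => h1 a (mem_insert_of_mem ha)) (x - 1 / s) (by linarith)
    have h4 : Real.exp x * Real.exp (-(1 / (s : ℝ))) = Real.exp (x - 1 / s) := by
      rw [← Real.exp_add]; ring_nf
    rw [h4] at h2
    have hk : kap (insert s S) = (1 - 1 / (s : ℝ)) * kap S := prod_insert hs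
    have h5 : x - (1 / (s : ℝ) + ∑ a ∈ S, (1 : ℝ) / a) = x - 1 / s - ∑ a ∈ S, (1 : ℝ) / a := by ring
    rw [hk, h5, mul_assoc]
    refine h2.trans ?_
    apply mul_le_mul_of_nonneg_left h3
    linarith

lemma lower_uniform (w : ℕ) (hw1 : 1 ≤ w) (δ : ℝ) (hδ : 0 < δ) :
    ∃ f : ℕ, w < f ∧ ∀ S : Finset ℕ, (∀ s ∈ S, 2 ≤ s ∧ s ≤ w) →
      (∀ a ∈ S, ∀ b ∈ S, a ≠ b → Nat.Coprime a b) →
      ∀ P : Finset ℕ, (∀ p ∈ P, p.Prime ∧ f < p) →
      ∀ n : ℕ, f ≤ n → kap S * n * (mm P n - δ) ≤ F (S ∪ P) n := by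
  classical
  have h1 : ∀ S ∈ (Icc 2 w).powerset, ∀ᶠ W : ℕ in Filter.atTop,
      (∀ a ∈ S, ∀ b ∈ S, a ≠ b → Nat.Coprime a b) →
      ∀ P : Finset ℕ, (∀ p ∈ P, p.Prime ∧ W < p) →
      ∀ n : ℕ, W ≤ n → kap S * n * (mm P n - δ) ≤ F (S ∪ P) n := by
    intro S hS
    rw [mem_powerset] at hS
    by_cases hc : ∀ a ∈ S, ∀ b ∈ S, a ≠ b → Nat.Coprime a b
    · obtain ⟨W₀, hW₀⟩ := lower S (fun s hs => (mem_Icc.mp (hS hs)).1) hc w hw1
        (fun s hs => (mem_Icc.mp (hS hs)).2) δ hδ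
      filter_upwards [Filter.eventually_ge_atTop W₀] with W hW _
      exact hW₀ W hW
    · exact Filter.Eventually.of_forall (fun W h => absurd h hc)
  have h2 := (Filter.eventually_all_finset _).mpr h1
  obtain ⟨f, hf, hfw⟩ := (h2.and (Filter.eventually_gt_atTop w)).exists
  refine ⟨f, hfw, fun S hS hc P hP n hn => ?_⟩
  refine hf S ?_ hc P hP n hn
  rw [mem_powerset]
  intro s hs
  rw [mem_Icc]
  exact hS s hs

theorem reduce (c : ℝ) (ε : ℝ) (hε : 0 < ε) :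
    ∃ N₀ : ℕ, ∀ n : ℕ, N₀ ≤ n → ∀ A : Finset ℕ, (∀ a ∈ A, 1 < a ∧ a ≤ n) →
      (∀ a ∈ A, ∀ b ∈ A, a ≠ b → Nat.Coprime a b) → ∑ a ∈ A, (1 : ℝ) / a ≤ c →
      n * (rho (Real.exp c) - ε) ≤ F A n := by
  classical
  obtain ⟨Z, hZ0, hZ⟩ := composites_small
  -- initial point
  obtain ⟨w0, hw01, hw0⟩ : ∃ w0 : ℕ, 1 ≤ w0 ∧ ∀ W : ℕ, w0 ≤ W → Z / (W : ℝ) ^ (1 / 4 : ℝ) ≤ ε / 3 := by
    have ht : Filter.Tendsto (fun W : ℕ => Z / (W : ℝ) ^ (1 / 4 : ℝ)) Filter.atTop (nhds 0) := by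
      apply Filter.Tendsto.div_atTop tendsto_const_nhds
      exact (tendsto_rpow_atTop (by norm_num)).comp tendsto_natCast_atTop_atTop
    have h1 := (ht.eventually_le_const (show (0 : ℝ) < ε / 3 by positivity))
    obtain ⟨a, ha⟩ := Filter.eventually_atTop.mp h1
    exact ⟨max a 1, le_max_right _ _, fun W hW => ha W ((le_max_left _ _).trans hW)⟩
  have hu := fun w : ℕ => fun hw : 1 ≤ w => lower_uniform w hw (ε / 3) (by positivity)
  choose! f hf1 hf2 using hu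
  set V : ℕ → ℕ := fun i => f^[i] w0 with hV
  have hV0 : V 0 = w0 := rfl
  have hVs : ∀ i, V (i + 1) = f (V i) := fun i => Function.iterate_succ_apply' f i w0
  have hV1 : ∀ i, 1 ≤ V i ∧ w0 ≤ V i := by
    intro i
    induction i with
    | zero => rw [hV0]; exact ⟨hw01, le_rfl⟩
    | succ i ih =>
      rw [hVs]
      have := hf1 (V i) ih.1
      omega
  have hVlt : ∀ i, V i < V (i + 1) := fun i => by rw [hVs]; exact hf1 _ (hV1 i).1
  have hVmono : StrictMono V := strictMono_nat_of_lt_succ hVlt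
  obtain ⟨K, hK⟩ := exists_nat_gt (c / (ε / 3))
  have hK' : c < K * (ε / 3) := by rwa [div_lt_iff₀ (by positivity)] at hK
  refine ⟨V K, fun n hn A hA hAc hsum => ?_⟩
  -- pigeonhole
  obtain ⟨i, hiK, hi⟩ : ∃ i < K, ∑ a ∈ A.filter (fun a => V i < a ∧ a ≤ V (i + 1)), (1 : ℝ) / a ≤ ε / 3 := by
    by_contra hcon
    push Not at hcon
    have h1 : ∀ i ≤ K, (i : ℝ) * (ε / 3) ≤ ∑ a ∈ A.filter (fun a => a ≤ V i), (1 : ℝ) / a := by
      intro i
      induction i with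
      | zero => intro _; simp only [Nat.cast_zero, zero_mul]; exact sum_nonneg (fun a _ => by positivity)
      | succ i ih =>
        intro hi
        have h2 := ih (by omega)
        have h3 := hcon i (by omega)
        have h4 : ∑ a ∈ A.filter (fun a => a ≤ V (i + 1)), (1 : ℝ) / a
            = ∑ a ∈ A.filter (fun a => a ≤ V i), (1 : ℝ) / a
              + ∑ a ∈ A.filter (fun a => V i < a ∧ a ≤ V (i + 1)), (1 : ℝ) / a := by
          rw [← sum_union]
          · apply sum_congr _ (fun _ _ => rfl)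
            ext a
            have := hVlt i
            simp only [mem_union, mem_filter]
            constructor
            · rintro ⟨h5, h6⟩
              by_cases h : a ≤ V i
              · exact Or.inl ⟨h5, h⟩
              · exact Or.inr ⟨h5, by omega, h6⟩
            · rintro (⟨h5, h6⟩ | ⟨h5, h6, h7⟩)
              · exact ⟨h5, by omega⟩
              · exact ⟨h5, h7⟩
          · rw [disjoint_filter]
            intro a _ h5 h6
            omega
        rw [h4]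
        push_cast
        linarith
    have h2 := h1 K le_rfl
    have h3 : ∑ a ∈ A.filter (fun a => a ≤ V K), (1 : ℝ) / a ≤ ∑ a ∈ A, (1 : ℝ) / a :=
      sum_le_sum_of_subset_of_nonneg (filter_subset _ _) (fun a _ _ => by positivity)
    linarith
  set S := A.filter (fun a => a ≤ V i) with hS
  set T := A.filter (fun a => V i < a ∧ a ≤ V (i + 1)) with hT
  set P := A.filter (fun a => V (i + 1) < a ∧ a.Prime) with hP
  set Q := A.filter (fun a => V (i + 1) < a ∧ ¬ a.Prime) with hQ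
  have hVi := hVlt i
  have hAeq : A = (S ∪ P) ∪ (T ∪ Q) := by
    ext a
    simp only [hS, hT, hP, hQ, mem_union, mem_filter]
    constructor
    · intro ha
      by_cases h1 : a ≤ V i
      · exact Or.inl (Or.inl ⟨ha, h1⟩)
      · by_cases h2 : a ≤ V (i + 1)
        · exact Or.inr (Or.inl ⟨ha, by omega, h2⟩)
        · by_cases h3 : a.Prime
          · exact Or.inl (Or.inr ⟨ha, by omega, h3⟩)
          · exact Or.inr (Or.inr ⟨ha, by omega, h3⟩)
    · rintro ((⟨h, _⟩ | ⟨h, _⟩) | (⟨h, _⟩ | ⟨h, _⟩)) <;> exact h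
  have hVK : V (i + 1) ≤ n := (hVmono.monotone (by omega : i + 1 ≤ K)).trans hn
  have hnn : (0 : ℝ) ≤ n := by positivity
  have hS2 : ∀ s ∈ S, 2 ≤ s := fun s hs => (hA s (mem_filter.mp hs).1).1
  -- main lower bound
  have h1 := hf2 (V i) (hV1 i).1 S
    (fun s hs => ⟨(hA s (mem_filter.mp hs).1).1, (mem_filter.mp hs).2⟩)
    (fun a ha b hb hab => hAc a (mem_filter.mp ha).1 b (mem_filter.mp hb).1 hab) P
    (fun p hp => by rw [← hVs]; exact ⟨(mem_filter.mp hp).2.2, (mem_filter.mp hp).2.1⟩) n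
    (by rw [← hVs]; exact hVK)
  -- removal of the others
  have h2 := F_union_ge (S ∪ P) (T ∪ Q) n
  rw [← hAeq] at h2
  have h3 : ∑ a ∈ T ∪ Q, (1 : ℝ) / a ≤ ε / 3 + ε / 3 := by
    have h4 : ∑ a ∈ Q, (1 : ℝ) / a ≤ ε / 3 := by
      refine (hZ (V (i + 1)) (hV1 (i + 1)).1 Q (fun a ha => (mem_filter.mp ha).2) ?_).trans
        (hw0 _ (hV1 (i + 1)).2)
      intro a ha b hb hab
      exact hAc a (mem_filter.mp ha).1 b (mem_filter.mp hb).1 hab
    have h5 : ∑ a ∈ T ∪ Q, (1 : ℝ) / a ≤ ∑ a ∈ T, (1 : ℝ) / a + ∑ a ∈ Q, (1 : ℝ) / a := by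
      rw [← sum_union_inter]
      have : 0 ≤ ∑ a ∈ T ∩ Q, (1 : ℝ) / a := sum_nonneg (fun a _ => by positivity)
      linarith
    linarith
  -- comparison of the main term
  have h4 : rho (Real.exp c) ≤ kap S * mm P n := by
    have hSP : ∑ a ∈ S, (1 : ℝ) / a + ∑ a ∈ P, (1 : ℝ) / a ≤ c := by
      refine le_trans ?_ hsum
      rw [← sum_union]
      · exact sum_le_sum_of_subset_of_nonneg (by rw [hAeq]; exact subset_union_left)
          (fun a _ _ => by positivity)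
      · rw [disjoint_filter]
        intro a _ h5 h6
        omega
    have hP0 : 0 ≤ ∑ a ∈ P, (1 : ℝ) / a := sum_nonneg (fun a _ => by positivity)
    have h5 := kap_rho S hS2 c (by linarith)
    refine h5.trans ?_
    apply mul_le_mul_of_nonneg_left _ (kap_pos hS2).le
    unfold mm E
    apply rho_anti
    apply Real.exp_le_exp.mpr
    have h6 : HKey.W (rr P) (n + 1) ≤ ∑ a ∈ P, (1 : ℝ) / a := by
      unfold HKey.W rr
      rw [← sum_filter]
      apply sum_le_sum_of_subset_of_nonneg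
      · intro q hq; exact (mem_filter.mp hq).2
      · intro a _ _; positivity
    linarith
  have hk1 := kap_le_one hS2
  have hk0 := (kap_pos hS2).le
  have h5 : kap S * n * (mm P n - ε / 3) = n * (kap S * mm P n) - n * (kap S * (ε / 3)) := by ring
  have h6 := mul_le_mul_of_nonneg_left h4 hnn
  have h7 : (n : ℝ) * (kap S * (ε / 3)) ≤ n * (1 * (ε / 3)) := by gcongr
  have h8 := mul_le_mul_of_nonneg_left h3 hnn
  have h9 : (n : ℝ) * (rho (Real.exp c) - ε)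
    = n * rho (Real.exp c) - n * (1 * (ε / 3)) - n * (ε / 3 + ε / 3) := by ring
  linarith

end Pool.Agent.Helper923.HReduce
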