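import Mathlib
import Pool.Agent.Helper923.HReduce

set_option autoImplicit false

namespace Pool.Agent.Helper923.HDecomp

open Finset Pool.Agent.Helper923.HRho Pool.Agent.Helper923.HKey Pool.Agent.Helper923.HMertens
  Pool.Agent.Helper923.HCount Pool.Agent.Helper923.HB Pool.Agent.Helper923.HLower
  Pool.Agent.Helper923.HReduce

theorem decomp (c : ℝ) (ε δ : ℝ) (hε : 0 < ε) (hδ : 0 < δ) (w₁ : ℕ) :
    ∃ N₀ : ℕ, ∀ n : ℕ, N₀ ≤ n → ∀ A : Finset ℕ, (∀ a ∈ A, 1 < a ∧ a ≤ n) →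
      (∀ a ∈ A, ∀ b ∈ A, a ≠ b → Nat.Coprime a b) → ∑ a ∈ A, (1 : ℝ) / a ≤ c →
      ∃ S P : Finset ℕ, S ⊆ A ∧ P ⊆ A ∧ Disjoint S P ∧ (∀ p ∈ P, p.Prime ∧ w₁ < p) ∧
        ∑ a ∈ A \ (S ∪ P), (1 : ℝ) / a ≤ ε ∧
        kap S * n * (mm P n - δ) ≤ F (S ∪ P) n := by
  classical
  obtain ⟨Z, hZ0, hZ⟩ := composites_small
  -- initial point
  obtain ⟨w0, hw01, hw02, hw0⟩ : ∃ w0 : ℕ, 1 ≤ w0 ∧ w₁ ≤ w0 ∧
      ∀ W : ℕ, w0 ≤ W → Z / (W : ℝ) ^ (1 / 4 : ℝ) ≤ ε / 2 := by
    have ht : Filter.Tendsto (fun W : ℕ => Z / (W : ℝ) ^ (1 / 4 : ℝ)) Filter.atTop (nhds 0) := by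
      apply Filter.Tendsto.div_atTop tendsto_const_nhds
      exact (tendsto_rpow_atTop (by norm_num)).comp tendsto_natCast_atTop_atTop
    have h1 := (ht.eventually_le_const (show (0 : ℝ) < ε / 2 by positivity))
    obtain ⟨a, ha⟩ := Filter.eventually_atTop.mp h1
    exact ⟨max a (max 1 w₁), (le_max_left _ _).trans (le_max_right _ _),
      (le_max_right _ _).trans (le_max_right _ _), fun W hW => ha W ((le_max_left _ _).trans hW)⟩
  have hu := fun w : ℕ => fun hw : 1 ≤ w => lower_uniform w hw δ hδ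
  choose! f hf1 hf2 using hu
  set V : ℕ → ℕ := fun i => f^[i] w0 with hV
  have hV0 : V 0 = w0 := rfl
  have hVs : ∀ i, V (i + 1) = f (V i) := fun i => Function.iterate_succ_apply' f i w0
  have hV1 : ∀ i, 1 ≤ V i ∧ w0 ≤ V i := by
    intro i
    induction i with
    | zero => rw [hV0]; exact ⟨hw01, le_rfl⟩
    | succ i ih =>
      rw [hVs]
      have := hf1 (V i) ih.1
      omega
  have hVlt : ∀ i, V i < V (i + 1) := fun i => by rw [hVs]; exact hf1 _ (hV1 i).1
  have hVmono : StrictMono V := strictMono_nat_of_lt_succ hVlt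
  obtain ⟨K, hK⟩ := exists_nat_gt (c / (ε / 2))
  have hK' : c < K * (ε / 2) := by rwa [div_lt_iff₀ (by positivity)] at hK
  refine ⟨V K, fun n hn A hA hAc hsum => ?_⟩
  -- pigeonhole
  obtain ⟨i, hiK, hi⟩ : ∃ i < K, ∑ a ∈ A.filter (fun a => V i < a ∧ a ≤ V (i + 1)), (1 : ℝ) / a ≤ ε / 2 := by
    by_contra hcon
    push Not at hcon
    have h1 : ∀ i ≤ K, (i : ℝ) * (ε / 2) ≤ ∑ a ∈ A.filter (fun a => a ≤ V i), (1 : ℝ) / a := by
      intro i
      induction i with
      | zero => intro _; simp only [Nat.cast_zero, zero_mul]; exact sum_nonneg (fun a _ => by positivity)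
      | succ i ih =>
        intro hi
        have h2 := ih (by omega)
        have h3 := hcon i (by omega)
        have h4 : ∑ a ∈ A.filter (fun a => a ≤ V (i + 1)), (1 : ℝ) / a
            = ∑ a ∈ A.filter (fun a => a ≤ V i), (1 : ℝ) / a
              + ∑ a ∈ A.filter (fun a => V i < a ∧ a ≤ V (i + 1)), (1 : ℝ) / a := by
          rw [← sum_union]
          · apply sum_congr _ (fun _ _ => rfl)
            ext a
            have := hVlt i
            simp only [mem_union, mem_filter]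
            constructor
            · rintro ⟨h5, h6⟩
              by_cases h : a ≤ V i
              · exact Or.inl ⟨h5, h⟩
              · exact Or.inr ⟨h5, by omega, h6⟩
            · rintro (⟨h5, h6⟩ | ⟨h5, h6, h7⟩)
              · exact ⟨h5, by omega⟩
              · exact ⟨h5, h7⟩
          · rw [disjoint_filter]
            intro a _ h5 h6
            omega
        rw [h4]
        push_cast
        linarith
    have h2 := h1 K le_rfl
    have h3 : ∑ a ∈ A.filter (fun a => a ≤ V K), (1 : ℝ) / a ≤ ∑ a ∈ A, (1 : ℝ) / a :=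
      sum_le_sum_of_subset_of_nonneg (filter_subset _ _) (fun a _ _ => by positivity)
    linarith
  set S := A.filter (fun a => a ≤ V i) with hS
  set T := A.filter (fun a => V i < a ∧ a ≤ V (i + 1)) with hT
  set P := A.filter (fun a => V (i + 1) < a ∧ a.Prime) with hP
  set Q := A.filter (fun a => V (i + 1) < a ∧ ¬ a.Prime) with hQ
  have hVi := hVlt i
  have hVK : V (i + 1) ≤ n := (hVmono.monotone (by omega : i + 1 ≤ K)).trans hn
  have hS2 : ∀ s ∈ S, 2 ≤ s := fun s hs => (hA s (mem_filter.mp hs).1).1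
  have hmemS : ∀ a, a ∈ S ↔ a ∈ A ∧ a ≤ V i := fun a => by rw [hS, mem_filter]
  have hmemP : ∀ a, a ∈ P ↔ a ∈ A ∧ V (i + 1) < a ∧ a.Prime := fun a => by rw [hP, mem_filter]
  refine ⟨S, P, filter_subset _ _, filter_subset _ _, ?_, ?_, ?_, ?_⟩
  · rw [disjoint_left]
    intro a h1 h2
    rw [hmemS] at h1
    rw [hmemP] at h2
    omega
  · intro p hp
    rw [hmemP] at hp
    have := (hV1 (i + 1)).2
    exact ⟨hp.2.2, by omega⟩
  · have hsub : A \ (S ∪ P) ⊆ T ∪ Q := by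
      intro a ha
      rw [Finset.mem_sdiff, mem_union, hmemS, hmemP] at ha
      obtain ⟨h1, h2⟩ := ha
      simp only [hT, hQ, mem_union, mem_filter]
      push Not at h2
      obtain ⟨h3, h4⟩ := h2
      have h3' := h3 h1
      by_cases h5 : a ≤ V (i + 1)
      · exact Or.inl ⟨h1, h3', h5⟩
      · exact Or.inr ⟨h1, by omega, h4 h1 (by omega)⟩
    have h4 : ∑ a ∈ Q, (1 : ℝ) / a ≤ ε / 2 := by
      refine (hZ (V (i + 1)) (hV1 (i + 1)).1 Q (fun a ha => (mem_filter.mp ha).2) ?_).trans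
        (hw0 _ (hV1 (i + 1)).2)
      intro a ha b hb hab
      exact hAc a (mem_filter.mp ha).1 b (mem_filter.mp hb).1 hab
    calc ∑ a ∈ A \ (S ∪ P), (1 : ℝ) / a ≤ ∑ a ∈ T ∪ Q, (1 : ℝ) / a :=
          sum_le_sum_of_subset_of_nonneg hsub (fun a _ _ => by positivity)
      _ ≤ ∑ a ∈ T, (1 : ℝ) / a + ∑ a ∈ Q, (1 : ℝ) / a := by
          rw [← sum_union_inter]
          have : 0 ≤ ∑ a ∈ T ∩ Q, (1 : ℝ) / a := sum_nonneg (fun a _ => by positivity)
          linarith
      _ ≤ ε := by linarith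
  · exact hf2 (V i) (hV1 i).1 S
      (fun s hs => ⟨(hA s (mem_filter.mp hs).1).1, (mem_filter.mp hs).2⟩)
      (fun a ha b hb hab => hAc a (mem_filter.mp ha).1 b (mem_filter.mp hb).1 hab) P
      (fun p hp => by rw [← hVs]; exact ⟨(mem_filter.mp hp).2.2, (mem_filter.mp hp).2.1⟩) n
      (by rw [← hVs]; exact hVK)

end Pool.Agent.Helper923.HDecomp
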