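import Mathlib
import Pool.Agent.Helper923.HBrun
import Pool.Agent.Helper923.HReduce

set_option autoImplicit false

namespace Pool.Agent.Helper923.HRhoS

open MeasureTheory Set Pool.Agent.Helper923.HRho

lemma rho_gap {a b : ℝ} (ha : 1 ≤ a) (hab : a ≤ b) : (b - a) * (rho b / b) ≤ rho a - rho b := by
  rw [rho_sub ha hab]
  have hb0 : 0 < b := by linarith
  have h1 : (∫ _s in a..b, rho b / b) ≤ ∫ s in a..b, rho (s - 1) / s := by
    apply intervalIntegral.integral_mono_on hab
    · exact intervalIntegrable_const
    · exact div_ii (by linarith) hab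
    · intro s hs
      have hs0 : 0 < s := by linarith [hs.1]
      have h2 : rho b ≤ rho (s - 1) := rho_anti (by linarith [hs.2])
      have h3 := (rho_pos b).le
      have h4 := (rho_pos (s - 1)).le
      apply div_le_div₀ h4 h2 hs0 hs.2
  rw [intervalIntegral.integral_const, smul_eq_mul] at h1
  exact h1

lemma rho_strict {a b : ℝ} (ha : 1 ≤ a) (hab : a < b) : rho b < rho a := by
  have h1 := rho_gap ha hab.le
  have h2 := rho_pos b
  have h3 : 0 < (b - a) * (rho b / b) := by
    have : 0 < b := by linarith
    have : 0 < b - a := by linarith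
    positivity
  linarith

/-- `v ρ(v)` is strictly decreasing -/
lemma vrho_strict : StrictAntiOn (fun v : ℝ => v * rho v) (Ici 1) := by
  apply strictAntiOn_of_deriv_neg (convex_Ici 1)
  · exact (continuous_id.mul rho_cont).continuousOn
  · intro v hv
    rw [interior_Ici] at hv
    have hv1 : 1 < v := hv
    have h1 := (hasDerivAt_id v).mul (rho_hasDerivAt hv1)
    have h2 : HasDerivAt (fun v : ℝ => v * rho v) (1 * rho v + v * (-rho (v - 1) / v)) v := h1
    rw [h2.deriv]
    have hv0 : v ≠ 0 := by linarith
    have h3 : 1 * rho v + v * (-rho (v - 1) / v) = rho v - rho (v - 1) := by field_simp; ring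
    rw [h3]
    have h4 : rho v < rho (v - 1) := by
      rcases le_or_gt (v - 1) 1 with h | h
      · rw [rho_one h]
        have := rho_strict le_rfl hv1
        rwa [rho_one le_rfl] at this
      · exact rho_strict h.le (by linarith)
    linarith

lemma exp_rho_strict {y σ : ℝ} (hy : 0 ≤ y) (hσ : 0 < σ) :
    rho (Real.exp (y + σ)) < Real.exp (-σ) * rho (Real.exp y) := by
  have h1 : (1 : ℝ) ≤ Real.exp y := Real.one_le_exp hy
  have h2 : Real.exp y < Real.exp (y + σ) := Real.exp_lt_exp.mpr (by linarith)
  have h3 := vrho_strict (show Real.exp y ∈ Ici (1:ℝ) from h1)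
    (show Real.exp (y + σ) ∈ Ici (1:ℝ) from h1.trans h2.le) h2
  simp only at h3
  have h4 : Real.exp (y + σ) = Real.exp y * Real.exp σ := Real.exp_add _ _
  have h5 : Real.exp (-σ) * Real.exp σ = 1 := by rw [← Real.exp_add]; simp
  have h6 : Real.exp y * (Real.exp σ * rho (Real.exp (y + σ))) < Real.exp y * rho (Real.exp y) := by
    calc Real.exp y * (Real.exp σ * rho (Real.exp (y + σ)))
        = Real.exp (y + σ) * rho (Real.exp (y + σ)) := by rw [h4]; ring
      _ < _ := h3
  have h7 := lt_of_mul_lt_mul_left h6 (Real.exp_pos y).le
  calc rho (Real.exp (y + σ)) = Real.exp (-σ) * (Real.exp σ * rho (Real.exp (y + σ))) := by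
        rw [← mul_assoc, h5, one_mul]
    _ < _ := mul_lt_mul_of_pos_left h7 (Real.exp_pos _)

/-- strict form of `rho_small` -/
theorem rho_small_strict {d v : ℝ} (h0 : 0 < d) (hd : d ≤ Real.log 2) (hv : Real.exp d < v) :
    rho v < (1 - d) * rho (v * Real.exp (-d)) := by
  set e : ℝ := Real.exp d with he
  set r : ℝ := Real.exp (-d) with hr
  have her : e * r = 1 := by rw [he, hr, ← Real.exp_add]; simp
  have he1 : 1 < e := by rw [he]; exact Real.one_lt_exp_iff.mpr h0
  have he2 : e ≤ 2 := by
    rw [he, ← Real.le_log_iff_exp_le (by norm_num)]; exact hd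
  have hr0 : 0 < r := Real.exp_pos _
  have hr1 : r < 1 := by
    have := Real.exp_lt_exp.mpr (show -d < 0 by linarith)
    simpa [hr] using this
  have hrhoe : rho e = 1 - d := by
    rw [rho_log he1.le he2, he, Real.log_exp]
  have hd1 : d < 1 := by
    have := Real.log_two_lt_d9
    linarith
  have hv0 : 0 < v := by linarith
  rcases le_or_gt v (1 + e) with hve | hve
  · -- base interval
    have hwr1 : 1 ≤ v * r := by
      calc (1:ℝ) = e * r := her.symm
        _ ≤ v * r := by gcongr
    have hwr2 : v * r ≤ 2 := by
      calc v * r ≤ (1 + e) * r := by gcongr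
        _ = r + e * r := by ring
        _ ≤ 2 := by rw [her]; linarith
    rw [rho_log hwr1 hwr2]
    have h1 := rho_sub he1.le hv.le
    have h2 : (∫ s in e..v, (1 - d) * (1 / s)) < ∫ s in e..v, rho (s - 1) / s := by
      apply intervalIntegral.integral_lt_integral_of_continuousOn_of_le_of_exists_lt hv
      · apply ContinuousOn.mul continuousOn_const
        apply ContinuousOn.div continuousOn_const continuousOn_id
        intro s hs
        have : 0 < s := by linarith [hs.1]
        exact this.ne'
      · apply ContinuousOn.div (rho_cont.comp (by fun_prop)).continuousOn continuousOn_id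
        intro s hs
        have : 0 < s := by linarith [hs.1]
        exact this.ne'
      · intro s hs
        have hs0 : 0 < s := by linarith [hs.1]
        have h3 : 1 - d ≤ rho (s - 1) := by
          rw [← hrhoe]; exact rho_anti (by linarith [hs.2])
        rw [mul_one_div]
        gcongr
      · refine ⟨e, ⟨le_rfl, hv.le⟩, ?_⟩
        have hs0 : 0 < e := by linarith
        have h3 : 1 - d < rho (e - 1) := by
          rw [rho_one (by linarith)]; linarith
        rw [mul_one_div]
        gcongr
    rw [intervalIntegral.integral_const_mul, integral_one_div_of_pos (by linarith) hv0] at h2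
    have h3 : Real.log (v / e) = Real.log (v * r) := by
      congr 1
      rw [div_eq_iff (by linarith)]
      calc v = v * (e * r) := by rw [her]; ring
        _ = _ := by ring
    rw [h3] at h2
    rw [hrhoe] at h1
    nlinarith
  · have hwr : 1 ≤ v * r := by
      calc (1:ℝ) = e * r := her.symm
        _ ≤ v * r := by gcongr
    have h1 : v * rho (v * r) = ∫ s in (v - e)..v, rho (s * r) := by
      have h2 := rho_mul hwr
      have h3 : (∫ s in (v - e)..v, rho (s * r)) = r⁻¹ • ∫ s in ((v - e) * r)..(v * r), rho s :=
        intervalIntegral.integral_comp_mul_right (fun s => rho s) hr0.ne'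
      have h4 : (v - e) * r = v * r - 1 := by rw [sub_mul, her]
      rw [h3, h4, ← h2, smul_eq_mul]
      field_simp
    have h2 := rho_mul (show (1:ℝ) ≤ v by linarith)
    have hc1 : Continuous fun s : ℝ => rho (s * r) := rho_cont.comp (by fun_prop)
    have h3 : (∫ s in (v - e)..v, rho (s * r))
        = (∫ s in (v - e)..(v - 1), rho (s * r)) + ∫ s in (v - 1)..v, rho (s * r) :=
      (intervalIntegral.integral_add_adjacent_intervals
        (hc1.intervalIntegrable _ _) (hc1.intervalIntegrable _ _)).symm
    have h4 : (∫ s in (v - 1)..v, rho s) ≤ ∫ s in (v - 1)..v, (1 - d) * rho (s * r) := by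
      apply intervalIntegral.integral_mono_on (by linarith)
      · exact rho_cont.intervalIntegrable _ _
      · exact (hc1.const_mul _).intervalIntegrable _ _
      · intro s hs
        exact rho_small h0.le hd (by rw [← he]; linarith [hs.1])
    rw [intervalIntegral.integral_const_mul] at h4
    have h5 : 0 < ∫ s in (v - e)..(v - 1), rho (s * r) := by
      apply intervalIntegral.intervalIntegral_pos_of_pos_on (hc1.intervalIntegrable _ _)
      · intro s _; exact rho_pos _
      · linarith
    have h6 : v * rho v < v * ((1 - d) * rho (v * r)) := by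
      calc v * rho v = ∫ s in (v - 1)..v, rho s := h2
        _ ≤ (1 - d) * ∫ s in (v - 1)..v, rho (s * r) := h4
        _ < (1 - d) * (∫ s in (v - e)..(v - 1), rho (s * r))
            + (1 - d) * ∫ s in (v - 1)..v, rho (s * r) := by
            have : 0 < 1 - d := by linarith
            have : 0 < (1 - d) * (∫ s in (v - e)..(v - 1), rho (s * r)) := by positivity
            linarith
        _ = (1 - d) * (v * rho (v * r)) := by rw [h1, h3]; ring
        _ = v * ((1 - d) * rho (v * r)) := by ring
    exact lt_of_mul_lt_mul_left h6 hv0.le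

end Pool.Agent.Helper923.HRhoS
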