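import Mathlib
import Pool.Agent.Helper923.HRhoS

set_option autoImplicit false

namespace Pool.Agent.Helper923.HSgain

open Finset Filter Topology Pool.Agent.Helper923.HRho Pool.Agent.Helper923.HCount
  Pool.Agent.Helper923.HReduce Pool.Agent.Helper923.HRhoS Pool.Agent.Helper923.HBrun

lemma gap_exists {c : ℝ} (hc : 0 < c) :
    ∃ γ : ℝ, 0 < γ ∧ γ ≤ c ∧ ∀ s : ℕ, 1 ≤ s → (1 : ℝ) / s < c → (1 : ℝ) / s ≤ c - γ := by
  have hex : ∃ s : ℕ, 1 ≤ s ∧ (1 : ℝ) / s < c := by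
    obtain ⟨n, hn⟩ := exists_nat_one_div_lt hc
    exact ⟨n + 1, by omega, by push_cast; exact hn⟩
  classical
  set s₀ := Nat.find hex with hs₀
  obtain ⟨h1, h2⟩ := Nat.find_spec hex
  rw [← hs₀] at h1 h2
  have h0 : (0 : ℝ) < s₀ := by exact_mod_cast h1
  have h3 : 0 < 1 / (s₀ : ℝ) := by positivity
  refine ⟨c - 1 / (s₀ : ℝ), by linarith, by linarith, fun s hs hsc => ?_⟩
  have h4 : s₀ ≤ s := Nat.find_min' hex ⟨hs, hsc⟩
  have h5 : (s₀ : ℝ) ≤ s := by exact_mod_cast h4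
  have h6 : 1 / (s : ℝ) ≤ 1 / s₀ := one_div_le_one_div_of_le h0 h5
  linarith

theorem sgain {c η : ℝ} (hc : 0 < c) (hη : 0 < η) : ∃ ε : ℝ, 0 < ε ∧ ∀ S : Finset ℕ,
    (∀ s ∈ S, 2 ≤ s ∧ (1 : ℝ) / s < c) → ∀ y : ℝ, 0 ≤ y →
    c - ε ≤ ∑ s ∈ S, (1 : ℝ) / s + y → ∑ s ∈ S, (1 : ℝ) / s + y ≤ c → η ≤ ∑ s ∈ S, (1 : ℝ) / s →
    rho (Real.exp c) + ε ≤ kap S * rho (Real.exp y) := by
  classical
  obtain ⟨γ, hγ0, hγc, hγ⟩ := gap_exists hc
  by_cases hηc : η ≤ c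
  swap
  · refine ⟨1, one_pos, fun S _ y hy _ h1 h2 => ?_⟩
    exfalso; linarith
  -- the second gain
  obtain ⟨ε₂, hε₂, hg₂⟩ : ∃ ε₂ : ℝ, 0 < ε₂ ∧ ∀ y σ : ℝ, 0 ≤ y → y ≤ c → η ≤ σ → σ ≤ c →
      rho (Real.exp (y + σ)) + ε₂ ≤ Real.exp (-σ) * rho (Real.exp y) := by
    set g : ℝ × ℝ → ℝ := fun p => Real.exp (-p.2) * rho (Real.exp p.1) - rho (Real.exp (p.1 + p.2))
      with hg
    have hgc : Continuous g := by
      apply Continuous.sub
      · apply Continuous.mul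
        · fun_prop
        · exact rho_cont.comp (by fun_prop)
      · exact rho_cont.comp (by fun_prop)
    have hK : IsCompact (Set.Icc (0:ℝ) c ×ˢ Set.Icc η c) := isCompact_Icc.prod isCompact_Icc
    obtain ⟨p, hp, hmin⟩ := hK.exists_isMinOn ⟨(0, η), ⟨le_rfl, hc.le⟩, ⟨le_rfl, hηc⟩⟩ hgc.continuousOn
    refine ⟨g p, ?_, fun y σ h1 h2 h3 h4 => ?_⟩
    · have := exp_rho_strict (y := p.1) (σ := p.2) hp.1.1 (lt_of_lt_of_le hη hp.2.1)
      simp only [hg]; linarith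
    · have := hmin (show (y, σ) ∈ (Set.Icc (0:ℝ) c ×ˢ Set.Icc η c) from ⟨⟨h1, h2⟩, ⟨h3, h4⟩⟩)
      have h5 : g p ≤ g (y, σ) := this
      have h6 : g (y, σ) = Real.exp (-σ) * rho (Real.exp y) - rho (Real.exp (y + σ)) := rfl
      linarith
  obtain ⟨K, hK⟩ := exists_nat_gt (4 * c / ε₂)
  have hK0 : (0 : ℝ) < K := lt_of_le_of_lt (by positivity) hK
  have hK1 : 1 ≤ K := by
    have : 0 < K := by exact_mod_cast hK0
    omega
  have hKc : 2 * c / K ≤ ε₂ / 2 := by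
    rw [div_lt_iff₀ hε₂] at hK
    rw [div_le_iff₀ hK0]; linarith
  -- the first gain
  obtain ⟨ε₁, hε₁, hg₁⟩ : ∃ ε₁ : ℝ, 0 < ε₁ ∧ ∀ s ∈ Icc 2 K, ∀ z : ℝ, γ / 2 ≤ z → z ≤ c →
      rho (Real.exp (z + 1 / s)) + ε₁ ≤ (1 - 1 / (s : ℝ)) * rho (Real.exp z) := by
    have h1 : ∀ s ∈ Icc 2 K, ∀ᶠ ε in 𝓝[>] (0 : ℝ), ∀ z : ℝ, γ / 2 ≤ z → z ≤ c →
        rho (Real.exp (z + 1 / s)) + ε ≤ (1 - 1 / (s : ℝ)) * rho (Real.exp z) := by
      intro s hs
      rw [mem_Icc] at hs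
      set g : ℝ → ℝ := fun z => (1 - 1 / (s : ℝ)) * rho (Real.exp z) - rho (Real.exp (z + 1 / s))
        with hg
      have hgc : Continuous g := by
        apply Continuous.sub
        · exact continuous_const.mul (rho_cont.comp (by fun_prop))
        · exact rho_cont.comp (by fun_prop)
      obtain ⟨p, hp, hmin⟩ := (isCompact_Icc (a := γ / 2) (b := c)).exists_isMinOn
        ⟨c, by linarith, le_rfl⟩ hgc.continuousOn
      have hgp : 0 < g p := by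
        have hs2 : (2 : ℝ) ≤ s := by exact_mod_cast hs.1
        have hinv : 1 / (s : ℝ) ≤ 1 / 2 := one_div_le_one_div_of_le (by norm_num) hs2
        have hinv0 : 0 < 1 / (s : ℝ) := by positivity
        have hlog2 : (1 : ℝ) / 2 ≤ Real.log 2 := by
          have := Real.log_two_gt_d9
          linarith
        have hp1 : 0 < p := by linarith [hp.1]
        have h2 := rho_small_strict (d := 1 / (s : ℝ)) (v := Real.exp (p + 1 / s)) hinv0
          (hinv.trans hlog2) (Real.exp_lt_exp.mpr (by linarith))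
        have h4 : Real.exp (p + 1 / s) * Real.exp (-(1 / (s : ℝ))) = Real.exp p := by
          rw [← Real.exp_add]; ring_nf
        rw [h4] at h2
        simp only [hg]; linarith
      have h3 : ∀ᶠ ε in 𝓝[>] (0 : ℝ), ε < g p :=
        (eventually_lt_nhds hgp).filter_mono nhdsWithin_le_nhds
      filter_upwards [h3] with ε hε z hz1 hz2
      have h5 : g p ≤ g z := hmin (show z ∈ Set.Icc (γ / 2) c from ⟨hz1, hz2⟩)
      have h6 : g z = (1 - 1 / (s : ℝ)) * rho (Real.exp z) - rho (Real.exp (z + 1 / s)) := rfl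
      linarith
    have h2 := (eventually_all_finset _).mpr h1
    obtain ⟨ε, hε, hε0⟩ := (h2.and eventually_mem_nhdsWithin).exists
    exact ⟨ε, hε0, hε⟩
  refine ⟨min (ε₂ / 2) (min ε₁ (γ / 2)), by positivity, fun S hS y hy h1 h2 h3 => ?_⟩
  set ε := min (ε₂ / 2) (min ε₁ (γ / 2)) with hε
  have e1 : ε ≤ ε₂ / 2 := min_le_left _ _
  have e2 : ε ≤ ε₁ := (min_le_right _ _).trans (min_le_left _ _)
  have e3 : ε ≤ γ / 2 := (min_le_right _ _).trans (min_le_right _ _)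
  have hS2 : ∀ s ∈ S, 2 ≤ s := fun s hs => (hS s hs).1
  set σ := ∑ s ∈ S, (1 : ℝ) / s with hσ
  by_cases hsmall : ∃ s ∈ S, s ≤ K
  · obtain ⟨s, hs, hsK⟩ := hsmall
    obtain ⟨hs2, hsc⟩ := hS s hs
    have h4 : σ = 1 / s + ∑ a ∈ S.erase s, (1 : ℝ) / a := by
      rw [hσ, ← add_sum_erase _ _ hs]
    have h5 := hγ s (by omega) hsc
    set z := y + ∑ a ∈ S.erase s, (1 : ℝ) / a with hz
    have h6 : 0 ≤ ∑ a ∈ S.erase s, (1 : ℝ) / a := sum_nonneg (fun a _ => by positivity)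
    have h7 := kap_rho (S.erase s) (fun a ha => hS2 a (mem_of_mem_erase ha)) z (by linarith)
    have h8 : z - ∑ a ∈ S.erase s, (1 : ℝ) / a = y := by rw [hz]; ring
    rw [h8] at h7
    have h9 : kap S = (1 - 1 / (s : ℝ)) * kap (S.erase s) := by
      unfold kap
      rw [mul_prod_erase S (fun s : ℕ => 1 - 1 / (s : ℝ)) hs]
    have h10 : 0 ≤ 1 - 1 / (s : ℝ) := by
      have hs2' : (2 : ℝ) ≤ s := by exact_mod_cast hs2
      have : 1 / (s : ℝ) ≤ 1 / 2 := one_div_le_one_div_of_le (by norm_num) hs2'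
      linarith
    have hsinv : 0 ≤ 1 / (s : ℝ) := by positivity
    have h11 := hg₁ s (by rw [mem_Icc]; exact ⟨hs2, hsK⟩) z (by linarith) (by linarith)
    have h12 : rho (Real.exp c) ≤ rho (Real.exp (z + 1 / s)) :=
      rho_anti (Real.exp_le_exp.mpr (by linarith))
    rw [h9, mul_assoc]
    have h13 := mul_le_mul_of_nonneg_left h7 h10
    linarith
  · push Not at hsmall
    have h4 := kap_lower S K hK1 (fun s hs => ⟨hS2 s hs, (hsmall s hs).le⟩)
    rw [← hσ] at h4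
    have hσc : σ ≤ c := by linarith
    have h5 := hg₂ y σ hy (by linarith) h3 hσc
    have h6 : rho (Real.exp c) ≤ rho (Real.exp (y + σ)) :=
      rho_anti (Real.exp_le_exp.mpr (by linarith))
    have h7 : 2 * σ / K ≤ 2 * c / K := by gcongr
    have h8 := rho_pos (Real.exp y)
    have h9 := rho_le_one (Real.exp y)
    have h10 : (Real.exp (-σ) - 2 * σ / K) * rho (Real.exp y) ≤ kap S * rho (Real.exp y) :=
      mul_le_mul_of_nonneg_right h4 h8.le
    have hσ0 : 0 ≤ 2 * σ / K := by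
      have : 0 ≤ σ := by linarith
      positivity
    nlinarith

end Pool.Agent.Helper923.HSgain
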