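import Mathlib
import Pool.Agent.Helper923.HSgain

set_option autoImplicit false

namespace Pool.Agent.Helper923.HGain

open Finset Pool.Agent.Helper923.HRho Pool.Agent.Helper923.HKey Pool.Agent.Helper923.HMertens
  Pool.Agent.Helper923.HB

/-- the key inequality with its loss terms -/
theorem key_gain (r t : ℕ → ℝ) (hr : ∀ i, 0 ≤ r i) (ht : ∀ i, 0 ≤ t i) (k : ℕ) (C : ℝ) (hC : 0 ≤ C)
    (h : ∀ j i, j ≤ i → i < k → 0 < r j → 0 < r i → t j / E r j ≤ t i / E r (i + 1) + C)
    (v : ℝ) (hvdef : v = E r k) (hv : 2 < v) :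
    ∃ κ : ℝ, 0 ≤ κ ∧ (∀ i < k, 0 < r i → E r i < v - 1 → t i / E r i ≤ κ) ∧
      (∀ i < k, 0 < r i → v - 1 < E r (i + 1) → κ - C ≤ t i / E r (i + 1)) ∧
      rho (v - 1) * (∑ i ∈ range k, t i * r i) - C
        + ∑ i ∈ range k, (t i / E r (i + 1) - κ + C) *
            (Phi v (max (E r (i + 1)) (v - 1)) - Phi v (max (E r i) (v - 1)))
        + rho (v - 1) * ∑ i ∈ range k, (κ - t i / E r i) *
            (min (E r (i + 1)) (v - 1) - min (E r i) (v - 1)) ≤
      ∑ i ∈ range k, t i * (rho (max (E r i) (v - 1)) - rho (max (E r (i + 1)) (v - 1))) := by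
  have hmono := E_mono hr
  have hE1 := one_le_E hr
  obtain ⟨κ, hκ0, hκ1, hκ2⟩ : ∃ κ : ℝ, 0 ≤ κ ∧ (∀ i < k, 0 < r i → E r i < v - 1 → t i / E r i ≤ κ) ∧
      (∀ i < k, 0 < r i → v - 1 < E r (i + 1) → κ - C ≤ t i / E r (i + 1)) := by
    classical
    rcases (((range k).filter (fun i => 0 < r i ∧ E r i < v - 1))).eq_empty_or_nonempty with h0 | h0
    · refine ⟨0, le_rfl, ?_, ?_⟩
      · intro i hi hri hEi
        exfalso
        have : i ∈ (range k).filter (fun i => 0 < r i ∧ E r i < v - 1) := by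
          rw [mem_filter, mem_range]; exact ⟨hi, hri, hEi⟩
        rw [h0] at this
        simp at this
      · intro i _ _ _
        have := ht i
        have := E_pos r (i + 1)
        have : 0 ≤ t i / E r (i + 1) := by positivity
        linarith
    · obtain ⟨j, hj, hmax⟩ := exists_max_image _ (fun i => t i / E r i) h0
      rw [mem_filter, mem_range] at hj
      refine ⟨t j / E r j, div_nonneg (ht j) (E_pos r j).le, ?_, ?_⟩
      · intro i hi hri hEi
        exact hmax i (by rw [mem_filter, mem_range]; exact ⟨hi, hri, hEi⟩)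
      · intro i hi hri hEi
        have hji : j ≤ i := by
          by_contra hlt
          push Not at hlt
          have := hmono (show i + 1 ≤ j by omega)
          linarith [hj.2.2]
        have := h j i hji hi hj.2.1 hri
        linarith
  refine ⟨κ, hκ0, hκ1, hκ2, ?_⟩
  set a : ℕ → ℝ := fun i => min (E r i) (v - 1) with ha
  set b : ℕ → ℝ := fun i => max (E r i) (v - 1) with hb
  have hper : ∀ i ∈ range k, (t i / E r (i + 1)) * (Phi v (b (i + 1)) - Phi v (b i))
      - rho (v - 1) * ((t i / E r i) * (a (i + 1) - a i)) ≤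
      t i * (rho (b i) - rho (b (i + 1))) - rho (v - 1) * (t i * r i) := by
    intro i hi
    rw [mem_range] at hi
    rcases eq_or_lt_of_le (hr i) with hri | hri
    · have h1 : E r (i + 1) = E r i := by rw [E_succ, ← hri]; simp
      simp only [ha, hb, h1, ← hri]
      simp
    have hEi := E_pos r i
    have hEi1 := E_pos r (i + 1)
    have hle : E r i ≤ E r (i + 1) := hmono (by omega)
    have hlev : E r (i + 1) ≤ v := by rw [hvdef]; exact hmono (by omega)
    have ha0 : 0 < a i := lt_min hEi (by linarith)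
    have ha1 : 0 < a (i + 1) := lt_min hEi1 (by linarith)
    have hb0 : 0 < b i := lt_of_lt_of_le hEi (le_max_left _ _)
    have hb1 : 0 < b (i + 1) := lt_of_lt_of_le hEi1 (le_max_left _ _)
    have hal : a i ≤ a (i + 1) := min_le_min_right _ hle
    have hbl : b i ≤ b (i + 1) := max_le_max_right _ hle
    have hab : ∀ j, a j * b j = E r j * (v - 1) := fun j => min_mul_max _ _
    have hrlog : r i = Real.log (a (i + 1) / a i) + Real.log (b (i + 1) / b i) := by
      rw [← Real.log_mul (by positivity) (by positivity)]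
      have h1 : a (i + 1) / a i * (b (i + 1) / b i) = Real.exp (r i) := by
        rw [div_mul_div_comm, hab, hab, E_succ]
        have : v - 1 ≠ 0 := by linarith
        field_simp
      rw [h1, Real.log_exp]
    have hti := ht i
    have hrp := (rho_pos (v - 1)).le
    -- first part
    have hA : t i * Real.log (a (i + 1) / a i) ≤ (t i / E r i) * (a (i + 1) - a i) := by
      rcases lt_or_ge (E r i) (v - 1) with hc | hc
      · have h1 : a i = E r i := min_eq_left hc.le
        have h2 : Real.log (a (i + 1) / a i) ≤ a (i + 1) / a i - 1 :=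
          Real.log_le_sub_one_of_pos (by positivity)
        calc t i * Real.log (a (i + 1) / a i) ≤ t i * (a (i + 1) / a i - 1) := by gcongr
          _ = (t i / E r i) * (a (i + 1) - a i) := by rw [h1]; field_simp
      · have h1 : a i = v - 1 := min_eq_right hc
        have h2 : a (i + 1) = v - 1 := min_eq_right (hc.trans hle)
        rw [h1, h2]
        have : v - 1 ≠ 0 := by linarith
        rw [div_self this]
        simp
    have hB : (t i / E r (i + 1)) * (Phi v (b (i + 1)) - Phi v (b i)) ≤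
        t i * (rho (b i) - rho (b (i + 1)) - rho (v - 1) * Real.log (b (i + 1) / b i)) := by
      rcases lt_or_ge (v - 1) (E r (i + 1)) with hc | hc
      · have h1 : b (i + 1) = E r (i + 1) := max_eq_left hc.le
        obtain ⟨h2, h3⟩ := step hv (le_max_right (E r i) (v - 1)) hbl
          (by rw [h1]; exact hlev)
        calc (t i / E r (i + 1)) * (Phi v (b (i + 1)) - Phi v (b i))
            = t i * ((1 / b (i + 1)) * (Phi v (b (i + 1)) - Phi v (b i))) := by
              rw [h1]; field_simp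
          _ ≤ _ := mul_le_mul_of_nonneg_left h2 hti
      · have h1 : b (i + 1) = v - 1 := max_eq_right hc
        have h2 : b i = v - 1 := max_eq_right (hle.trans hc)
        rw [h1, h2]
        have : v - 1 ≠ 0 := by linarith
        rw [div_self this]
        simp
    have hA' := mul_le_mul_of_nonneg_left hA hrp
    have e1 : t i * (rho (b i) - rho (b (i + 1))) - rho (v - 1) * (t i * r i)
        = t i * (rho (b i) - rho (b (i + 1)) - rho (v - 1) * Real.log (b (i + 1) / b i))
          - rho (v - 1) * (t i * Real.log (a (i + 1) / a i)) := by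
      rw [hrlog]; ring
    rw [e1]
    linarith
  have hsum := sum_le_sum hper
  rw [sum_sub_distrib, sum_sub_distrib, ← mul_sum, ← mul_sum] at hsum
  have hsumPhi : ∑ i ∈ range k, (Phi v (b (i + 1)) - Phi v (b i)) = (v - 2) * rho (v - 1) := by
    rw [sum_range_sub (fun i => Phi v (b i))]
    have hb0 : b 0 = v - 1 := by
      simp only [hb]; rw [E_zero]; exact max_eq_right (by linarith)
    have hbk : b k = v := by
      simp only [hb]; rw [← hvdef]; exact max_eq_left (by linarith)
    have hPhi0 : Phi v (v - 1) = 0 := by simp [Phi]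
    rw [hb0, hbk, hPhi0, Phi_v hv.le, sub_zero]
  have hsuma : ∑ i ∈ range k, (a (i + 1) - a i) = v - 2 := by
    rw [sum_range_sub a]
    have ha0 : a 0 = 1 := by
      simp only [ha]; rw [E_zero]; exact min_eq_left (by linarith)
    have hak : a k = v - 1 := by
      simp only [ha]; rw [← hvdef]; exact min_eq_right (by linarith)
    rw [ha0, hak]; ring
  have e2 : ∑ i ∈ range k, (t i / E r (i + 1) - κ + C) * (Phi v (b (i + 1)) - Phi v (b i))
      = ∑ i ∈ range k, (t i / E r (i + 1)) * (Phi v (b (i + 1)) - Phi v (b i))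
        - (κ - C) * ((v - 2) * rho (v - 1)) := by
    rw [← hsumPhi, mul_sum, ← sum_sub_distrib]
    apply sum_congr rfl
    intro i _
    ring
  have e3 : ∑ i ∈ range k, (κ - t i / E r i) * (a (i + 1) - a i)
      = κ * (v - 2) - ∑ i ∈ range k, (t i / E r i) * (a (i + 1) - a i) := by
    rw [← hsuma, mul_sum, ← sum_sub_distrib]
    apply sum_congr rfl
    intro i _
    ring
  have h1 : (v - 2) * rho (v - 1) ≤ 1 := by
    have h2 := mul_rho_le (show (1:ℝ) ≤ v - 1 by linarith)
    have h3 := (rho_pos (v - 1)).le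
    nlinarith
  have h2 : C * ((v - 2) * rho (v - 1)) ≤ C * 1 := mul_le_mul_of_nonneg_left h1 hC
  show rho (v - 1) * (∑ i ∈ range k, t i * r i) - C
        + ∑ i ∈ range k, (t i / E r (i + 1) - κ + C) * (Phi v (b (i + 1)) - Phi v (b i))
        + rho (v - 1) * ∑ i ∈ range k, (κ - t i / E r i) * (a (i + 1) - a i) ≤
      ∑ i ∈ range k, t i * (rho (b i) - rho (b (i + 1)))
  rw [e2, e3]
  have e4 : rho (v - 1) * (κ * (v - 2) - ∑ i ∈ range k, (t i / E r i) * (a (i + 1) - a i))
      = κ * ((v - 2) * rho (v - 1))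
        - rho (v - 1) * ∑ i ∈ range k, (t i / E r i) * (a (i + 1) - a i) := by ring
  rw [e4]
  linarith

/-- `Λ_P` -/
noncomputable def LL (P : Finset ℕ) (m : ℕ) : ℝ := ∑ p ∈ (PP m).filter (fun p => p ∈ P), Real.log p / p

lemma LL_mono (P : Finset ℕ) {m m' : ℕ} (h : m ≤ m') : LL P m ≤ LL P m' := by
  apply sum_le_sum_of_subset_of_nonneg
  · intro p hp
    simp only [mem_filter, mem_Icc] at hp ⊢
    exact ⟨⟨⟨hp.1.1.1, by omega⟩, hp.1.2⟩, hp.2⟩
  · intro p _ _
    have := Real.log_natCast_nonneg p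
    positivity

lemma LL_nonneg (P : Finset ℕ) (m : ℕ) : 0 ≤ LL P m := by
  apply sum_nonneg
  intro p _
  have := Real.log_natCast_nonneg p
  positivity

lemma LL_eq (P : Finset ℕ) (hP : ∀ p ∈ P, p.Prime) (n : ℕ) :
    ∑ i ∈ range (n + 1), Real.log i * rr P i = LL P n := by
  unfold LL
  have h1 : (PP n).filter (fun p => p ∈ P) = (range (n + 1)).filter (fun p => p ∈ P) := by
    ext p
    simp only [mem_filter, mem_Icc, mem_range]
    constructor
    · rintro ⟨⟨⟨h1, h2⟩, h3⟩, h4⟩; exact ⟨by omega, h4⟩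
    · rintro ⟨h1, h2⟩
      exact ⟨⟨⟨(hP p h2).one_lt.le, by omega⟩, hP p h2⟩, h2⟩
  rw [h1, sum_filter]
  apply sum_congr rfl
  intro q _
  simp only [rr]
  split_ifs
  · ring
  · ring

theorem B_gain : ∃ C : ℝ, 0 ≤ C ∧ ∀ P : Finset ℕ, (∀ p ∈ P, p.Prime) → ∀ n : ℕ, 1 ≤ n →
    ∀ v : ℝ, v = E (rr P) (n + 1) → 2 < v → ∃ κ : ℝ, 0 ≤ κ ∧
      (∀ i < n + 1, i ∈ P → E (rr P) i < v - 1 → Real.log i / E (rr P) i ≤ κ) ∧
      (∀ i < n + 1, i ∈ P → v - 1 < E (rr P) (i + 1) → κ - C ≤ Real.log i / E (rr P) (i + 1)) ∧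
      (∀ j i, j ≤ i → j ∈ P → i ∈ P → Real.log j / E (rr P) j ≤ Real.log i / E (rr P) (i + 1) + C) ∧
      rho v * Real.log n - 2 * C
        + ∑ q ∈ range (n + 1), (rho (max (E (rr P) q) (v - 1)) - rho (max (E (rr P) (q + 1)) (v - 1)))
            * LL P (n / q)
        + ∑ i ∈ range (n + 1), (Real.log i / E (rr P) (i + 1) - κ + C) *
            (Phi v (max (E (rr P) (i + 1)) (v - 1)) - Phi v (max (E (rr P) i) (v - 1)))
        + rho (v - 1) * ∑ i ∈ range (n + 1), (κ - Real.log i / E (rr P) i) *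
            (min (E (rr P) (i + 1)) (v - 1) - min (E (rr P) i) (v - 1)) ≤
      ∑ p ∈ (PP n).filter (fun p => p ∉ P), (Real.log p / p) * mm P (n / p) := by
  classical
  obtain ⟨C1, hC10, hC1⟩ := ratio_cond
  obtain ⟨C0, hC0⟩ := mertens_log
  have hC00 : 0 ≤ C0 := (abs_nonneg _).trans (hC0 1 le_rfl)
  refine ⟨C1 + 3 * C0, by positivity, fun P hP n hn v hv hv2 => ?_⟩
  set r := rr P with hr
  have hr0 : ∀ i, 0 ≤ r i := rr_nonneg P
  have hrpos : ∀ i, i ∈ P → 0 < r i := by
    intro i hi
    have := (hP i hi).pos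
    simp only [hr, rr, if_pos hi]
    positivity
  set G := (PP n).filter (fun p => p ∉ P) with hG
  set LP : ℝ := LL P n with hLP
  obtain ⟨κ, hκ0, hκ1, hκ2, hkey⟩ := key_gain r (fun q => Real.log q) hr0
    (fun i => Real.log_natCast_nonneg i) (n + 1) C1 hC10
    (fun j i hji _ hj hi => hC1 P hP j i hji hj hi) v hv hv2
  refine ⟨κ, hκ0, fun i hi hiP h => hκ1 i hi (hrpos i hiP) h, fun i hi hiP h => ?_,
    fun j i hji hj hi => ?_, ?_⟩
  · have := hκ2 i hi (hrpos i hiP) h
    linarith
  · have := hC1 P hP j i hji (hrpos j hj) (hrpos i hi)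
    linarith
  -- the sum of t r
  rw [LL_eq P hP n] at hkey
  set D : ℕ → ℝ := fun q => rho (E r q) - rho (E r (q + 1)) with hD
  set Db : ℕ → ℝ := fun q => rho (max (E r q) (v - 1)) - rho (max (E r (q + 1)) (v - 1)) with hDb
  have hEm := E_mono hr0
  have hDb0 : ∀ q, 0 ≤ Db q := by
    intro q
    have := rho_anti (max_le_max_right (v - 1) (hEm (show q ≤ q + 1 by omega)))
    simp only [hDb]; linarith
  have hDbD : ∀ q, Db q ≤ D q := by
    intro q
    have h1 := rho_min_add_max (E r q) (v - 1)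
    have h2 := rho_min_add_max (E r (q + 1)) (v - 1)
    have h3 := rho_anti (min_le_min_right (v - 1) (hEm (show q ≤ q + 1 by omega)))
    simp only [hDb, hD]; linarith
  -- m (n / p) in terms of m n
  have hmp : ∀ p ∈ G, mm P (n / p) = mm P n + ∑ q ∈ (range (n + 1)).filter (fun q => n / p < q), D q := by
    intro p _
    have hle : n / p + 1 ≤ n + 1 := by
      have := Nat.div_le_self n p
      omega
    have h1 : (range (n + 1)).filter (fun q => n / p < q) = Ico (n / p + 1) (n + 1) := by
      ext q; simp only [mem_filter, mem_range, mem_Ico]; omega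
    rw [h1]
    have h2 := sum_Ico_sub (fun q => -rho (E r q)) hle
    have h3 : ∑ q ∈ Ico (n / p + 1) (n + 1), D q
        = ∑ i ∈ Ico (n / p + 1) (n + 1), (-rho (E r (i + 1)) - -rho (E r i)) := by
      apply sum_congr rfl; intro q _; simp only [hD]; ring
    rw [h3, h2]
    simp only [mm]
    ring
  have hmain : ∑ p ∈ G, (Real.log p / p) * mm P (n / p)
      = mm P n * ∑ p ∈ G, Real.log p / p
        + ∑ q ∈ range (n + 1), D q * ∑ p ∈ G.filter (fun p => n / p < q), Real.log p / p := by
    have h1 : ∑ p ∈ G, (Real.log p / p) * mm P (n / p)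
        = ∑ p ∈ G, (mm P n * (Real.log p / p)
          + ∑ q ∈ (range (n + 1)).filter (fun q => n / p < q), D q * (Real.log p / p)) := by
      apply sum_congr rfl
      intro p hp
      rw [hmp p hp, mul_add, ← sum_mul]
      ring
    rw [h1, sum_add_distrib, ← mul_sum]
    congr 1
    have h2 : ∀ q ∈ range (n + 1), D q * ∑ p ∈ G.filter (fun p => n / p < q), Real.log p / p
        = ∑ p ∈ G.filter (fun p => n / p < q), D q * (Real.log p / p) := fun q _ => mul_sum _ _ _
    rw [sum_congr rfl h2]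
    apply sum_comm'
    intro p q
    simp only [mem_filter]
    tauto
  rw [hmain]
  have hlogp : ∀ p ∈ G, 0 ≤ Real.log p / p := by
    intro p _
    have := Real.log_natCast_nonneg p
    positivity
  -- total over primes
  have hLam : ∀ k : ℕ, 1 ≤ k → |∑ p ∈ PP k, Real.log p / p - Real.log k| ≤ C0 := hC0
  have hsplit0 : ∀ m : ℕ, ∑ p ∈ (PP m).filter (fun p => p ∉ P), Real.log p / p
      = ∑ p ∈ PP m, Real.log p / p - LL P m := by
    intro m
    have := sum_filter_add_sum_filter_not (PP m) (fun p => p ∈ P) (fun p => Real.log p / (p : ℝ))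
    unfold LL
    linarith
  have hsplit : ∑ p ∈ G, Real.log p / p = ∑ p ∈ PP n, Real.log p / p - LP := hsplit0 n
  have hLP0 : 0 ≤ LP := LL_nonneg P n
  -- lower bound for the inner sums
  have hinner : ∀ q ∈ range (n + 1), 0 < r q →
      Real.log q - 2 * C0 - LP + LL P (n / q)
        ≤ ∑ p ∈ G.filter (fun p => n / p < q), Real.log p / p := by
    intro q hq hrq
    rw [mem_range] at hq
    have hqP := rr_pos hrq
    have hqp := hP q hqP
    have hq0 : 0 < q := hqp.pos
    have hnq : 1 ≤ n / q := by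
      rw [Nat.one_le_div_iff hq0]; omega
    have h1 : G.filter (fun p => n / p < q) = G.filter (fun p => ¬ p ≤ n / q) := by
      apply filter_congr
      intro p hp
      rw [hG, mem_filter, mem_filter, mem_Icc] at hp
      have hp0 : 0 < p := hp.1.2.pos
      rw [Nat.div_lt_iff_lt_mul hp0, not_le, Nat.div_lt_iff_lt_mul hq0, Nat.mul_comm]
    rw [h1]
    have h2 := sum_filter_add_sum_filter_not G (fun p => p ≤ n / q) (fun p => Real.log p / (p : ℝ))
    have h3 : ∑ p ∈ G.filter (fun p => p ≤ n / q), Real.log p / (p : ℝ)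
        ≤ ∑ p ∈ PP (n / q), Real.log p / p - LL P (n / q) := by
      rw [← hsplit0 (n / q)]
      apply sum_le_sum_of_subset_of_nonneg
      · intro p hp
        rw [mem_filter, hG, mem_filter, mem_filter, mem_Icc] at hp
        rw [mem_filter, mem_filter, mem_Icc]
        exact ⟨⟨⟨hp.1.1.1.1, hp.2⟩, hp.1.1.2⟩, hp.1.2⟩
      · intro p _ _
        have := Real.log_natCast_nonneg p
        positivity
    have h4 := (abs_le.mp (hLam (n / q) hnq)).2
    have h5 := (abs_le.mp (hLam n hn)).1
    have h6 : Real.log ((n / q : ℕ) : ℝ) ≤ Real.log n - Real.log q := by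
      rw [← Real.log_div (by positivity) (by positivity)]
      apply Real.log_le_log
      · exact_mod_cast hnq
      · exact Nat.cast_div_le
    rw [hsplit] at h2
    linarith
  have hsum1 : ∑ q ∈ range (n + 1), Db q * (Real.log q - 2 * C0 - LP + LL P (n / q))
      ≤ ∑ q ∈ range (n + 1), D q * ∑ p ∈ G.filter (fun p => n / p < q), Real.log p / p := by
    apply sum_le_sum
    intro q hq
    have hnn : 0 ≤ ∑ p ∈ G.filter (fun p => n / p < q), Real.log p / p :=
      sum_nonneg (fun p hp => hlogp p (mem_filter.mp hp).1)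
    rcases eq_or_lt_of_le (hr0 q) with h0 | h0
    · have h1 : E r (q + 1) = E r q := by rw [E_succ, ← h0]; simp
      have h2 : Db q = 0 := by simp only [hDb, h1]; ring
      have h3 : D q = 0 := by simp only [hD, h1]; ring
      rw [h2, h3]; simp
    · calc Db q * (Real.log q - 2 * C0 - LP + LL P (n / q))
          ≤ Db q * ∑ p ∈ G.filter (fun p => n / p < q), Real.log p / p :=
            mul_le_mul_of_nonneg_left (hinner q hq h0) (hDb0 q)
        _ ≤ _ := mul_le_mul_of_nonneg_right (hDbD q) hnn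
  have hsumDb : ∑ q ∈ range (n + 1), Db q = rho (v - 1) - rho v := by
    have h1 := sum_range_sub' (fun q => rho (max (E r q) (v - 1))) (n + 1)
    have h2 : ∑ q ∈ range (n + 1), Db q
        = ∑ i ∈ range (n + 1), (rho (max (E r i) (v - 1)) - rho (max (E r (i + 1)) (v - 1))) := rfl
    rw [h2, h1, E_zero, rho_max_one, ← hv, max_eq_left (by linarith)]
  have hsum2 : ∑ q ∈ range (n + 1), Db q * (Real.log q - 2 * C0 - LP + LL P (n / q))
      = ∑ q ∈ range (n + 1), Real.log q * Db q - (2 * C0 + LP) * (rho (v - 1) - rho v)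
        + ∑ q ∈ range (n + 1), Db q * LL P (n / q) := by
    rw [← hsumDb, mul_sum, ← sum_sub_distrib, ← sum_add_distrib]
    apply sum_congr rfl
    intro q _
    ring
  have hm : mm P n = rho v := by rw [hv]; rfl
  have hv1 := rho_le_one v
  have hv0 := (rho_pos v).le
  have hv2' := rho_le_one (v - 1)
  have h5 := (abs_le.mp (hLam n hn)).1
  rw [hsplit, hm]
  have h7 : rho v * (Real.log n - C0) ≤ rho v * ∑ p ∈ PP n, Real.log p / p := by
    apply mul_le_mul_of_nonneg_left _ hv0
    linarith
  have h8 : 2 * C0 * (rho (v - 1) - rho v) ≤ 2 * C0 := by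
    have : rho (v - 1) - rho v ≤ 1 := by linarith
    nlinarith
  have h9 : rho v * C0 ≤ C0 := by nlinarith
  -- change of constant in the second gain
  have hPhi1 : ∑ i ∈ range (n + 1), (Phi v (max (E r (i + 1)) (v - 1)) - Phi v (max (E r i) (v - 1)))
      = (v - 2) * rho (v - 1) := by
    rw [sum_range_sub (fun i => Phi v (max (E r i) (v - 1)))]
    rw [← hv, E_zero, max_eq_left (show v - 1 ≤ v by linarith),
      max_eq_right (show (1:ℝ) ≤ v - 1 by linarith), Phi_v hv2.le]
    simp [Phi]
  have hvr : (v - 2) * rho (v - 1) ≤ 1 := by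
    have h2 := mul_rho_le (show (1:ℝ) ≤ v - 1 by linarith)
    have h3 := (rho_pos (v - 1)).le
    nlinarith
  have hc2 : ∑ i ∈ range (n + 1), (Real.log i / E r (i + 1) - κ + (C1 + 3 * C0)) *
            (Phi v (max (E r (i + 1)) (v - 1)) - Phi v (max (E r i) (v - 1)))
      = ∑ i ∈ range (n + 1), (Real.log i / E r (i + 1) - κ + C1) *
            (Phi v (max (E r (i + 1)) (v - 1)) - Phi v (max (E r i) (v - 1)))
        + 3 * C0 * ((v - 2) * rho (v - 1)) := by
    rw [← hPhi1, mul_sum, ← sum_add_distrib]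
    apply sum_congr rfl
    intro i _
    ring
  rw [hc2]
  have h10 : 3 * C0 * ((v - 2) * rho (v - 1)) ≤ 3 * C0 * 1 :=
    mul_le_mul_of_nonneg_left hvr (by positivity)
  have hkey' := hkey
  have e5 : rho v * (∑ p ∈ PP n, Real.log p / p - LP)
      = rho v * ∑ p ∈ PP n, Real.log p / p - rho v * LP := by ring
  rw [e5]
  have e6 : (2 * C0 + LP) * (rho (v - 1) - rho v)
      = 2 * C0 * (rho (v - 1) - rho v) + rho (v - 1) * LP - rho v * LP := by ring
  rw [e6] at hsum2
  have h11 : ∑ q ∈ range (n + 1), Db q * LL P (n / q)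
    = ∑ q ∈ range (n + 1), (rho (max (E r q) (v - 1)) - rho (max (E r (q + 1)) (v - 1)))
            * LL P (n / q) := rfl
  rw [← h11]
  have h12 : ∑ q ∈ range (n + 1), Real.log q * Db q
    = ∑ i ∈ range (n + 1), Real.log i * (rho (max (E r i) (v - 1)) - rho (max (E r (i + 1)) (v - 1))) := rfl
  rw [h12] at hsum2
  linarith

end Pool.Agent.Helper923.HGain
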