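import Mathlib
import Pool.Agent.Helper923.HGain

set_option autoImplicit false

namespace Pool.Agent.Helper923.HCore

open Finset Pool.Agent.Helper923.HRho Pool.Agent.Helper923.HKey Pool.Agent.Helper923.HMertens
  Pool.Agent.Helper923.HB Pool.Agent.Helper923.HGain Pool.Agent.Helper923.HRhoS

lemma E_eq_of_notMem {P : Finset ℕ} {i : ℕ} (h : i ∉ P) : E (rr P) (i + 1) = E (rr P) i := by
  rw [E_succ]; simp [rr, h]

lemma E_le_succ (P : Finset ℕ) (i : ℕ) : E (rr P) i ≤ E (rr P) (i + 1) :=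
  E_mono (rr_nonneg P) (by omega)

lemma crossing (P : Finset ℕ) (n : ℕ) (s : ℝ) (hs1 : 1 ≤ s) (hs : s < E (rr P) (n + 1)) :
    ∃ i, i < n + 1 ∧ i ∈ P ∧ E (rr P) i ≤ s ∧ s < E (rr P) (i + 1) := by
  classical
  have hex : ∃ i, s < E (rr P) (i + 1) := ⟨n, hs⟩
  set i := Nat.find hex with hi
  have h1 : s < E (rr P) (i + 1) := Nat.find_spec hex
  have h2 : i ≤ n := Nat.find_min' hex hs
  have h3 : E (rr P) i ≤ s := by
    rcases Nat.eq_zero_or_pos i with h0 | h0
    · rw [h0, E_zero]; exact hs1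
    · have h4 : ¬ s < E (rr P) ((i - 1) + 1) := Nat.find_min hex (by omega)
      have h5 : i - 1 + 1 = i := by omega
      rw [h5] at h4
      exact not_lt.mp h4
  refine ⟨i, by omega, ?_, h3, h1⟩
  by_contra h
  rw [E_eq_of_notMem h] at h1
  linarith

section

variable {P : Finset ℕ} {n : ℕ} {v κ C : ℝ}

/-- terms of the first gain are nonnegative -/
lemma c1_term (hF1 : ∀ i < n + 1, i ∈ P → E (rr P) i < v - 1 → Real.log i / E (rr P) i ≤ κ)
    {i : ℕ} (hi : i < n + 1) :
    0 ≤ (κ - Real.log i / E (rr P) i) * (min (E (rr P) (i + 1)) (v - 1) - min (E (rr P) i) (v - 1)) := by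
  by_cases hP : i ∈ P
  · rcases lt_or_ge (E (rr P) i) (v - 1) with h | h
    · have h1 := hF1 i hi hP h
      have h2 := min_le_min_right (v - 1) (E_le_succ P i)
      apply mul_nonneg <;> linarith
    · rw [min_eq_right h, min_eq_right (h.trans (E_le_succ P i))]
      simp
  · rw [E_eq_of_notMem hP]; simp

lemma a_nonneg (i : ℕ) : 0 ≤ min (E (rr P) (i + 1)) (v - 1) - min (E (rr P) i) (v - 1) := by
  have h2 := min_le_min_right (v - 1) (E_le_succ P i)
  linarith

lemma exp_sub_one_le {r : ℝ} (h0 : 0 ≤ r) (h1 : r ≤ 1 / 2) : Real.exp r - 1 ≤ 2 * r := by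
  have h2 := Real.add_one_le_exp (-r)
  have h3 : 0 < 1 - r := by linarith
  have h4 : Real.exp r * Real.exp (-r) = 1 := by rw [← Real.exp_add]; simp
  have h5 : Real.exp r * (1 - r) ≤ 1 := by
    calc Real.exp r * (1 - r) ≤ Real.exp r * Real.exp (-r) := by
          apply mul_le_mul_of_nonneg_left _ (Real.exp_pos r).le
          linarith
      _ = 1 := h4
  have h6 : Real.exp r ≤ 1 / (1 - r) := by rw [le_div_iff₀ h3]; exact h5
  have h7 : 1 / (1 - r) ≤ 1 + 2 * r := by
    rw [div_le_iff₀ h3]; nlinarith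
  linarith

lemma c1_use (hPp : ∀ p ∈ P, p.Prime) (hv2 : 2 < v) {ρ₀ G β : ℝ} (hρ₀ : 0 < ρ₀)
    (hρ : ρ₀ ≤ rho (v - 1)) (hβ : 0 < β) (hβv : 1 + β < v - 1)
    (hF1 : ∀ i < n + 1, i ∈ P → E (rr P) i < v - 1 → Real.log i / E (rr P) i ≤ κ)
    (hF3 : ∀ j i, j ≤ i → j ∈ P → i ∈ P → Real.log j / E (rr P) j ≤ Real.log i / E (rr P) (i + 1) + C)
    (hC : 0 ≤ C) (hG0 : 0 ≤ G) (hκ : 0 ≤ κ)
    (hG : rho (v - 1) * ∑ i ∈ range (n + 1), (κ - Real.log i / E (rr P) i) *
            (min (E (rr P) (i + 1)) (v - 1) - min (E (rr P) i) (v - 1)) ≤ G)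
    {j : ℕ} (hj : j < n + 1) (hjP : j ∈ P) (hj2 : 1 + β < E (rr P) (j + 1)) :
    κ ≤ Real.log j + C + G / (β * ρ₀) ∧ κ * β ≤ G / ρ₀ + 2 * LL P j := by
  set a : ℕ → ℝ := fun i => min (E (rr P) i) (v - 1) with ha
  have ha0 : ∀ i, 0 ≤ a (i + 1) - a i := fun i => a_nonneg i
  have hsub : range (j + 1) ⊆ range (n + 1) := range_subset_range.mpr (by omega)
  have hT : ∑ i ∈ range (j + 1), (κ - Real.log i / E (rr P) i) * (a (i + 1) - a i) ≤ G / ρ₀ := by
    have h1 : ∑ i ∈ range (j + 1), (κ - Real.log i / E (rr P) i) * (a (i + 1) - a i)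
        ≤ ∑ i ∈ range (n + 1), (κ - Real.log i / E (rr P) i) * (a (i + 1) - a i) :=
      sum_le_sum_of_subset_of_nonneg hsub (fun i hi _ => c1_term hF1 (mem_range.mp hi))
    have h2 : 0 ≤ ∑ i ∈ range (n + 1), (κ - Real.log i / E (rr P) i) * (a (i + 1) - a i) :=
      sum_nonneg (fun i hi => c1_term hF1 (mem_range.mp hi))
    rw [le_div_iff₀ hρ₀]
    calc _ ≤ (∑ i ∈ range (n + 1), (κ - Real.log i / E (rr P) i) * (a (i + 1) - a i)) * ρ₀ := by gcongr
      _ ≤ (∑ i ∈ range (n + 1), (κ - Real.log i / E (rr P) i) * (a (i + 1) - a i)) * rho (v - 1) := by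
          gcongr
      _ ≤ G := by rw [mul_comm]; exact hG
  have hsum : ∑ i ∈ range (j + 1), (a (i + 1) - a i) = a (j + 1) - 1 := by
    rw [sum_range_sub a]
    have : a 0 = 1 := by
      simp only [ha]; rw [E_zero]; exact min_eq_left (by linarith)
    rw [this]
  have hajβ : β ≤ a (j + 1) - 1 := by
    have : 1 + β ≤ a (j + 1) := le_min hj2.le hβv.le
    linarith
  constructor
  · set h := Real.log j / E (rr P) (j + 1) with hh
    have hle : h ≤ Real.log j := div_le_self (Real.log_natCast_nonneg j) (one_le_E (rr_nonneg P) _)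
    rcases le_or_gt (κ - h - C) 0 with hneg | hpos
    · have : 0 ≤ G / (β * ρ₀) := by positivity
      linarith
    · have h1 : ∑ i ∈ range (j + 1), (κ - h - C) * (a (i + 1) - a i)
          ≤ ∑ i ∈ range (j + 1), (κ - Real.log i / E (rr P) i) * (a (i + 1) - a i) := by
        apply sum_le_sum
        intro i hi
        rw [mem_range] at hi
        by_cases hiP : i ∈ P
        · have h2 := hF3 i j (by omega) hiP hjP
          apply mul_le_mul_of_nonneg_right _ (ha0 i)
          linarith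
        · have : a (i + 1) = a i := by simp only [ha]; rw [E_eq_of_notMem hiP]
          rw [this]; simp
      rw [← mul_sum, hsum] at h1
      have h2 : (κ - h - C) * β ≤ (κ - h - C) * (a (j + 1) - 1) := by gcongr
      have h3 : (κ - h - C) * β ≤ G / ρ₀ := by linarith
      have h4 : κ - h - C ≤ G / (β * ρ₀) := by
        rw [le_div_iff₀ (by positivity)]
        rw [le_div_iff₀ hρ₀] at h3
        linarith
      linarith
  · have h1 : κ * β ≤ κ * (a (j + 1) - 1) := by gcongr
    have h2 : κ * (a (j + 1) - 1) = ∑ i ∈ range (j + 1), (κ - Real.log i / E (rr P) i) * (a (i + 1) - a i)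
        + ∑ i ∈ range (j + 1), (Real.log i / E (rr P) i) * (a (i + 1) - a i) := by
      rw [← hsum, mul_sum, ← sum_add_distrib]
      apply sum_congr rfl
      intro i _
      ring
    have h3 : ∑ i ∈ range (j + 1), (Real.log i / E (rr P) i) * (a (i + 1) - a i) ≤ 2 * LL P j := by
      rw [← LL_eq P hPp j, mul_sum]
      apply sum_le_sum
      intro i _
      have hEi := E_pos (rr P) i
      have hli := Real.log_natCast_nonneg i
      by_cases hiP : i ∈ P
      · have h4 : a (i + 1) - a i ≤ E (rr P) (i + 1) - E (rr P) i := by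
          simp only [ha]
          have hle := E_le_succ P i
          rcases le_total (E (rr P) (i + 1)) (v - 1) with h | h
          · rw [min_eq_left h, min_eq_left (hle.trans h)]
          · rw [min_eq_right h]
            rcases le_total (E (rr P) i) (v - 1) with h' | h'
            · rw [min_eq_left h']; linarith
            · rw [min_eq_right h']; linarith
        have h5 : rr P i ≤ 1 / 2 := by
          simp only [rr, if_pos hiP]
          have : (2 : ℝ) ≤ i := by exact_mod_cast (hPp i hiP).two_le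
          exact one_div_le_one_div_of_le (by norm_num) this
        have h6 := exp_sub_one_le (rr_nonneg P i) h5
        calc Real.log i / E (rr P) i * (a (i + 1) - a i)
            ≤ Real.log i / E (rr P) i * (E (rr P) (i + 1) - E (rr P) i) := by gcongr
          _ = Real.log i * (Real.exp (rr P i) - 1) := by rw [E_succ]; field_simp
          _ ≤ Real.log i * (2 * rr P i) := by gcongr
          _ = 2 * (Real.log i * rr P i) := by ring
      · have : a (i + 1) = a i := by simp only [ha]; rw [E_eq_of_notMem hiP]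
        rw [this]
        have := rr_nonneg P i
        simp only [sub_self, mul_zero]
        positivity
    linarith

lemma Phi_mono {x y : ℝ} (hv2 : 2 < v) (hx : v - 1 ≤ x) (hxy : x ≤ y) (hy : y ≤ v) :
    Phi v x ≤ Phi v y := by
  have := (step hv2 hx hxy hy).2
  linarith

lemma Phi_gap {β ρ₀ v₀ : ℝ} (hv2 : 2 < v) (hvv : v ≤ v₀) (hβ : 0 < β) (hβv : β ≤ v - 2) (hβ1 : β ≤ 1)
    (hρ₀ : 0 < ρ₀) (hρ : ρ₀ ≤ rho (v - 1)) :
    β ^ 2 * ρ₀ / (2 * v₀) ≤ Phi v v - Phi v (v - β) := by
  rw [Phi_sub]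
  have hv0 : 0 < v₀ := by linarith
  have h1 : (∫ s in (v - β)..v, (v - s) * (ρ₀ / v₀)) ≤
      ∫ s in (v - β)..v, (rho (s - 1) - rho (v - 1)) := by
    apply intervalIntegral.integral_mono_on (by linarith)
    · apply Continuous.intervalIntegrable; fun_prop
    · exact (phi_cont v).intervalIntegrable _ _
    · intro s hs
      have h2 := rho_gap (a := s - 1) (b := v - 1) (by linarith [hs.1]) (by linarith [hs.2])
      have e : v - 1 - (s - 1) = v - s := by ring
      rw [e] at h2
      refine le_trans ?_ h2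
      apply mul_le_mul_of_nonneg_left _ (by linarith [hs.2])
      apply div_le_div₀ (rho_pos _).le hρ (by linarith) (by linarith)
  have h2 : (∫ s in (v - β)..v, (v - s) * (ρ₀ / v₀)) = β ^ 2 / 2 * (ρ₀ / v₀) := by
    rw [intervalIntegral.integral_mul_const]
    congr 1
    rw [intervalIntegral.integral_sub (intervalIntegrable_const) (Continuous.intervalIntegrable (by fun_prop) _ _)]
    rw [intervalIntegral.integral_const, integral_id]
    simp only [smul_eq_mul]
    ring
  rw [h2] at h1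
  have e : β ^ 2 * ρ₀ / (2 * v₀) = β ^ 2 / 2 * (ρ₀ / v₀) := by ring
  rw [e]; exact h1

lemma c2_term (hv : v = E (rr P) (n + 1)) (hv2 : 2 < v)
    (hF2 : ∀ i < n + 1, i ∈ P → v - 1 < E (rr P) (i + 1) → κ - C ≤ Real.log i / E (rr P) (i + 1))
    {i : ℕ} (hi : i < n + 1) :
    0 ≤ Phi v (max (E (rr P) (i + 1)) (v - 1)) - Phi v (max (E (rr P) i) (v - 1)) ∧
    0 ≤ (Real.log i / E (rr P) (i + 1) - κ + C) *
            (Phi v (max (E (rr P) (i + 1)) (v - 1)) - Phi v (max (E (rr P) i) (v - 1))) := by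
  have hle := E_le_succ P i
  have hlev : E (rr P) (i + 1) ≤ v := by
    rw [hv]; exact E_mono (rr_nonneg P) (by omega)
  have h1 : Phi v (max (E (rr P) i) (v - 1)) ≤ Phi v (max (E (rr P) (i + 1)) (v - 1)) := by
    apply Phi_mono hv2 (le_max_right _ _) (max_le_max_right _ hle)
    exact max_le hlev (by linarith)
  refine ⟨by linarith, ?_⟩
  by_cases hP : i ∈ P
  · rcases lt_or_ge (v - 1) (E (rr P) (i + 1)) with h | h
    · have h2 := hF2 i hi hP h
      apply mul_nonneg <;> linarith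
    · rw [max_eq_right h, max_eq_right (hle.trans h)]
      simp
  · rw [E_eq_of_notMem hP]; simp

lemma c2_use (hv : v = E (rr P) (n + 1)) (hv2 : 2 < v) {ω G β : ℝ} (hω : 0 < ω)
    (hβ1 : β ≤ 1)
    (hPhi : ω ≤ Phi v v - Phi v (v - β)) (hβ : 0 < β)
    (hF2 : ∀ i < n + 1, i ∈ P → v - 1 < E (rr P) (i + 1) → κ - C ≤ Real.log i / E (rr P) (i + 1))
    (hF3 : ∀ j i, j ≤ i → j ∈ P → i ∈ P → Real.log j / E (rr P) j ≤ Real.log i / E (rr P) (i + 1) + C)
    (hG0 : 0 ≤ G)
    (hG : ∑ i ∈ range (n + 1), (Real.log i / E (rr P) (i + 1) - κ + C) *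
            (Phi v (max (E (rr P) (i + 1)) (v - 1)) - Phi v (max (E (rr P) i) (v - 1))) ≤ G)
    {j : ℕ} (hj : j < n + 1) (hjP : j ∈ P) (hj1 : E (rr P) j ≤ v - β) :
    Real.log j / E (rr P) j ≤ κ + G / ω := by
  set b : ℕ → ℝ := fun i => max (E (rr P) i) (v - 1) with hb
  rcases le_or_gt (Real.log j / E (rr P) j - κ) 0 with hneg | hpos
  · have : 0 ≤ G / ω := by positivity
    linarith
  have hsub : Ico j (n + 1) ⊆ range (n + 1) := by
    intro i hi
    rw [mem_Ico] at hi
    rw [mem_range]; exact hi.2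
  have h1 : ∑ i ∈ Ico j (n + 1), (Real.log i / E (rr P) (i + 1) - κ + C) * (Phi v (b (i + 1)) - Phi v (b i))
      ≤ G := by
    refine le_trans ?_ hG
    exact sum_le_sum_of_subset_of_nonneg hsub
      (fun i hi _ => (c2_term hv hv2 hF2 (mem_range.mp hi)).2)
  have h2 : ∑ i ∈ Ico j (n + 1), (Real.log j / E (rr P) j - κ) * (Phi v (b (i + 1)) - Phi v (b i))
      ≤ ∑ i ∈ Ico j (n + 1), (Real.log i / E (rr P) (i + 1) - κ + C) * (Phi v (b (i + 1)) - Phi v (b i)) := by
    apply sum_le_sum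
    intro i hi
    rw [mem_Ico] at hi
    by_cases hiP : i ∈ P
    · have h3 := hF3 j i hi.1 hjP hiP
      apply mul_le_mul_of_nonneg_right _ (c2_term hv hv2 hF2 hi.2).1
      linarith
    · have : b (i + 1) = b i := by simp only [hb]; rw [E_eq_of_notMem hiP]
      rw [this]; simp
  rw [← mul_sum, sum_Ico_sub (fun i => Phi v (b i)) (by omega : j ≤ n + 1)] at h2
  have h3 : b (n + 1) = v := by
    simp only [hb]; rw [← hv]; exact max_eq_left (by linarith)
  have h4 : Phi v (b j) ≤ Phi v (v - β) := by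
    apply Phi_mono hv2 (le_max_right _ _) _ (by linarith)
    exact max_le hj1 (by linarith)
  rw [h3] at h2
  have h5 : (Real.log j / E (rr P) j - κ) * ω ≤ (Real.log j / E (rr P) j - κ) * (Phi v v - Phi v (b j)) := by
    apply mul_le_mul_of_nonneg_left _ hpos.le
    linarith
  have h6 : Real.log j / E (rr P) j - κ ≤ G / ω := by
    rw [le_div_iff₀ hω]; linarith
  linarith

lemma b_term (hv2 : 2 < v) (i : ℕ) :
    0 ≤ (rho (max (E (rr P) i) (v - 1)) - rho (max (E (rr P) (i + 1)) (v - 1))) * LL P (n / i) := by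
  have h1 := rho_anti (max_le_max_right (v - 1) (E_le_succ P i))
  have := LL_nonneg P (n / i)
  apply mul_nonneg _ this
  linarith

lemma b_use (hPp : ∀ p ∈ P, p.Prime) (hv2 : 2 < v) {ω G β : ℝ} (hω : 0 < ω)
    (hr : ω ≤ rho (v - 1) - rho (v - 1 + β))
    (hG : ∑ q ∈ range (n + 1), (rho (max (E (rr P) q) (v - 1)) - rho (max (E (rr P) (q + 1)) (v - 1)))
            * LL P (n / q) ≤ G)
    {j : ℕ} (hj : j < n + 1) (hj2 : v - 1 + β < E (rr P) (j + 1)) :
    LL P (n / j) ≤ G / ω := by
  have hsub : range (j + 1) ⊆ range (n + 1) := range_subset_range.mpr (by omega)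
  have h1 : ∑ q ∈ range (j + 1), (rho (max (E (rr P) q) (v - 1)) - rho (max (E (rr P) (q + 1)) (v - 1)))
            * LL P (n / q) ≤ G := by
    refine le_trans ?_ hG
    exact sum_le_sum_of_subset_of_nonneg hsub (fun i _ _ => b_term hv2 i)
  have h2 : ∑ q ∈ range (j + 1), (rho (max (E (rr P) q) (v - 1)) - rho (max (E (rr P) (q + 1)) (v - 1)))
            * LL P (n / j) ≤
      ∑ q ∈ range (j + 1), (rho (max (E (rr P) q) (v - 1)) - rho (max (E (rr P) (q + 1)) (v - 1)))
            * LL P (n / q) := by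
    apply sum_le_sum
    intro q hq
    rw [mem_range] at hq
    by_cases hqP : q ∈ P
    · have hq0 := (hPp q hqP).pos
      have h3 := rho_anti (max_le_max_right (v - 1) (E_le_succ P q))
      apply mul_le_mul_of_nonneg_left _ (by linarith)
      apply LL_mono
      exact Nat.div_le_div_left (by omega) hq0
    · rw [E_eq_of_notMem hqP]; simp
  rw [← sum_mul, sum_range_sub' (fun q => rho (max (E (rr P) q) (v - 1)))] at h2
  have h3 : max (E (rr P) 0) (v - 1) = v - 1 := by
    rw [E_zero]; exact max_eq_right (by linarith)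
  have h4 : rho (max (E (rr P) (j + 1)) (v - 1)) ≤ rho (v - 1 + β) :=
    rho_anti (hj2.le.trans (le_max_left _ _))
  rw [h3] at h2
  have h5 := LL_nonneg P (n / j)
  rw [le_div_iff₀ hω]
  have h6 : ω * LL P (n / j) ≤ (rho (v - 1) - rho (max (E (rr P) (j + 1)) (v - 1))) * LL P (n / j) := by
    apply mul_le_mul_of_nonneg_right _ h5
    linarith
  linarith

end

end Pool.Agent.Helper923.HCore
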