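import Mathlib
import Pool.Agent.Helper923.HCore

set_option autoImplicit false

namespace Pool.Agent.Helper923.HStab

open Finset Filter Topology Pool.Agent.Helper923.HRho Pool.Agent.Helper923.HKey
  Pool.Agent.Helper923.HMertens Pool.Agent.Helper923.HCount Pool.Agent.Helper923.HB
  Pool.Agent.Helper923.HLower Pool.Agent.Helper923.HReduce Pool.Agent.Helper923.HBrun
  Pool.Agent.Helper923.HRhoS Pool.Agent.Helper923.HGain Pool.Agent.Helper923.HCore

lemma top (δ : ℝ) (hδ : 0 < δ) : ∃ W₀ : ℕ, ∃ C : ℝ, 0 ≤ C ∧ ∀ n : ℕ, W₀ ≤ n → 1 ≤ n →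
    ∀ P : Finset ℕ, (∀ p ∈ P, p.Prime ∧ W₀ < p) →
      n * ∑ p ∈ (PP n).filter (fun p => p ∉ P), (Real.log p / p) * mm P (n / p)
        ≤ F P n * Real.log n + n * (δ * (Real.log n + C) + 2) := by
  classical
  obtain ⟨W₀, hW₀⟩ := lower ∅ (by simp) (by simp) 1 le_rfl (by simp) δ hδ
  obtain ⟨C0, hC0⟩ := mertens_log
  have hC00 : 0 ≤ C0 := (abs_nonneg _).trans (hC0 1 le_rfl)
  refine ⟨W₀, C0, hC00, fun n hn hn1 P hP => ?_⟩
  have hPp : ∀ p ∈ P, p.Prime := fun p hp => (hP p hp).1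
  set G := (PP n).filter (fun p => p ∉ P) with hG
  have hmemG : ∀ p, p ∈ G ↔ ((1 ≤ p ∧ p ≤ n) ∧ p.Prime) ∧ p ∉ P := by
    intro p; simp only [hG, mem_filter, mem_Icc]
  have hlog := log_ineq P n G (by
    intro p hp
    rw [hmemG] at hp
    refine ⟨hp.1.1.1, hp.1.1.2, hp.1.2, ?_⟩
    intro a ha
    rw [Nat.coprime_primes (hPp a ha) hp.1.2]
    rintro rfl
    exact hp.2 ha)
  have hnpos : (0 : ℝ) < n := by exact_mod_cast hn1
  have hterm : ∀ p ∈ G, (n / p : ℝ) * (mm P (n / p) - δ) - 1 ≤ F P (n / p) := by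
    intro p hp
    rw [hmemG] at hp
    have hp0 : (0 : ℝ) < p := by exact_mod_cast hp.1.2.pos
    have h6 : ((n / p : ℕ) : ℝ) ≤ n / p := Nat.cast_div_le
    have h7 : (n : ℝ) / p - 1 ≤ ((n / p : ℕ) : ℝ) := by
      have : (n : ℝ) / p < ((n / p : ℕ) : ℝ) + 1 := by
        rw [← Nat.floor_div_eq_div (K := ℝ)]
        exact Nat.lt_floor_add_one _
      linarith
    have hx1 : mm P (n / p) - δ ≤ 1 := by have := mm_le_one P (n / p); linarith
    have h2 : (n : ℝ) / p * (mm P (n / p) - δ) - 1 ≤ ((n / p : ℕ) : ℝ) * (mm P (n / p) - δ) := by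
      rcases le_total 0 (mm P (n / p) - δ) with h0 | h0
      · have := mul_le_mul_of_nonneg_right h7 h0
        have h3 : ((n : ℝ) / p - 1) * (mm P (n / p) - δ)
          = (n : ℝ) / p * (mm P (n / p) - δ) - (mm P (n / p) - δ) := by ring
        linarith
      · have := mul_le_mul_of_nonpos_right h6 h0
        linarith
    refine h2.trans ?_
    rcases le_or_gt W₀ (n / p) with hc | hc
    · have h8 := hW₀ W₀ le_rfl P hP (n / p) hc
      rw [empty_union] at h8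
      simpa [kap] using h8
    · have h8 : F P (n / p) = n / p := by
        have := F_union_small (S := ∅) (P := P) (k := n / p) (fun q hq => by
          have := (hP q hq).2
          omega)
        rw [empty_union, F_empty] at this
        exact this
      rw [h8]
      have : (0 : ℝ) ≤ ((n / p : ℕ) : ℝ) := by positivity
      nlinarith
  have hlp : ∀ p ∈ G, 0 ≤ Real.log (p : ℝ) := fun p _ => Real.log_natCast_nonneg p
  have hsum : ∑ p ∈ G, Real.log p * ((n / p : ℝ) * (mm P (n / p) - δ) - 1)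
      ≤ F P n * Real.log n := by
    refine le_trans (sum_le_sum fun p hp => ?_) hlog
    exact mul_le_mul_of_nonneg_left (hterm p hp) (hlp p hp)
  have hexp : ∑ p ∈ G, Real.log p * ((n / p : ℝ) * (mm P (n / p) - δ) - 1)
      = n * ∑ p ∈ G, (Real.log p / p) * mm P (n / p)
        - n * δ * ∑ p ∈ G, Real.log p / p - ∑ p ∈ G, Real.log p := by
    rw [mul_sum, mul_sum, ← sum_sub_distrib, ← sum_sub_distrib]
    apply sum_congr rfl
    intro p _
    ring
  rw [hexp] at hsum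
  have hBs : ∑ p ∈ G, Real.log p / p ≤ Real.log n + C0 := by
    have h1 : ∑ p ∈ G, Real.log p / p ≤ ∑ p ∈ PP n, Real.log p / p := by
      apply sum_le_sum_of_subset_of_nonneg (filter_subset _ _)
      intro p _ _
      have := Real.log_natCast_nonneg p
      positivity
    have h2 := (abs_le.mp (hC0 n hn1)).2
    linarith
  have hCs : ∑ p ∈ G, Real.log p ≤ 2 * n := by
    refine le_trans ?_ (theta_le n)
    apply sum_le_sum_of_subset_of_nonneg (filter_subset _ _)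
    intro p _ _
    exact Real.log_natCast_nonneg p
  have h1 := mul_le_mul_of_nonneg_left hBs (show 0 ≤ n * δ by positivity)
  have e : (n : ℝ) * (δ * (Real.log n + C0) + 2) = n * δ * (Real.log n + C0) + 2 * n := by ring
  rw [e]
  linarith

lemma W_eq (P : Finset ℕ) (j : ℕ) :
    HKey.W (rr P) j = ∑ p ∈ P.filter (fun p => p < j), (1 : ℝ) / p := by
  classical
  unfold HKey.W rr
  rw [← sum_filter]
  apply sum_congr _ (fun _ _ => rfl)
  ext p
  simp only [mem_filter, mem_range]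
  tauto

lemma W_full (P : Finset ℕ) (n : ℕ) (h : ∀ p ∈ P, p ≤ n) :
    HKey.W (rr P) (n + 1) = ∑ p ∈ P, (1 : ℝ) / p := by
  rw [W_eq]
  apply sum_congr _ (fun _ _ => rfl)
  apply filter_true_of_mem
  intro p hp
  have := h p hp
  omega

lemma log_E (P : Finset ℕ) (j : ℕ) : Real.log (E (rr P) j) = HKey.W (rr P) j := by
  unfold E; rw [Real.log_exp]

theorem P1 {c θ η : ℝ} (hc : Real.log 2 < c) (hθ : θ < Real.exp (-c)) (hη : 0 < η) :
    ∃ ε : ℝ, 0 < ε ∧ ∃ W₀ : ℕ, ∀ n : ℕ, W₀ ≤ n → ∀ P : Finset ℕ,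
      (∀ p ∈ P, p.Prime ∧ W₀ < p ∧ p ≤ n) → c - ε ≤ ∑ p ∈ P, (1 : ℝ) / p →
      ∑ p ∈ P, (1 : ℝ) / p ≤ c → (F P n : ℝ) ≤ n * (rho (Real.exp c) + ε) →
      ∑ p ∈ P.filter (fun p : ℕ => (p : ℝ) ≤ (n : ℝ) ^ θ), (1 : ℝ) / p ≤ η := by
  classical
  have hc0 : 0 < c := (Real.log_pos (by norm_num)).trans hc
  set v₀ := Real.exp c with hv₀
  have hv₀2 : 2 < v₀ := by
    rw [hv₀, ← Real.log_lt_iff_lt_exp (by norm_num)]; exact hc
  have hv₀pos : 0 < v₀ := by linarith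
  have hecv : Real.exp (-c) = 1 / v₀ := by rw [Real.exp_neg, one_div]
  set ρ₀ := rho v₀ with hρ₀
  have hρ₀pos : 0 < ρ₀ := rho_pos _
  have hρ₀1 : ρ₀ ≤ 1 := rho_le_one _
  set Δ := Real.exp (-c) - ρ₀ with hΔ
  have hΔ0 : 0 < Δ := by
    have h1 := vrho_strict (show (1:ℝ) ∈ Set.Ici (1:ℝ) from Set.mem_Ici.mpr le_rfl)
      (show v₀ ∈ Set.Ici (1:ℝ) from Set.mem_Ici.mpr (by linarith)) (by linarith)
    simp only [one_mul, rho_one le_rfl] at h1
    have h2 : ρ₀ < 1 / v₀ := by rw [lt_div_iff₀ hv₀pos]; linarith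
    rw [hΔ, hecv]; linarith
  set μ := (Real.exp (-c) - θ) / 4 with hμ
  have hμ0 : 0 < μ := by rw [hμ]; linarith
  set β := min (1 / 4) (min ((v₀ - 2) / 4) (min (Δ / 4) (min μ η))) with hβ
  have hβ0 : 0 < β := by
    apply lt_min (by norm_num)
    apply lt_min (by linarith)
    apply lt_min (by linarith)
    exact lt_min hμ0 hη
  have hβ1 : β ≤ 1 / 4 := min_le_left _ _
  have hβ2 : β ≤ (v₀ - 2) / 4 := (min_le_right _ _).trans (min_le_left _ _)
  have hβ3 : β ≤ Δ / 4 := (min_le_right _ _).trans ((min_le_right _ _).trans (min_le_left _ _))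
  have hβ4 : β ≤ μ := (min_le_right _ _).trans ((min_le_right _ _).trans
    ((min_le_right _ _).trans (min_le_left _ _)))
  have hβ5 : β ≤ η := (min_le_right _ _).trans ((min_le_right _ _).trans
    ((min_le_right _ _).trans (min_le_right _ _)))
  clear_value β
  set ω₀ := β ^ 2 * ρ₀ / (2 * v₀) with hω₀
  have hω₀0 : 0 < ω₀ := by positivity
  set ω₁ := β * ρ₀ / v₀ with hω₁
  have hω₁0 : 0 < ω₁ := by positivity
  obtain ⟨J, hJ⟩ : ∃ J : ℕ, c ^ (2 * J + 2) / ((2 * J + 2).factorial : ℝ) ≤ Δ / 8 := by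
    have h1 := FloorSemiring.tendsto_pow_div_factorial_atTop c
    have h2 := h1.eventually_le_const (show (0 : ℝ) < Δ / 8 by positivity)
    obtain ⟨N, hN⟩ := eventually_atTop.mp h2
    exact ⟨N, hN (2 * N + 2) (by omega)⟩
  set A₁ := v₀ * (1 / (ρ₀ * β) + 2 / (ω₁ * β) + 1 / ω₀) with hA₁
  have hA₁0 : 0 < A₁ := by positivity
  set B₁ := 1 / ω₀ + 1 / (β * ρ₀) with hB₁
  have hB₁0 : 0 < B₁ := by positivity
  set ε₁ := min (1 / (2 * (2 * J + 1) * A₁)) (μ / B₁) with hε₁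
  have hε₁0 : 0 < ε₁ := lt_min (by positivity) (by positivity)
  have hε₁a : ε₁ * A₁ * (2 * J) ≤ 1 / 2 := by
    have h1 : ε₁ ≤ 1 / (2 * (2 * J + 1) * A₁) := min_le_left _ _
    have h2 : ε₁ * A₁ ≤ 1 / (2 * (2 * J + 1)) := by
      calc ε₁ * A₁ ≤ 1 / (2 * (2 * J + 1) * A₁) * A₁ := by gcongr
        _ = 1 / (2 * (2 * J + 1)) := by field_simp
    calc ε₁ * A₁ * (2 * J) ≤ 1 / (2 * (2 * J + 1)) * (2 * J) := by gcongr
      _ ≤ 1 / 2 := by
        rw [div_mul_eq_mul_div, div_le_div_iff₀ (by positivity) (by norm_num)]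
        linarith
  have hε₁b : ε₁ * B₁ ≤ μ := by
    calc ε₁ * B₁ ≤ μ / B₁ * B₁ := by gcongr; exact min_le_right _ _
      _ = μ := by field_simp
  clear_value ε₁
  obtain ⟨W₁, C₁, hC₁0, htop⟩ := top (ε₁ / 4) (by positivity)
  obtain ⟨C₂, hC₂0, hgain⟩ := B_gain
  set ε := min (ε₁ / 4) (min (Δ / 8) (β / v₀)) with hε
  have hε0 : 0 < ε := lt_min (by positivity) (lt_min (by positivity) (by positivity))
  have hεa : ε ≤ ε₁ / 4 := min_le_left _ _
  have hεb : ε ≤ Δ / 8 := (min_le_right _ _).trans (min_le_left _ _)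
  have hεc : ε ≤ β / v₀ := (min_le_right _ _).trans (min_le_right _ _)
  clear_value ε
  -- largeness
  have hlim : Tendsto (fun n : ℕ => Real.log (n : ℝ)) atTop atTop :=
    Real.tendsto_log_atTop.comp tendsto_natCast_atTop_atTop
  have hev : ∀ᶠ n : ℕ in atTop, ε₁ / 4 * C₁ + 2 + 2 * C₂ ≤ ε₁ / 2 * Real.log n ∧
      C₂ < μ * Real.log n ∧ 2 * c / (n : ℝ) ≤ Δ / 8 ∧
      4 ^ J * (n : ℝ) ^ (1 / 2 : ℝ) ≤ Δ / 8 * n ∧ W₁ ≤ n ∧ 2 ≤ n := by
    have h1 : ∀ᶠ n : ℕ in atTop, ε₁ / 4 * C₁ + 2 + 2 * C₂ ≤ ε₁ / 2 * Real.log n :=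
      (hlim.const_mul_atTop (show 0 < ε₁ / 2 by positivity)).eventually_ge_atTop _
    have h2 : ∀ᶠ n : ℕ in atTop, C₂ < μ * Real.log n :=
      (hlim.const_mul_atTop hμ0).eventually_gt_atTop _
    have h3 : ∀ᶠ n : ℕ in atTop, 2 * c / (n : ℝ) ≤ Δ / 8 := by
      have : Tendsto (fun n : ℕ => 2 * c / (n : ℝ)) atTop (𝓝 0) :=
        tendsto_const_nhds.div_atTop tendsto_natCast_atTop_atTop
      exact this.eventually_le_const (by positivity)
    have h4 : ∀ᶠ n : ℕ in atTop, 4 ^ J * (n : ℝ) ^ (1 / 2 : ℝ) ≤ Δ / 8 * n := by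
      have : Tendsto (fun n : ℕ => (n : ℝ) ^ (1 / 2 : ℝ)) atTop atTop :=
        (tendsto_rpow_atTop (by norm_num)).comp tendsto_natCast_atTop_atTop
      filter_upwards [this.eventually_ge_atTop (4 ^ J / (Δ / 8)), eventually_gt_atTop 0] with n hn hn0
      have hn0' : (0 : ℝ) < n := by exact_mod_cast hn0
      rw [div_le_iff₀ (by positivity)] at hn
      have e : (n : ℝ) = (n : ℝ) ^ (1 / 2 : ℝ) * (n : ℝ) ^ (1 / 2 : ℝ) := by
        rw [← Real.rpow_add hn0']; norm_num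
      calc 4 ^ J * (n : ℝ) ^ (1 / 2 : ℝ) ≤ ((n : ℝ) ^ (1 / 2 : ℝ) * (Δ / 8)) * (n : ℝ) ^ (1 / 2 : ℝ) := by
            gcongr
        _ = Δ / 8 * ((n : ℝ) ^ (1 / 2 : ℝ) * (n : ℝ) ^ (1 / 2 : ℝ)) := by ring
        _ = Δ / 8 * n := by rw [← e]
    filter_upwards [h1, h2, h3, h4, eventually_ge_atTop W₁, eventually_ge_atTop 2] with n a b d e f g
    exact ⟨a, b, d, e, f, g⟩
  obtain ⟨W₀, hW₀⟩ := eventually_atTop.mp hev
  refine ⟨ε, hε0, W₀, fun n hn P hP hS1 hS2 hF => ?_⟩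
  obtain ⟨hn1, hn2, -, hn4, hn5, hn6⟩ := hW₀ n hn
  obtain ⟨-, -, hW3, -, hW5, hW6⟩ := hW₀ W₀ le_rfl
  have hPp : ∀ p ∈ P, p.Prime := fun p hp => (hP p hp).1
  have hn0 : (0 : ℝ) < n := by exact_mod_cast (by omega : 0 < n)
  set L := Real.log n with hL
  have hL0 : 0 < L := Real.log_pos (by exact_mod_cast (by omega : 1 < n))
  set v := E (rr P) (n + 1) with hv
  have hvS : v = Real.exp (∑ p ∈ P, (1 : ℝ) / p) := by
    rw [hv]; unfold E; rw [W_full P n (fun p hp => (hP p hp).2.2)]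
  have hvv₀ : v ≤ v₀ := by rw [hvS]; exact Real.exp_le_exp.mpr hS2
  have hvlow : v₀ - β ≤ v := by
    have h1 : Real.exp (c - ε) ≤ v := by rw [hvS]; exact Real.exp_le_exp.mpr hS1
    have h2 : v₀ * (1 - ε) ≤ Real.exp (c - ε) := by
      rw [sub_eq_add_neg c ε, Real.exp_add]
      have := Real.add_one_le_exp (-ε)
      gcongr
      linarith
    have h3 : ε * v₀ ≤ β := by rwa [le_div_iff₀ hv₀pos] at hεc
    have h4 : v₀ * (1 - ε) = v₀ - ε * v₀ := by ring
    linarith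
  have hv2 : 2 < v := by linarith
  have hρv : ρ₀ ≤ rho (v - 1) := rho_anti (by linarith)
  have hρv' : ρ₀ ≤ rho v := rho_anti hvv₀
  -- the gains
  have htop' := htop n (by omega) (by omega) P (fun p hp => ⟨(hP p hp).1, by
    have := (hP p hp).2.1; omega⟩)
  obtain ⟨κ, hκ0, hF1, hF2, hF3, hg⟩ := hgain P hPp n (by omega) v hv hv2
  set Gb := ∑ q ∈ range (n + 1), (rho (max (E (rr P) q) (v - 1)) - rho (max (E (rr P) (q + 1)) (v - 1)))
            * LL P (n / q) with hGb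
  set Gc2 := ∑ i ∈ range (n + 1), (Real.log i / E (rr P) (i + 1) - κ + C₂) *
            (Phi v (max (E (rr P) (i + 1)) (v - 1)) - Phi v (max (E (rr P) i) (v - 1))) with hGc2
  set Gc1 := ∑ i ∈ range (n + 1), (κ - Real.log i / E (rr P) i) *
            (min (E (rr P) (i + 1)) (v - 1) - min (E (rr P) i) (v - 1)) with hGc1
  have hGb0 : 0 ≤ Gb := sum_nonneg (fun i _ => b_term hv2 i)
  have hGc20 : 0 ≤ Gc2 := sum_nonneg (fun i hi => (c2_term hv hv2 hF2 (mem_range.mp hi)).2)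
  have hGc10 : 0 ≤ Gc1 := sum_nonneg (fun i hi => c1_term hF1 (mem_range.mp hi))
  have hGc10' : 0 ≤ rho (v - 1) * Gc1 := mul_nonneg (rho_pos _).le hGc10
  have hGtot : Gb + Gc2 + rho (v - 1) * Gc1 ≤ ε₁ * L := by
    have h1 : (n : ℝ) * (rho v * L - 2 * C₂ + Gb + Gc2 + rho (v - 1) * Gc1)
        ≤ F P n * L + n * (ε₁ / 4 * (L + C₁) + 2) :=
      (mul_le_mul_of_nonneg_left hg hn0.le).trans htop'
    have h2 : (F P n : ℝ) * L ≤ n * (ρ₀ + ε) * L := by gcongr
    have h3 : (n : ℝ) * (rho v * L - 2 * C₂ + Gb + Gc2 + rho (v - 1) * Gc1)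
        ≤ n * ((ρ₀ + ε) * L + (ε₁ / 4 * (L + C₁) + 2)) := by
      calc _ ≤ _ := h1
        _ ≤ n * (ρ₀ + ε) * L + n * (ε₁ / 4 * (L + C₁) + 2) := by linarith
        _ = _ := by ring
    have h4 := le_of_mul_le_mul_left h3 hn0
    have h5 : ρ₀ * L ≤ rho v * L := by gcongr
    have h6 : ε * L ≤ ε₁ / 4 * L := by gcongr
    linarith
  have hG0 : 0 ≤ ε₁ * L := by positivity
  have hbG : Gb ≤ ε₁ * L := by linarith
  have hc2G : Gc2 ≤ ε₁ * L := by linarith
  have hc1G : rho (v - 1) * Gc1 ≤ ε₁ * L := by linarith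
  have hPhi : ω₀ ≤ Phi v v - Phi v (v - β) :=
    Phi_gap hv2 hvv₀ hβ0 (by linarith) (by linarith) hρ₀pos hρv
  have hrg : ω₁ ≤ rho (v - 1) - rho (v - 1 + β) := by
    have h1 := rho_gap (a := v - 1) (b := v - 1 + β) (by linarith) (by linarith)
    have e : v - 1 + β - (v - 1) = β := by ring
    rw [e] at h1
    refine le_trans ?_ h1
    rw [hω₁, mul_div_assoc]
    apply mul_le_mul_of_nonneg_left _ hβ0.le
    apply div_le_div₀ (rho_pos _).le (rho_anti (by linarith)) (by linarith) (by linarith)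
  -- crossings
  obtain ⟨j, hj, hjP, hj1, hj2⟩ := crossing P n (1 + β) (by linarith) (by rw [← hv]; linarith)
  obtain ⟨k, hk, hkP, hk1, hk2⟩ := crossing P n (v - 1 + β) (by linarith) (by rw [← hv]; linarith)
  obtain ⟨l, hl, hlP, hl1, hl2⟩ := crossing P n (v - β) (by linarith) (by rw [← hv]; linarith)
  obtain ⟨hR1, hR1'⟩ := c1_use hPp hv2 hρ₀pos hρv hβ0 (by linarith) hF1 hF3 hC₂0 hG0 hκ0 hc1G hj hjP hj2
  have hR2k := c2_use hv hv2 hω₀0 (by linarith) hPhi hβ0 hF2 hF3 hG0 hc2G hk hkP (by linarith)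
  have hR2l := c2_use hv hv2 hω₀0 (by linarith) hPhi hβ0 hF2 hF3 hG0 hc2G hl hlP hl1
  have hR3 := b_use hPp hv2 hω₁0 hrg hbG hk hk2
  have hEj := E_pos (rr P) j
  have hEk := E_pos (rr P) k
  have hEl := E_pos (rr P) l
  have hj0 : 0 < j := (hPp j hjP).pos
  have hk0 : 0 < k := (hPp k hkP).pos
  have hl0 : 0 < l := (hPp l hlP).pos
  have hlogj : Real.log j ≤ κ * (1 + β) := by
    have h1 := hF1 j hj hjP (by linarith)
    rw [div_le_iff₀ hEj] at h1
    refine h1.trans ?_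
    gcongr
  have hlogk : Real.log k ≤ (κ + ε₁ * L / ω₀) * (v - 1 + β) := by
    rw [div_le_iff₀ hEk] at hR2k
    refine hR2k.trans ?_
    gcongr
  have hlogl : Real.log l ≤ (κ + ε₁ * L / ω₀) * v₀ := by
    rw [div_le_iff₀ hEl] at hR2l
    refine hR2l.trans ?_
    gcongr
    linarith
  rcases le_or_gt (j * k) n with hjk | hjk
  · -- degenerate case
    exfalso
    have h1 : LL P j ≤ ε₁ * L / ω₁ := by
      refine le_trans (LL_mono P ?_) hR3
      rw [Nat.le_div_iff_mul_le hk0]; exact hjk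
    have h2 : κ ≤ (1 / (ρ₀ * β) + 2 / (ω₁ * β)) * (ε₁ * L) := by
      have h3 : κ * β ≤ ε₁ * L / ρ₀ + 2 * (ε₁ * L / ω₁) := by linarith
      have h4 : κ ≤ (ε₁ * L / ρ₀ + 2 * (ε₁ * L / ω₁)) / β := by
        rw [le_div_iff₀ hβ0]; exact h3
      refine h4.trans (le_of_eq ?_)
      field_simp
    have h3 : Real.log l ≤ ε₁ * A₁ * L := by
      calc Real.log l ≤ (κ + ε₁ * L / ω₀) * v₀ := hlogl
        _ ≤ ((1 / (ρ₀ * β) + 2 / (ω₁ * β)) * (ε₁ * L) + ε₁ * L / ω₀) * v₀ := by gcongr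
        _ = ε₁ * A₁ * L := by rw [hA₁]; ring
    set P₀ := P.filter (fun p => p < l + 1) with hP₀
    have hP₀sub : P₀ ⊆ P := filter_subset _ _
    have h4 := brun_lower P₀ (fun p hp => (hPp p (hP₀sub hp)).two_le) (by
      intro a ha b hb hab
      exact (Nat.coprime_primes (hPp a (hP₀sub ha)) (hPp b (hP₀sub hb))).mpr hab) J n
    set s₀ := ∑ p ∈ P₀, (1 : ℝ) / p with hs₀
    have hs₀0 : 0 ≤ s₀ := sum_nonneg (fun p _ => by positivity)
    have hs₀S : s₀ ≤ ∑ p ∈ P, (1 : ℝ) / p :=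
      sum_le_sum_of_subset_of_nonneg hP₀sub (fun p _ _ => by positivity)
    have hs₀c : s₀ ≤ c := hs₀S.trans hS2
    have h5 := kap_lower P₀ W₀ (by omega) (fun p hp =>
      ⟨(hPp p (hP₀sub hp)).two_le, (hP p (hP₀sub hp)).2.1.le⟩)
    rw [← hs₀] at h5
    have h6 : 2 * s₀ / W₀ ≤ Δ / 8 := by
      refine le_trans ?_ hW3
      gcongr
    have h7 : Real.exp (-c) ≤ Real.exp (-s₀) := Real.exp_le_exp.mpr (by linarith)
    have h8 : s₀ ^ (2 * J + 2) / ((2 * J + 2).factorial : ℝ) ≤ Δ / 8 := by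
      refine le_trans ?_ hJ
      gcongr
    have hcard : (1 + (P₀.card : ℝ)) ^ (2 * J) ≤ Δ / 8 * n := by
      have h9 : P₀.card ≤ l := by
        have : P₀ ⊆ Icc 1 l := by
          intro p hp
          have h10 := (mem_filter.mp hp).2
          have h11 := (hPp p (hP₀sub hp)).pos
          rw [mem_Icc]; omega
        have := card_le_card this
        simpa using this
      have h10 : 1 + (P₀.card : ℝ) ≤ 2 * l := by
        have h11 : (P₀.card : ℝ) ≤ l := by exact_mod_cast h9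
        have h12 : (1 : ℝ) ≤ l := by exact_mod_cast hl0
        linarith
      have h13 : ((l : ℝ)) ^ (2 * J) ≤ (n : ℝ) ^ (1 / 2 : ℝ) := by
        have hl0' : (0 : ℝ) < l := by exact_mod_cast hl0
        calc ((l : ℝ)) ^ (2 * J) = Real.exp (Real.log l * (2 * J : ℕ)) := by
              rw [← Real.rpow_natCast, Real.rpow_def_of_pos hl0']
          _ ≤ Real.exp (L * (1 / 2)) := by
              apply Real.exp_le_exp.mpr
              push_cast
              calc Real.log l * (2 * J) ≤ ε₁ * A₁ * L * (2 * J) := by gcongr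
                _ = (ε₁ * A₁ * (2 * J)) * L := by ring
                _ ≤ 1 / 2 * L := by gcongr
                _ = L * (1 / 2) := by ring
          _ = (n : ℝ) ^ (1 / 2 : ℝ) := by rw [Real.rpow_def_of_pos hn0]
      calc (1 + (P₀.card : ℝ)) ^ (2 * J) ≤ (2 * l) ^ (2 * J) := by gcongr
        _ = 4 ^ J * (l : ℝ) ^ (2 * J) := by
            rw [mul_pow, pow_mul]; norm_num
        _ ≤ 4 ^ J * (n : ℝ) ^ (1 / 2 : ℝ) := by gcongr
        _ ≤ Δ / 8 * n := hn4
    have h9 := F_union_ge P₀ (P \ P₀) n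
    rw [union_sdiff_of_subset hP₀sub] at h9
    have h10 : ∑ b ∈ P \ P₀, (1 : ℝ) / b ≤ β := by
      have h11 : ∑ b ∈ P \ P₀, (1 : ℝ) / b + s₀ = ∑ p ∈ P, (1 : ℝ) / p := sum_sdiff hP₀sub
      have h12 : s₀ = Real.log (E (rr P) (l + 1)) := by rw [log_E, W_eq]
      have h13 : ∑ p ∈ P, (1 : ℝ) / p = Real.log v := by rw [hvS, Real.log_exp]
      have h14 : ∑ b ∈ P \ P₀, (1 : ℝ) / b = Real.log (v / E (rr P) (l + 1)) := by
        rw [Real.log_div (by linarith) (E_pos _ _).ne']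
        linarith
      rw [h14]
      have h15 := Real.log_le_sub_one_of_pos (show 0 < v / E (rr P) (l + 1) from
        div_pos (by linarith) (E_pos _ _))
      have h16 : v / E (rr P) (l + 1) ≤ v / (v - β) :=
        div_le_div_of_nonneg_left (by linarith) (by linarith) hl2.le
      have h17 : v / (v - β) ≤ 1 + β := by
        rw [div_le_iff₀ (by linarith)]
        have h18 : 0 ≤ β * (v - 1 - β) := mul_nonneg hβ0.le (by linarith)
        have h19 : (1 + β) * (v - β) = v + β * (v - 1 - β) := by ring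
        rw [h19]; linarith only [h18]
      linarith only [h15, h16, h17]
    have h11 : (n : ℝ) * (kap P₀ - s₀ ^ (2 * J + 2) / ((2 * J + 2).factorial : ℝ))
        ≥ n * (Real.exp (-c) - Δ / 8 - Δ / 8) := by
      apply mul_le_mul_of_nonneg_left _ hn0.le
      linarith
    have h12 : (n : ℝ) * ∑ b ∈ P \ P₀, (1 : ℝ) / b ≤ n * (Δ / 4) := by
      apply mul_le_mul_of_nonneg_left _ hn0.le
      linarith
    have h13 : (F P n : ℝ) ≤ n * (ρ₀ + Δ / 8) := by
      refine hF.trans ?_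
      gcongr
    have h14 : (n : ℝ) * (Real.exp (-c) - Δ / 8 - Δ / 8) - Δ / 8 * n - n * (Δ / 4)
        ≤ n * (ρ₀ + Δ / 8) := by linarith
    have h15 : (n : ℝ) * (Real.exp (-c) - ρ₀ - 3 * Δ / 4) ≤ 0 := by linarith
    have h16 : Real.exp (-c) - ρ₀ - 3 * Δ / 4 = Δ / 4 := by rw [hΔ]; ring
    rw [h16] at h15
    have : 0 < (n : ℝ) * (Δ / 4) := by positivity
    linarith
  · -- the good case
    have h1 : L < Real.log j + Real.log k := by
      have hj0' : (j : ℝ) ≠ 0 := by exact_mod_cast hj0.ne'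
      have hk0' : (k : ℝ) ≠ 0 := by exact_mod_cast hk0.ne'
      rw [← Real.log_mul hj0' hk0']
      apply Real.log_lt_log hn0
      exact_mod_cast hjk
    have h2 : L < κ * (v₀ + 2 * β) + ε₁ * L / ω₀ * v₀ := by
      have h3 : (κ + ε₁ * L / ω₀) * (v - 1 + β) ≤ κ * (v₀ - 1 + β) + ε₁ * L / ω₀ * v₀ := by
        have h4 : κ * (v - 1 + β) ≤ κ * (v₀ - 1 + β) := by gcongr
        have h5 : ε₁ * L / ω₀ * (v - 1 + β) ≤ ε₁ * L / ω₀ * v₀ := by
          gcongr
          linarith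
        linarith
      have e : κ * (1 + β) + κ * (v₀ - 1 + β) = κ * (v₀ + 2 * β) := by ring
      linarith only [h1, h3, hlogj, hlogk, e]
    have h3 : L / v₀ - μ * L - ε₁ * L / ω₀ ≤ κ := by
      have h4 : L - ε₁ * L / ω₀ * v₀ ≤ κ * (v₀ + 2 * β) := by linarith
      -- 1/(v₀+2β) ≥ 1/v₀ - μ
      by_contra hcon
      push Not at hcon
      have h5 : κ * (v₀ + 2 * β) < (L / v₀ - μ * L - ε₁ * L / ω₀) * (v₀ + 2 * β) := by
        apply mul_lt_mul_of_pos_right hcon; linarith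
      have h6 : (L / v₀ - μ * L - ε₁ * L / ω₀) * (v₀ + 2 * β)
          = L - ε₁ * L / ω₀ * v₀ + 2 * β * (L / v₀) - μ * L * (v₀ + 2 * β) - ε₁ * L / ω₀ * (2 * β) := by
        field_simp; ring
      rw [h6] at h5
      have h7 : 2 * β * (L / v₀) ≤ μ * L * (v₀ + 2 * β) := by
        have h8 : L / v₀ ≤ L := div_le_self hL0.le (by linarith)
        calc 2 * β * (L / v₀) ≤ 2 * μ * L := by gcongr
          _ = μ * L * 2 := by ring
          _ ≤ μ * L * (v₀ + 2 * β) := by gcongr; linarith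
      have h9 : 0 ≤ ε₁ * L / ω₀ * (2 * β) := by positivity
      linarith
    have h4 : θ * L < Real.log j := by
      have h5 : ε₁ * L / (β * ρ₀) + ε₁ * L / ω₀ = ε₁ * B₁ * L := by rw [hB₁]; ring
      have h6 : ε₁ * B₁ * L ≤ μ * L := by gcongr
      have h7 : L / v₀ = Real.exp (-c) * L := by rw [hecv]; ring
      have h8 : Real.exp (-c) * L = (θ + 4 * μ) * L := by rw [hμ]; ring
      have h9 : L / v₀ = θ * L + 4 * (μ * L) := by rw [h7, h8]; ring
      have h10 : 0 < μ * L := by positivity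
      linarith
    have h5 : P.filter (fun p : ℕ => (p : ℝ) ≤ (n : ℝ) ^ θ) ⊆ P.filter (fun p => p < j) := by
      intro p hp
      rw [mem_filter] at hp ⊢
      refine ⟨hp.1, ?_⟩
      have hp0 : (0 : ℝ) < p := by exact_mod_cast (hPp p hp.1).pos
      have h6 : Real.log p ≤ θ * L := by
        have := Real.log_le_log hp0 hp.2
        rwa [Real.log_rpow hn0] at this
      have h7 : Real.log p < Real.log j := by linarith
      have h8 := (Real.log_lt_log_iff hp0 (by exact_mod_cast hj0)).mp h7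
      exact_mod_cast h8
    calc ∑ p ∈ P.filter (fun p : ℕ => (p : ℝ) ≤ (n : ℝ) ^ θ), (1 : ℝ) / p
        ≤ ∑ p ∈ P.filter (fun p => p < j), (1 : ℝ) / p :=
          sum_le_sum_of_subset_of_nonneg h5 (fun p _ _ => by positivity)
      _ = Real.log (E (rr P) j) := by rw [log_E, W_eq]
      _ ≤ Real.log (1 + β) := Real.log_le_log hEj hj1
      _ ≤ 1 + β - 1 := Real.log_le_sub_one_of_pos (by linarith)
      _ ≤ η := by linarith

end Pool.Agent.Helper923.HStab
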