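import Mathlib
import Pool.Agent.Helper923.HStab
import Pool.Agent.Helper923.HDecomp

set_option autoImplicit false

namespace Pool.Agent.Helper923.HLow

open Finset Filter Topology Pool.Agent.Helper923.HRho Pool.Agent.Helper923.HKey
  Pool.Agent.Helper923.HMertens Pool.Agent.Helper923.HCount Pool.Agent.Helper923.HB
  Pool.Agent.Helper923.HLower Pool.Agent.Helper923.HReduce Pool.Agent.Helper923.HBrun
  Pool.Agent.Helper923.HRhoS Pool.Agent.Helper923.HStab Pool.Agent.Helper923.HDecomp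
  Pool.Agent.Helper923.HSgain

lemma exp_neg_lower {s : ℝ} (h0 : 0 ≤ s) (h1 : s ≤ 7 / 10) :
    1 - s + s ^ 2 / 4 + s ^ 4 / 24 ≤ Real.exp (-s) := by
  have h2 := Real.exp_bound (x := -s) (by rw [abs_neg, abs_of_nonneg h0]; linarith)
    (n := 4) (by norm_num)
  rw [abs_neg, abs_of_nonneg h0] at h2
  have h3 := (abs_le.mp h2).1
  simp only [sum_range_succ, range_zero, sum_empty, Nat.factorial] at h3
  norm_num at h3
  have h4 : s ^ 3 ≤ 7 / 10 * s ^ 2 := by nlinarith [sq_nonneg s]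
  have h5 : s ^ 4 ≤ 49 / 100 * s ^ 2 := by nlinarith [sq_nonneg s]
  nlinarith [sq_nonneg s]

theorem P2 {c θ η : ℝ} (hc0 : 0 < c) (hc : c ≤ Real.log 2) (hθ : θ < 1 / 2) (hη : 0 < η) :
    ∃ ε : ℝ, 0 < ε ∧ ∃ W₀ : ℕ, ∀ n : ℕ, W₀ ≤ n → ∀ P : Finset ℕ,
      (∀ p ∈ P, p.Prime ∧ W₀ < p ∧ p ≤ n) → c - ε ≤ ∑ p ∈ P, (1 : ℝ) / p →
      ∑ p ∈ P, (1 : ℝ) / p ≤ c → (F P n : ℝ) ≤ n * (rho (Real.exp c) + ε) →
      ∑ p ∈ P.filter (fun p : ℕ => (p : ℝ) ≤ (n : ℝ) ^ θ), (1 : ℝ) / p ≤ η := by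
  classical
  set θ' := max θ 0 with hθ'
  have hθ'0 : 0 ≤ θ' := le_max_right _ _
  have hθ'1 : θ' < 1 / 2 := max_lt hθ (by norm_num)
  have hθθ' : θ ≤ θ' := le_max_left _ _
  have hc7 : c ≤ 7 / 10 := by
    have := Real.log_two_lt_d9
    linarith
  have hρ : rho (Real.exp c) = 1 - c := by
    rw [rho_log (Real.one_le_exp hc0.le), Real.log_exp]
    rw [← Real.le_log_iff_exp_le (by norm_num)]; exact hc
  have hev : ∀ᶠ n : ℕ in atTop, 2 * c / (n : ℝ) ≤ η ^ 2 / 32 ∧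
      4 * (n : ℝ) ^ (2 * θ') ≤ η ^ 2 / 32 * n ∧ 2 ≤ n := by
    have h3 : ∀ᶠ n : ℕ in atTop, 2 * c / (n : ℝ) ≤ η ^ 2 / 32 := by
      have : Tendsto (fun n : ℕ => 2 * c / (n : ℝ)) atTop (𝓝 0) :=
        tendsto_const_nhds.div_atTop tendsto_natCast_atTop_atTop
      exact this.eventually_le_const (by positivity)
    have h4 : ∀ᶠ n : ℕ in atTop, 4 * (n : ℝ) ^ (2 * θ') ≤ η ^ 2 / 32 * n := by
      have : Tendsto (fun n : ℕ => (n : ℝ) ^ (1 - 2 * θ')) atTop atTop :=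
        (tendsto_rpow_atTop (by linarith)).comp tendsto_natCast_atTop_atTop
      filter_upwards [this.eventually_ge_atTop (4 / (η ^ 2 / 32)), eventually_gt_atTop 0] with n hn hn0
      have hn0' : (0 : ℝ) < n := by exact_mod_cast hn0
      rw [div_le_iff₀ (by positivity)] at hn
      have e : (n : ℝ) = (n : ℝ) ^ (1 - 2 * θ') * (n : ℝ) ^ (2 * θ') := by
        rw [← Real.rpow_add hn0']; norm_num
      calc 4 * (n : ℝ) ^ (2 * θ') ≤ ((n : ℝ) ^ (1 - 2 * θ') * (η ^ 2 / 32)) * (n : ℝ) ^ (2 * θ') := by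
            gcongr
        _ = η ^ 2 / 32 * ((n : ℝ) ^ (1 - 2 * θ') * (n : ℝ) ^ (2 * θ')) := by ring
        _ = η ^ 2 / 32 * n := by rw [← e]
    filter_upwards [h3, h4, eventually_ge_atTop 2] with n a b d
    exact ⟨a, b, d⟩
  obtain ⟨W₀, hW₀⟩ := eventually_atTop.mp hev
  refine ⟨η ^ 2 / 32, by positivity, W₀, fun n hn P hP hS1 hS2 hF => ?_⟩
  obtain ⟨-, hn4, hn6⟩ := hW₀ n hn
  obtain ⟨hW3, -, hW6⟩ := hW₀ W₀ le_rfl
  have hPp : ∀ p ∈ P, p.Prime := fun p hp => (hP p hp).1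
  have hn0 : (0 : ℝ) < n := by exact_mod_cast (by omega : 0 < n)
  have hn1 : (1 : ℝ) ≤ n := by exact_mod_cast (by omega : 1 ≤ n)
  by_contra hcon
  push Not at hcon
  set P₀ := P.filter (fun p : ℕ => (p : ℝ) ≤ (n : ℝ) ^ θ) with hP₀
  have hP₀sub : P₀ ⊆ P := filter_subset _ _
  have h4 := brun_lower P₀ (fun p hp => (hPp p (hP₀sub hp)).two_le) (by
    intro a ha b hb hab
    exact (Nat.coprime_primes (hPp a (hP₀sub ha)) (hPp b (hP₀sub hb))).mpr hab) 1 n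
  set s₀ := ∑ p ∈ P₀, (1 : ℝ) / p with hs₀
  have hs₀0 : 0 ≤ s₀ := sum_nonneg (fun p _ => by positivity)
  have hs₀S : s₀ ≤ ∑ p ∈ P, (1 : ℝ) / p :=
    sum_le_sum_of_subset_of_nonneg hP₀sub (fun p _ _ => by positivity)
  have hs₀c : s₀ ≤ c := hs₀S.trans hS2
  have h5 := kap_lower P₀ W₀ (by omega) (fun p hp =>
    ⟨(hPp p (hP₀sub hp)).two_le, (hP p (hP₀sub hp)).2.1.le⟩)
  rw [← hs₀] at h5
  have h6 : 2 * s₀ / W₀ ≤ η ^ 2 / 32 := by
    refine le_trans ?_ hW3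
    gcongr
  have h7 := exp_neg_lower hs₀0 (hs₀c.trans hc7)
  have hfac : (((2 * 1 + 2 : ℕ).factorial : ℕ) : ℝ) = 24 := by norm_num [Nat.factorial]
  have hcard : (1 + (P₀.card : ℝ)) ^ (2 * 1) ≤ η ^ 2 / 32 * n := by
    have h9 : (P₀.card : ℝ) ≤ (n : ℝ) ^ θ' := by
      have h10 : P₀ ⊆ Icc 1 ⌊(n : ℝ) ^ θ'⌋₊ := by
        intro p hp
        have h11 := (mem_filter.mp hp).2
        have h12 := (hPp p (hP₀sub hp)).pos
        rw [mem_Icc]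
        refine ⟨h12, Nat.le_floor (h11.trans ?_)⟩
        exact Real.rpow_le_rpow_of_exponent_le hn1 hθθ'
      have h11 := card_le_card h10
      rw [Nat.card_Icc, Nat.add_sub_cancel] at h11
      have h12 : (P₀.card : ℝ) ≤ (⌊(n : ℝ) ^ θ'⌋₊ : ℝ) := by exact_mod_cast h11
      exact h12.trans (Nat.floor_le (by positivity))
    have h10 : 1 ≤ (n : ℝ) ^ θ' := Real.one_le_rpow hn1 hθ'0
    calc (1 + (P₀.card : ℝ)) ^ (2 * 1) ≤ (2 * (n : ℝ) ^ θ') ^ (2 * 1) := by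
          gcongr
          linarith
      _ = 4 * ((n : ℝ) ^ θ') ^ 2 := by ring
      _ = 4 * (n : ℝ) ^ (2 * θ') := by
          rw [← Real.rpow_natCast ((n : ℝ) ^ θ') 2, ← Real.rpow_mul hn0.le]
          norm_num [mul_comm]
      _ ≤ η ^ 2 / 32 * n := hn4
  have h9 := F_union_ge P₀ (P \ P₀) n
  rw [union_sdiff_of_subset hP₀sub] at h9
  have h11 : ∑ b ∈ P \ P₀, (1 : ℝ) / b + s₀ = ∑ p ∈ P, (1 : ℝ) / p := sum_sdiff hP₀sub
  have h12 : ∑ b ∈ P \ P₀, (1 : ℝ) / b ≤ c - s₀ := by linarith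
  have h13 : (n : ℝ) * ∑ b ∈ P \ P₀, (1 : ℝ) / b ≤ n * (c - s₀) :=
    mul_le_mul_of_nonneg_left h12 hn0.le
  have h14 : η ^ 2 ≤ s₀ ^ 2 := by
    have := hcon.le
    gcongr
  have e2 : s₀ ^ (2 * 1 + 2) / (((2 * 1 + 2 : ℕ).factorial : ℕ) : ℝ) = s₀ ^ 4 / 24 := by
    rw [hfac]
  rw [e2] at h4
  have h15 : (n : ℝ) * (kap P₀ - s₀ ^ 4 / 24) ≥ n * (1 - s₀ + η ^ 2 / 4 - η ^ 2 / 32) := by
    apply mul_le_mul_of_nonneg_left _ hn0.le
    linarith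
  rw [hρ] at hF
  have h16 : (n : ℝ) * (1 - s₀ + η ^ 2 / 4 - η ^ 2 / 32) - η ^ 2 / 32 * n - n * (c - s₀)
      ≤ n * (1 - c + η ^ 2 / 32) := by linarith
  have h17 : (n : ℝ) * (η ^ 2 * (5 / 32)) ≤ 0 := by linarith
  have h18 : 0 < (n : ℝ) * (η ^ 2 * (5 / 32)) := by positivity
  linarith

theorem P3 {c θ η : ℝ} (hc0 : 0 < c) (hθ : θ < min (1 / 2) (Real.exp (-c))) (hη : 0 < η) :
    ∃ ε : ℝ, 0 < ε ∧ ∃ W₀ : ℕ, ∀ n : ℕ, W₀ ≤ n → ∀ P : Finset ℕ,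
      (∀ p ∈ P, p.Prime ∧ W₀ < p ∧ p ≤ n) → c - ε ≤ ∑ p ∈ P, (1 : ℝ) / p →
      ∑ p ∈ P, (1 : ℝ) / p ≤ c → (F P n : ℝ) ≤ n * (rho (Real.exp c) + ε) →
      ∑ p ∈ P.filter (fun p : ℕ => (p : ℝ) ≤ (n : ℝ) ^ θ), (1 : ℝ) / p ≤ η := by
  rcases le_or_gt c (Real.log 2) with h | h
  · exact P2 hc0 h (lt_of_lt_of_le hθ (min_le_left _ _)) hη
  · exact P1 h (lt_of_lt_of_le hθ (min_le_right _ _)) hη

theorem low_mass {c θ η : ℝ} (hc0 : 0 < c) (hθ : θ < min (1 / 2) (Real.exp (-c))) (hη : 0 < η) :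
    ∃ ε : ℝ, 0 < ε ∧ ∃ N₀ : ℕ, ∀ n : ℕ, N₀ ≤ n → ∀ A : Finset ℕ, (∀ a ∈ A, 1 < a ∧ a ≤ n) →
      (∀ a ∈ A, ∀ b ∈ A, a ≠ b → Nat.Coprime a b) → ∑ a ∈ A, (1 : ℝ) / a < c →
      (F A n : ℝ) ≤ n * (rho (Real.exp c) + ε) →
      c - η ≤ ∑ a ∈ A, (1 : ℝ) / a ∧
        ∑ a ∈ A.filter (fun a : ℕ => (a : ℝ) ≤ (n : ℝ) ^ θ), (1 : ℝ) / a ≤ η := by
  classical
  obtain ⟨εP, hεP, WP, hP3⟩ := P3 hc0 hθ (show 0 < η / 2 by positivity)
  set η₁ := min εP η / 8 with hη₁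
  have hη₁0 : 0 < η₁ := by
    have : 0 < min εP η := lt_min hεP hη
    positivity
  have hη₁a : η₁ ≤ εP / 8 := by
    have : min εP η ≤ εP := min_le_left _ _
    linarith
  have hη₁b : η₁ ≤ η / 8 := by
    have : min εP η ≤ η := min_le_right _ _
    linarith
  clear_value η₁
  obtain ⟨εS, hεS, hsg⟩ := sgain hc0 hη₁0
  -- the total mass
  set ε₂ := min (min (εS / 4) (εP / 4)) (min (η / 2) (c / 2)) with hε₂
  have hε₂0 : 0 < ε₂ := by
    apply lt_min <;> apply lt_min <;> positivity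
  have hε₂a : ε₂ ≤ εS / 4 := (min_le_left _ _).trans (min_le_left _ _)
  have hε₂b : ε₂ ≤ εP / 4 := (min_le_left _ _).trans (min_le_right _ _)
  have hε₂c : ε₂ ≤ η / 2 := (min_le_right _ _).trans (min_le_left _ _)
  have hε₂d : ε₂ ≤ c / 2 := (min_le_right _ _).trans (min_le_right _ _)
  clear_value ε₂
  have hgap : rho (Real.exp c) < rho (Real.exp (c - ε₂)) :=
    rho_strict (Real.one_le_exp (by linarith)) (Real.exp_lt_exp.mpr (by linarith))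
  set g := rho (Real.exp (c - ε₂)) - rho (Real.exp c) with hg
  have hg0 : 0 < g := by linarith
  obtain ⟨N₁, hN₁⟩ := reduce (c - ε₂) (g / 2) (by positivity)
  -- the decomposition
  set εw := min (εS / 8) η₁ with hεw
  have hεw0 : 0 < εw := lt_min (by positivity) hη₁0
  have hεwa : εw ≤ εS / 8 := min_le_left _ _
  have hεwb : εw ≤ η₁ := min_le_right _ _
  clear_value εw
  obtain ⟨N₂, hN₂⟩ := decomp c εw (εS / 8) hεw0 (by positivity) WP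
  set ε := min (g / 4) (min (εS / 4) (εP / 4)) with hε
  have hε0 : 0 < ε := lt_min (by positivity) (lt_min (by positivity) (by positivity))
  have hεa : ε ≤ g / 4 := min_le_left _ _
  have hεb : ε ≤ εS / 4 := (min_le_right _ _).trans (min_le_left _ _)
  have hεc : ε ≤ εP / 4 := (min_le_right _ _).trans (min_le_right _ _)
  clear_value ε
  refine ⟨ε, hε0, max (max N₁ N₂) (max WP 1), fun n hn A hA hAc hsum hF => ?_⟩
  have hnN₁ : N₁ ≤ n := (le_max_left _ _).trans ((le_max_left _ _).trans hn)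
  have hnN₂ : N₂ ≤ n := (le_max_right _ _).trans ((le_max_left _ _).trans hn)
  have hnWP : WP ≤ n := (le_max_left _ _).trans ((le_max_right _ _).trans hn)
  have hn1 : 1 ≤ n := (le_max_right _ _).trans ((le_max_right _ _).trans hn)
  have hn0 : (0 : ℝ) < n := by exact_mod_cast hn1
  have hmass : c - ε₂ < ∑ a ∈ A, (1 : ℝ) / a := by
    by_contra hcon
    push Not at hcon
    have h1 := hN₁ n hnN₁ A hA hAc hcon
    have h2 : (n : ℝ) * (rho (Real.exp (c - ε₂)) - g / 2) ≤ n * (rho (Real.exp c) + ε) := h1.trans hF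
    have h3 := le_of_mul_le_mul_left h2 hn0
    linarith
  refine ⟨by linarith, ?_⟩
  obtain ⟨S, P, hSA, hPA, hSP, hPp, hR, hlow⟩ := hN₂ n hnN₂ A hA hAc hsum.le
  have hSPA : S ∪ P ⊆ A := union_subset hSA hPA
  have hsplit : ∑ a ∈ A \ (S ∪ P), (1 : ℝ) / a + (∑ a ∈ S, (1 : ℝ) / a + ∑ a ∈ P, (1 : ℝ) / a)
      = ∑ a ∈ A, (1 : ℝ) / a := by
    rw [← sum_union hSP]; exact sum_sdiff hSPA
  have hP0 : 0 ≤ ∑ a ∈ P, (1 : ℝ) / a := sum_nonneg (fun a _ => by positivity)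
  have hS0 : 0 ≤ ∑ a ∈ S, (1 : ℝ) / a := sum_nonneg (fun a _ => by positivity)
  have hR0 : 0 ≤ ∑ a ∈ A \ (S ∪ P), (1 : ℝ) / a := sum_nonneg (fun a _ => by positivity)
  have hmm : mm P n = rho (Real.exp (∑ a ∈ P, (1 : ℝ) / a)) := by
    unfold mm E
    rw [W_full P n (fun p hp => (hA p (hPA hp)).2)]
  have hS2 : ∀ s ∈ S, 2 ≤ s := fun s hs => (hA s (hSA hs)).1
  -- the bounded part is small
  have hSsmall : ∑ a ∈ S, (1 : ℝ) / a < η₁ := by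
    by_contra hcon
    push Not at hcon
    have h1 := hsg S (fun s hs => ⟨hS2 s hs, by
      have h2 : (1 : ℝ) / s ≤ ∑ a ∈ A, (1 : ℝ) / a :=
        single_le_sum (f := fun a : ℕ => (1 : ℝ) / a) (fun a _ => by positivity) (hSA hs)
      linarith⟩) (∑ a ∈ P, (1 : ℝ) / a) hP0 (by linarith) (by linarith) hcon
    have h2 := F_union_ge (S ∪ P) (A \ (S ∪ P)) n
    rw [union_sdiff_of_subset hSPA] at h2
    rw [hmm] at hlow
    have hk1 := kap_le_one hS2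
    have hk0 := (kap_pos hS2).le
    have h3 : kap S * n * (rho (Real.exp (∑ a ∈ P, (1 : ℝ) / a)) - εS / 8)
        ≥ n * (rho (Real.exp c) + εS - εS / 8) := by
      have e : kap S * n * (rho (Real.exp (∑ a ∈ P, (1 : ℝ) / a)) - εS / 8)
        = n * (kap S * rho (Real.exp (∑ a ∈ P, (1 : ℝ) / a)) - kap S * (εS / 8)) := by ring
      rw [e]
      apply mul_le_mul_of_nonneg_left _ hn0.le
      have : kap S * (εS / 8) ≤ 1 * (εS / 8) := by gcongr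
      linarith
    have h4 : (n : ℝ) * ∑ a ∈ A \ (S ∪ P), (1 : ℝ) / a ≤ n * (εS / 8) := by
      apply mul_le_mul_of_nonneg_left _ hn0.le
      linarith
    have h5 : (n : ℝ) * (rho (Real.exp c) + εS - εS / 8 - εS / 8) ≤ n * (rho (Real.exp c) + ε) := by
      linarith
    have h6 := le_of_mul_le_mul_left h5 hn0
    linarith
  -- the count for P
  have hAPsub : A \ P ⊆ S ∪ (A \ (S ∪ P)) := by
    intro a ha
    rw [Finset.mem_sdiff] at ha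
    rw [mem_union, Finset.mem_sdiff, mem_union]
    by_cases h : a ∈ S
    · exact Or.inl h
    · exact Or.inr ⟨ha.1, fun h' => h'.elim h ha.2⟩
  have hAP : ∑ a ∈ A \ P, (1 : ℝ) / a ≤ 2 * η₁ := by
    calc ∑ a ∈ A \ P, (1 : ℝ) / a ≤ ∑ a ∈ S ∪ (A \ (S ∪ P)), (1 : ℝ) / a :=
          sum_le_sum_of_subset_of_nonneg hAPsub (fun a _ _ => by positivity)
      _ ≤ ∑ a ∈ S, (1 : ℝ) / a + ∑ a ∈ A \ (S ∪ P), (1 : ℝ) / a := by
          rw [← sum_union_inter]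
          have : 0 ≤ ∑ a ∈ S ∩ (A \ (S ∪ P)), (1 : ℝ) / a := sum_nonneg (fun a _ => by positivity)
          linarith
      _ ≤ 2 * η₁ := by linarith
  have hFP : (F P n : ℝ) ≤ n * (rho (Real.exp c) + εP) := by
    have h1 := F_union_ge P (A \ P) n
    rw [union_sdiff_of_subset hPA] at h1
    have h2 : (n : ℝ) * ∑ a ∈ A \ P, (1 : ℝ) / a ≤ n * (εP / 4) := by
      apply mul_le_mul_of_nonneg_left _ hn0.le
      linarith
    have h3 : (n : ℝ) * (rho (Real.exp c) + ε) + n * (εP / 4) ≤ n * (rho (Real.exp c) + εP) := by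
      rw [← mul_add]
      apply mul_le_mul_of_nonneg_left _ hn0.le
      linarith
    linarith
  have h1 := hP3 n hnWP P (fun p hp => ⟨(hPp p hp).1, (hPp p hp).2, (hA p (hPA hp)).2⟩)
    (by linarith) (by linarith) hFP
  have h2 : A.filter (fun a : ℕ => (a : ℝ) ≤ (n : ℝ) ^ θ)
      ⊆ P.filter (fun a : ℕ => (a : ℝ) ≤ (n : ℝ) ^ θ) ∪ (A \ P) := by
    intro a ha
    rw [mem_filter] at ha
    rw [mem_union, mem_filter, Finset.mem_sdiff]
    by_cases h : a ∈ P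
    · exact Or.inl ⟨h, ha.2⟩
    · exact Or.inr ⟨ha.1, h⟩
  calc ∑ a ∈ A.filter (fun a : ℕ => (a : ℝ) ≤ (n : ℝ) ^ θ), (1 : ℝ) / a
      ≤ ∑ a ∈ P.filter (fun a : ℕ => (a : ℝ) ≤ (n : ℝ) ^ θ) ∪ (A \ P), (1 : ℝ) / a :=
        sum_le_sum_of_subset_of_nonneg h2 (fun a _ _ => by positivity)
    _ ≤ ∑ a ∈ P.filter (fun a : ℕ => (a : ℝ) ≤ (n : ℝ) ^ θ), (1 : ℝ) / a
        + ∑ a ∈ A \ P, (1 : ℝ) / a := by
        rw [← sum_union_inter]
        have : 0 ≤ ∑ a ∈ P.filter (fun a : ℕ => (a : ℝ) ≤ (n : ℝ) ^ θ) ∩ (A \ P), (1 : ℝ) / a :=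
          sum_nonneg (fun a _ => by positivity)
        linarith
    _ ≤ η := by linarith

end Pool.Agent.Helper923.HLow
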