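import Mathlib
import Pool.Agent.Helper923.HReduce

set_option autoImplicit false

namespace Pool.Agent.Helper923.HUpperQ

open Finset Pool.Agent.Helper923.HRho Pool.Agent.Helper923.HKey Pool.Agent.Helper923.HMertens
  Pool.Agent.Helper923.HCount Pool.Agent.Helper923.HB Pool.Agent.Helper923.HLower

/-- primes in `(y, n]` -/
def Pr (y n : ℕ) : Finset ℕ := (Ioc y n).filter Nat.Prime

/-- their reciprocal sum -/
noncomputable def Gs (y n : ℕ) : ℝ := ∑ p ∈ Pr y n, (1 : ℝ) / p

lemma Gs_nonneg (y n : ℕ) : 0 ≤ Gs y n := sum_nonneg (fun p _ => by positivity)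

lemma mem_Pr {y n p : ℕ} : p ∈ Pr y n ↔ (y < p ∧ p ≤ n) ∧ p.Prime := by
  simp only [Pr, mem_filter, mem_Ioc]

lemma Pr_self (n : ℕ) : Pr n n = ∅ := by simp [Pr]

lemma Pr_prev {q n : ℕ} (hq : q.Prime) (hqn : q ≤ n) : Pr (q - 1) n = insert q (Pr q n) := by
  ext p
  have := hq.pos
  rw [mem_insert, mem_Pr, mem_Pr]
  constructor
  · rintro ⟨⟨h1, h2⟩, h3⟩
    by_cases h : p = q
    · exact Or.inl h
    · exact Or.inr ⟨⟨by omega, h2⟩, h3⟩
  · rintro (rfl | ⟨⟨h1, h2⟩, h3⟩)
    · exact ⟨⟨by omega, hqn⟩, hq⟩
    · exact ⟨⟨by omega, h2⟩, h3⟩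

lemma Pr_prev_not {q n : ℕ} (hq : ¬ q.Prime) : Pr (q - 1) n = Pr q n := by
  ext p
  rw [mem_Pr, mem_Pr]
  constructor
  · rintro ⟨⟨h1, h2⟩, h3⟩
    have : p ≠ q := by rintro rfl; exact hq h3
    exact ⟨⟨by omega, h2⟩, h3⟩
  · rintro ⟨⟨h1, h2⟩, h3⟩
    exact ⟨⟨by omega, h2⟩, h3⟩

lemma notMem_Pr (q n : ℕ) : q ∉ Pr q n := by
  rw [mem_Pr]; omega

lemma Gs_prev {q n : ℕ} (hq : q.Prime) (hqn : q ≤ n) : Gs (q - 1) n = 1 / q + Gs q n := by
  unfold Gs
  rw [Pr_prev hq hqn, sum_insert (notMem_Pr q n)]

lemma Gs_anti {y y' n : ℕ} (h : y ≤ y') : Gs y' n ≤ Gs y n := by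
  apply sum_le_sum_of_subset_of_nonneg
  · intro p hp
    rw [mem_Pr] at hp ⊢
    exact ⟨⟨by omega, hp.1.2⟩, hp.2⟩
  · intro p _ _; positivity

lemma rho_step {d s : ℝ} (hd : 0 ≤ d) (hs : 1 ≤ s) :
    rho s - rho (s * Real.exp d) ≤ d * rho (s - 1) := by
  have hs0 : 0 < s := by linarith
  have he : 1 ≤ Real.exp d := Real.one_le_exp hd
  have hle : s ≤ s * Real.exp d := by nlinarith
  rw [rho_sub hs hle]
  have h1 : (∫ t in s..(s * Real.exp d), rho (t - 1) / t)
      ≤ ∫ t in s..(s * Real.exp d), rho (s - 1) * (1 / t) := by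
    apply intervalIntegral.integral_mono_on hle
    · exact div_ii hs0 hle
    · apply ContinuousOn.intervalIntegrable
      rw [Set.uIcc_of_le hle]
      apply ContinuousOn.mul continuousOn_const
      apply ContinuousOn.div continuousOn_const continuousOn_id
      intro t ht
      have : 0 < t := by linarith [ht.1]
      exact this.ne'
    · intro t ht
      have ht0 : 0 < t := by linarith [ht.1]
      rw [mul_one_div]
      apply div_le_div_of_nonneg_right _ ht0.le
      exact rho_anti (by linarith [ht.1])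
  refine h1.trans ?_
  rw [intervalIntegral.integral_const_mul, integral_one_div_of_pos hs0 (by positivity)]
  have : s * Real.exp d / s = Real.exp d := by field_simp
  rw [this, Real.log_exp, mul_comm]

lemma mm_ge (C : ℝ) (hC0 : 0 ≤ C) (hC : ∀ a b : ℕ, 2 ≤ a → a ≤ b →
    |∑ p ∈ (Finset.Ioc a b).filter Nat.Prime, (1 : ℝ) / p
      - Real.log (Real.log b / Real.log a)| ≤ C / Real.log a)
    (q n : ℕ) (hq : 2 ≤ q) (hqn : q ≤ n) :
    rho (Real.exp (Gs q n) - 1 + Real.exp (Gs q n) * (Real.exp (C / Real.log q) ^ 2 - 1))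
      ≤ mm (Pr q n) (n / q) := by
  rcases le_or_gt (n / q) q with hk | hk
  · rw [mm_one_of_lt (W := q) (fun p hp => (mem_Pr.mp hp).1.1) hk]
    exact rho_le_one _
  · unfold mm
    apply rho_anti
    set k := n / q with hkdef
    set x := Real.exp (C / Real.log q) with hx
    have hlq : 0 < Real.log q := Real.log_pos (by exact_mod_cast (by omega : 1 < q))
    have hlk : 0 < Real.log k := Real.log_pos (by exact_mod_cast (by omega : 1 < k))
    have hln : 0 < Real.log n := Real.log_pos (by exact_mod_cast (by omega : 1 < n))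
    have hx1 : 1 ≤ x := Real.one_le_exp (by positivity)
    have hq0 : (0 : ℝ) < q := by exact_mod_cast (by omega : 0 < q)
    have hn0 : (0 : ℝ) < n := by exact_mod_cast (by omega : 0 < n)
    have h1 : HKey.W (rr (Pr q n)) (k + 1) ≤ Real.log (Real.log k / Real.log q) + C / Real.log q := by
      have h2 := (abs_le.mp (hC q k hq hk.le)).2
      have h3 : HKey.W (rr (Pr q n)) (k + 1) ≤ ∑ p ∈ (Ioc q k).filter Nat.Prime, (1 : ℝ) / p := by
        unfold HKey.W rr
        rw [← sum_filter]
        apply sum_le_sum_of_subset_of_nonneg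
        · intro p hp
          rw [mem_filter, mem_range, mem_Pr] at hp
          rw [mem_filter, mem_Ioc]
          exact ⟨⟨hp.2.1.1, by omega⟩, hp.2.2⟩
        · intro p _ _; positivity
      linarith
    have h2 : E (rr (Pr q n)) (k + 1) ≤ (Real.log k / Real.log q) * x := by
      unfold E
      calc Real.exp (HKey.W (rr (Pr q n)) (k + 1))
          ≤ Real.exp (Real.log (Real.log k / Real.log q) + C / Real.log q) := Real.exp_le_exp.mpr h1
        _ = _ := by rw [Real.exp_add, Real.exp_log (by positivity)]
    have h3 : Real.log n / Real.log q ≤ Real.exp (Gs q n) * x := by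
      have h4 := (abs_le.mp (hC q n hq hqn)).1
      have h5 : Real.log (Real.log n / Real.log q) ≤ Gs q n + C / Real.log q := by
        unfold Gs Pr
        linarith
      calc Real.log n / Real.log q = Real.exp (Real.log (Real.log n / Real.log q)) := by
            rw [Real.exp_log (by positivity)]
        _ ≤ Real.exp (Gs q n + C / Real.log q) := Real.exp_le_exp.mpr h5
        _ = _ := by rw [Real.exp_add]
    have h4 : Real.log k ≤ Real.log n - Real.log q := by
      rw [← Real.log_div hn0.ne' hq0.ne']
      apply Real.log_le_log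
      · exact_mod_cast (by omega : 0 < k)
      · exact Nat.cast_div_le
    have h5 : Real.log k / Real.log q ≤ Real.log n / Real.log q - 1 := by
      rw [div_sub_one hlq.ne']
      gcongr
    have hs1 : 1 ≤ Real.exp (Gs q n) := Real.one_le_exp (Gs_nonneg q n)
    have h6 : (Real.log k / Real.log q) * x ≤ (Real.exp (Gs q n) * x - 1) * x := by
      apply mul_le_mul_of_nonneg_right _ (by positivity)
      linarith
    refine h2.trans (h6.trans ?_)
    nlinarith

theorem upper (c : ℝ) (hc : 0 < c) (ε : ℝ) (hε : 0 < ε) :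
    ∃ Y₀ : ℕ, ∀ y n : ℕ, Y₀ ≤ y → y ≤ n → Gs y n ≤ c →
      (F (Pr y n) n : ℝ) ≤ n * (rho (Real.exp (Gs y n)) + ε) := by
  classical
  obtain ⟨C, hC0, hC⟩ := mertens_ratio
  -- parameters
  set δ := ε / (3 * c) with hδ
  have hδ0 : 0 < δ := by positivity
  obtain ⟨W₀, hW₀⟩ := lower ∅ (by simp) (by simp) 1 le_rfl (by simp) δ hδ0
  have hlim : Filter.Tendsto (fun y : ℕ => Real.log (y : ℝ)) Filter.atTop Filter.atTop :=
    Real.tendsto_log_atTop.comp tendsto_natCast_atTop_atTop
  have h1 : ∀ᶠ y : ℕ in Filter.atTop, Real.exp c * (Real.exp (C / Real.log y) ^ 2 - 1) ≤ δ := by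
    have ht : Filter.Tendsto (fun y : ℕ => Real.exp c * (Real.exp (C / Real.log y) ^ 2 - 1))
        Filter.atTop (nhds (Real.exp c * (Real.exp 0 ^ 2 - 1))) := by
      apply Filter.Tendsto.const_mul
      apply Filter.Tendsto.sub_const
      apply Filter.Tendsto.pow
      exact (Real.continuous_exp.tendsto 0).comp (tendsto_const_nhds.div_atTop hlim)
    rw [Real.exp_zero, one_pow, sub_self, mul_zero] at ht
    exact ht.eventually_le_const hδ0
  have h2 : ∀ᶠ y : ℕ in Filter.atTop, 2 / Real.log y ≤ ε / 3 := by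
    have ht : Filter.Tendsto (fun y : ℕ => 2 / Real.log y) Filter.atTop (nhds 0) :=
      tendsto_const_nhds.div_atTop hlim
    exact ht.eventually_le_const (by positivity)
  obtain ⟨Y₀, hY₀⟩ := Filter.eventually_atTop.mp (h1.and (h2.and ((Filter.eventually_ge_atTop W₀).and
    (Filter.eventually_ge_atTop 2))))
  refine ⟨Y₀, fun y n hy hyn hG => ?_⟩
  obtain ⟨hy1, hy2, hy3, hy4⟩ := hY₀ y hy
  have hnn : (0 : ℝ) ≤ n := by positivity
  -- downward induction
  have main : ∀ k : ℕ, k ≤ n - y → (F (Pr (n - k) n) n : ℝ) ≤ n * rho (Real.exp (Gs (n - k) n))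
      + ∑ q ∈ Pr (n - k) n, ((n : ℝ) / q * (δ + δ) + 1) := by
    intro k
    induction k with
    | zero =>
      intro _
      rw [Nat.sub_zero, Pr_self, F_empty]
      unfold Gs
      rw [Pr_self, sum_empty, Real.exp_zero, rho_one le_rfl]
      simp
    | succ k ih =>
      intro hk
      have ih' := ih (by omega)
      set q := n - k with hq
      have hq' : n - (k + 1) = q - 1 := by omega
      have hqy : y < q := by omega
      have hqn : q ≤ n := by omega
      rw [hq']
      by_cases hqp : q.Prime
      swap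
      · have : Gs (q - 1) n = Gs q n := by unfold Gs; rw [Pr_prev_not hqp]
        rw [Pr_prev_not hqp, this]
        exact ih'
      have hq0 : (0 : ℝ) < q := by exact_mod_cast hqp.pos
      rw [Pr_prev hqp hqn, sum_insert (notMem_Pr q n), Gs_prev hqp hqn]
      have h3 := F_insert (Pr q n) q hqp.one_lt.le (by
        intro a ha
        rw [mem_Pr] at ha
        rw [Nat.coprime_primes ha.2 hqp]
        omega) n
      have h3' : (F (insert q (Pr q n)) n : ℝ) = F (Pr q n) n - F (Pr q n) (n / q) := by
        have : (F (insert q (Pr q n)) n : ℝ) + F (Pr q n) (n / q) = F (Pr q n) n := by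
          exact_mod_cast h3
        linarith
      rw [h3']
      set s := Real.exp (Gs q n) with hs
      have hs1 : 1 ≤ s := Real.one_le_exp (Gs_nonneg q n)
      have hsc : s ≤ Real.exp c := Real.exp_le_exp.mpr ((Gs_anti hqy.le).trans hG)
      have h4 : Real.exp (1 / q + Gs q n) = s * Real.exp (1 / q) := by
        rw [Real.exp_add, mul_comm]
      rw [h4]
      have h5 := rho_step (d := 1 / (q : ℝ)) (by positivity) hs1
      -- lower bound of the removed part
      have h6 : (n : ℝ) / q * (rho (s - 1) - δ - δ) - 1 ≤ F (Pr q n) (n / q) := by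
        have h7 : ((n / q : ℕ) : ℝ) * (mm (Pr q n) (n / q) - δ) ≤ F (Pr q n) (n / q) := by
          rcases lt_or_ge (n / q) q with h | h
          · have h8 : F (Pr q n) (n / q) = n / q := by
              have := F_union_small (S := ∅) (P := Pr q n) (k := n / q) (fun p hp => by
                have := (mem_Pr.mp hp).1.1
                omega)
              rw [empty_union, F_empty] at this
              exact this
            rw [h8, mm_one_of_lt (W := q) (fun p hp => (mem_Pr.mp hp).1.1) h.le]
            have : (0 : ℝ) ≤ ((n / q : ℕ) : ℝ) := by positivity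
            nlinarith
          · have h8 := hW₀ q (by omega) (Pr q n) (fun p hp => ⟨(mem_Pr.mp hp).2, (mem_Pr.mp hp).1.1⟩)
              (n / q) h
            rw [empty_union] at h8
            simpa [kap] using h8
        have h8 : rho (s - 1) - δ ≤ mm (Pr q n) (n / q) := by
          refine le_trans ?_ (mm_ge C hC0 hC q n hqp.two_le hqn)
          rw [← hs]
          have hlqy : Real.log y ≤ Real.log q := by
            apply Real.log_le_log
            · exact_mod_cast (by omega : 0 < y)
            · exact_mod_cast hqy.le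
          have hly : 0 < Real.log y := Real.log_pos (by exact_mod_cast (by omega : 1 < y))
          have h9 : Real.exp (C / Real.log q) ≤ Real.exp (C / Real.log y) := by
            apply Real.exp_le_exp.mpr
            exact div_le_div_of_nonneg_left hC0 hly hlqy
          have h10 : 1 ≤ Real.exp (C / Real.log q) := by
            apply Real.one_le_exp
            have : 0 < Real.log q := by linarith
            positivity
          have h11 : Real.exp (C / Real.log q) ^ 2 - 1 ≤ Real.exp (C / Real.log y) ^ 2 - 1 := by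
            gcongr
          have h12 : 0 ≤ Real.exp (C / Real.log q) ^ 2 - 1 := by nlinarith
          have h13 : s * (Real.exp (C / Real.log q) ^ 2 - 1) ≤ δ := by
            calc s * (Real.exp (C / Real.log q) ^ 2 - 1)
                ≤ Real.exp c * (Real.exp (C / Real.log y) ^ 2 - 1) := by gcongr
              _ ≤ δ := hy1
          have h14 : 0 ≤ s * (Real.exp (C / Real.log q) ^ 2 - 1) := by positivity
          have h15 := rho_lip (a := s - 1) (b := s - 1 + s * (Real.exp (C / Real.log q) ^ 2 - 1))
            (by linarith)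
          linarith
        have h9 : ((n / q : ℕ) : ℝ) ≤ n / q := Nat.cast_div_le
        have h10 : (n : ℝ) / q - 1 ≤ ((n / q : ℕ) : ℝ) := by
          have : (n : ℝ) / q < ((n / q : ℕ) : ℝ) + 1 := by
            rw [← Nat.floor_div_eq_div (K := ℝ)]
            exact Nat.lt_floor_add_one _
          linarith
        have h11 : (n : ℝ) / q * (mm (Pr q n) (n / q) - δ) - 1
            ≤ ((n / q : ℕ) : ℝ) * (mm (Pr q n) (n / q) - δ) := by
          have hm1 := mm_le_one (Pr q n) (n / q)
          rcases le_total 0 (mm (Pr q n) (n / q) - δ) with h0 | h0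
          · have := mul_le_mul_of_nonneg_right h10 h0
            nlinarith
          · have := mul_le_mul_of_nonpos_right h9 h0
            linarith
        have hnq : 0 ≤ (n : ℝ) / q := by positivity
        have h12 : (n : ℝ) / q * (rho (s - 1) - δ - δ) ≤ (n : ℝ) / q * (mm (Pr q n) (n / q) - δ) := by
          gcongr
        linarith
      have h7 : (n : ℝ) * (rho s - rho (s * Real.exp (1 / q))) ≤ n * (1 / q * rho (s - 1)) :=
        mul_le_mul_of_nonneg_left h5 hnn
      have h8 : (n : ℝ) * (1 / q * rho (s - 1)) = n / q * rho (s - 1) := by ring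
      have h9 : (n : ℝ) / q * (rho (s - 1) - δ - δ) = n / q * rho (s - 1) - n / q * (δ + δ) := by ring
      linarith
  have h3 := main (n - y) le_rfl
  have h4 : n - (n - y) = y := by omega
  rw [h4] at h3
  have hcard : ((Pr y n).card : ℝ) ≤ n * (2 / Real.log y) := by
    have hly : 0 < Real.log y := Real.log_pos (by exact_mod_cast (by omega : 1 < y))
    rw [mul_div_assoc', le_div_iff₀ hly]
    calc ((Pr y n).card : ℝ) * Real.log y = ∑ _p ∈ Pr y n, Real.log y := by
          rw [sum_const, nsmul_eq_mul]
      _ ≤ ∑ p ∈ Pr y n, Real.log p := by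
          apply sum_le_sum
          intro p hp
          rw [mem_Pr] at hp
          apply Real.log_le_log
          · exact_mod_cast (by omega : 0 < y)
          · exact_mod_cast hp.1.1.le
      _ ≤ ∑ p ∈ PP n, Real.log p := by
          apply sum_le_sum_of_subset_of_nonneg
          · intro p hp
            rw [mem_Pr] at hp
            simp only [mem_filter, mem_Icc]
            exact ⟨⟨by omega, hp.1.2⟩, hp.2⟩
          · intro p _ _; exact Real.log_natCast_nonneg p
      _ ≤ 2 * n := theta_le n
      _ = n * 2 := by ring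
  have h5 : ∑ q ∈ Pr y n, ((n : ℝ) / q * (δ + δ) + 1) = n * (Gs y n * (δ + δ)) + (Pr y n).card := by
    rw [sum_add_distrib, sum_const, nsmul_eq_mul, mul_one]
    congr 1
    unfold Gs
    rw [sum_mul, mul_sum]
    apply sum_congr rfl
    intro q _
    ring
  rw [h5] at h3
  have h6 : Gs y n * (δ + δ) ≤ c * (δ + δ) := by gcongr
  have h7 : c * (δ + δ) = 2 * (ε / 3) := by
    rw [hδ]; field_simp; ring
  have h8 : (n : ℝ) * (Gs y n * (δ + δ)) ≤ n * (2 * (ε / 3)) := by
    apply mul_le_mul_of_nonneg_left _ hnn
    linarith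
  have h9 : (n : ℝ) * (2 / Real.log y) ≤ n * (ε / 3) := mul_le_mul_of_nonneg_left hy2 hnn
  linarith

end Pool.Agent.Helper923.HUpperQ
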