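import Mathlib
import Pool.Agent.Helper923.HUpperQ

set_option autoImplicit false

namespace Pool.Agent.Helper923.HFinal

open Finset Filter Topology Pool.Agent.Helper923.HRho Pool.Agent.Helper923.HKey
  Pool.Agent.Helper923.HMertens Pool.Agent.Helper923.HCount Pool.Agent.Helper923.HUpperQ

/-- the set of the largest primes up to `n` -/
noncomputable def QQ (c : ℝ) (n : ℕ) : Finset ℕ :=
  (Icc 1 n).filter (fun q => q.Prime ∧ ∑ p ∈ (Icc q n).filter Nat.Prime, (1 : ℝ) / p ≤ c)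

lemma Gs_self (n : ℕ) : Gs n n = 0 := by unfold Gs; rw [Pr_self, sum_empty]

lemma exists_y {c : ℝ} (hc : 0 < c) (n : ℕ) : ∃ y, Gs y n ≤ c :=
  ⟨n, by rw [Gs_self]; exact hc.le⟩

open Classical in
/-- the cut -/
noncomputable def yy (c : ℝ) (n : ℕ) : ℕ := sInf {y | Gs y n ≤ c}

lemma yy_spec {c : ℝ} (hc : 0 < c) (n : ℕ) : Gs (yy c n) n ≤ c :=
  Nat.sInf_mem (s := {y | Gs y n ≤ c}) (exists_y hc n)

lemma yy_min {c : ℝ} {n y : ℕ} (h : Gs y n ≤ c) : yy c n ≤ y := Nat.sInf_le h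

lemma yy_le {c : ℝ} (hc : 0 < c) (n : ℕ) : yy c n ≤ n := yy_min (by rw [Gs_self]; exact hc.le)

lemma QQ_eq {c : ℝ} (hc : 0 < c) (n : ℕ) : QQ c n = Pr (yy c n) n := by
  ext q
  have hG : ∀ q : ℕ, 1 ≤ q → ∑ p ∈ (Icc q n).filter Nat.Prime, (1 : ℝ) / p = Gs (q - 1) n := by
    intro q hq
    unfold Gs Pr
    have : Icc q n = Ioc (q - 1) n := by
      ext x; rw [mem_Icc, mem_Ioc]; omega
    rw [this]
  rw [mem_Pr]
  simp only [QQ, mem_filter, mem_Icc]
  constructor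
  · rintro ⟨⟨h1, h2⟩, h3, h4⟩
    rw [hG q h1] at h4
    have := yy_min h4
    exact ⟨⟨by omega, h2⟩, h3⟩
  · rintro ⟨⟨h1, h2⟩, h3⟩
    have hq := h3.pos
    refine ⟨⟨hq, h2⟩, h3, ?_⟩
    rw [hG q hq]
    exact (Gs_anti (by omega)).trans (yy_spec hc n)

lemma Gs_tendsto (a : ℕ) : Tendsto (fun n => Gs a n) atTop atTop := by
  obtain ⟨C, hC0, hC⟩ := mertens_ratio
  set b := max a 2 with hb
  have hb2 : 2 ≤ b := le_max_right _ _
  have h1 : Tendsto (fun n : ℕ => Real.log (Real.log n / Real.log b) - C / Real.log b) atTop atTop := by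
    apply tendsto_atTop_add_const_right
    apply Real.tendsto_log_atTop.comp
    apply Tendsto.atTop_div_const (Real.log_pos (by exact_mod_cast hb2))
    exact Real.tendsto_log_atTop.comp tendsto_natCast_atTop_atTop
  refine tendsto_atTop_mono' _ ?_ h1
  filter_upwards [eventually_ge_atTop b] with n hn
  have h2 := (abs_le.mp (hC b n hb2 hn)).1
  have h3 : Gs b n ≤ Gs a n := Gs_anti (le_max_left _ _)
  unfold Gs Pr at h3 ⊢
  linarith

lemma yy_tendsto {c : ℝ} (hc : 0 < c) : Tendsto (yy c) atTop atTop := by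
  rw [tendsto_atTop]
  intro Y
  filter_upwards [(Gs_tendsto Y).eventually_gt_atTop c] with n hn
  by_contra h
  push Not at h
  have h1 : Gs Y n ≤ Gs (yy c n) n := Gs_anti h.le
  have h2 := yy_spec hc n
  linarith

lemma Gs_yy_gt {c : ℝ} (hc : 0 < c) {n : ℕ} (hy : 1 ≤ yy c n) :
    c - 1 / (yy c n : ℝ) < Gs (yy c n) n := by
  set y := yy c n with hydef
  have h1 : ¬ Gs (y - 1) n ≤ c := by
    intro h
    have := yy_min h
    omega
  push Not at h1
  by_cases hp : y.Prime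
  · rw [Gs_prev hp (yy_le hc n)] at h1
    linarith
  · have h2 : Gs (y - 1) n = Gs y n := by unfold Gs; rw [Pr_prev_not hp]
    rw [h2] at h1
    have : 0 ≤ 1 / (y : ℝ) := by positivity
    linarith

theorem QQ_upper {c : ℝ} (hc : 0 < c) {ε : ℝ} (hε : 0 < ε) :
    ∀ᶠ n : ℕ in atTop, (F (QQ c n) n : ℝ) ≤ n * (rho (Real.exp c) + ε) := by
  obtain ⟨Y₀, hY₀⟩ := upper c hc (ε / 2) (by positivity)
  have hcont : Tendsto (fun n : ℕ => rho (Real.exp (c - 1 / (yy c n : ℝ)))) atTop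
      (𝓝 (rho (Real.exp c))) := by
    have h1 : Tendsto (fun n : ℕ => c - 1 / (yy c n : ℝ)) atTop (𝓝 (c - 0)) := by
      apply Tendsto.const_sub
      have : Tendsto (fun n : ℕ => ((yy c n : ℕ) : ℝ)) atTop atTop :=
        tendsto_natCast_atTop_atTop.comp (yy_tendsto hc)
      exact tendsto_const_nhds.div_atTop this
    rw [sub_zero] at h1
    exact ((rho_cont.comp Real.continuous_exp).tendsto c).comp h1
  have h2 := hcont.eventually_le_const (show rho (Real.exp c) < rho (Real.exp c) + ε / 2 by linarith)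
  filter_upwards [h2, (yy_tendsto hc).eventually_ge_atTop (max Y₀ 1)] with n h3 h4
  have h5 := hY₀ (yy c n) n ((le_max_left _ _).trans h4) (yy_le hc n) (yy_spec hc n)
  have h6 := Gs_yy_gt hc ((le_max_right _ _).trans h4)
  rw [QQ_eq hc]
  refine h5.trans ?_
  apply mul_le_mul_of_nonneg_left _ (by positivity)
  have h7 : rho (Real.exp (Gs (yy c n) n)) ≤ rho (Real.exp (c - 1 / (yy c n : ℝ))) :=
    rho_anti (Real.exp_le_exp.mpr h6.le)
  linarith

lemma QQ_mem {c : ℝ} (hc : 0 < c) (n : ℕ) : (∀ a ∈ QQ c n, 1 < a ∧ a ≤ n) ∧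
    (∀ a ∈ QQ c n, ∀ b ∈ QQ c n, a ≠ b → Nat.Coprime a b) ∧ ∑ a ∈ QQ c n, (1 : ℝ) / a ≤ c := by
  rw [QQ_eq hc]
  refine ⟨?_, ?_, yy_spec hc n⟩
  · intro a ha
    rw [mem_Pr] at ha
    exact ⟨ha.2.one_lt, ha.1.2⟩
  · intro a ha b hb hab
    rw [mem_Pr] at ha hb
    exact (Nat.coprime_primes ha.2 hb.2).mpr hab

end Pool.Agent.Helper923.HFinal
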