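import Mathlib
import Pool.Agent.Helper923.HFinal
import Pool.Agent.Helper923.PNT

set_option autoImplicit false

namespace Pool.Agent.Helper923.HStrict

open Finset Filter Topology Pool.Agent.Helper923.HRho Pool.Agent.Helper923.HKey
  Pool.Agent.Helper923.HMertens Pool.Agent.Helper923.HCount Pool.Agent.Helper923.HUpperQ
  Pool.Agent.Helper923.HFinal

lemma prime_between {α β : ℝ} (hα : 0 < α) (hαβ : α < β) :
    ∀ᶠ n : ℕ in atTop, ∃ p : ℕ, p.Prime ∧ α * n < p ∧ (p : ℝ) ≤ β * n := by
  have hβ : 0 < β := hα.trans hαβ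
  have hth := Pool.Agent.Helper923.PNT.theta_div_tendsto
  set ε := (β - α) / (2 * (α + β)) with hε
  have hε0 : 0 < ε := by
    apply div_pos (by linarith) (by positivity)
  have h1 : Tendsto (fun n : ℕ => α * (n : ℝ)) atTop atTop :=
    tendsto_natCast_atTop_atTop.const_mul_atTop hα
  have h2 : Tendsto (fun n : ℕ => β * (n : ℝ)) atTop atTop :=
    tendsto_natCast_atTop_atTop.const_mul_atTop hβ
  have h3 := (hth.comp h1).eventually_lt_const (show (1 : ℝ) < 1 + ε by linarith)
  have h4 := (hth.comp h2).eventually_const_lt (show 1 - ε < (1 : ℝ) by linarith)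
  filter_upwards [h3, h4, eventually_gt_atTop 0] with n h5 h6 hn
  have hn0 : (0 : ℝ) < n := by exact_mod_cast hn
  simp only [Function.comp_apply] at h5 h6
  rw [div_lt_iff₀ (by positivity)] at h5
  rw [lt_div_iff₀ (by positivity)] at h6
  by_contra hcon
  push Not at hcon
  have h7 : Chebyshev.theta (β * n) ≤ Chebyshev.theta (α * n) := by
    unfold Chebyshev.theta
    apply sum_le_sum_of_subset_of_nonneg
    · intro p hp
      rw [mem_filter, mem_Ioc] at hp ⊢
      refine ⟨⟨hp.1.1, ?_⟩, hp.2⟩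
      have h8 := hcon p hp.2
      have h9 : (p : ℝ) ≤ β * n := (Nat.le_floor_iff (by positivity)).mp hp.1.2
      rw [Nat.le_floor_iff (by positivity)]
      by_contra h10
      push Not at h10
      have := h8 h10
      linarith
    · intro p _ _
      exact Real.log_natCast_nonneg p
  have h8 : (1 - ε) * (β * n) < (1 + ε) * (α * n) := by linarith
  have h9 : ((1 - ε) * β) * n < ((1 + ε) * α) * n := by linarith
  have h10 := lt_of_mul_lt_mul_right h9 hn0.le
  have h11 : ε * (α + β) = (β - α) / 2 := by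
    rw [hε]; field_simp
  nlinarith

lemma kron {θ φ : ℝ} (hφ : 0 < φ) (a0 b0 : ℕ) (hd : 0 < a0 * θ - b0 * φ) :
    ∃ X : ℝ, ∀ x : ℝ, X ≤ x → ∃ a b : ℕ, x - (a0 * θ - b0 * φ) < a * θ + b * φ ∧ a * θ + b * φ ≤ x := by
  set d := a0 * θ - b0 * φ with hdd
  obtain ⟨K, hK⟩ := exists_nat_gt (φ / d)
  rw [div_lt_iff₀ hd] at hK
  refine ⟨K * b0 * φ, fun x hx => ?_⟩
  set m := ⌊(x - K * b0 * φ) / φ⌋₊ with hm
  have hx0 : 0 ≤ (x - K * b0 * φ) / φ := div_nonneg (by linarith) hφ.le
  have hm1 : (m : ℝ) ≤ (x - K * b0 * φ) / φ := Nat.floor_le hx0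
  have hm2 : (x - K * b0 * φ) / φ < m + 1 := Nat.lt_floor_add_one _
  rw [le_div_iff₀ hφ] at hm1
  rw [div_lt_iff₀ hφ] at hm2
  set r := x - K * b0 * φ - m * φ with hr
  have hr0 : 0 ≤ r := by linarith
  have hr1 : r < φ := by linarith
  set j := ⌊r / d⌋₊ with hj
  have hj1 : (j : ℝ) ≤ r / d := Nat.floor_le (div_nonneg hr0 hd.le)
  have hj2 : r / d < j + 1 := Nat.lt_floor_add_one _
  rw [le_div_iff₀ hd] at hj1
  rw [div_lt_iff₀ hd] at hj2
  have hjK : j ≤ K := by
    have : (j : ℝ) * d < K * d := by linarith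
    have := lt_of_mul_lt_mul_right this hd.le
    exact_mod_cast this.le
  have hb : (((K - j) * b0 + m : ℕ) : ℝ) = (K - j) * b0 + m := by
    push_cast [Nat.cast_sub hjK]; ring
  refine ⟨j * a0, (K - j) * b0 + m, ?_, ?_⟩
  · rw [hb]; push_cast
    have : (j : ℝ) * a0 * θ + ((K - j) * b0 + m) * φ = K * b0 * φ + m * φ + j * d := by
      rw [hdd]; ring
    rw [this]; linarith
  · rw [hb]; push_cast
    have : (j : ℝ) * a0 * θ + ((K - j) * b0 + m) * φ = K * b0 * φ + m * φ + j * d := by
      rw [hdd]; ring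
    rw [this]; linarith

lemma log_ne {p q : ℕ} (hp : p.Prime) (hq : q.Prime) (hpq : p ≠ q) {k j : ℕ} (hk : 0 < k) :
    (k : ℝ) * Real.log p ≠ j * Real.log q := by
  intro h
  rw [← Real.log_pow, ← Real.log_pow] at h
  have hp0 : (0 : ℝ) < (p : ℝ) ^ k := by have := hp.pos; positivity
  have hq0 : (0 : ℝ) < (q : ℝ) ^ j := by have := hq.pos; positivity
  have h2 := Real.log_injOn_pos hp0 hq0 h
  have h3 : p ^ k = q ^ j := by exact_mod_cast h2
  have h4 : p ∣ q ^ j := by rw [← h3]; exact dvd_pow_self p (by omega)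
  have h5 := hp.dvd_of_dvd_pow h4
  exact hpq ((Nat.prime_dvd_prime_iff_eq hp hq).mp h5)

lemma smooth_between {p q : ℕ} (hp : p.Prime) (hq : q.Prime) (hpq : p ≠ q) {α : ℝ} (hα : 0 < α)
    (hα1 : α < 1) : ∀ᶠ n : ℕ in atTop, ∃ a b : ℕ, α * n < ((p ^ a * q ^ b : ℕ) : ℝ) ∧ p ^ a * q ^ b ≤ n := by
  set θ := Real.log p with hθ
  set φ := Real.log q with hφ
  have hθ0 : 0 < θ := Real.log_pos (by exact_mod_cast hp.one_lt)
  have hφ0 : 0 < φ := Real.log_pos (by exact_mod_cast hq.one_lt)
  have hp0 : (0 : ℝ) < p := by exact_mod_cast hp.pos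
  have hq0 : (0 : ℝ) < q := by exact_mod_cast hq.pos
  have hε0 : 0 < -Real.log α := by
    have := Real.log_neg hα hα1
    linarith
  obtain ⟨N, hN⟩ := exists_nat_gt (φ / (-Real.log α))
  have hN0 : 0 < N := by
    have : (0 : ℝ) < N := lt_trans (by positivity) hN
    exact_mod_cast this
  obtain ⟨k, hk0, _, hk⟩ := Real.exists_nat_abs_mul_sub_round_le (θ / φ) hN0
  have hround : 0 ≤ round ((k : ℝ) * (θ / φ)) := by
    have h1 : (0 : ℝ) ≤ k * (θ / φ) := by positivity
    rw [round_eq]
    exact Int.floor_nonneg.mpr (by linarith)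
  obtain ⟨j, hj⟩ := Int.eq_ofNat_of_zero_le hround
  rw [hj] at hk
  have hkj : |(k : ℝ) * θ - j * φ| < -Real.log α := by
    have h1 : (k : ℝ) * θ - j * φ = ((k : ℝ) * (θ / φ) - j) * φ := by field_simp
    rw [h1, abs_mul, abs_of_pos hφ0]
    have h2 : |(k : ℝ) * (θ / φ) - j| ≤ 1 / (N + 1) := by
      have : (((j : ℕ) : ℤ) : ℝ) = (j : ℝ) := by norm_cast
      rw [← this]; exact hk
    have h3 : (1 : ℝ) / (N + 1) * φ < -Real.log α := by
      rw [div_mul_eq_mul_div, one_mul, div_lt_iff₀ (by positivity)]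
      rw [div_lt_iff₀ hε0] at hN
      nlinarith
    calc _ ≤ 1 / ((N : ℝ) + 1) * φ := by gcongr
      _ < _ := h3
  have hne : (k : ℝ) * θ ≠ j * φ := log_ne hp hq hpq hk0
  -- get a covering statement
  have hcov : ∃ X : ℝ, ∀ x : ℝ, X ≤ x → ∃ a b : ℕ, x + Real.log α < a * θ + b * φ ∧ a * θ + b * φ ≤ x := by
    rcases lt_or_gt_of_ne hne with h | h
    · obtain ⟨X, hX⟩ := kron (θ := φ) (φ := θ) hθ0 j k (by linarith)
      refine ⟨X, fun x hx => ?_⟩
      obtain ⟨b, a, h1, h2⟩ := hX x hx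
      refine ⟨a, b, ?_, by linarith⟩
      have := (abs_lt.mp hkj).1
      linarith
    · obtain ⟨X, hX⟩ := kron (θ := θ) (φ := φ) hφ0 k j (by linarith)
      refine ⟨X, fun x hx => ?_⟩
      obtain ⟨a, b, h1, h2⟩ := hX x hx
      refine ⟨a, b, ?_, by linarith⟩
      have := (abs_lt.mp hkj).2
      linarith
  obtain ⟨X, hX⟩ := hcov
  have hlim : Tendsto (fun n : ℕ => Real.log (n : ℝ)) atTop atTop :=
    Real.tendsto_log_atTop.comp tendsto_natCast_atTop_atTop
  filter_upwards [hlim.eventually_ge_atTop X, eventually_gt_atTop 0] with n hn hn0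
  have hn0' : (0 : ℝ) < n := by exact_mod_cast hn0
  obtain ⟨a, b, h1, h2⟩ := hX (Real.log n) hn
  have h3 : Real.log ((p ^ a * q ^ b : ℕ) : ℝ) = a * θ + b * φ := by
    push_cast
    rw [Real.log_mul (by positivity) (by positivity), Real.log_pow, Real.log_pow]
  have hpos : (0 : ℝ) < ((p ^ a * q ^ b : ℕ) : ℝ) := by
    have := hp.pos
    have := hq.pos
    have : 0 < p ^ a * q ^ b := by positivity
    exact_mod_cast this
  refine ⟨a, b, ?_, ?_⟩
  · have h4 : Real.log (α * n) < Real.log ((p ^ a * q ^ b : ℕ) : ℝ) := by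
      rw [Real.log_mul hα.ne' hn0'.ne', h3]; linarith
    exact (Real.log_lt_log_iff (by positivity) hpos).mp h4
  · have h4 : Real.log ((p ^ a * q ^ b : ℕ) : ℝ) ≤ Real.log n := by rw [h3]; exact h2
    have := (Real.log_le_log_iff hpos hn0').mp h4
    exact_mod_cast this

/-- exchanging large primes for new elements -/
lemma swap (Qs R B : Finset ℕ) (n : ℕ) (hQ : ∀ q ∈ Qs, 1 < q) (hRn : ∀ r ∈ R, n < 2 * r)
    (hB : ∀ b ∈ B, 1 ≤ b ∧ b ≤ n ∧ ∀ q ∈ Qs, Nat.Coprime q b) :
    F ((Qs \ R) ∪ B) n + B.card ≤ F Qs n + R.card := by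
  classical
  have h1 : free ((Qs \ R) ∪ B) n ∪ B ⊆ free Qs n ∪ R := by
    intro m hm
    rw [mem_union] at hm ⊢
    rcases hm with hm | hm
    · rw [mem_free] at hm
      by_cases h : ∃ q ∈ Qs, q ∣ m
      · obtain ⟨q, hq, hd⟩ := h
        right
        have hqR : q ∈ R := by
          by_contra hqR
          exact hm.2 q (mem_union_left _ (Finset.mem_sdiff.mpr ⟨hq, hqR⟩)) hd
        obtain ⟨k, rfl⟩ := hd
        have h2 := hRn q hqR
        have h3 : k = 1 := by
          have hk0 : 0 < k := by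
            rcases Nat.eq_zero_or_pos k with h | h
            · subst h; simp at hm
            · exact h
          have hk2 : k < 2 := by
            by_contra hk2
            push Not at hk2
            have : q * 2 ≤ q * k := Nat.mul_le_mul_left q hk2
            omega
          omega
        rw [h3, mul_one]; exact hqR
      · push Not at h
        left
        rw [mem_free]
        exact ⟨hm.1, h⟩
    · left
      obtain ⟨h2, h3, h4⟩ := hB m hm
      rw [mem_free]
      refine ⟨⟨h2, h3⟩, fun q hq hd => ?_⟩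
      have h5 := Nat.Coprime.eq_one_of_dvd (h4 q hq) hd
      have := hQ q hq
      omega
  have h2 : Disjoint (free ((Qs \ R) ∪ B) n) B := by
    rw [disjoint_left]
    intro m hm hmB
    rw [mem_free] at hm
    exact hm.2 m (mem_union_right _ hmB) dvd_rfl
  have h3 := card_le_card h1
  rw [card_union_of_disjoint h2] at h3
  have h4 := card_union_le (free Qs n) R
  unfold F
  omega

lemma coprime_pp {p q r s a b c d : ℕ} (h1 : Nat.Coprime p r) (h2 : Nat.Coprime p s)
    (h3 : Nat.Coprime q r) (h4 : Nat.Coprime q s) :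
    Nat.Coprime (p ^ a * q ^ b) (r ^ c * s ^ d) := by
  apply Nat.Coprime.mul_left
  · apply Nat.Coprime.mul_right
    · exact Nat.Coprime.pow a c h1
    · exact Nat.Coprime.pow a d h2
  · apply Nat.Coprime.mul_right
    · exact Nat.Coprime.pow b c h3
    · exact Nat.Coprime.pow b d h4

theorem strict {c : ℝ} (hc : 0 < c) :
    ∀ᶠ n : ℕ in atTop, ∃ A : Finset ℕ, ((∀ a ∈ A, 1 < a ∧ a ≤ n) ∧
      (∀ a ∈ A, ∀ b ∈ A, a ≠ b → Nat.Coprime a b) ∧ ∑ a ∈ A, (1 : ℝ) / a < c) ∧
      F A n < F (QQ c n) n := by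
  classical
  -- the cut is below n / 2
  have hhalf : ∀ᶠ n : ℕ in atTop, 2 * yy c n ≤ n := by
    obtain ⟨C, hC0, hC⟩ := mertens_ratio
    have ht : Tendsto (fun y : ℕ => Real.log (1 + 2 / Real.log y) + C / Real.log y + 1 / (y : ℝ)) atTop
        (𝓝 (Real.log (1 + 0) + 0 + 0)) := by
      have hl : Tendsto (fun n : ℕ => Real.log (n : ℝ)) atTop atTop :=
        Real.tendsto_log_atTop.comp tendsto_natCast_atTop_atTop
      apply Tendsto.add
      · apply Tendsto.add
        · apply Tendsto.log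
          · exact tendsto_const_nhds.add (tendsto_const_nhds.div_atTop hl)
          · norm_num
        · exact tendsto_const_nhds.div_atTop hl
      · exact tendsto_const_nhds.div_atTop tendsto_natCast_atTop_atTop
    simp only [add_zero, Real.log_one] at ht
    have h1 := (ht.comp (yy_tendsto hc)).eventually_lt_const hc
    filter_upwards [h1, (yy_tendsto hc).eventually_ge_atTop 2] with n h2 h3
    by_contra hcon
    push Not at hcon
    simp only [Function.comp_apply] at h2
    set y := yy c n with hy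
    have hyn := yy_le hc n
    rw [← hy] at hyn
    have h4 := Gs_yy_gt hc (n := n) (by omega)
    rw [← hy] at h4
    have h5 := (abs_le.mp (hC y n h3 hyn)).2
    have hly : 0 < Real.log y := Real.log_pos (by exact_mod_cast (by omega : 1 < y))
    have hn0 : (0 : ℝ) < n := by exact_mod_cast (by omega : 0 < n)
    have hy0 : (0 : ℝ) < y := by exact_mod_cast (by omega : 0 < y)
    have h6 : Real.log n ≤ Real.log y + 2 := by
      have h7 : Real.log n ≤ Real.log (2 * y) := by
        apply Real.log_le_log hn0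
        exact_mod_cast hcon.le
      rw [Real.log_mul (by norm_num) hy0.ne'] at h7
      have := Real.log_two_lt_d9
      linarith
    have h7 : Real.log (Real.log n / Real.log y) ≤ Real.log (1 + 2 / Real.log y) := by
      apply Real.log_le_log
      · apply div_pos _ hly
        exact Real.log_pos (by exact_mod_cast (by omega : 1 < n))
      · rw [div_le_iff₀ hly]
        have : (1 + 2 / Real.log y) * Real.log y = Real.log y + 2 := by field_simp
        linarith
    unfold Gs Pr at h4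
    linarith
  have hp1 := prime_between (α := 0.5) (β := 0.52) (by norm_num) (by norm_num)
  have hp2 := prime_between (α := 0.52) (β := 0.55) (by norm_num) (by norm_num)
  have hs1 := smooth_between (p := 2) (q := 3) Nat.prime_two Nat.prime_three (by norm_num)
    (α := 0.9) (by norm_num) (by norm_num)
  have hs2 := smooth_between (p := 5) (q := 7) (by norm_num) (by norm_num) (by norm_num)
    (α := 0.9) (by norm_num) (by norm_num)
  have hs3 := smooth_between (p := 11) (q := 13) (by norm_num) (by norm_num) (by norm_num)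
    (α := 0.9) (by norm_num) (by norm_num)
  filter_upwards [hhalf, hp1, hp2, hs1, hs2, hs3, (yy_tendsto hc).eventually_ge_atTop 13,
    eventually_ge_atTop 10] with n hh h1 h2 h3 h4 h5 hy hn
  obtain ⟨q1, hq1p, hq1a, hq1b⟩ := h1
  obtain ⟨q2, hq2p, hq2a, hq2b⟩ := h2
  obtain ⟨a1, a1', h3a, h3b⟩ := h3
  obtain ⟨a2, a2', h4a, h4b⟩ := h4
  obtain ⟨a3, a3', h5a, h5b⟩ := h5
  set b1 := 2 ^ a1 * 3 ^ a1' with hb1
  set b2 := 5 ^ a2 * 7 ^ a2' with hb2
  set b3 := 11 ^ a3 * 13 ^ a3' with hb3
  have hn0 : (0 : ℝ) < n := by exact_mod_cast (by omega : 0 < n)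
  have hn10 : (10 : ℝ) ≤ n := by exact_mod_cast hn
  have hlt1 : 1 < b1 := by
    have : (1 : ℝ) < b1 := by linarith
    exact_mod_cast this
  have hlt2 : 1 < b2 := by
    have : (1 : ℝ) < b2 := by linarith
    exact_mod_cast this
  have hlt3 : 1 < b3 := by
    have : (1 : ℝ) < b3 := by linarith
    exact_mod_cast this
  have hc12 : Nat.Coprime b1 b2 :=
    coprime_pp (by norm_num) (by norm_num) (by norm_num) (by norm_num)
  have hc13 : Nat.Coprime b1 b3 :=
    coprime_pp (by norm_num) (by norm_num) (by norm_num) (by norm_num)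
  have hc23 : Nat.Coprime b2 b3 :=
    coprime_pp (by norm_num) (by norm_num) (by norm_num) (by norm_num)
  have hne12 : b1 ≠ b2 := by
    intro h
    rw [h, Nat.coprime_self] at hc12
    omega
  have hne13 : b1 ≠ b3 := by
    intro h
    rw [h, Nat.coprime_self] at hc13
    omega
  have hne23 : b2 ≠ b3 := by
    intro h
    rw [h, Nat.coprime_self] at hc23
    omega
  have hq12 : q1 < q2 := by
    have : (q1 : ℝ) < q2 := by linarith
    exact_mod_cast this
  set Qs := QQ c n with hQs
  have hQeq := QQ_eq hc n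
  have hcopQ : ∀ q ∈ Qs, ∀ r s a b : ℕ, r.Prime → s.Prime → r ≤ 13 → s ≤ 13 →
      Nat.Coprime q (r ^ a * s ^ b) := by
    intro q hq r s a b hr hs hr13 hs13
    rw [hQs, hQeq, mem_Pr] at hq
    apply Nat.Coprime.mul_right
    · apply Nat.Coprime.pow_right
      rw [Nat.coprime_primes hq.2 hr]; omega
    · apply Nat.Coprime.pow_right
      rw [Nat.coprime_primes hq.2 hs]; omega
  have hcop1 : ∀ q ∈ Qs, Nat.Coprime q b1 := fun q hq =>
    hcopQ q hq 2 3 a1 a1' (by norm_num) (by norm_num) (by norm_num) (by norm_num)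
  have hcop2 : ∀ q ∈ Qs, Nat.Coprime q b2 := fun q hq =>
    hcopQ q hq 5 7 a2 a2' (by norm_num) (by norm_num) (by norm_num) (by norm_num)
  have hcop3 : ∀ q ∈ Qs, Nat.Coprime q b3 := fun q hq =>
    hcopQ q hq 11 13 a3 a3' (by norm_num) (by norm_num) (by norm_num) (by norm_num)
  have hQm := QQ_mem hc n
  rw [← hQs] at hQm
  set R : Finset ℕ := {q1, q2} with hR
  set B : Finset ℕ := {b1, b2, b3} with hB
  have hRcard : R.card = 2 := card_pair hq12.ne
  have hBcard : B.card = 3 := by
    rw [hB, card_insert_of_notMem, card_pair hne23]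
    simp only [mem_insert, mem_singleton, not_or]
    exact ⟨hne12, hne13⟩
  have hBmem : ∀ b ∈ B, 1 < b ∧ b ≤ n ∧ 0.9 * (n : ℝ) < b ∧ ∀ q ∈ Qs, Nat.Coprime q b := by
    intro b hb
    rw [hB, mem_insert, mem_insert, mem_singleton] at hb
    rcases hb with rfl | rfl | rfl
    · exact ⟨hlt1, h3b, h3a, hcop1⟩
    · exact ⟨hlt2, h4b, h4a, hcop2⟩
    · exact ⟨hlt3, h5b, h5a, hcop3⟩
  have hBcop : ∀ a ∈ B, ∀ b ∈ B, a ≠ b → Nat.Coprime a b := by
    intro a ha b hb hab
    rw [hB, mem_insert, mem_insert, mem_singleton] at ha hb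
    rcases ha with rfl | rfl | rfl <;> rcases hb with rfl | rfl | rfl
    · exact absurd rfl hab
    · exact hc12
    · exact hc13
    · exact hc12.symm
    · exact absurd rfl hab
    · exact hc23
    · exact hc13.symm
    · exact hc23.symm
    · exact absurd rfl hab
  have hRsub : R ⊆ Qs := by
    intro q hq
    rw [hR, mem_insert, mem_singleton] at hq
    rw [hQs, hQeq, mem_Pr]
    have hyn : 2 * (yy c n : ℝ) ≤ n := by exact_mod_cast hh
    rcases hq with rfl | rfl
    · refine ⟨⟨?_, ?_⟩, hq1p⟩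
      · have : (yy c n : ℝ) < q := by linarith
        exact_mod_cast this
      · have : (q : ℝ) ≤ n := by linarith
        exact_mod_cast this
    · refine ⟨⟨?_, ?_⟩, hq2p⟩
      · have : (yy c n : ℝ) < q := by linarith
        exact_mod_cast this
      · have : (q : ℝ) ≤ n := by linarith
        exact_mod_cast this
  have hRn : ∀ r ∈ R, n < 2 * r := by
    intro q hq
    rw [hR, mem_insert, mem_singleton] at hq
    rcases hq with rfl | rfl
    · have : (n : ℝ) < 2 * q := by linarith
      exact_mod_cast this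
    · have : (n : ℝ) < 2 * q := by linarith
      exact_mod_cast this
  refine ⟨(Qs \ R) ∪ B, ⟨?_, ?_, ?_⟩, ?_⟩
  · intro a ha
    rw [mem_union, Finset.mem_sdiff] at ha
    rcases ha with ha | ha
    · exact hQm.1 a ha.1
    · exact ⟨(hBmem a ha).1, (hBmem a ha).2.1⟩
  · intro a ha b hb hab
    rw [mem_union, Finset.mem_sdiff] at ha hb
    rcases ha with ha | ha <;> rcases hb with hb | hb
    · exact hQm.2.1 a ha.1 b hb.1 hab
    · exact (hBmem b hb).2.2.2 a ha.1
    · exact ((hBmem a ha).2.2.2 b hb.1).symm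
    · exact hBcop a ha b hb hab
  · have h6 : ∑ a ∈ (Qs \ R) ∪ B, (1 : ℝ) / a ≤ ∑ a ∈ Qs \ R, (1 : ℝ) / a + ∑ a ∈ B, (1 : ℝ) / a := by
      rw [← sum_union_inter]
      have : 0 ≤ ∑ a ∈ (Qs \ R) ∩ B, (1 : ℝ) / a := sum_nonneg (fun a _ => by positivity)
      linarith
    have h7 : ∑ a ∈ Qs \ R, (1 : ℝ) / a + ∑ a ∈ R, (1 : ℝ) / a = ∑ a ∈ Qs, (1 : ℝ) / a :=
      sum_sdiff hRsub
    have h8 : ∑ a ∈ B, (1 : ℝ) / a ≤ 3 * (1 / (0.9 * n)) := by
      calc ∑ a ∈ B, (1 : ℝ) / a ≤ ∑ _a ∈ B, (1 : ℝ) / (0.9 * n) := by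
            apply sum_le_sum
            intro b hb
            apply one_div_le_one_div_of_le (by positivity)
            exact (hBmem b hb).2.2.1.le
        _ = _ := by rw [sum_const, hBcard, nsmul_eq_mul]; norm_num
    have h9 : 2 * (1 / (0.55 * n)) ≤ ∑ a ∈ R, (1 : ℝ) / a := by
      calc 2 * (1 / (0.55 * n)) = ∑ _a ∈ R, (1 : ℝ) / (0.55 * n) := by
            rw [sum_const, hRcard, nsmul_eq_mul]; norm_num
        _ ≤ _ := by
            apply sum_le_sum
            intro q hq
            rw [hR, mem_insert, mem_singleton] at hq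
            rcases hq with rfl | rfl
            · apply one_div_le_one_div_of_le
              · exact_mod_cast hq1p.pos
              · linarith
            · apply one_div_le_one_div_of_le
              · exact_mod_cast hq2p.pos
              · linarith
    have h10 : 3 * (1 / (0.9 * (n : ℝ))) < 2 * (1 / (0.55 * n)) := by
      have e1 : 3 * (1 / (0.9 * (n : ℝ))) = (10 / 3) * (1 / n) := by field_simp; norm_num
      have e2 : 2 * (1 / (0.55 * (n : ℝ))) = (40 / 11) * (1 / n) := by field_simp; norm_num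
      rw [e1, e2]
      have : 0 < 1 / (n : ℝ) := by positivity
      nlinarith
    have h11 := hQm.2.2
    linarith
  · have h6 := swap Qs R B n (fun q hq => (hQm.1 q hq).1) hRn
      (fun b hb => ⟨(hBmem b hb).1.le, (hBmem b hb).2.1, (hBmem b hb).2.2.2⟩)
    rw [hRcard, hBcard] at h6
    omega

end Pool.Agent.Helper923.HStrict
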