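import Mathlib
import Pool.Agent.Helper923.HLow
import Pool.Agent.Helper923.HStrict

set_option autoImplicit false

namespace Pool.Agent.Helper923.HConv

open Finset Filter Topology Pool.Agent.Helper923.HRho Pool.Agent.Helper923.HKey
  Pool.Agent.Helper923.HMertens Pool.Agent.Helper923.HCount Pool.Agent.Helper923.HB
  Pool.Agent.Helper923.HLower Pool.Agent.Helper923.HReduce Pool.Agent.Helper923.HUpperQ
  Pool.Agent.Helper923.HFinal

lemma Gs_add {a b n : ℕ} (hab : a ≤ b) (hbn : b ≤ n) : Gs a b + Gs b n = Gs a n := by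
  unfold Gs
  rw [← sum_union]
  · apply sum_congr _ (fun _ _ => rfl)
    ext p
    rw [mem_union, mem_Pr, mem_Pr, mem_Pr]
    constructor
    · rintro (⟨h1, h2⟩ | ⟨h1, h2⟩)
      · exact ⟨⟨h1.1, by omega⟩, h2⟩
      · exact ⟨⟨by omega, h1.2⟩, h2⟩
    · rintro ⟨h1, h2⟩
      by_cases h : p ≤ b
      · exact Or.inl ⟨⟨h1.1, h⟩, h2⟩
      · exact Or.inr ⟨⟨by omega, h1.2⟩, h2⟩
  · rw [disjoint_left]
    intro p h1 h2
    rw [mem_Pr] at h1 h2
    omega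

lemma log_floor (θ : ℝ) (hθ : 0 < θ) :
    Tendsto (fun n : ℕ => Real.log (⌊(n : ℝ) ^ θ⌋₊ : ℝ) / Real.log n) atTop (𝓝 θ) := by
  have hpow : Tendsto (fun n : ℕ => (n : ℝ) ^ θ) atTop atTop :=
    (tendsto_rpow_atTop hθ).comp tendsto_natCast_atTop_atTop
  have hlim : Tendsto (fun n : ℕ => Real.log (n : ℝ)) atTop atTop :=
    Real.tendsto_log_atTop.comp tendsto_natCast_atTop_atTop
  have h1 : Tendsto (fun n : ℕ => (⌊(n : ℝ) ^ θ⌋₊ : ℝ) / (n : ℝ) ^ θ) atTop (𝓝 1) :=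
    (tendsto_nat_floor_div_atTop (R := ℝ)).comp hpow
  have h2 : Tendsto (fun n : ℕ => Real.log ((⌊(n : ℝ) ^ θ⌋₊ : ℝ) / (n : ℝ) ^ θ)) atTop (𝓝 0) := by
    have := h1.log one_ne_zero
    rwa [Real.log_one] at this
  have h3 : Tendsto (fun n : ℕ => θ + Real.log ((⌊(n : ℝ) ^ θ⌋₊ : ℝ) / (n : ℝ) ^ θ) / Real.log n)
      atTop (𝓝 (θ + 0)) := tendsto_const_nhds.add (h2.div_atTop hlim)
  rw [add_zero] at h3
  refine h3.congr' ?_
  filter_upwards [hpow.eventually_ge_atTop 1, eventually_gt_atTop 1] with n hn hn1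
  have hn0 : (0 : ℝ) < n := by exact_mod_cast (by omega : 0 < n)
  have hL : Real.log n ≠ 0 := (Real.log_pos (by exact_mod_cast hn1)).ne'
  have hfl : 1 ≤ ⌊(n : ℝ) ^ θ⌋₊ := Nat.le_floor (by exact_mod_cast hn)
  have hfl0 : (⌊(n : ℝ) ^ θ⌋₊ : ℝ) ≠ 0 := by exact_mod_cast (by omega : ⌊(n : ℝ) ^ θ⌋₊ ≠ 0)
  rw [Real.log_div hfl0 (by positivity), Real.log_rpow hn0]
  field_simp
  ring

lemma floor_tendsto {θ : ℝ} (hθ : 0 < θ) :
    Tendsto (fun n : ℕ => ⌊(n : ℝ) ^ θ⌋₊) atTop atTop :=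
  tendsto_nat_floor_atTop.comp ((tendsto_rpow_atTop hθ).comp tendsto_natCast_atTop_atTop)

lemma Gs_limit {θ : ℝ} (hθ : 0 < θ) (hθ1 : θ < 1) :
    Tendsto (fun n : ℕ => Gs ⌊(n : ℝ) ^ θ⌋₊ n) atTop (𝓝 (-Real.log θ)) := by
  obtain ⟨C, hC0, hC⟩ := mertens_ratio
  have h1 := log_floor θ hθ
  have h2 : Tendsto (fun n : ℕ => -Real.log (Real.log (⌊(n : ℝ) ^ θ⌋₊ : ℝ) / Real.log n)) atTop
      (𝓝 (-Real.log θ)) := (h1.log hθ.ne').neg
  have hfl := floor_tendsto hθ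
  have h3 : Tendsto (fun n : ℕ => C / Real.log (⌊(n : ℝ) ^ θ⌋₊ : ℝ)) atTop (𝓝 0) := by
    apply tendsto_const_nhds.div_atTop
    exact Real.tendsto_log_atTop.comp (tendsto_natCast_atTop_atTop.comp hfl)
  have h4 : Tendsto (fun n : ℕ => Gs ⌊(n : ℝ) ^ θ⌋₊ n -
      -Real.log (Real.log (⌊(n : ℝ) ^ θ⌋₊ : ℝ) / Real.log n)) atTop (𝓝 0) := by
    apply squeeze_zero_norm' _ h3
    filter_upwards [hfl.eventually_ge_atTop 2, eventually_ge_atTop 2] with n hn hn2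
    have hle : ⌊(n : ℝ) ^ θ⌋₊ ≤ n := by
      apply Nat.floor_le_of_le
      have hn1 : (1 : ℝ) ≤ n := by exact_mod_cast (by omega : 1 ≤ n)
      calc (n : ℝ) ^ θ ≤ (n : ℝ) ^ (1 : ℝ) := Real.rpow_le_rpow_of_exponent_le hn1 hθ1.le
        _ = n := Real.rpow_one _
    have h5 := hC _ n hn hle
    rw [Real.norm_eq_abs]
    have h6 : -Real.log (Real.log (⌊(n : ℝ) ^ θ⌋₊ : ℝ) / Real.log n)
        = Real.log (Real.log n / Real.log (⌊(n : ℝ) ^ θ⌋₊ : ℝ)) := by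
      rw [← Real.log_inv, inv_div]
    rw [h6]
    exact h5
  have h5 := h4.add h2
  rw [zero_add] at h5
  refine h5.congr (fun n => ?_)
  ring

lemma composites_window : ∃ Z : ℝ, 0 ≤ Z ∧ ∀ x : ℕ, 1 ≤ x → ∀ A : Finset ℕ,
    (∀ a ∈ A, ∀ b ∈ A, a ≠ b → Nat.Coprime a b) →
    ∑ a ∈ A.filter (fun a => x < a ∧ ¬ a.Prime), (1 : ℝ) / a ≤ Z / (x : ℝ) ^ (1 / 4 : ℝ) := by
  obtain ⟨Z, hZ0, hZ⟩ := composites_small
  refine ⟨Z, hZ0, fun x hx A hA => ?_⟩
  exact hZ x hx _ (fun a ha => (mem_filter.mp ha).2)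
    (fun a ha b hb hab => hA a (mem_filter.mp ha).1 b (mem_filter.mp hb).1 hab)

lemma F_anti {A B : Finset ℕ} (h : A ⊆ B) (n : ℕ) : F B n ≤ F A n := by
  unfold F free
  apply card_le_card
  intro m hm
  rw [mem_filter] at hm ⊢
  exact ⟨hm.1, fun a ha => hm.2 a (h ha)⟩

/-- sets whose pairwise products exceed `n` -/
lemma F_large (B : Finset ℕ) (n : ℕ) : (∀ b ∈ B, 1 ≤ b) →
    (∀ a ∈ B, ∀ b ∈ B, a ≠ b → Nat.Coprime a b) →
    (∀ a ∈ B, ∀ b ∈ B, a ≠ b → n < a * b) →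
    (F B n : ℝ) = n - ∑ b ∈ B, ((n / b : ℕ) : ℝ) := by
  classical
  induction B using Finset.induction_on with
  | empty => intro _ _ _; simp [F_empty]
  | insert b B hb ih =>
    intro h1 h2 h3
    have ih' := ih (fun a ha => h1 a (mem_insert_of_mem ha))
      (fun a ha b hb => h2 a (mem_insert_of_mem ha) b (mem_insert_of_mem hb))
      (fun a ha b hb => h3 a (mem_insert_of_mem ha) b (mem_insert_of_mem hb))
    have hb1 : 1 ≤ b := h1 b (mem_insert_self b B)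
    have hne : ∀ a ∈ B, a ≠ b := fun a ha h => hb (h ▸ ha)
    have h4 := F_insert B b hb1 (fun a ha => h2 a (mem_insert_of_mem ha) b (mem_insert_self b B)
      (hne a ha)) n
    have h5 : F B (n / b) = n / b := by
      have := F_union_small (S := ∅) (P := B) (k := n / b) (fun a ha => by
        have h6 := h3 a (mem_insert_of_mem ha) b (mem_insert_self b B) (hne a ha)
        rw [Nat.div_lt_iff_lt_mul (by omega)]
        exact h6)
      rw [empty_union, F_empty] at this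
      exact this
    rw [h5] at h4
    rw [sum_insert hb]
    have h6 : (F (insert b B) n : ℝ) + ((n / b : ℕ) : ℝ) = F B n := by exact_mod_cast h4
    linarith

lemma card_le (A : Finset ℕ) (n : ℕ) (h1 : ∀ a ∈ A, 1 < a ∧ a ≤ n)
    (h2 : ∀ a ∈ A, ∀ b ∈ A, a ≠ b → Nat.Coprime a b) : A.card ≤ (PP n).card := by
  apply card_le_card_of_injOn Nat.minFac
  · intro a ha
    obtain ⟨h3, h4⟩ := h1 a ha
    have h5 := Nat.minFac_prime (show a ≠ 1 by omega)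
    rw [mem_coe, mem_filter, mem_Icc]
    exact ⟨⟨h5.pos, (Nat.minFac_le (by omega)).trans h4⟩, h5⟩
  · intro a ha b hb hab
    by_contra hne
    have h3 := h2 a ha b hb hne
    have h4 := Nat.minFac_prime (show a ≠ 1 by have := (h1 a ha).1; omega)
    have h5 : a.minFac ∣ 1 := by
      rw [← Nat.Coprime.gcd_eq_one h3]
      apply Nat.dvd_gcd (Nat.minFac_dvd a)
      rw [hab]
      exact Nat.minFac_dvd b
    exact h4.one_lt.ne' (Nat.dvd_one.mp h5)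

lemma card_PP : Tendsto (fun n : ℕ => ((PP n).card : ℝ) / n) atTop (𝓝 0) := by
  have h1 := Pool.Agent.Helper923.PNT.pi_tendsto.comp (tendsto_natCast_atTop_atTop (R := ℝ))
  have hlim : Tendsto (fun n : ℕ => Real.log (n : ℝ)) atTop atTop :=
    Real.tendsto_log_atTop.comp tendsto_natCast_atTop_atTop
  have h2 := h1.div_atTop hlim
  refine h2.congr' ?_
  filter_upwards [eventually_gt_atTop 1] with n hn
  have hL : Real.log n ≠ 0 := (Real.log_pos (by exact_mod_cast hn)).ne'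
  have h3 : (PP n).card = Nat.primeCounting n := by
    rw [Nat.primeCounting, Nat.primeCounting', Nat.count_eq_card_filter_range]
    congr 1
    ext p
    simp only [mem_filter, mem_Icc, mem_range]
    constructor
    · rintro ⟨⟨h4, h5⟩, h6⟩; exact ⟨by omega, h6⟩
    · rintro ⟨h4, h5⟩; exact ⟨⟨h5.pos, by omega⟩, h5⟩
  simp only [Function.comp_apply, Nat.floor_natCast, h3]
  field_simp

/-- elements below `n ^ θ`, as a filter -/
lemma low_eq (A : Finset ℕ) (n : ℕ) (θ : ℝ) :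
    A.filter (fun a : ℕ => (a : ℝ) ≤ (n : ℝ) ^ θ) = A.filter (fun a => a ≤ ⌊(n : ℝ) ^ θ⌋₊) := by
  apply filter_congr
  intro a _
  rw [Nat.le_floor_iff (by positivity)]

theorem conv_small {c : ℝ} {ε : ℝ} (hε : 0 < ε) :
    ∃ η : ℝ, 0 < η ∧ ∃ θ : ℝ, 0 < θ ∧ θ < 1 / 2 ∧ ∃ N₀ : ℕ, ∀ n : ℕ, N₀ ≤ n → ∀ A : Finset ℕ,
      (∀ a ∈ A, 1 < a ∧ a ≤ n) → (∀ a ∈ A, ∀ b ∈ A, a ≠ b → Nat.Coprime a b) →
      c - η ≤ ∑ a ∈ A, (1 : ℝ) / a →
      ∑ a ∈ A.filter (fun a : ℕ => (a : ℝ) ≤ (n : ℝ) ^ θ), (1 : ℝ) / a ≤ η →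
      (F A n : ℝ) ≤ n * (1 - c + ε) := by
  classical
  set η := ε / 6 with hη
  have hη0 : 0 < η := by positivity
  set θ := Real.exp (-η) / 2 with hθ
  have hθ0 : 0 < θ := by positivity
  have hθ1 : θ < 1 / 2 := by
    have : Real.exp (-η) < 1 := Real.exp_lt_one_iff.mpr (by linarith)
    rw [hθ]; linarith
  obtain ⟨Z, hZ0, hZ⟩ := composites_window
  have hlogθ : -Real.log θ = η + Real.log 2 := by
    rw [hθ, Real.log_div (Real.exp_pos _).ne' (by norm_num), Real.log_exp]; ring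
  have hlog12 : -Real.log (1 / 2 : ℝ) = Real.log 2 := by
    rw [one_div, Real.log_inv, neg_neg]
  have e1 := (Gs_limit hθ0 (by linarith)).eventually_le_const
    (show -Real.log θ < η + Real.log 2 + η / 2 by rw [hlogθ]; linarith)
  have e2 := (Gs_limit (θ := 1 / 2) (by norm_num) (by norm_num)).eventually_const_le
    (show Real.log 2 - η / 2 < -Real.log (1 / 2 : ℝ) by rw [hlog12]; linarith)
  have hfl := floor_tendsto hθ0
  have e3 : ∀ᶠ n : ℕ in atTop, Z / ((⌊(n : ℝ) ^ θ⌋₊ : ℕ) : ℝ) ^ (1 / 4 : ℝ) ≤ η := by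
    have : Tendsto (fun n : ℕ => Z / ((⌊(n : ℝ) ^ θ⌋₊ : ℕ) : ℝ) ^ (1 / 4 : ℝ)) atTop (𝓝 0) := by
      apply tendsto_const_nhds.div_atTop
      exact (tendsto_rpow_atTop (by norm_num)).comp (tendsto_natCast_atTop_atTop.comp hfl)
    exact this.eventually_le_const hη0
  have e4 := card_PP.eventually_le_const hη0
  obtain ⟨N₀, hN₀⟩ := eventually_atTop.mp (e1.and (e2.and (e3.and (e4.and
    ((hfl.eventually_ge_atTop 1).and (eventually_ge_atTop 1))))))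
  refine ⟨η, hη0, θ, hθ0, hθ1, N₀, fun n hn A hA hAc hmass hlow => ?_⟩
  obtain ⟨h1, h2, h3, h4, h5, h6⟩ := hN₀ n hn
  have hn0 : (0 : ℝ) < n := by exact_mod_cast h6
  have hn1 : (1 : ℝ) ≤ n := by exact_mod_cast h6
  set x := ⌊(n : ℝ) ^ θ⌋₊ with hx
  set y := ⌊(n : ℝ) ^ (1 / 2 : ℝ)⌋₊ with hy
  have hxy : x ≤ y := by
    apply Nat.floor_le_floor
    exact Real.rpow_le_rpow_of_exponent_le hn1 hθ1.le
  have hyn : y ≤ n := by
    apply Nat.floor_le_of_le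
    calc (n : ℝ) ^ (1 / 2 : ℝ) ≤ (n : ℝ) ^ (1 : ℝ) :=
          Real.rpow_le_rpow_of_exponent_le hn1 (by norm_num)
      _ = n := Real.rpow_one _
  set B := A.filter (fun a => y < a) with hB
  have hBA : B ⊆ A := filter_subset _ _
  have hwin : ∑ a ∈ A.filter (fun a => x < a ∧ a ≤ y), (1 : ℝ) / a ≤ 3 * η := by
    have h7 : A.filter (fun a => x < a ∧ a ≤ y) ⊆ Pr x y ∪ A.filter (fun a => x < a ∧ ¬ a.Prime) := by
      intro a ha
      rw [mem_filter] at ha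
      rw [mem_union, mem_Pr, mem_filter]
      by_cases h : a.Prime
      · exact Or.inl ⟨ha.2, h⟩
      · exact Or.inr ⟨ha.1, ha.2.1, h⟩
    have h8 := Gs_add hxy hyn
    have h9 := hZ x h5 A hAc
    calc ∑ a ∈ A.filter (fun a => x < a ∧ a ≤ y), (1 : ℝ) / a
        ≤ ∑ a ∈ Pr x y ∪ A.filter (fun a => x < a ∧ ¬ a.Prime), (1 : ℝ) / a :=
          sum_le_sum_of_subset_of_nonneg h7 (fun a _ _ => by positivity)
      _ ≤ ∑ a ∈ Pr x y, (1 : ℝ) / a + ∑ a ∈ A.filter (fun a => x < a ∧ ¬ a.Prime), (1 : ℝ) / a := by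
          rw [← sum_union_inter]
          have : 0 ≤ ∑ a ∈ Pr x y ∩ A.filter (fun a => x < a ∧ ¬ a.Prime), (1 : ℝ) / a :=
            sum_nonneg (fun a _ => by positivity)
          linarith
      _ ≤ 3 * η := by
          have h10 : ∑ a ∈ Pr x y, (1 : ℝ) / a = Gs x y := rfl
          rw [h10]; linarith
  have hBmass : c - 5 * η ≤ ∑ b ∈ B, (1 : ℝ) / b := by
    have h7 : A ⊆ B ∪ (A.filter (fun a => a ≤ x) ∪ A.filter (fun a => x < a ∧ a ≤ y)) := by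
      intro a ha
      simp only [hB, mem_union, mem_filter]
      by_cases h : y < a
      · exact Or.inl ⟨ha, h⟩
      · by_cases h' : a ≤ x
        · exact Or.inr (Or.inl ⟨ha, h'⟩)
        · exact Or.inr (Or.inr ⟨ha, by omega, by omega⟩)
    have hsu : ∀ U V : Finset ℕ, ∑ a ∈ U ∪ V, (1 : ℝ) / a ≤ ∑ a ∈ U, (1 : ℝ) / a + ∑ a ∈ V, (1 : ℝ) / a := by
      intro U V
      rw [← sum_union_inter]
      have : 0 ≤ ∑ a ∈ U ∩ V, (1 : ℝ) / a := sum_nonneg (fun a _ => by positivity)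
      linarith
    have h8 : ∑ a ∈ A, (1 : ℝ) / a ≤
        ∑ a ∈ B ∪ (A.filter (fun a => a ≤ x) ∪ A.filter (fun a => x < a ∧ a ≤ y)), (1 : ℝ) / a :=
      sum_le_sum_of_subset_of_nonneg h7 (fun a _ _ => by positivity)
    have h9 := hsu B (A.filter (fun a => a ≤ x) ∪ A.filter (fun a => x < a ∧ a ≤ y))
    have h10 := hsu (A.filter (fun a => a ≤ x)) (A.filter (fun a => x < a ∧ a ≤ y))
    rw [low_eq] at hlow
    linarith
  have h7 := F_large B n (fun b hb => (hA b (hBA hb)).1.le)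
    (fun a ha b hb => hAc a (hBA ha) b (hBA hb)) (by
      intro a ha b hb _
      have ha' := (mem_filter.mp ha).2
      have hb' := (mem_filter.mp hb).2
      have h8 : (n : ℝ) ^ (1 / 2 : ℝ) < a := (Nat.floor_lt (by positivity)).mp ha'
      have h9 : (n : ℝ) ^ (1 / 2 : ℝ) < b := (Nat.floor_lt (by positivity)).mp hb'
      have h10 : (n : ℝ) = (n : ℝ) ^ (1 / 2 : ℝ) * (n : ℝ) ^ (1 / 2 : ℝ) := by
        rw [← Real.rpow_add hn0]; norm_num
      have h11 : (n : ℝ) < a * b := by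
        calc (n : ℝ) = (n : ℝ) ^ (1 / 2 : ℝ) * (n : ℝ) ^ (1 / 2 : ℝ) := h10
          _ < a * b := by gcongr
      exact_mod_cast h11)
  have h8 : (n : ℝ) * ∑ b ∈ B, (1 : ℝ) / b - B.card ≤ ∑ b ∈ B, ((n / b : ℕ) : ℝ) := by
    have e : (n : ℝ) * ∑ b ∈ B, (1 : ℝ) / b - B.card = ∑ b ∈ B, ((n : ℝ) / b - 1) := by
      rw [sum_sub_distrib, sum_const, nsmul_eq_mul, mul_one, mul_sum]
      congr 1
      apply sum_congr rfl
      intro b _
      ring
    rw [e]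
    apply sum_le_sum
    intro b _
    have : (n : ℝ) / b < ((n / b : ℕ) : ℝ) + 1 := by
      rw [← Nat.floor_div_eq_div (K := ℝ)]
      exact Nat.lt_floor_add_one _
    linarith
  have h9 : (B.card : ℝ) ≤ η * n := by
    have h10 : B.card ≤ (PP n).card :=
      (card_le_card hBA).trans (card_le A n hA hAc)
    have h11 : (B.card : ℝ) ≤ (PP n).card := by exact_mod_cast h10
    rw [div_le_iff₀ hn0] at h4
    linarith
  have h10 : (F A n : ℝ) ≤ F B n := by exact_mod_cast F_anti hBA n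
  have h11 : (n : ℝ) * (c - 5 * η) ≤ n * ∑ b ∈ B, (1 : ℝ) / b :=
    mul_le_mul_of_nonneg_left hBmass hn0.le
  have h12 : (n : ℝ) * (1 - c + ε) = n - n * (c - 5 * η) + η * n := by rw [hη]; ring
  rw [h12]
  linarith

theorem conv_large {c : ℝ} (hc0 : 0 < c) {ε : ℝ} (hε : 0 < ε) :
    ∃ η : ℝ, 0 < η ∧ ∃ θ : ℝ, 0 < θ ∧ θ < Real.exp (-c) ∧ ∃ N₀ : ℕ, ∀ n : ℕ, N₀ ≤ n → ∀ A : Finset ℕ,
      (∀ a ∈ A, 1 < a ∧ a ≤ n) → (∀ a ∈ A, ∀ b ∈ A, a ≠ b → Nat.Coprime a b) →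
      c - η ≤ ∑ a ∈ A, (1 : ℝ) / a → ∑ a ∈ A, (1 : ℝ) / a ≤ c →
      ∑ a ∈ A.filter (fun a : ℕ => (a : ℝ) ≤ (n : ℝ) ^ θ), (1 : ℝ) / a ≤ η →
      ∑ a ∈ QQ c n \ A, (1 : ℝ) / a ≤ ε ∧ ∑ a ∈ A \ QQ c n, (1 : ℝ) / a ≤ ε := by
  classical
  set η := ε / 6 with hη
  have hη0 : 0 < η := by positivity
  set θ := Real.exp (-(c + η)) with hθ
  have hθ0 : 0 < θ := by positivity
  have hθ1 : θ < 1 := Real.exp_lt_one_iff.mpr (by linarith)
  have hθc : θ < Real.exp (-c) := Real.exp_lt_exp.mpr (by linarith)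
  have hlogθ : -Real.log θ = c + η := by rw [hθ, Real.log_exp]; ring
  obtain ⟨Z, hZ0, hZ⟩ := composites_window
  have e1 := (Gs_limit hθ0 hθ1).eventually_le_const
    (show -Real.log θ < c + 2 * η by rw [hlogθ]; linarith)
  have e2 := (Gs_limit hθ0 hθ1).eventually_const_lt
    (show c < -Real.log θ by rw [hlogθ]; linarith)
  have hfl := floor_tendsto hθ0
  have e3 : ∀ᶠ n : ℕ in atTop, Z / ((⌊(n : ℝ) ^ θ⌋₊ : ℕ) : ℝ) ^ (1 / 4 : ℝ) ≤ η := by
    have : Tendsto (fun n : ℕ => Z / ((⌊(n : ℝ) ^ θ⌋₊ : ℕ) : ℝ) ^ (1 / 4 : ℝ)) atTop (𝓝 0) := by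
      apply tendsto_const_nhds.div_atTop
      exact (tendsto_rpow_atTop (by norm_num)).comp (tendsto_natCast_atTop_atTop.comp hfl)
    exact this.eventually_le_const hη0
  have e4 : ∀ᶠ n : ℕ in atTop, 1 / (yy c n : ℝ) ≤ η := by
    have : Tendsto (fun n : ℕ => 1 / (yy c n : ℝ)) atTop (𝓝 0) :=
      tendsto_const_nhds.div_atTop (tendsto_natCast_atTop_atTop.comp (yy_tendsto hc0))
    exact this.eventually_le_const hη0
  obtain ⟨N₀, hN₀⟩ := eventually_atTop.mp (e1.and (e2.and (e3.and (e4.and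
    ((hfl.eventually_ge_atTop 1).and (((yy_tendsto hc0).eventually_ge_atTop 1).and
      (eventually_ge_atTop 1)))))))
  refine ⟨η, hη0, θ, hθ0, hθc, N₀, fun n hn A hA hAc hmass hmass2 hlow => ?_⟩
  obtain ⟨h1, h2, h3, h4, h5, hyy1, h6⟩ := hN₀ n hn
  set x := ⌊(n : ℝ) ^ θ⌋₊ with hx
  have hQeq := QQ_eq hc0 n
  have hyspec := yy_spec hc0 n
  have hxy : x ≤ yy c n := by
    by_contra hcon
    push Not at hcon
    have := Gs_anti (n := n) hcon.le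
    linarith
  have hQsub : QQ c n ⊆ Pr x n := by
    rw [hQeq]
    intro p hp
    rw [mem_Pr] at hp ⊢
    exact ⟨⟨by omega, hp.1.2⟩, hp.2⟩
  set A' := A.filter (fun a => x < a ∧ a.Prime) with hA'
  have hA'A : A' ⊆ A := filter_subset _ _
  have hA'Pr : A' ⊆ Pr x n := by
    intro a ha
    rw [hA', mem_filter] at ha
    rw [mem_Pr]
    exact ⟨⟨ha.2.1, (hA a ha.1).2⟩, ha.2.2⟩
  have hsu : ∀ U V : Finset ℕ, ∑ a ∈ U ∪ V, (1 : ℝ) / a ≤ ∑ a ∈ U, (1 : ℝ) / a + ∑ a ∈ V, (1 : ℝ) / a := by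
    intro U V
    rw [← sum_union_inter]
    have : 0 ≤ ∑ a ∈ U ∩ V, (1 : ℝ) / a := sum_nonneg (fun a _ => by positivity)
    linarith
  have hA'mass : c - 3 * η ≤ ∑ a ∈ A', (1 : ℝ) / a := by
    have h7 : A ⊆ A' ∪ (A.filter (fun a => a ≤ x) ∪ A.filter (fun a => x < a ∧ ¬ a.Prime)) := by
      intro a ha
      simp only [hA', mem_union, mem_filter]
      by_cases h : a ≤ x
      · exact Or.inr (Or.inl ⟨ha, h⟩)
      · by_cases h' : a.Prime
        · exact Or.inl ⟨ha, by omega, h'⟩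
        · exact Or.inr (Or.inr ⟨ha, by omega, h'⟩)
    have h8 : ∑ a ∈ A, (1 : ℝ) / a ≤
        ∑ a ∈ A' ∪ (A.filter (fun a => a ≤ x) ∪ A.filter (fun a => x < a ∧ ¬ a.Prime)), (1 : ℝ) / a :=
      sum_le_sum_of_subset_of_nonneg h7 (fun a _ _ => by positivity)
    have h9 := hsu A' (A.filter (fun a => a ≤ x) ∪ A.filter (fun a => x < a ∧ ¬ a.Prime))
    have h10 := hsu (A.filter (fun a => a ≤ x)) (A.filter (fun a => x < a ∧ ¬ a.Prime))
    have h11 := hZ x h5 A hAc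
    rw [low_eq] at hlow
    linarith
  have hQA : ∑ a ∈ QQ c n \ A, (1 : ℝ) / a ≤ 5 * η := by
    have h7 : QQ c n \ A ⊆ Pr x n \ A' := by
      intro a ha
      rw [Finset.mem_sdiff] at ha ⊢
      exact ⟨hQsub ha.1, fun h => ha.2 (hA'A h)⟩
    have h8 : ∑ a ∈ Pr x n \ A', (1 : ℝ) / a + ∑ a ∈ A', (1 : ℝ) / a = Gs x n := sum_sdiff hA'Pr
    have h9 : ∑ a ∈ QQ c n \ A, (1 : ℝ) / a ≤ ∑ a ∈ Pr x n \ A', (1 : ℝ) / a :=
      sum_le_sum_of_subset_of_nonneg h7 (fun a _ _ => by positivity)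
    linarith
  refine ⟨by rw [hη] at hQA; linarith, ?_⟩
  have h7 : ∑ a ∈ A \ QQ c n, (1 : ℝ) / a + ∑ a ∈ A ∩ QQ c n, (1 : ℝ) / a = ∑ a ∈ A, (1 : ℝ) / a := by
    rw [← sum_union]
    · congr 1
      ext a
      rw [mem_union, Finset.mem_sdiff, mem_inter]
      tauto
    · rw [disjoint_left]
      intro a h8 h9
      rw [Finset.mem_sdiff] at h8
      rw [mem_inter] at h9
      exact h8.2 h9.2
  have h8 : ∑ a ∈ QQ c n \ A, (1 : ℝ) / a + ∑ a ∈ A ∩ QQ c n, (1 : ℝ) / a = ∑ a ∈ QQ c n, (1 : ℝ) / a := by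
    rw [← sum_union]
    · congr 1
      ext a
      rw [mem_union, Finset.mem_sdiff, mem_inter]
      tauto
    · rw [disjoint_left]
      intro a h8 h9
      rw [Finset.mem_sdiff] at h8
      rw [mem_inter] at h9
      exact h8.2 h9.1
  have h9 : ∑ a ∈ QQ c n, (1 : ℝ) / a = Gs (yy c n) n := by rw [hQeq]; rfl
  have h10 := Gs_yy_gt hc0 hyy1
  have h11 : 6 * η = ε := by rw [hη]; ring
  linarith

end Pool.Agent.Helper923.HConv
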