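import Mathlib
import Pool.Agent.Helper923.Bound

set_option autoImplicit false

namespace Pool.Agent.Helper923.Incr

open Finset ZMod Pool.Agent.Helper923.Fourier Pool.Agent.Helper923.Energy
  Pool.Agent.Helper923.Count Pool.Agent.Helper923.Bound

lemma dirichlet {M : ℕ} [NeZero M] (S : Finset (ZMod M)) (B : ℕ) (hB : 1 ≤ B) :
    ∃ d : ℕ, 1 ≤ d ∧ d ≤ B ^ S.card ∧ ∀ r ∈ S, ∃ s : ℤ, (s : ZMod M) = (d : ZMod M) * r ∧
      |s| * B ≤ M := by
  classical
  have hMpos : 0 < M := Nat.pos_of_ne_zero (NeZero.ne M)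
  let φ : ℕ → ({x // x ∈ S} → ℕ) := fun n r => (B * ((n : ZMod M) * r.1).val) / M
  have hmap : ∀ n ∈ range (B ^ S.card + 1),
      φ n ∈ Fintype.piFinset (fun _ : {x // x ∈ S} => range B) := by
    intro n _
    rw [Fintype.mem_piFinset]
    intro r
    rw [mem_range]
    apply Nat.div_lt_of_lt_mul
    have := ZMod.val_lt ((n : ZMod M) * r.1)
    calc B * ((n : ZMod M) * r.1).val < B * M := by
          apply Nat.mul_lt_mul_of_pos_left this hB
      _ = M * B := by ring
  have hcard : (Fintype.piFinset (fun _ : {x // x ∈ S} => range B)).card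
      < (range (B ^ S.card + 1)).card := by
    rw [Fintype.card_piFinset, card_range]
    simp
  obtain ⟨m, hm, n, hn, hne, heq⟩ := exists_ne_map_eq_of_card_lt_of_maps_to hcard hmap
  wlog hlt : m < n generalizing m n
  · exact this n hn m hm hne.symm heq.symm (by omega)
  rw [mem_range] at hm hn
  refine ⟨n - m, by omega, by omega, fun r hr => ?_⟩
  have h1 := congrFun heq ⟨r, hr⟩
  simp only [φ] at h1
  refine ⟨(((n : ZMod M) * r).val : ℤ) - (((m : ZMod M) * r).val : ℤ), ?_, ?_⟩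
  · push_cast [Nat.cast_sub hlt.le]
    rw [ZMod.natCast_zmod_val, ZMod.natCast_zmod_val]
    ring
  · set a := ((n : ZMod M) * r).val
    set b := ((m : ZMod M) * r).val
    have h2 := Nat.div_add_mod (B * a) M
    have h3 := Nat.div_add_mod (B * b) M
    have h4 := Nat.mod_lt (B * a) hMpos
    have h5 := Nat.mod_lt (B * b) hMpos
    rw [h1] at h3
    have h6 : ((B : ℤ) * a - B * b) = ((B * a % M : ℕ) : ℤ) - ((B * b % M : ℕ) : ℤ) := by
      have h2' : ((M * (B * a / M) + B * a % M : ℕ) : ℤ) = ((B * a : ℕ) : ℤ) := by rw [h2]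
      have h3' : ((M * (B * a / M) + B * b % M : ℕ) : ℤ) = ((B * b : ℕ) : ℤ) := by rw [h3]
      push_cast at h2' h3' ⊢
      linarith
    have h7 : |(a : ℤ) - b| * B = |(B : ℤ) * a - B * b| := by
      rw [← mul_sub, abs_mul, Nat.abs_cast, mul_comm]
    rw [h7, h6]
    apply le_of_lt
    rw [abs_lt]
    constructor
    · have : ((B * b % M : ℕ) : ℤ) < M := by exact_mod_cast h5
      have : (0 : ℤ) ≤ ((B * a % M : ℕ) : ℤ) := by positivity
      linarith
    · have : ((B * a % M : ℕ) : ℤ) < M := by exact_mod_cast h4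
      have : (0 : ℤ) ≤ ((B * b % M : ℕ) : ℤ) := by positivity
      linarith

lemma phase {M : ℕ} [NeZero M] (L B : ℕ) (hB : B = 16 * L) (x : ZMod M) (s : ℤ)
    (hs : (s : ZMod M) = x) (hsB : |s| * B ≤ M) :
    (L : ℝ) ^ 2 / 2 ≤ ‖∑ j ∈ range L, (stdAddChar (-((j : ZMod M) * x)) : ℂ)‖ ^ 2 := by
  have hMpos : (0 : ℝ) < M := by
    have : M ≠ 0 := NeZero.ne M
    positivity
  have hre : ∀ j ∈ range L, (0.9 : ℝ) ≤ ((stdAddChar (-((j : ZMod M) * x)) : ℂ)).re := by
    intro j hj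
    rw [mem_range] at hj
    have e1 : -((j : ZMod M) * x) = ((-(j * s) : ℤ) : ZMod M) := by
      push_cast; rw [hs]
    rw [e1, ZMod.stdAddChar_coe]
    have e2 : (2 * (Real.pi : ℂ) * Complex.I * ((-(j * s) : ℤ) : ℂ) / (M : ℂ))
        = ((2 * Real.pi * (-(j * s) : ℤ) / M : ℝ) : ℂ) * Complex.I := by
      push_cast; ring
    rw [e2, Complex.exp_ofReal_mul_I_re]
    set θ : ℝ := 2 * Real.pi * (-(j * s) : ℤ) / M with hθ
    have habs : |θ| ≤ 0.4 := by
      rw [hθ, abs_div, abs_mul, abs_of_pos (by positivity : (0 : ℝ) < 2 * Real.pi),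
        abs_of_pos hMpos]
      rw [div_le_iff₀ hMpos]
      have h1 : (|((-(j * s) : ℤ) : ℝ)|) * 16 ≤ M := by
        have h2 : |s| * (16 * j) ≤ M := by
          calc |s| * (16 * j) ≤ |s| * B := by
                apply mul_le_mul_of_nonneg_left _ (abs_nonneg s)
                rw [hB]; push_cast
                have : (j : ℤ) ≤ L := by exact_mod_cast hj.le
                linarith
            _ ≤ M := hsB
        have h3 : |(-(j * s) : ℤ)| * 16 ≤ M := by
          rw [abs_neg, abs_mul, Nat.abs_cast]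
          linarith
        have h4 : ((|(-(j * s) : ℤ)| * 16 : ℤ) : ℝ) ≤ ((M : ℤ) : ℝ) := by exact_mod_cast h3
        push_cast at h4 ⊢
        exact h4
      have h5 : (0 : ℝ) ≤ |((-(j * s) : ℤ) : ℝ)| := abs_nonneg _
      have hpi : Real.pi < 3.15 := Real.pi_lt_d2
      nlinarith
    have h6 := Real.one_sub_sq_div_two_le_cos (x := θ)
    have h7 : θ ^ 2 ≤ 0.16 := by
      have := sq_abs θ
      have h0 := abs_nonneg θ
      nlinarith
    linarith
  have h8 : (0.9 : ℝ) * L ≤ ‖∑ j ∈ range L, (stdAddChar (-((j : ZMod M) * x)) : ℂ)‖ := by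
    refine le_trans ?_ (Complex.re_le_norm _)
    rw [Complex.re_sum]
    calc (0.9 : ℝ) * L = ∑ j ∈ range L, (0.9 : ℝ) := by simp; ring
      _ ≤ _ := sum_le_sum hre
  have h9 : (0 : ℝ) ≤ (0.9 : ℝ) * L := by positivity
  have h10 := mul_self_le_mul_self h9 h8
  nlinarith [sq_nonneg (L : ℝ)]

end Pool.Agent.Helper923.Incr
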