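import Mathlib
import Pool.Agent.Helper923.Incr

set_option autoImplicit false

namespace Pool.Agent.Helper923.Step

open Finset ZMod Pool.Agent.Helper923.Fourier Pool.Agent.Helper923.Energy
  Pool.Agent.Helper923.Count Pool.Agent.Helper923.Bound Pool.Agent.Helper923.Incr

/-- number of elements of `A` on the progression `n, n + d, …` of length `L` -/
def cnt (A : Finset ℕ) (L d n : ℕ) : ℕ := ((range L).filter (fun j => n + j * d ∈ A)).card

lemma corr_good {M N : ℕ} [NeZero M] (hM : M = 2 * N + 1) {A : Finset ℕ} {δ : ℝ} {L d : ℕ}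
    (x : ZMod M) (hx : x.val + L * d ≤ N) (hd : 1 ≤ d) :
    corr L (d : ZMod M) (bal A N δ) x = cnt A L d x.val - δ * L := by
  unfold corr cnt
  have h : ∀ j ∈ range L, bal A N δ (x + (j : ZMod M) * (d : ZMod M))
      = (if x.val + j * d ∈ A then (1 : ℝ) else 0) - δ := by
    intro j hj
    rw [mem_range] at hj
    have hjd : j * d + d ≤ L * d := by nlinarith
    have hv : (x + (j : ZMod M) * (d : ZMod M)).val = x.val + j * d := by
      have e : x + (j : ZMod M) * (d : ZMod M) = ((x.val + j * d : ℕ) : ZMod M) := by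
        push_cast; rw [ZMod.natCast_zmod_val]
      rw [e]
      exact ZMod.val_natCast_of_lt (by omega)
    unfold bal ind
    rw [hv, if_pos (show x.val + j * d ∈ range N by rw [mem_range]; omega)]
    ring
  rw [sum_congr rfl h, sum_sub_distrib, ← sum_filter]
  simp
  ring

lemma corr_zero {M N : ℕ} [NeZero M] {A : Finset ℕ} (hA : A ⊆ range N)
    {δ : ℝ} {L d : ℕ} (x : ZMod M) (h1 : N ≤ x.val) (hx : x.val + L * d ≤ M) (hd : 1 ≤ d) :
    corr L (d : ZMod M) (bal A N δ) x = 0 := by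
  unfold corr
  apply sum_eq_zero
  intro j hj
  rw [mem_range] at hj
  have hjd : j * d + d ≤ L * d := by nlinarith
  have hv : (x + (j : ZMod M) * (d : ZMod M)).val = x.val + j * d := by
    have e : x + (j : ZMod M) * (d : ZMod M) = ((x.val + j * d : ℕ) : ZMod M) := by
      push_cast; rw [ZMod.natCast_zmod_val]
    rw [e]
    exact ZMod.val_natCast_of_lt (by omega)
  unfold bal ind
  rw [hv, if_neg (show x.val + j * d ∉ range N by rw [mem_range]; omega),
    if_neg (fun h => by have := mem_range.mp (hA h); omega)]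
  ring

lemma corr_abs {M N : ℕ} [NeZero M] {A : Finset ℕ} (hA : A ⊆ range N)
    {δ : ℝ} (h0 : 0 ≤ δ) (h1 : δ ≤ 1) (L d : ℕ) (x : ZMod M) :
    corr L (d : ZMod M) (bal A N δ) x ^ 2 ≤ (L : ℝ) ^ 2 := by
  have h : |corr L (d : ZMod M) (bal A N δ) x| ≤ L := by
    unfold corr
    refine (abs_sum_le_sum_abs _ _).trans ?_
    calc ∑ j ∈ range L, |bal A N δ (x + (j : ZMod M) * (d : ZMod M))|
        ≤ ∑ j ∈ range L, (1 : ℝ) := by
          apply sum_le_sum
          intro j _
          unfold bal ind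
          by_cases hx : (x + (j : ZMod M) * (d : ZMod M)).val ∈ A
          · rw [if_pos hx, if_pos (hA hx), abs_le]
            constructor <;> linarith
          · rw [if_neg hx]
            split_ifs
            · rw [abs_le]; constructor <;> linarith
            · simp
      _ = L := by simp
  have := sq_abs (corr L (d : ZMod M) (bal A N δ) x)
  rw [← this]
  gcongr

lemma sum_cnt_ge {N : ℕ} {A : Finset ℕ} (hA : A ⊆ range N) {L d : ℕ} (hd : 1 ≤ d)
    (hLd : L * d ≤ N) :
    (L : ℝ) * ((A.card : ℝ) - L * d)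
      ≤ ∑ n ∈ range (N + 1 - L * d), (cnt A L d n : ℝ) := by
  have h1 : ∑ n ∈ range (N + 1 - L * d), (cnt A L d n : ℝ)
      = ∑ j ∈ range L, ∑ n ∈ range (N + 1 - L * d), (if n + j * d ∈ A then (1 : ℝ) else 0) := by
    rw [sum_comm]
    refine sum_congr rfl fun n _ => ?_
    unfold cnt
    rw [← sum_filter]
    simp
  rw [h1]
  have h2 : ∀ j ∈ range L, (A.card : ℝ) - L * d
      ≤ ∑ n ∈ range (N + 1 - L * d), (if n + j * d ∈ A then (1 : ℝ) else 0) := by
    intro j hj
    rw [mem_range] at hj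
    have hjd : j * d + d ≤ L * d := by nlinarith
    rw [← sum_filter]
    simp only [sum_const, nsmul_eq_mul, mul_one]
    have h3 : A.card ≤ ((range (N + 1 - L * d)).filter (fun n => n + j * d ∈ A)).card + L * d := by
      have h4 : A ⊆ ((((range (N + 1 - L * d)).filter (fun n => n + j * d ∈ A)).image
          (fun n => n + j * d)) ∪ range (j * d)) ∪ Ico (N + 1 - L * d + j * d) N := by
        intro a ha
        have haN := mem_range.mp (hA ha)
        simp only [mem_union, mem_image, mem_filter, mem_range, mem_Ico]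
        by_cases h5 : a < j * d
        · left; right; exact h5
        · by_cases h6 : a - j * d < N + 1 - L * d
          · left; left
            refine ⟨a - j * d, ⟨h6, ?_⟩, by omega⟩
            rw [Nat.sub_add_cancel (by omega)]
            exact ha
          · right; omega
      have h5 := card_le_card h4
      have h6 := card_union_le ((((range (N + 1 - L * d)).filter (fun n => n + j * d ∈ A)).image
          (fun n => n + j * d)) ∪ range (j * d)) (Ico (N + 1 - L * d + j * d) N)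
      have h7 := card_union_le (((range (N + 1 - L * d)).filter (fun n => n + j * d ∈ A)).image
          (fun n => n + j * d)) (range (j * d))
      have h8 : (((range (N + 1 - L * d)).filter (fun n => n + j * d ∈ A)).image
          (fun n => n + j * d)).card ≤ ((range (N + 1 - L * d)).filter
            (fun n => n + j * d ∈ A)).card := card_image_le
      rw [card_range] at h7
      rw [Nat.card_Ico] at h6
      omega
    have h4 : (A.card : ℝ) ≤ (((range (N + 1 - L * d)).filter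
        (fun n => n + j * d ∈ A)).card : ℝ) + L * d := by exact_mod_cast h3
    linarith
  calc (L : ℝ) * ((A.card : ℝ) - L * d) = ∑ j ∈ range L, ((A.card : ℝ) - L * d) := by
        rw [sum_const, card_range, nsmul_eq_mul]
    _ ≤ _ := sum_le_sum h2

lemma arith1 {c δ L : ℝ} (h2 : c ≤ (1 + 1 / 4000) * δ * L) (h3 : 0 ≤ c) :
    (c - δ * L) ^ 2 ≤ (δ * L) ^ 2 - (1 - 1 / 4000) * δ * L * c := by
  have := mul_le_mul_of_nonneg_left h2 h3
  linarith [show (c - δ * L) ^ 2 = c * c - 2 * (δ * L * c) + (δ * L) ^ 2 by ring,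
    show c * ((1 + 1 / 4000) * δ * L) = (1 + 1 / 4000) * (δ * L * c) by ring,
    show (1 - 1 / 4000) * δ * L * c = (1 - 1 / 4000) * (δ * L * c) by ring]

lemma upper {N : ℕ} {A : Finset ℕ} (hA : A ⊆ range N) {δ : ℝ} (hδ : 0 < δ)
    (hcard : (A.card : ℝ) = δ * N) {L d : ℕ} (hL : 1 ≤ L) (hd1 : 1 ≤ d) (hLdN : L * d ≤ N)
    (hcnt : ∀ n, (cnt A L d n : ℝ) ≤ (1 + 1 / 4000) * δ * L) :
    ∑ n ∈ range (N + 1 - L * d), ((cnt A L d n : ℝ) - δ * L) ^ 2
      ≤ δ * L * (1 / 4000 * δ * L * N + L * (L * d)) := by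
  have h1 : ∀ n ∈ range (N + 1 - L * d), ((cnt A L d n : ℝ) - δ * L) ^ 2
      ≤ (δ * L) ^ 2 - (1 - 1 / 4000) * δ * L * cnt A L d n := by
    intro n _
    exact arith1 (hcnt n) (by positivity)
  refine (sum_le_sum h1).trans ?_
  rw [sum_sub_distrib, ← mul_sum]
  simp only [sum_const, card_range, nsmul_eq_mul]
  have h4 := sum_cnt_ge hA hd1 hLdN
  rw [hcard] at h4
  have h5 : ((N + 1 - L * d : ℕ) : ℝ) ≤ N := by
    have : N + 1 - L * d ≤ N := by
      have : 1 ≤ L * d := Nat.mul_pos (by omega) (by omega)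
      omega
    exact_mod_cast this
  have h6 : ((N + 1 - L * d : ℕ) : ℝ) * (δ * L) ^ 2 ≤ N * (δ * L) ^ 2 := by gcongr
  have h0 : (0 : ℝ) ≤ (1 - 1 / 4000) * δ * L := by
    have : (0 : ℝ) ≤ δ * L := by positivity
    linarith [show (1 - 1 / 4000) * δ * (L : ℝ) = (1 - 1 / 4000) * (δ * L) by ring]
  have h7 : (1 - 1 / 4000) * δ * L * ((L : ℝ) * (δ * N - L * d))
      ≤ (1 - 1 / 4000) * δ * L * ∑ n ∈ range (N + 1 - L * d), (cnt A L d n : ℝ) :=
    mul_le_mul_of_nonneg_left h4 h0
  have h8 : 0 ≤ δ * L * (L * (L * d) : ℝ) := by positivity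
  linarith [show (1 - 1 / 4000) * δ * L * ((L : ℝ) * (δ * N - L * d))
      = (N : ℝ) * (δ * L) ^ 2 - 1 / 4000 * (N * (δ * L) ^ 2)
        - δ * L * (L * (L * d) : ℝ) + 1 / 4000 * (δ * L * (L * (L * d) : ℝ)) by ring,
    show δ * L * (1 / 4000 * δ * L * N + L * (L * d)) =
      1 / 4000 * (N * (δ * L) ^ 2) + δ * L * (L * (L * d) : ℝ) by ring]

lemma arith2 {L δ N d : ℝ} (hL : 0 ≤ L) (hd : 0 ≤ d) (hδ1 : δ ≤ 1) :
    δ * L * (1 / 4000 * δ * L * N + L * (L * d)) + 2 * (L * d) * L ^ 2
      ≤ L ^ 2 * (δ ^ 2 * N / 4000 + 3 * (L * d)) := by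
  have h : δ * (L ^ 2 * (L * d)) ≤ 1 * (L ^ 2 * (L * d)) := by gcongr
  linarith [show δ * L * (1 / 4000 * δ * L * N + L * (L * d)) + 2 * (L * d) * L ^ 2
    = L ^ 2 * (δ ^ 2 * N / 4000) + δ * (L ^ 2 * (L * d)) + 2 * (L ^ 2 * (L * d)) by ring,
    show L ^ 2 * (δ ^ 2 * N / 4000 + 3 * (L * d))
    = L ^ 2 * (δ ^ 2 * N / 4000) + 3 * (L ^ 2 * (L * d)) by ring]

theorem step {N : ℕ} {A : Finset ℕ} (hA : A ⊆ range N)
    (hf : Free A) {δ : ℝ} (hδ : 0 < δ) (hcard : (A.card : ℝ) = δ * N) (hN : 4 ≤ δ ^ 2 * N)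
    {L K : ℕ} (hL : 1 ≤ L) (hK : 24300 / δ ^ 3 ≤ K)
    (hNL : 32000 * (L : ℝ) * (16 * L) ^ K ≤ δ ^ 2 * N) :
    ∃ d n : ℕ, 1 ≤ d ∧ (1 + 1 / 4000) * δ * L ≤ cnt A L d n := by
  classical
  have hNpos : (0 : ℝ) < N := by
    by_contra h
    push Not at h
    nlinarith [sq_nonneg δ]
  have hN1 : (1 : ℝ) ≤ N := by
    have : 0 < N := by exact_mod_cast hNpos
    exact_mod_cast this
  have hδ1 : δ ≤ 1 := by
    have h1 : (A.card : ℝ) ≤ N := by
      have := card_le_card hA
      rw [card_range] at this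
      exact_mod_cast this
    rw [hcard] at h1
    by_contra h
    push Not at h
    nlinarith
  obtain ⟨M, hM⟩ : ∃ M, M = 2 * N + 1 := ⟨_, rfl⟩
  have : NeZero M := ⟨by omega⟩
  have hMpos : (0 : ℝ) < M := by
    have : M ≠ 0 := NeZero.ne M
    positivity
  have hM3 : (M : ℝ) ≤ 3 * N := by
    rw [hM]; push_cast; linarith
  set τ : ℝ := δ ^ 2 * N / 90 with hτ
  have hτpos : 0 < τ := by positivity
  set Λ : Finset (ZMod M) := univ.filter (fun r => τ ≤ ‖ft (bal A N δ) r‖) with hΛ
  have henergy := energy_lb hM hA hf hδ hcard hN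
  have hpars := parseval (M := M) (bal A N δ)
  rw [sum_bal_sq (by omega : N ≤ M) hA hcard] at hpars
  -- size of the large spectrum
  have hΛcard : Λ.card ≤ K := by
    have h1 : τ ^ 2 * Λ.card ≤ M * (δ * N - δ ^ 2 * N) := by
      rw [← hpars]
      calc τ ^ 2 * Λ.card = ∑ r ∈ Λ, τ ^ 2 := by simp; ring
        _ ≤ ∑ r ∈ Λ, ‖ft (bal A N δ) r‖ ^ 2 := by
            apply sum_le_sum
            intro r hr
            rw [hΛ, mem_filter] at hr
            have := hr.2
            gcongr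
        _ ≤ ∑ r, ‖ft (bal A N δ) r‖ ^ 2 :=
            sum_le_sum_of_subset_of_nonneg (subset_univ _) (fun _ _ _ => by positivity)
    have h2 : τ ^ 2 * Λ.card ≤ 3 * N * (δ * N) := by
      refine h1.trans ?_
      have : 0 ≤ δ ^ 2 * N := by positivity
      have h3 : 0 ≤ δ * N - δ ^ 2 * N := by
        have : δ ^ 2 * N ≤ δ * N := by
          have : δ ^ 2 ≤ δ := by nlinarith
          gcongr
        linarith
      gcongr
      linarith
    have h3 : (Λ.card : ℝ) ≤ 24300 / δ ^ 3 := by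
      rw [le_div_iff₀ (by positivity)]
      have h4 : (δ * (N : ℝ) ^ 2) * (Λ.card * δ ^ 3) ≤ (δ * (N : ℝ) ^ 2) * 24300 := by
        have : τ ^ 2 * Λ.card = (δ * (N : ℝ) ^ 2) * (Λ.card * δ ^ 3) / 8100 := by
          rw [hτ]; ring
        rw [this] at h2
        nlinarith
      exact le_of_mul_le_mul_left h4 (by positivity)
    have h4 := h3.trans hK
    exact_mod_cast h4
  -- simultaneous approximation
  obtain ⟨d, hd1, hdB, hd⟩ := dirichlet Λ (16 * L) (by omega)
  have hLpos : (1 : ℝ) ≤ L := by exact_mod_cast hL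
  have hdK : (d : ℝ) ≤ (16 * L : ℝ) ^ K := by
    have h1 : d ≤ (16 * L) ^ K := hdB.trans (Nat.pow_le_pow_right (by omega) hΛcard)
    exact_mod_cast h1
  have hLd : 32000 * ((L : ℝ) * d) ≤ δ ^ 2 * N := by
    refine le_trans ?_ hNL
    have : (L : ℝ) * d ≤ L * (16 * L) ^ K := by gcongr
    nlinarith
  have hLdN : L * d ≤ N := by
    have h1 : (L : ℝ) * d ≤ N := by
      have : δ ^ 2 * N ≤ N := by
        have : δ ^ 2 ≤ 1 := by nlinarith
        nlinarith
      have h0 : 0 ≤ (L : ℝ) * d := by positivity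
      nlinarith
    exact_mod_cast h1
  -- lower bound for the mean square of the correlation
  have hlow : (L : ℝ) ^ 2 * (δ ^ 2 * N / 2000)
      ≤ ∑ x : ZMod M, corr L (d : ZMod M) (bal A N δ) x ^ 2 := by
    have h1 := parseval (M := M) (corr L (d : ZMod M) (bal A N δ))
    have h2 : (L : ℝ) ^ 2 / 2 * ∑ r : ZMod M, big τ ‖ft (bal A N δ) r‖ ^ 2
        ≤ ∑ r, ‖ft (corr L (d : ZMod M) (bal A N δ)) r‖ ^ 2 := by
      rw [mul_sum]
      apply sum_le_sum
      intro r _
      rw [ft_corr, norm_mul, mul_pow]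
      rcases big_cases (τ := τ) (u := ‖ft (bal A N δ) r‖) with ⟨h, hb⟩ | ⟨h, hb⟩
      · rw [hb]
        obtain ⟨s, hs1, hs2⟩ := hd r (by rw [hΛ, mem_filter]; exact ⟨mem_univ _, h⟩)
        have h3 := phase L (16 * L) rfl ((d : ZMod M) * r) s hs1 hs2
        simp only [← mul_assoc] at h3
        have h4 : 0 ≤ ‖ft (bal A N δ) r‖ ^ 2 := by positivity
        nlinarith
      · rw [hb]
        have : 0 ≤ ‖ft (bal A N δ) r‖ ^ 2 * ‖∑ j ∈ range L,
          (stdAddChar (-((j : ZMod M) * (d : ZMod M) * r)) : ℂ)‖ ^ 2 := by positivity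
        simpa using this
    rw [h1] at h2
    have h3 : (L : ℝ) ^ 2 / 2 * (M * (δ ^ 2 * N / 1000))
        ≤ M * ∑ x : ZMod M, corr L (d : ZMod M) (bal A N δ) x ^ 2 := by
      refine le_trans ?_ h2
      gcongr
    have h4 : (M : ℝ) * ((L : ℝ) ^ 2 * (δ ^ 2 * N / 2000))
        ≤ M * ∑ x : ZMod M, corr L (d : ZMod M) (bal A N δ) x ^ 2 := by
      refine le_trans (le_of_eq ?_) h3
      ring
    exact le_of_mul_le_mul_left h4 hMpos
  -- upper bound
  by_contra hcon
  push Not at hcon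
  have hcnt : ∀ n, (cnt A L d n : ℝ) ≤ (1 + 1 / 4000) * δ * L := fun n => (hcon d n hd1).le
  set G : ℕ → ℝ := fun n => if n + L * d ≤ N then ((cnt A L d n : ℝ) - δ * L) ^ 2
    else if (N ≤ n ∧ n + L * d ≤ M) then 0 else (L : ℝ) ^ 2 with hG
  have hup1 : ∑ x : ZMod M, corr L (d : ZMod M) (bal A N δ) x ^ 2 ≤ ∑ n ∈ range M, G n := by
    rw [← sum_val G]
    apply sum_le_sum
    intro x _
    simp only [hG]
    split_ifs with h1 h2
    · rw [corr_good hM x h1 hd1]
    · rw [corr_zero hA x h2.1 h2.2 hd1]; simp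
    · exact corr_abs hA hδ.le hδ1 L d x
  have hup2 : ∑ n ∈ range M, G n ≤ ∑ n ∈ range (N + 1 - L * d),
      ((cnt A L d n : ℝ) - δ * L) ^ 2 + (2 * (L * d) : ℝ) * (L : ℝ) ^ 2 := by
    have hsub : range (N + 1 - L * d) ⊆ range M := by
      intro n hn
      rw [mem_range] at *
      omega
    rw [← sum_sdiff hsub, add_comm]
    refine add_le_add (le_of_eq ?_) ?_
    · apply sum_congr rfl
      intro n hn
      rw [mem_range] at hn
      simp only [hG]
      rw [if_pos (by omega)]
    · have h1 : ∀ n ∈ range M \ range (N + 1 - L * d),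
          G n ≤ if n ∈ (Ico (N + 1 - L * d) N ∪ Ico (M + 1 - L * d) M) then (L : ℝ) ^ 2 else 0 := by
        intro n hn
        rw [mem_sdiff, mem_range, mem_range] at hn
        simp only [hG, mem_union, mem_Ico]
        rw [if_neg (by omega)]
        split_ifs with h2 h3 h3
        · positivity
        · exact le_refl _
        · exact le_refl _
        · exfalso; omega
      refine (sum_le_sum h1).trans ?_
      rw [← sum_filter]
      simp only [sum_const, nsmul_eq_mul]
      have h2 : (((range M \ range (N + 1 - L * d)).filter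
          (fun n => n ∈ (Ico (N + 1 - L * d) N ∪ Ico (M + 1 - L * d) M))).card) ≤ 2 * (L * d) := by
        refine (card_le_card (t := Ico (N + 1 - L * d) N ∪ Ico (M + 1 - L * d) M) ?_).trans ?_
        · intro n hn
          exact (mem_filter.mp hn).2
        · refine (card_union_le _ _).trans ?_
          rw [Nat.card_Ico, Nat.card_Ico]
          omega
      have h3 : (((range M \ range (N + 1 - L * d)).filter
          (fun n => n ∈ (Ico (N + 1 - L * d) N ∪ Ico (M + 1 - L * d) M))).card : ℝ)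
            ≤ 2 * (L * d) := by exact_mod_cast h2
      gcongr
  have hup3 := upper hA hδ hcard hL hd1 hLdN hcnt
  have hfin := (hlow.trans hup1).trans (hup2.trans (add_le_add_left hup3 _))
  have hL2 : (0 : ℝ) < (L : ℝ) ^ 2 := by positivity
  have h9 := hfin.trans (arith2 (L := (L : ℝ)) (δ := δ) (N := (N : ℝ)) (d := (d : ℝ))
    (by positivity) (by positivity) hδ1)
  have h10 := le_of_mul_le_mul_left h9 hL2
  have h11 : 0 < δ ^ 2 * N := by positivity
  linarith

end Pool.Agent.Helper923.Step
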