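import Mathlib
import Pool.Agent.Helper923.Step

set_option autoImplicit false

namespace Pool.Agent.Helper923.Roth

open Finset Pool.Agent.Helper923.Count Pool.Agent.Helper923.Step

lemma pow_le_exp (j : ℕ) : ((4001 : ℝ) / 4000) ^ (3 * (j + 1)) ≤ Real.exp (j + 1) := by
  rw [pow_mul]
  have h1 : ((4001 : ℝ) / 4000) ^ 3 ≤ Real.exp 1 := by
    have := Real.add_one_le_exp (1 : ℝ)
    refine le_trans ?_ this
    norm_num
  have h2 : Real.exp ((j : ℝ) + 1) = Real.exp 1 ^ (j + 1) := by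
    rw [← Real.exp_nat_mul]
    congr 1
    push_cast
    ring
  rw [h2]
  gcongr

lemma numeric (j K L : ℕ) (X δ N : ℝ) (hX : X = Real.exp (6 * ((j : ℝ) + 1) ^ 2))
    (hL : (L : ℝ) ≤ Real.exp X + 1) (hL1 : 1 ≤ L)
    (hK : (K : ℝ) ≤ 24300 * Real.exp (j + 1) + 1)
    (hδ : Real.exp (-((j : ℝ) + 1)) ≤ δ ^ 2)
    (hN : Real.exp (Real.exp (6 * ((j : ℝ) + 2) ^ 2)) ≤ N) :
    32000 * (L : ℝ) * (16 * L) ^ K ≤ δ ^ 2 * N := by
  have hX1 : 1 ≤ X := by
    rw [hX]; apply Real.one_le_exp; positivity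
  have hL2 : (L : ℝ) ≤ 2 * Real.exp X := by
    have : 1 ≤ Real.exp X := Real.one_le_exp (by linarith)
    linarith
  have e1 : (16 * (L : ℝ)) ≤ Real.exp (X + 12) := by
    rw [Real.exp_add]
    have : (32 : ℝ) ≤ Real.exp 12 := by
      have h := Real.add_one_le_exp (6 : ℝ)
      have h2 : Real.exp 12 = Real.exp 6 * Real.exp 6 := by rw [← Real.exp_add]; norm_num
      rw [h2]
      nlinarith
    have hp := Real.exp_pos X
    nlinarith
  have e2 : 32000 * (L : ℝ) ≤ Real.exp (X + 12) := by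
    rw [Real.exp_add]
    have : (64000 : ℝ) ≤ Real.exp 12 := by
      have h := Real.exp_one_gt_d9
      have h2 : Real.exp 12 = Real.exp 1 ^ 12 := by
        rw [← Real.exp_nat_mul]; norm_num
      rw [h2]
      calc (64000 : ℝ) ≤ 2.7 ^ 12 := by norm_num
        _ ≤ Real.exp 1 ^ 12 := by gcongr; linarith
    have hp := Real.exp_pos X
    nlinarith
  have e3 : 32000 * (L : ℝ) * (16 * L) ^ K ≤ Real.exp ((K + 1) * (X + 12)) := by
    calc 32000 * (L : ℝ) * (16 * L) ^ K ≤ Real.exp (X + 12) * Real.exp (X + 12) ^ K := by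
          gcongr
      _ = Real.exp ((K + 1) * (X + 12)) := by
          rw [← Real.exp_nat_mul, ← Real.exp_add]
          congr 1; ring
  refine e3.trans ?_
  have e4 : Real.exp (-((j : ℝ) + 1)) * Real.exp (Real.exp (6 * ((j : ℝ) + 2) ^ 2)) ≤ δ ^ 2 * N := by
    have : 0 ≤ δ ^ 2 := by positivity
    gcongr
  refine le_trans ?_ e4
  rw [← Real.exp_add, Real.exp_le_exp]
  have hj : (0 : ℝ) ≤ j := by positivity
  have e5 : ((K : ℝ) + 1) ≤ Real.exp (j + 12) := by
    have h1 : (24302 : ℝ) ≤ Real.exp 11 := by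
      have h := Real.exp_one_gt_d9
      have h2 : Real.exp 11 = Real.exp 1 ^ 11 := by
        rw [← Real.exp_nat_mul]; norm_num
      rw [h2]
      calc (24302 : ℝ) ≤ 2.7 ^ 11 := by norm_num
        _ ≤ Real.exp 1 ^ 11 := by gcongr; linarith
    have h2 : Real.exp ((j : ℝ) + 12) = Real.exp 11 * Real.exp (j + 1) := by
      rw [← Real.exp_add]; congr 1; ring
    rw [h2]
    have h3 : 1 ≤ Real.exp ((j : ℝ) + 1) := Real.one_le_exp (by positivity)
    nlinarith
  have e6 : X + 12 ≤ Real.exp (6 * ((j : ℝ) + 1) ^ 2 + 3) := by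
    rw [Real.exp_add, ← hX]
    have h1 : (13 : ℝ) ≤ Real.exp 3 := by
      have h := Real.exp_one_gt_d9
      have h2 : Real.exp 3 = Real.exp 1 ^ 3 := by
        rw [← Real.exp_nat_mul]; norm_num
      rw [h2]
      calc (13 : ℝ) ≤ 2.7 ^ 3 := by norm_num
        _ ≤ Real.exp 1 ^ 3 := by gcongr; linarith
    nlinarith
  have e7 : ((K : ℝ) + 1) * (X + 12) ≤ Real.exp (6 * ((j : ℝ) + 1) ^ 2 + j + 15) := by
    calc ((K : ℝ) + 1) * (X + 12)
        ≤ Real.exp (j + 12) * Real.exp (6 * ((j : ℝ) + 1) ^ 2 + 3) := by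
          have : 0 ≤ X + 12 := by linarith
          gcongr
      _ = _ := by rw [← Real.exp_add]; congr 1; ring
  have e8 : (j : ℝ) + 1 ≤ Real.exp (6 * ((j : ℝ) + 1) ^ 2 + j + 15) := by
    have h1 := Real.add_one_le_exp (j : ℝ)
    refine h1.trans ?_
    rw [Real.exp_le_exp]
    nlinarith
  have e9 : 2 * Real.exp (6 * ((j : ℝ) + 1) ^ 2 + j + 15) ≤ Real.exp (6 * ((j : ℝ) + 2) ^ 2) := by
    have h1 : (2 : ℝ) ≤ Real.exp 1 := by
      have := Real.add_one_le_exp (1 : ℝ); linarith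
    calc 2 * Real.exp (6 * ((j : ℝ) + 1) ^ 2 + j + 15)
        ≤ Real.exp 1 * Real.exp (6 * ((j : ℝ) + 1) ^ 2 + j + 15) := by
          have := Real.exp_pos (6 * ((j : ℝ) + 1) ^ 2 + j + 15)
          gcongr
      _ = Real.exp (6 * ((j : ℝ) + 1) ^ 2 + j + 16) := by
          rw [← Real.exp_add]; congr 1; ring
      _ ≤ _ := by
          rw [Real.exp_le_exp]; nlinarith
  linarith

/-- Quantitative Roth theorem with the Heath-Brown and Szemeredi energy increment. -/
theorem roth (j : ℕ) : ∀ N : ℕ, Real.exp (Real.exp (6 * ((j : ℝ) + 1) ^ 2)) ≤ N →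
    ∀ A : Finset ℕ, A ⊆ range N → Free A → (A.card : ℝ) ≤ (4000 / 4001) ^ j * N := by
  induction j with
  | zero =>
    intro N _ A hA _
    have := card_le_card hA
    rw [card_range] at this
    rw [pow_zero, one_mul]
    exact_mod_cast this
  | succ j ih =>
    intro N hN A hA hf
    by_contra hcon
    push Not at hcon
    have hNpos : (0 : ℝ) < N := lt_of_lt_of_le (Real.exp_pos _) hN
    obtain ⟨δ, hδdef⟩ : ∃ δ : ℝ, δ = A.card / N := ⟨_, rfl⟩
    have hcard : (A.card : ℝ) = δ * N := by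
      rw [hδdef]; field_simp
    have hδ1 : ((4000 : ℝ) / 4001) ^ (j + 1) < δ := by
      rw [hδdef, lt_div_iff₀ hNpos]; exact hcon
    have hδ0 : 0 < δ := lt_trans (by positivity) hδ1
    obtain ⟨X, hX⟩ : ∃ X : ℝ, X = Real.exp (6 * ((j : ℝ) + 1) ^ 2) := ⟨_, rfl⟩
    obtain ⟨L, hLdef⟩ : ∃ L : ℕ, L = ⌈Real.exp X⌉₊ := ⟨_, rfl⟩
    obtain ⟨K, hKdef⟩ : ∃ K : ℕ, K = ⌈24300 / δ ^ 3⌉₊ := ⟨_, rfl⟩
    have hLge : Real.exp X ≤ L := by rw [hLdef]; exact Nat.le_ceil _
    have hLle : (L : ℝ) ≤ Real.exp X + 1 := by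
      rw [hLdef]; exact (Nat.ceil_lt_add_one (Real.exp_pos _).le).le
    have hL1 : 1 ≤ L := by
      have : (0 : ℝ) < L := lt_of_lt_of_le (Real.exp_pos _) hLge
      exact_mod_cast this
    have hKge : 24300 / δ ^ 3 ≤ K := by rw [hKdef]; exact Nat.le_ceil _
    have hinv : ((4001 : ℝ) / 4000) ^ (j + 1) * (4000 / 4001) ^ (j + 1) = 1 := by
      rw [← mul_pow]; norm_num
    have hδinv : 1 ≤ ((4001 : ℝ) / 4000) ^ (j + 1) * δ := by
      rw [← hinv]
      gcongr
    have hKle : (K : ℝ) ≤ 24300 * Real.exp (j + 1) + 1 := by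
      have h1 : (K : ℝ) ≤ 24300 / δ ^ 3 + 1 := by
        rw [hKdef]; exact (Nat.ceil_lt_add_one (by positivity)).le
      have h2 : 24300 / δ ^ 3 ≤ 24300 * Real.exp (j + 1) := by
        rw [div_le_iff₀ (by positivity)]
        have h3 : 1 ≤ Real.exp ((j : ℝ) + 1) * δ ^ 3 := by
          calc (1 : ℝ) = 1 ^ 3 := by norm_num
            _ ≤ (((4001 : ℝ) / 4000) ^ (j + 1) * δ) ^ 3 := by gcongr
            _ = ((4001 : ℝ) / 4000) ^ (3 * (j + 1)) * δ ^ 3 := by ring
            _ ≤ _ := by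
              have := pow_le_exp j
              gcongr
        nlinarith
      linarith
    have hδ2 : Real.exp (-((j : ℝ) + 1)) ≤ δ ^ 2 := by
      rw [Real.exp_neg]
      rw [inv_le_iff_one_le_mul₀ (Real.exp_pos _)]
      calc (1 : ℝ) = 1 ^ 2 := by norm_num
        _ ≤ (((4001 : ℝ) / 4000) ^ (j + 1) * δ) ^ 2 := by gcongr
        _ = δ ^ 2 * ((4001 : ℝ) / 4000) ^ (2 * (j + 1)) := by ring
        _ ≤ δ ^ 2 * ((4001 : ℝ) / 4000) ^ (3 * (j + 1)) := by
            gcongr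
            · norm_num
            · norm_num
        _ ≤ _ := by
              have := pow_le_exp j
              gcongr
    have hN' : Real.exp (Real.exp (6 * ((j : ℝ) + 2) ^ 2)) ≤ N := by
      refine le_trans (le_of_eq ?_) hN
      congr 3
      push_cast
      ring
    have hNL := numeric j K L X δ N hX hLle hL1 hKle hδ2 hN'
    have h4 : 4 ≤ δ ^ 2 * N := by
      refine le_trans ?_ hNL
      have h1 : (1 : ℝ) ≤ L := by exact_mod_cast hL1
      have h2 : (1 : ℝ) ≤ (16 * L) ^ K := one_le_pow₀ (by linarith)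
      nlinarith
    obtain ⟨d, n, hd, hcnt⟩ := step hA hf hδ0 hcard h4 hL1 hKge hNL
    -- the new set
    set A' : Finset ℕ := (range L).filter (fun i => n + i * d ∈ A) with hA'
    have hA'sub : A' ⊆ range L := filter_subset _ _
    have hA'free : Free A' := by
      intro x hx y hy z hz hxyz
      rw [hA', mem_filter] at hx hy hz
      have := hf _ hx.2 _ hy.2 _ hz.2 (by nlinarith)
      have h5 : x * d = y * d := by omega
      exact Nat.eq_of_mul_eq_mul_right (by omega) h5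
    have h6 := ih L (by rw [← hX]; exact hLge) A' hA'sub hA'free
    have h7 : (1 + 1 / 4000) * δ * L ≤ (4000 / 4001) ^ j * L := hcnt.trans h6
    have h8 : ((4000 : ℝ) / 4001) ^ j < (1 + 1 / 4000) * δ := by
      have : ((4000 : ℝ) / 4001) ^ j = (1 + 1 / 4000) * (4000 / 4001) ^ (j + 1) := by
        rw [pow_succ]; ring
      rw [this]
      gcongr
    have hLpos : (0 : ℝ) < L := by exact_mod_cast hL1
    have h9 : ((4000 : ℝ) / 4001) ^ j * L < (1 + 1 / 4000) * δ * L := by gcongr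
    linarith

end Pool.Agent.Helper923.Roth
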