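import Mathlib
import Pool.Agent.Helper923.Roth

set_option autoImplicit false

namespace Pool.Agent.Helper923.Mono

open Finset Pool.Agent.Helper923.Count Pool.Agent.Helper923.Roth

/-- monochromatic sums of two distinct elements of `{1, …, N}` -/
def sums {k : ℕ} (N : ℕ) (c : ℕ → Fin k) : Set ℕ :=
  {s : ℕ | ∃ a b : ℕ, 1 ≤ a ∧ a ≤ N ∧ 1 ≤ b ∧ b ≤ N ∧ a ≠ b ∧ c a = c b ∧ a + b = s}

lemma sums_finite {k : ℕ} (N : ℕ) (c : ℕ → Fin k) : (sums N c).Finite := by
  apply (Set.finite_Iic (2 * N)).subset
  rintro s ⟨a, b, _, ha, _, hb, _, _, rfl⟩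
  simp only [Set.mem_Iic]
  omega

theorem mono_count {k : ℕ} (N : ℕ) (R : ℝ)
    (hR : ∀ A : Finset ℕ, A ⊆ range (N + 1) → Free A → (A.card : ℝ) ≤ R) (c : ℕ → Fin k) :
    (N : ℝ) - k * R ≤ ((sums N c).ncard : ℝ) := by
  classical
  set bad : Finset ℕ := (Icc 1 N).filter (fun a => 2 * a ∉ sums N c) with hbad
  set good : Finset ℕ := (Icc 1 N).filter (fun a => 2 * a ∈ sums N c) with hgood
  have h1 : good.card + bad.card = N := by
    have := Finset.card_filter_add_card_filter_not (s := Icc 1 N) (fun a => 2 * a ∈ sums N c)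
    rw [Nat.card_Icc] at this
    simpa [hgood, hbad] using this
  have h2 : good.card ≤ (sums N c).ncard := by
    have h3 : (good.image (fun a => 2 * a)).card = good.card := by
      apply card_image_of_injective
      intro a b hab
      simp only at hab
      omega
    rw [← h3, ← Set.ncard_coe_finset]
    apply Set.ncard_le_ncard _ (sums_finite N c)
    intro s hs
    simp only [coe_image, Set.mem_image, mem_coe, hgood, mem_filter] at hs
    obtain ⟨a, ha, rfl⟩ := hs
    exact ha.2
  have h3 : (bad.card : ℝ) ≤ k * R := by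
    have h4 : bad.card = ∑ i : Fin k, (bad.filter (fun a => c a = i)).card :=
      card_eq_sum_card_fiberwise (fun a _ => mem_univ (c a))
    rw [h4]
    push_cast
    calc ∑ i : Fin k, ((bad.filter (fun a => c a = i)).card : ℝ) ≤ ∑ i : Fin k, R := by
          apply sum_le_sum
          intro i _
          apply hR
          · intro a ha
            simp only [hbad, mem_filter, mem_Icc] at ha
            rw [mem_range]; omega
          · intro x hx y hy z hz hxyz
            by_contra hne
            simp only [hbad, mem_filter, mem_Icc] at hx hy hz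
            apply hy.1.2
            exact ⟨x, z, hx.1.1.1, hx.1.1.2, hz.1.1.1, hz.1.1.2, by omega,
              by rw [hx.2, hz.2], hxyz⟩
      _ = k * R := by simp
  have h5 : (N : ℝ) = good.card + bad.card := by exact_mod_cast h1.symm
  have h6 : (good.card : ℝ) ≤ ((sums N c).ncard : ℝ) := by exact_mod_cast h2
  linarith

/-- the rate -/
noncomputable def c0 : ℝ := Real.log (4001 / 4000) / 2

lemma c0_pos : 0 < c0 := by
  unfold c0
  have := Real.log_pos (show (1 : ℝ) < 4001 / 4000 by norm_num)
  positivity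

lemma c0_le : c0 ≤ 1 := by
  unfold c0
  have := Real.log_le_sub_one_of_pos (show (0 : ℝ) < 4001 / 4000 by norm_num)
  linarith [this, show (4001 : ℝ) / 4000 - 1 ≤ 1 by norm_num]

/-- `√(log log N / 6)` -/
noncomputable def s (N : ℕ) : ℝ := √(Real.log (Real.log N) / 6)

open Filter

lemma loglog_tendsto : Tendsto (fun N : ℕ => Real.log (Real.log (N : ℝ))) atTop atTop :=
  Real.tendsto_log_atTop.comp (Real.tendsto_log_atTop.comp tendsto_natCast_atTop_atTop)

lemma s_tendsto : Tendsto s atTop atTop := by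
  unfold s
  exact Real.tendsto_sqrt_atTop.comp (loglog_tendsto.atTop_div_const (by norm_num))

theorem roth_s (N : ℕ) (hN : 1 ≤ Real.log (Real.log N)) (hs : 2 ≤ s N) (A : Finset ℕ)
    (hA : A ⊆ range (N + 1)) (hf : Free A) :
    (A.card : ℝ) ≤ Real.exp (4 * c0) * Real.exp (-2 * c0 * s N) * (N + 1) := by
  obtain ⟨j, hj⟩ : ∃ j : ℕ, j + 1 = ⌊s N⌋₊ := by
    have : 1 ≤ ⌊s N⌋₊ := Nat.one_le_floor_iff _ |>.mpr (by linarith)
    exact ⟨⌊s N⌋₊ - 1, by omega⟩
  have hs0 : 0 ≤ s N := by linarith
  have h1 : ((j : ℝ) + 1) ≤ s N := by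
    have := Nat.floor_le hs0
    rw [← hj] at this
    exact_mod_cast this
  have h2 : s N < (j : ℝ) + 2 := by
    have := Nat.lt_floor_add_one (s N)
    rw [← hj] at this
    push_cast at this
    linarith
  have hsq : 6 * s N ^ 2 = Real.log (Real.log N) := by
    unfold s
    rw [Real.sq_sqrt (by linarith)]
    ring
  have hlogN : 0 < Real.log N := by
    by_contra h
    push Not at h
    rcases Nat.eq_zero_or_pos N with h0 | h0
    · subst h0; simp at hN; linarith
    · have : 0 ≤ Real.log N := Real.log_nonneg (by exact_mod_cast h0)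
      have h3 : Real.log N = 0 := le_antisymm h this
      rw [h3] at hN; simp at hN; linarith
  have hNpos : (0 : ℝ) < N := by
    by_contra h
    push Not at h
    have : (N : ℝ) = 0 := le_antisymm h (by positivity)
    rw [this] at hlogN; simp at hlogN
  have h3 : Real.exp (Real.exp (6 * ((j : ℝ) + 1) ^ 2)) ≤ ((N + 1 : ℕ) : ℝ) := by
    have h4 : 6 * ((j : ℝ) + 1) ^ 2 ≤ Real.log (Real.log N) := by
      rw [← hsq]; gcongr
    have h5 : Real.exp (6 * ((j : ℝ) + 1) ^ 2) ≤ Real.log N := by
      rwa [← Real.le_log_iff_exp_le hlogN]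
    have h6 : Real.exp (Real.exp (6 * ((j : ℝ) + 1) ^ 2)) ≤ N := by
      rwa [← Real.le_log_iff_exp_le hNpos]
    push_cast
    linarith
  have h4 := roth j (N + 1) h3 A hA hf
  refine h4.trans ?_
  push_cast
  have h5 : ((4000 : ℝ) / 4001) ^ j = Real.exp (-2 * c0 * j) := by
    have h6 : ((4000 : ℝ) / 4001) = Real.exp (-2 * c0) := by
      unfold c0
      rw [show -2 * (Real.log (4001 / 4000) / 2) = -Real.log (4001 / 4000) by ring,
        Real.exp_neg, Real.exp_log (by norm_num)]
      norm_num
    rw [h6, ← Real.exp_nat_mul]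
    congr 1; ring
  rw [h5]
  apply mul_le_mul_of_nonneg_right _ (by positivity)
  rw [← Real.exp_add, Real.exp_le_exp]
  have := c0_pos
  nlinarith

end Pool.Agent.Helper923.Mono
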