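import Mathlib
set_option autoImplicit false

section part_PNT602
open MeasureTheory Filter Topology Set

namespace Pool.Agent.Helper923.H403.PNT602

noncomputable section

/-- Fejer kernel. -/
def K (v : ℝ) : ℝ := if v = 0 then 1 else 2 * (1 - Real.cos v) / v ^ 2

lemma K_nonneg (v : ℝ) : 0 ≤ K v := by
  unfold K
  split_ifs
  · exact zero_le_one
  · have := Real.cos_le_one v
    apply div_nonneg _ (sq_nonneg v)
    linarith

lemma K_le_one (v : ℝ) : K v ≤ 1 := by
  unfold K
  split_ifs with h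
  · exact le_rfl
  · have h2 : 0 < v ^ 2 := by positivity
    rw [div_le_one h2]
    have := Real.one_sub_sq_div_two_le_cos (x := v)
    linarith

lemma K_mul_sq_le (v : ℝ) : K v * v ^ 2 ≤ 4 := by
  unfold K
  split_ifs with h
  · subst h; norm_num
  · have h2 : v ^ 2 ≠ 0 := by positivity
    rw [div_mul_cancel₀ _ h2]
    have := Real.neg_one_le_cos v
    linarith

lemma K_le (v : ℝ) : K v ≤ 5 * (1 + v ^ 2)⁻¹ := by
  have h1 := K_le_one v
  have h2 := K_mul_sq_le v
  have h3 : 0 < 1 + v ^ 2 := by positivity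
  rw [← div_eq_mul_inv, le_div_iff₀ h3]
  nlinarith

lemma K_measurable : Measurable K := by
  unfold K
  refine Measurable.ite (measurableSet_singleton 0) measurable_const ?_
  fun_prop

lemma K_integrable : Integrable K := by
  refine Integrable.mono' (integrable_inv_one_add_sq.const_mul 5) K_measurable.aestronglyMeasurable ?_
  refine Eventually.of_forall fun v => ?_
  rw [Real.norm_of_nonneg (K_nonneg v)]
  exact K_le v

lemma K_integral_pos : 0 < ∫ v, K v := by
  rw [integral_pos_iff_support_of_nonneg (fun v => K_nonneg v) K_integrable]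
  have hsub : Ioo (0:ℝ) 1 ⊆ Function.support K := by
    intro v hv
    simp only [Function.mem_support]
    unfold K
    rw [if_neg hv.1.ne']
    have hc : Real.cos v < 1 := by
      have := Real.cos_lt_cos_of_nonneg_of_le_pi (x := 0) (y := v) le_rfl
        (by have := Real.pi_gt_three; linarith [hv.2]) hv.1
      simpa using this
    have : 0 < 2 * (1 - Real.cos v) / v ^ 2 := by
      have := hv.1
      apply div_pos (by linarith) (by positivity)
    exact this.ne'
  refine lt_of_lt_of_le ?_ (measure_mono hsub)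
  simp

lemma fejer_real (L v : ℝ) (hL : 0 < L) :
    ∫ y in (0:ℝ)..L, 2 * (1 - y / L) * Real.cos (v * y) = L * K (L * v) := by
  by_cases hv : v = 0
  · subst hv
    simp only [zero_mul, Real.cos_zero, mul_one, mul_zero]
    have : K 0 = 1 := by simp [K]
    rw [this]
    have h1 : ∀ y ∈ uIcc (0:ℝ) L, HasDerivAt (fun y => 2 * y - y ^ 2 / L) (2 * (1 - y / L)) y := by
      intro y _
      have := ((hasDerivAt_id y).const_mul 2).sub (((hasDerivAt_id y).pow 2).div_const L)
      convert! this using 1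
      simp
      ring
    rw [intervalIntegral.integral_eq_sub_of_hasDerivAt h1 (by
      apply Continuous.intervalIntegrable; fun_prop)]
    field_simp
    ring
  · have hLv : L * v ≠ 0 := mul_ne_zero hL.ne' hv
    unfold K
    rw [if_neg hLv]
    have h1 : ∀ y ∈ uIcc (0:ℝ) L, HasDerivAt
        (fun y => 2 * (1 - y / L) * Real.sin (v * y) / v - 2 * Real.cos (v * y) / (L * v ^ 2))
        (2 * (1 - y / L) * Real.cos (v * y)) y := by
      intro y _
      have hs : HasDerivAt (fun y => Real.sin (v * y)) (Real.cos (v * y) * v) y := by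
        have := (Real.hasDerivAt_sin (v * y)).comp y ((hasDerivAt_id y).const_mul v)
        convert! this using 1
        simp
      have hc : HasDerivAt (fun y => Real.cos (v * y)) (-Real.sin (v * y) * v) y := by
        have := (Real.hasDerivAt_cos (v * y)).comp y ((hasDerivAt_id y).const_mul v)
        convert! this using 1
        simp
      have hl : HasDerivAt (fun y => 2 * (1 - y / L)) (2 * (- (1 / L))) y := by
        have := (((hasDerivAt_id y).div_const L).const_sub 1).const_mul 2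
        convert! this using 1
      have := ((hl.mul hs).div_const v).sub ((hc.const_mul 2).div_const (L * v ^ 2))
      convert! this using 1
      field_simp
      ring
    rw [intervalIntegral.integral_eq_sub_of_hasDerivAt h1 (by
      apply Continuous.intervalIntegrable; fun_prop)]
    simp only [mul_zero, Real.sin_zero, Real.cos_zero, zero_div]
    rw [div_self hL.ne']
    rw [mul_comm v L]
    field_simp
    ring

lemma fejer_complex (L v : ℝ) (hL : 0 < L) :
    ∫ y in (-L)..L, ((1 - |y| / L : ℝ) : ℂ) * Complex.exp (Complex.I * ((v * y : ℝ) : ℂ))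
      = ((L * K (L * v) : ℝ) : ℂ) := by
  set f : ℝ → ℂ := fun y => ((1 - |y| / L : ℝ) : ℂ) * Complex.exp (Complex.I * ((v * y : ℝ) : ℂ))
    with hf
  have hfc : Continuous f := by
    rw [hf]; fun_prop
  have h1 : ∫ y in (-L)..L, f y = (∫ y in (0:ℝ)..L, f (-y)) + ∫ y in (0:ℝ)..L, f y := by
    rw [intervalIntegral.integral_comp_neg, neg_zero,
      intervalIntegral.integral_add_adjacent_intervals] <;>
    exact hfc.intervalIntegrable _ _
  have hfc' : Continuous (fun y => f (-y)) := hfc.comp continuous_neg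
  rw [h1, ← intervalIntegral.integral_add (hfc'.intervalIntegrable _ _)
    (hfc.intervalIntegrable _ _), ← fejer_real L v hL, ← intervalIntegral.integral_ofReal]
  refine intervalIntegral.integral_congr fun y hy => ?_
  rw [uIcc_of_le hL.le] at hy
  simp only [hf, abs_neg, abs_of_nonneg hy.1]
  rw [← mul_add]
  push_cast
  rw [Complex.cos]
  have e1 : Complex.I * ((v:ℂ) * -(y:ℂ)) = -((v:ℂ) * y) * Complex.I := by ring
  have e2 : Complex.I * ((v:ℂ) * (y:ℂ)) = ((v:ℂ) * y) * Complex.I := by ring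
  rw [e1, e2]
  ring

section main

variable {S : ℝ → ℝ} {A C : ℝ}

/-- the function `S(e^u) e^{-u}` -/
def ff (S : ℝ → ℝ) (u : ℝ) : ℝ := S (Real.exp u) * Real.exp (-u)

lemma ff_nonneg (hS0 : ∀ x, 0 ≤ S x) (u : ℝ) : 0 ≤ ff S u :=
  mul_nonneg (hS0 _) (Real.exp_pos _).le

lemma ff_le (hSC : ∀ x, 1 ≤ x → S x ≤ C * x) {u : ℝ} (hu : 0 ≤ u) : ff S u ≤ C := by
  unfold ff
  have h1 : 1 ≤ Real.exp u := Real.one_le_exp hu
  have h2 := hSC _ h1
  calc S (Real.exp u) * Real.exp (-u) ≤ C * Real.exp u * Real.exp (-u) :=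
        mul_le_mul_of_nonneg_right h2 (Real.exp_pos _).le
    _ = C := by rw [mul_assoc, ← Real.exp_add]; simp

lemma ff_measurable (hmono : Monotone S) : Measurable (ff S) := by
  unfold ff
  exact (hmono.measurable.comp Real.measurable_exp).mul (by fun_prop)

lemma ff_shift (hmono : Monotone S) {u v : ℝ} (h : u ≤ v) :
    ff S u * Real.exp (-(v - u)) ≤ ff S v := by
  unfold ff
  have h1 : S (Real.exp u) ≤ S (Real.exp v) := hmono (Real.exp_le_exp.mpr h)
  calc S (Real.exp u) * Real.exp (-u) * Real.exp (-(v - u))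
      = S (Real.exp u) * Real.exp (-v) := by rw [mul_assoc, ← Real.exp_add]; ring_nf
    _ ≤ S (Real.exp v) * Real.exp (-v) := mul_le_mul_of_nonneg_right h1 (Real.exp_pos _).le

/-- Fubini step. -/
lemma fubini_step (hmono : Monotone S) (hS0 : ∀ x, 0 ≤ S x) (hSC : ∀ x, 1 ≤ x → S x ≤ C * x)
    (L σ x : ℝ) (hL : 0 < L) (hσ : 0 < σ) :
    ∫ y in (-L)..L, ((1 - |y| / L : ℝ) : ℂ) * Complex.exp (Complex.I * ((x * y : ℝ) : ℂ)) *
      (∫ u in Ioi (0:ℝ), ((ff S u - A : ℝ) : ℂ) * Complex.exp (-((σ:ℂ) + Complex.I * y) * u))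
    = ((∫ u in Ioi (0:ℝ), (ff S u - A) * Real.exp (-σ * u) * (L * K (L * (x - u))) : ℝ) : ℂ) := by
  have hLL : -L ≤ L := by linarith
  set g : ℝ → ℝ → ℂ := fun y u => ((1 - |y| / L : ℝ) : ℂ) * Complex.exp (Complex.I * ((x * y : ℝ) : ℂ)) *
      (((ff S u - A : ℝ) : ℂ) * Complex.exp (-((σ:ℂ) + Complex.I * y) * u)) with hg
  have hff := ff_measurable hmono
  have hgm : Measurable (Function.uncurry g) := by
    have hm : Measurable (fun p : ℝ × ℝ => ff S p.2) := hff.comp measurable_snd
    have : Function.uncurry g = fun p : ℝ × ℝ => ((1 - |p.1| / L : ℝ) : ℂ) *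
      Complex.exp (Complex.I * ((x * p.1 : ℝ) : ℂ)) *
      (((ff S p.2 - A : ℝ) : ℂ) * Complex.exp (-((σ:ℂ) + Complex.I * p.1) * p.2)) := by
      ext p; rfl
    rw [this]
    fun_prop
  have hnorm : ∀ y ∈ Ioc (-L) L, ∀ u ∈ Ioi (0:ℝ), ‖g y u‖ ≤ (C + |A|) * Real.exp (-σ * u) := by
    intro y hy u hu
    have hu' : (0:ℝ) ≤ u := le_of_lt hu
    simp only [hg, norm_mul, Complex.norm_exp, Complex.norm_real]
    have e1 : (Complex.I * ((x * y : ℝ) : ℂ)).re = 0 := by
      simp
    have e2 : (-((σ:ℂ) + Complex.I * y) * u).re = -σ * u := by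
      simp
    rw [e1, e2, Real.exp_zero, mul_one]
    have h1 : ‖1 - |y| / L‖ ≤ 1 := by
      have hy1 : |y| ≤ L := abs_le.mpr ⟨hy.1.le, hy.2⟩
      have hy2 : |y| / L ≤ 1 := (div_le_one hL).mpr hy1
      have hy3 : 0 ≤ |y| / L := by positivity
      rw [Real.norm_eq_abs, abs_le]
      constructor <;> linarith
    have h2 : ‖ff S u - A‖ ≤ C + |A| := by
      have a1 := ff_nonneg hS0 u
      have a2 := ff_le hSC hu'
      calc ‖ff S u - A‖ ≤ ‖ff S u‖ + ‖A‖ := norm_sub_le _ _
        _ ≤ C + |A| := by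
          rw [Real.norm_of_nonneg a1, Real.norm_eq_abs]
          linarith
    have h3 := Real.exp_pos (-σ * u)
    calc ‖1 - |y| / L‖ * (‖ff S u - A‖ * Real.exp (-σ * u))
        ≤ 1 * ((C + |A|) * Real.exp (-σ * u)) := by
          apply mul_le_mul h1 _ (by positivity) zero_le_one
          exact mul_le_mul_of_nonneg_right h2 h3.le
      _ = _ := one_mul _
  have hexp : IntegrableOn (fun u => Real.exp (-σ * u)) (Ioi 0) := by
    exact integrableOn_exp_mul_Ioi (by linarith) 0
  have hint : Integrable (Function.uncurry g)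
      ((volume.restrict (Ioc (-L) L)).prod (volume.restrict (Ioi (0:ℝ)))) := by
    have hb : Integrable (fun p : ℝ × ℝ => (1:ℝ) * ((C + |A|) * Real.exp (-σ * p.2)))
        ((volume.restrict (Ioc (-L) L)).prod (volume.restrict (Ioi (0:ℝ)))) := by
      apply Integrable.mul_prod (f := fun _ : ℝ => (1:ℝ))
        (g := fun u => (C + |A|) * Real.exp (-σ * u))
      · exact integrable_const _
      · exact hexp.const_mul _
    refine Integrable.mono' hb hgm.aestronglyMeasurable ?_
    rw [Measure.prod_restrict]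
    refine (ae_restrict_mem (measurableSet_Ioc.prod measurableSet_Ioi)).mono ?_
    intro p hp
    rw [one_mul]
    exact hnorm p.1 hp.1 p.2 hp.2
  rw [intervalIntegral.integral_of_le hLL]
  have step1 : ∫ y in Ioc (-L) L, ((1 - |y| / L : ℝ) : ℂ) * Complex.exp (Complex.I * ((x * y : ℝ) : ℂ)) *
      (∫ u in Ioi (0:ℝ), ((ff S u - A : ℝ) : ℂ) * Complex.exp (-((σ:ℂ) + Complex.I * y) * u))
      = ∫ y in Ioc (-L) L, ∫ u in Ioi (0:ℝ), g y u := by
    refine integral_congr_ae (Eventually.of_forall fun y => ?_)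
    simp only [hg]
    rw [integral_const_mul]
  rw [step1, integral_integral_swap hint, ← integral_complex_ofReal]
  refine integral_congr_ae (Eventually.of_forall fun u => ?_)
  simp only [hg]
  have hfe := fejer_complex L (x - u) hL
  rw [intervalIntegral.integral_of_le hLL] at hfe
  have : ∀ y : ℝ, ((1 - |y| / L : ℝ) : ℂ) * Complex.exp (Complex.I * ((x * y : ℝ) : ℂ)) *
      (((ff S u - A : ℝ) : ℂ) * Complex.exp (-((σ:ℂ) + Complex.I * y) * u))
      = (((ff S u - A) * Real.exp (-σ * u) : ℝ) : ℂ) *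
        (((1 - |y| / L : ℝ) : ℂ) * Complex.exp (Complex.I * (((x - u) * y : ℝ) : ℂ))) := by
    intro y
    have e : Complex.exp (Complex.I * ((x * y : ℝ) : ℂ)) * Complex.exp (-((σ:ℂ) + Complex.I * y) * u)
      = ((Real.exp (-σ * u) : ℝ) : ℂ) * Complex.exp (Complex.I * (((x - u) * y : ℝ) : ℂ)) := by
      rw [← Complex.exp_add, Complex.ofReal_exp, ← Complex.exp_add]
      congr 1
      push_cast
      ring
    push_cast at e ⊢
    linear_combination (1 - ((|y| : ℝ) : ℂ) / L) * ((ff S u : ℂ) - A) * e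
  simp_rw [this]
  rw [integral_const_mul, hfe]
  push_cast
  ring

lemma K_shift_integrable (L x : ℝ) (hL : 0 < L) : Integrable (fun u => L * K (L * (x - u))) := by
  have h1 : Integrable (fun v => K (L * v)) := K_integrable.comp_mul_left' hL.ne'
  exact (h1.comp_sub_left x).const_mul L

/-- limit `σ → 0+` -/
lemma limit_step (hmono : Monotone S) (hS0 : ∀ x, 0 ≤ S x) (hSC : ∀ x, 1 ≤ x → S x ≤ C * x)
    {Φ : ℂ → ℂ} (hΦ : ContinuousOn Φ {z | 0 ≤ z.re})
    (hE : ∀ σ : ℝ, 0 < σ → ∀ y : ℝ, ∫ u in Ioi (0:ℝ), ((ff S u - A : ℝ) : ℂ) *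
      Complex.exp (-((σ:ℂ) + Complex.I * y) * u) = Φ (σ + Complex.I * y))
    (L x : ℝ) (hL : 0 < L) :
    ∫ y in (-L)..L, ((1 - |y| / L : ℝ) : ℂ) * Complex.exp (Complex.I * ((x * y : ℝ) : ℂ)) *
      Φ (Complex.I * y)
     = ((∫ u in Ioi (0:ℝ), (ff S u - A) * (L * K (L * (x - u))) : ℝ) : ℂ) := by
  have hLL : -L ≤ L := by linarith
  have hff := ff_measurable hmono
  have hC : 0 ≤ C := (ff_nonneg hS0 0).trans (ff_le hSC le_rfl)
  -- left side
  have hl : Tendsto (fun σ : ℝ => ∫ y in (-L)..L, ((1 - |y| / L : ℝ) : ℂ) *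
      Complex.exp (Complex.I * ((x * y : ℝ) : ℂ)) * Φ (σ + Complex.I * y)) (𝓝[>] 0)
      (𝓝 (∫ y in (-L)..L, ((1 - |y| / L : ℝ) : ℂ) *
      Complex.exp (Complex.I * ((x * y : ℝ) : ℂ)) * Φ (Complex.I * y))) := by
    have hcont : ContinuousOn (fun p : ℝ × ℝ => Φ ((p.1:ℂ) + Complex.I * p.2))
        (Icc 0 1 ×ˢ Icc (-L) L) := by
      refine hΦ.comp (by fun_prop) ?_
      intro p hp
      simp only [mem_ofPred_eq, Complex.add_re, Complex.ofReal_re, Complex.mul_re, Complex.I_re,
        zero_mul, Complex.I_im, Complex.ofReal_im, mul_zero, sub_zero, add_zero]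
      exact hp.1.1
    obtain ⟨M, hM⟩ := (isCompact_Icc.prod isCompact_Icc).exists_bound_of_continuousOn hcont
    refine intervalIntegral.tendsto_integral_filter_of_dominated_convergence (fun _ => M) ?_ ?_ ?_ ?_
    · filter_upwards [self_mem_nhdsWithin] with σ hσ
      have hσ' : (0:ℝ) ≤ σ := le_of_lt hσ
      refine Continuous.aestronglyMeasurable ?_
      refine Continuous.mul (by fun_prop) ?_
      refine hΦ.comp_continuous (by fun_prop) ?_
      intro y
      simpa using hσ'
    · have h1 : ∀ᶠ σ : ℝ in 𝓝[>] 0, σ < 1 := nhdsWithin_le_nhds (Iio_mem_nhds one_pos)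
      filter_upwards [self_mem_nhdsWithin, h1] with σ hσ hσ1
      have hσ' : (0:ℝ) ≤ σ := le_of_lt hσ
      refine Eventually.of_forall fun y hy => ?_
      rw [uIoc_of_le hLL] at hy
      have hb := hM (σ, y) ⟨⟨hσ', hσ1.le⟩, ⟨hy.1.le, hy.2⟩⟩
      rw [norm_mul, norm_mul, Complex.norm_exp]
      have e1 : (Complex.I * ((x * y : ℝ) : ℂ)).re = 0 := by simp
      rw [e1, Real.exp_zero, mul_one, Complex.norm_real]
      have hy1 : |y| ≤ L := abs_le.mpr ⟨hy.1.le, hy.2⟩
      have hy2 : |y| / L ≤ 1 := (div_le_one hL).mpr hy1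
      have hy3 : 0 ≤ |y| / L := by positivity
      have h1 : ‖1 - |y| / L‖ ≤ 1 := by
        rw [Real.norm_eq_abs, abs_le]
        constructor <;> linarith
      calc ‖1 - |y| / L‖ * ‖Φ (σ + Complex.I * y)‖ ≤ 1 * M :=
            mul_le_mul h1 hb (norm_nonneg _) zero_le_one
        _ = M := one_mul _
    · exact intervalIntegrable_const
    · refine Eventually.of_forall fun y hy => ?_
      refine Tendsto.const_mul _ ?_
      have hc := hΦ (Complex.I * y) (by simp)
      have : Tendsto (fun σ : ℝ => (σ : ℂ) + Complex.I * y) (𝓝[>] 0)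
          (𝓝[{z | 0 ≤ z.re}] (Complex.I * y)) := by
        refine tendsto_nhdsWithin_iff.mpr ⟨?_, ?_⟩
        · have h0 : Continuous (fun σ : ℝ => (σ : ℂ) + Complex.I * y) := by fun_prop
          have := h0.tendsto 0
          simp only [Complex.ofReal_zero, zero_add] at this
          exact this.mono_left nhdsWithin_le_nhds
        · filter_upwards [self_mem_nhdsWithin] with σ hσ
          have hσ' : (0:ℝ) ≤ σ := le_of_lt hσ
          simpa using hσ'
      exact Tendsto.comp hc this
  have hr : Tendsto (fun σ : ℝ => ∫ u in Ioi (0:ℝ), (ff S u - A) * Real.exp (-σ * u) *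
      (L * K (L * (x - u)))) (𝓝[>] 0)
      (𝓝 (∫ u in Ioi (0:ℝ), (ff S u - A) * (L * K (L * (x - u))))) := by
    refine tendsto_integral_filter_of_dominated_convergence
      (fun u => (C + |A|) * (L * K (L * (x - u)))) ?_ ?_ ?_ ?_
    · refine Eventually.of_forall fun σ => ?_
      refine Measurable.aestronglyMeasurable ?_
      have := K_measurable
      fun_prop
    · filter_upwards [self_mem_nhdsWithin] with σ hσ
      have hσ' : (0:ℝ) < σ := hσ
      refine (ae_restrict_mem measurableSet_Ioi).mono fun u hu => ?_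
      have hu' : (0:ℝ) ≤ u := le_of_lt hu
      rw [norm_mul, norm_mul, Real.norm_of_nonneg (Real.exp_pos _).le,
        Real.norm_of_nonneg (mul_nonneg hL.le (K_nonneg _))]
      refine mul_le_mul_of_nonneg_right ?_ (mul_nonneg hL.le (K_nonneg _))
      have a1 := ff_nonneg hS0 u
      have a2 := ff_le hSC hu'
      have h2 : ‖ff S u - A‖ ≤ C + |A| := by
        calc ‖ff S u - A‖ ≤ ‖ff S u‖ + ‖A‖ := norm_sub_le _ _
          _ ≤ C + |A| := by
            rw [Real.norm_of_nonneg a1, Real.norm_eq_abs]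
            linarith
      have h3 : Real.exp (-σ * u) ≤ 1 := by
        rw [Real.exp_le_one_iff]
        have := mul_nonneg hσ'.le hu'
        linarith
      calc ‖ff S u - A‖ * Real.exp (-σ * u) ≤ (C + |A|) * 1 :=
            mul_le_mul h2 h3 (Real.exp_pos _).le (by positivity)
        _ = _ := mul_one _
    · exact ((K_shift_integrable L x hL).const_mul _).integrableOn
    · refine Eventually.of_forall fun u => ?_
      refine Tendsto.mul_const _ ?_
      have h0 : Continuous (fun σ : ℝ => (ff S u - A) * Real.exp (-σ * u)) := by fun_prop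
      have := h0.tendsto 0
      simp only [neg_zero, zero_mul, Real.exp_zero, mul_one] at this
      exact this.mono_left nhdsWithin_le_nhds
  have hr' := (Complex.continuous_ofReal.tendsto _).comp hr
  refine tendsto_nhds_unique hl (hr'.congr' ?_)
  filter_upwards [self_mem_nhdsWithin] with σ hσ
  have hσ' : (0:ℝ) < σ := hσ
  simp only [Function.comp]
  rw [← fubini_step hmono hS0 hSC L σ x hL hσ']
  refine intervalIntegral.integral_congr fun y _ => ?_
  rw [hE σ hσ' y]

/-- Riemann-Lebesgue step. -/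
lemma rl_step (hmono : Monotone S) (hS0 : ∀ x, 0 ≤ S x) (hSC : ∀ x, 1 ≤ x → S x ≤ C * x)
    {Φ : ℂ → ℂ} (hΦ : ContinuousOn Φ {z | 0 ≤ z.re})
    (hE : ∀ σ : ℝ, 0 < σ → ∀ y : ℝ, ∫ u in Ioi (0:ℝ), ((ff S u - A : ℝ) : ℂ) *
      Complex.exp (-((σ:ℂ) + Complex.I * y) * u) = Φ (σ + Complex.I * y))
    (L : ℝ) (hL : 0 < L) :
    Tendsto (fun x : ℝ => ∫ u in Ioi (0:ℝ), (ff S u - A) * (L * K (L * (x - u)))) atTop (𝓝 0) := by
  have hLL : -L ≤ L := by linarith
  set f : ℝ → ℂ := (Ioc (-L) L).indicator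
    (fun y => ((1 - |y| / L : ℝ) : ℂ) * Φ (Complex.I * y)) with hf
  have hrl := Real.tendsto_integral_exp_smul_cocompact f
  have hmap : Tendsto (fun x : ℝ => -x / (2 * Real.pi)) atTop (cocompact ℝ) := by
    refine Tendsto.mono_right ?_ atBot_le_cocompact
    have hpi : 0 < 2 * Real.pi := by positivity
    exact (tendsto_neg_atTop_atBot).atBot_div_const hpi
  have h1 := hrl.comp hmap
  have h2 : (fun w : ℝ => ∫ v : ℝ, Real.fourierChar (-(v * w)) • f v) ∘ (fun x : ℝ => -x / (2 * Real.pi))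
      = fun x : ℝ => ((∫ u in Ioi (0:ℝ), (ff S u - A) * (L * K (L * (x - u))) : ℝ) : ℂ) := by
    ext x
    rw [← limit_step hmono hS0 hSC hΦ hE L x hL, intervalIntegral.integral_of_le hLL,
      ← integral_indicator measurableSet_Ioc]
    simp only [Function.comp]
    refine integral_congr_ae (Eventually.of_forall fun y => ?_)
    simp only [hf]
    by_cases hy : y ∈ Ioc (-L) L
    · rw [indicator_of_mem hy, indicator_of_mem hy, Circle.smul_def, Real.fourierChar_apply,
        smul_eq_mul]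
      have e : Complex.exp (2 * Real.pi * (-(y * (-x / (2 * Real.pi))) : ℝ) * Complex.I)
        = Complex.exp (Complex.I * ((x * y : ℝ) : ℂ)) := by
        congr 1
        have hpi : (Real.pi : ℂ) ≠ 0 := by exact_mod_cast Real.pi_ne_zero
        push_cast
        field_simp
      push_cast at e ⊢
      rw [e]
      ring
    · rw [indicator_of_notMem hy, indicator_of_notMem hy, smul_zero]
  rw [h2] at h1
  have h3 := (Complex.continuous_re.tendsto _).comp h1
  simpa only [Function.comp_def, Complex.ofReal_re, Complex.zero_re] using h3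

/-- window mass -/
def J (r : ℝ) : ℝ := ∫ v in (-r)..r, K v

lemma J_tendsto : Tendsto J atTop (𝓝 (∫ v, K v)) :=
  intervalIntegral_tendsto_integral K_integrable tendsto_neg_atTop_atBot tendsto_id

lemma window (L x δ : ℝ) :
    ∫ u in (x - δ)..(x + δ), L * K (L * (x - u)) = J (L * δ) := by
  have h1 := intervalIntegral.integral_comp_sub_left (a := x - δ) (b := x + δ)
    (fun w => L * K (L * w)) x
  rw [h1]
  have e1 : x - (x + δ) = -δ := by ring
  have e2 : x - (x - δ) = δ := by ring
  rw [e1, e2, intervalIntegral.integral_const_mul, intervalIntegral.mul_integral_comp_mul_left]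
  unfold J
  rw [mul_neg]

lemma Q_tendsto (L : ℝ) (hL : 0 < L) :
    Tendsto (fun x : ℝ => ∫ u in Ioi (0:ℝ), L * K (L * (x - u))) atTop (𝓝 (∫ v, K v)) := by
  have h1 : Integrable (fun v => L * K (L * v)) := (K_integrable.comp_mul_left' hL.ne').const_mul L
  have e : ∀ x : ℝ, ∫ u in Ioi (0:ℝ), L * K (L * (x - u)) = ∫ w in Iio x, L * K (L * w) := by
    intro x
    rw [← integral_indicator measurableSet_Ioi, ← integral_indicator measurableSet_Iio,
      ← integral_sub_left_eq_self _ _ x]
    refine integral_congr_ae (Eventually.of_forall fun u => ?_)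
    simp only
    by_cases hu : u < x
    · rw [indicator_of_mem (show x - u ∈ Ioi 0 from sub_pos.mpr hu),
        indicator_of_mem (show u ∈ Iio x from hu), sub_sub_cancel]
    · rw [indicator_of_notMem (show x - u ∉ Ioi 0 from fun h => hu (sub_pos.mp h)),
        indicator_of_notMem (show u ∉ Iio x from hu)]
  simp_rw [e]
  have h2 := (aecover_Iio (μ := (volume : Measure ℝ)) (tendsto_id (α := ℝ) (x := atTop))).integral_tendsto_of_countably_generated h1
  have h3 : ∫ v, L * K (L * v) = ∫ v, K v := by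
    rw [integral_const_mul, Measure.integral_comp_mul_left, smul_eq_mul, abs_of_pos (inv_pos.mpr hL)]
    field_simp
  rw [h3] at h2
  exact h2

lemma tauber (hmono : Monotone S) (hS0 : ∀ x, 0 ≤ S x) (hSC : ∀ x, 1 ≤ x → S x ≤ C * x)
    (h : ∀ L : ℝ, 0 < L → Tendsto (fun x : ℝ => ∫ u in Ioi (0:ℝ), (ff S u - A) *
      (L * K (L * (x - u)))) atTop (𝓝 0)) :
    Tendsto (ff S) atTop (𝓝 A) := by
  set I : ℝ := ∫ v, K v with hI
  have hIpos : 0 < I := K_integral_pos
  have hff := ff_measurable hmono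
  have hC : 0 ≤ C := (ff_nonneg hS0 0).trans (ff_le hSC le_rfl)
  -- integrability of ff * kernel
  have hPint : ∀ L : ℝ, 0 < L → ∀ x : ℝ,
      IntegrableOn (fun u => ff S u * (L * K (L * (x - u)))) (Ioi 0) := by
    intro L hL x
    refine Integrable.mono' (((K_shift_integrable L x hL).const_mul C).integrableOn) ?_ ?_
    · refine Measurable.aestronglyMeasurable ?_
      have := K_measurable
      fun_prop
    · refine (ae_restrict_mem measurableSet_Ioi).mono fun u hu => ?_
      have hu' : (0:ℝ) ≤ u := le_of_lt hu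
      have hk : 0 ≤ L * K (L * (x - u)) := mul_nonneg hL.le (K_nonneg _)
      rw [norm_mul, Real.norm_of_nonneg (ff_nonneg hS0 u), Real.norm_of_nonneg hk]
      exact mul_le_mul_of_nonneg_right (ff_le hSC hu') hk
  have hP : ∀ L : ℝ, 0 < L → Tendsto (fun x : ℝ => ∫ u in Ioi (0:ℝ), ff S u *
      (L * K (L * (x - u)))) atTop (𝓝 (A * I)) := by
    intro L hL
    have h1 := (h L hL).add ((Q_tendsto L hL).const_mul A)
    rw [zero_add] at h1
    refine h1.congr fun x => ?_
    rw [← integral_const_mul, ← integral_add]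
    · refine integral_congr_ae (Eventually.of_forall fun u => ?_)
      simp only
      ring
    · have e : (fun u => (ff S u - A) * (L * K (L * (x - u))))
        = fun u => ff S u * (L * K (L * (x - u))) - A * (L * K (L * (x - u))) := by
        ext u; ring
      rw [e]
      exact (hPint L hL x).sub (((K_shift_integrable L x hL).const_mul A).integrableOn)
    · exact ((K_shift_integrable L x hL).const_mul A).integrableOn
  have hJ0 : ∀ r, 0 ≤ r → 0 ≤ J r := by
    intro r hr
    exact intervalIntegral.integral_nonneg (by linarith) fun v _ => K_nonneg v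
  have hA0 : 0 ≤ A := by
    have h1 : 0 ≤ A * I := ge_of_tendsto' (hP 1 one_pos) fun x =>
      setIntegral_nonneg measurableSet_Ioi fun u _ =>
        mul_nonneg (ff_nonneg hS0 u) (mul_nonneg one_pos.le (K_nonneg _))
    by_contra hA
    push Not at hA
    have := mul_neg_of_neg_of_pos hA hIpos
    linarith
  -- upper inequality
  have hup : ∀ L δ x : ℝ, 0 < L → 0 < δ → δ ≤ x →
      ff S (x - δ) * Real.exp (-(2 * δ)) * J (L * δ) ≤
        ∫ u in Ioi (0:ℝ), ff S u * (L * K (L * (x - u))) := by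
    intro L δ x hL hδ hx
    have hle : x - δ ≤ x + δ := by linarith
    rw [← window L x δ, ← intervalIntegral.integral_const_mul, intervalIntegral.integral_of_le hle]
    have hsub : Ioc (x - δ) (x + δ) ⊆ Ioi 0 := by
      intro u hu
      have := hu.1
      simp only [mem_Ioi]
      linarith
    calc ∫ u in Ioc (x - δ) (x + δ), ff S (x - δ) * Real.exp (-(2 * δ)) * (L * K (L * (x - u)))
        ≤ ∫ u in Ioc (x - δ) (x + δ), ff S u * (L * K (L * (x - u))) := by
          refine setIntegral_mono_on ((K_shift_integrable L x hL).const_mul _).integrableOn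
            ((hPint L hL x).mono_set hsub) measurableSet_Ioc fun u hu => ?_
          have hk : 0 ≤ L * K (L * (x - u)) := mul_nonneg hL.le (K_nonneg _)
          refine mul_le_mul_of_nonneg_right ?_ hk
          refine le_trans ?_ (ff_shift hmono hu.1.le)
          refine mul_le_mul_of_nonneg_left ?_ (ff_nonneg hS0 _)
          apply Real.exp_le_exp.mpr
          have := hu.2
          linarith
      _ ≤ ∫ u in Ioi (0:ℝ), ff S u * (L * K (L * (x - u))) := by
          refine setIntegral_mono_set (hPint L hL x) ?_ hsub.eventuallyLE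
          exact Eventually.of_forall fun u =>
            mul_nonneg (ff_nonneg hS0 u) (mul_nonneg hL.le (K_nonneg _))
  have hlow : ∀ L δ x : ℝ, 0 < L → 0 < δ → δ ≤ x →
      ∫ u in Ioi (0:ℝ), ff S u * (L * K (L * (x - u))) ≤
        (ff S (x + δ) * Real.exp (2 * δ) - C) * J (L * δ) + C * I := by
    intro L δ x hL hδ hx
    have hle : x - δ ≤ x + δ := by linarith
    have hsub : Ioc (x - δ) (x + δ) ⊆ Ioi 0 := by
      intro u hu
      have := hu.1
      simp only [mem_Ioi]
      linarith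
    have hk : ∀ u, 0 ≤ L * K (L * (x - u)) := fun u => mul_nonneg hL.le (K_nonneg _)
    have hki := K_shift_integrable L x hL
    have h1 : ∫ u in Ioi (0:ℝ), C * (L * K (L * (x - u))) ≤ C * I := by
      have h2 : ∫ u in Ioi (0:ℝ), L * K (L * (x - u)) ≤ I := by
        have h3 : ∫ u in Ioi (0:ℝ), L * K (L * (x - u)) ≤ ∫ u, L * K (L * (x - u)) :=
          setIntegral_le_integral hki (Eventually.of_forall hk)
        have h4 : ∫ u, L * K (L * (x - u)) = I := by
          rw [integral_sub_left_eq_self (fun w => L * K (L * w)) volume x, integral_const_mul,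
            Measure.integral_comp_mul_left, smul_eq_mul, abs_of_pos (inv_pos.mpr hL)]
          field_simp
          rfl
        linarith
      rw [integral_const_mul]
      exact mul_le_mul_of_nonneg_left h2 hC
    have h5 : ∫ u in Ioi (0:ℝ), (Ioc (x - δ) (x + δ)).indicator
        (fun u => (ff S (x + δ) * Real.exp (2 * δ) - C) * (L * K (L * (x - u)))) u
        = (ff S (x + δ) * Real.exp (2 * δ) - C) * J (L * δ) := by
      rw [setIntegral_indicator measurableSet_Ioc, inter_eq_self_of_subset_right hsub,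
        integral_const_mul, ← window L x δ, intervalIntegral.integral_of_le hle]
    calc ∫ u in Ioi (0:ℝ), ff S u * (L * K (L * (x - u)))
        ≤ ∫ u in Ioi (0:ℝ), ((Ioc (x - δ) (x + δ)).indicator
        (fun u => (ff S (x + δ) * Real.exp (2 * δ) - C) * (L * K (L * (x - u)))) u
          + C * (L * K (L * (x - u)))) := by
          refine setIntegral_mono_on (hPint L hL x) ?_ measurableSet_Ioi fun u hu => ?_
          · exact (((hki.const_mul _).indicator measurableSet_Ioc).integrableOn).add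
              (hki.const_mul _).integrableOn
          · by_cases huw : u ∈ Ioc (x - δ) (x + δ)
            · rw [indicator_of_mem huw]
              have h6 : ff S u ≤ ff S (x + δ) * Real.exp (2 * δ) := by
                have h7 := ff_shift hmono huw.2
                have h8 : ff S u = ff S u * Real.exp (-(x + δ - u)) * Real.exp (x + δ - u) := by
                  rw [mul_assoc, ← Real.exp_add]; simp
                rw [h8]
                refine mul_le_mul h7 ?_ (Real.exp_pos _).le (ff_nonneg hS0 _)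
                apply Real.exp_le_exp.mpr
                have := huw.1
                linarith
              have := mul_le_mul_of_nonneg_right h6 (hk u)
              linarith
            · rw [indicator_of_notMem huw, zero_add]
              exact mul_le_mul_of_nonneg_right (ff_le hSC (le_of_lt hu)) (hk u)
      _ = (ff S (x + δ) * Real.exp (2 * δ) - C) * J (L * δ)
          + ∫ u in Ioi (0:ℝ), C * (L * K (L * (x - u))) := by
          rw [integral_add, h5]
          · exact ((hki.const_mul _).indicator measurableSet_Ioc).integrableOn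
          · exact (hki.const_mul _).integrableOn
      _ ≤ _ := by linarith
  -- choice of parameters
  have hJn : Tendsto (fun n : ℕ => J ((n:ℝ) + 1)) atTop (𝓝 I) :=
    J_tendsto.comp (tendsto_atTop_add_const_right _ _ tendsto_natCast_atTop_atTop)
  have hδn : Tendsto (fun n : ℕ => 1 / ((n:ℝ) + 1)) atTop (𝓝 0) :=
    tendsto_one_div_add_atTop_nhds_zero_nat
  have hen : Tendsto (fun n : ℕ => Real.exp (2 * (1 / ((n:ℝ) + 1)))) atTop (𝓝 1) := by
    have := (Real.continuous_exp.tendsto _).comp (hδn.const_mul 2)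
    simpa [Function.comp_def] using this
  have hen' : Tendsto (fun n : ℕ => Real.exp (-(2 * (1 / ((n:ℝ) + 1))))) atTop (𝓝 1) := by
    have := (Real.continuous_exp.tendsto _).comp ((hδn.const_mul 2).neg)
    simpa [Function.comp_def] using this
  have hLδ : ∀ n : ℕ, ((n:ℝ) + 1) ^ 2 * (1 / ((n:ℝ) + 1)) = (n:ℝ) + 1 := by
    intro n
    have : (n:ℝ) + 1 ≠ 0 := by positivity
    field_simp
  rw [Metric.tendsto_atTop]
  intro ε hε
  -- upper
  have hupper : ∀ᶠ y in atTop, ff S y < A + ε := by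
    have ha : Tendsto (fun n : ℕ => (A * I) * Real.exp (2 * (1 / ((n:ℝ) + 1))) / J ((n:ℝ) + 1))
        atTop (𝓝 A) := by
      have := ((hen.const_mul (A * I)).div hJn hIpos.ne')
      rw [mul_one, mul_div_assoc, div_self hIpos.ne', mul_one] at this
      exact this
    obtain ⟨n, hn1, hn2⟩ := ((ha.eventually (gt_mem_nhds (show A < A + ε by linarith))).and
      (hJn.eventually (lt_mem_nhds hIpos))).exists
    set δ : ℝ := 1 / ((n:ℝ) + 1) with hδ
    set L : ℝ := ((n:ℝ) + 1) ^ 2 with hLdef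
    have hδ0 : 0 < δ := by positivity
    have hL0 : 0 < L := by positivity
    have hlim : Tendsto (fun x : ℝ => (∫ u in Ioi (0:ℝ), ff S u * (L * K (L * (x - u)))) *
        Real.exp (2 * δ) / J ((n:ℝ) + 1)) atTop (𝓝 ((A * I) * Real.exp (2 * δ) / J ((n:ℝ) + 1))) :=
      ((hP L hL0).mul_const _).div_const _
    have hev := hlim.eventually (gt_mem_nhds hn1)
    have hshift : Tendsto (fun y : ℝ => y + δ) atTop atTop :=
      tendsto_atTop_add_const_right _ _ tendsto_id
    filter_upwards [hshift.eventually hev, eventually_ge_atTop 0] with y hy hy0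
    refine lt_of_le_of_lt ?_ hy
    have h1 := hup L δ (y + δ) hL0 hδ0 (by linarith)
    rw [add_sub_cancel_right, hLdef, hδ, hLδ n, ← hδ, ← hLdef] at h1
    rw [le_div_iff₀ hn2]
    have h2 := mul_le_mul_of_nonneg_right h1 (Real.exp_pos (2 * δ)).le
    refine le_trans (le_of_eq ?_) h2
    have : Real.exp (-(2 * δ)) * Real.exp (2 * δ) = 1 := by rw [← Real.exp_add]; simp
    linear_combination (-ff S y * J ((n:ℝ) + 1)) * this
  have hlower : ∀ᶠ y in atTop, A - ε < ff S y := by
    have ha : Tendsto (fun n : ℕ => ((A * I) - C * (I - J ((n:ℝ) + 1))) *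
        Real.exp (-(2 * (1 / ((n:ℝ) + 1)))) / J ((n:ℝ) + 1)) atTop (𝓝 A) := by
      have h1 : Tendsto (fun n : ℕ => (A * I) - C * (I - J ((n:ℝ) + 1))) atTop (𝓝 (A * I)) := by
        have := (((tendsto_const_nhds (x := I)).sub hJn).const_mul C).const_sub (A * I)
        simpa using this
      have := ((h1.mul hen').div hJn hIpos.ne')
      rw [mul_one, mul_div_assoc, div_self hIpos.ne', mul_one] at this
      exact this
    obtain ⟨n, hn1, hn2⟩ := ((ha.eventually (lt_mem_nhds (show A - ε < A by linarith))).and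
      (hJn.eventually (lt_mem_nhds hIpos))).exists
    set δ : ℝ := 1 / ((n:ℝ) + 1) with hδ
    set L : ℝ := ((n:ℝ) + 1) ^ 2 with hLdef
    have hδ0 : 0 < δ := by positivity
    have hL0 : 0 < L := by positivity
    have hlim : Tendsto (fun x : ℝ => ((∫ u in Ioi (0:ℝ), ff S u * (L * K (L * (x - u))))
        - C * (I - J ((n:ℝ) + 1))) * Real.exp (-(2 * δ)) / J ((n:ℝ) + 1)) atTop
        (𝓝 (((A * I) - C * (I - J ((n:ℝ) + 1))) * Real.exp (-(2 * δ)) / J ((n:ℝ) + 1))) :=
      (((hP L hL0).sub_const _).mul_const _).div_const _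
    have hev := hlim.eventually (lt_mem_nhds hn1)
    have hshift : Tendsto (fun y : ℝ => y - δ) atTop atTop :=
      tendsto_atTop_add_const_right _ _ tendsto_id
    filter_upwards [hshift.eventually hev, eventually_ge_atTop (2 * δ)] with y hy hy0
    refine lt_of_lt_of_le hy ?_
    have h1 := hlow L δ (y - δ) hL0 hδ0 (by linarith)
    rw [sub_add_cancel, hLdef, hδ, hLδ n, ← hδ, ← hLdef] at h1
    rw [div_le_iff₀ hn2]
    have h2 : (∫ u in Ioi (0:ℝ), ff S u * (L * K (L * (y - δ - u)))) - C * (I - J ((n:ℝ) + 1))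
        ≤ ff S y * Real.exp (2 * δ) * J ((n:ℝ) + 1) := by linarith
    have h3 := mul_le_mul_of_nonneg_right h2 (Real.exp_pos (-(2 * δ))).le
    refine le_trans h3 (le_of_eq ?_)
    have : Real.exp (-(2 * δ)) * Real.exp (2 * δ) = 1 := by rw [← Real.exp_add]; simp
    linear_combination (ff S y * J ((n:ℝ) + 1)) * this
  obtain ⟨N, hN⟩ := (hupper.and hlower).exists_forall_of_atTop
  refine ⟨N, fun y hy => ?_⟩
  have := hN y hy
  rw [Real.dist_eq, abs_lt]
  constructor <;> linarith [this.1, this.2]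

end main

/-- Wiener-Ikehara Tauberian theorem for Dirichlet series with nonnegative coefficients and
`O(x)` summatory function. -/
theorem wiener_ikehara (f : ℕ → ℝ) (hf : ∀ n, 0 ≤ f n) (C A : ℝ)
    (hC : ∀ n : ℕ, ∑ k ∈ Finset.Icc 1 n, f k ≤ C * n)
    (F : ℂ → ℂ) (hF : ContinuousOn F {s | 1 ≤ s.re})
    (hFE : ∀ s : ℂ, 1 < s.re → F s = LSeries (fun n => (f n : ℂ)) s - A / (s - 1)) :
    Tendsto (fun x : ℝ => (∑ k ∈ Finset.Icc 1 ⌊x⌋₊, f k) / x) atTop (𝓝 A) := by
  set S : ℝ → ℝ := fun x => ∑ k ∈ Finset.Icc 1 ⌊x⌋₊, f k with hS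
  have hmono : Monotone S := by
    intro x y hxy
    exact Finset.sum_le_sum_of_subset_of_nonneg
      (Finset.Icc_subset_Icc le_rfl (Nat.floor_mono hxy)) fun k _ _ => hf k
  have hS0 : ∀ x, 0 ≤ S x := fun x => Finset.sum_nonneg fun k _ => hf k
  have hC0 : 0 ≤ C := by
    have := (Finset.sum_nonneg fun k _ => hf k).trans (hC 1)
    simpa using this
  have hSC : ∀ x, 1 ≤ x → S x ≤ C * x := by
    intro x hx
    exact (hC _).trans (mul_le_mul_of_nonneg_left (Nat.floor_le (by linarith)) hC0)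
  have hO : (fun n => ∑ k ∈ Finset.Icc 1 n, f k) =O[atTop] fun n : ℕ => (n : ℝ) ^ (1:ℝ) := by
    refine Asymptotics.IsBigO.of_bound C (Eventually.of_forall fun n => ?_)
    rw [Real.rpow_one, Real.norm_of_nonneg (Finset.sum_nonneg fun k _ => hf k),
      Real.norm_of_nonneg (Nat.cast_nonneg n)]
    exact hC n
  have hSm := ff_measurable hmono
  -- Laplace transform
  have hE : ∀ σ : ℝ, 0 < σ → ∀ y : ℝ, ∫ u in Ioi (0:ℝ), ((ff S u - A : ℝ) : ℂ) *
      Complex.exp (-((σ:ℂ) + Complex.I * y) * u)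
      = (fun z : ℂ => (F (1 + z) - A) / (1 + z)) (σ + Complex.I * y) := by
    intro σ hσ y
    set z : ℂ := (σ:ℂ) + Complex.I * y with hz
    have hzre : z.re = σ := by simp [hz]
    have hs1 : 1 < (1 + z).re := by simp [hzre, hσ]
    have hz0 : z ≠ 0 := by
      intro h
      rw [h] at hzre
      simp at hzre
      linarith
    have hz1 : 1 + z ≠ 0 := by
      intro h
      rw [h] at hs1
      simp at hs1
      linarith
    have hL := LSeries_eq_mul_integral_of_nonneg f (r := 1) zero_le_one (s := 1 + z) hs1 hO hf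
    have himg : Real.exp '' (Ioi 0) = Ioi 1 := by
      ext t
      constructor
      · rintro ⟨u, hu, rfl⟩
        exact Real.one_lt_exp_iff.mpr hu
      · intro ht
        have ht' : (1:ℝ) < t := ht
        exact ⟨Real.log t, Real.log_pos ht', Real.exp_log (by linarith)⟩
    have hcv : ∫ t in Ioi (1:ℝ), (∑ k ∈ Finset.Icc 1 ⌊t⌋₊, (f k : ℂ)) * (t : ℂ) ^ (-(1 + z + 1))
        = ∫ u in Ioi (0:ℝ), ((ff S u : ℝ) : ℂ) * Complex.exp (-z * u) := by
      rw [← himg, integral_image_eq_integral_abs_deriv_smul measurableSet_Ioi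
        (fun x _ => (Real.hasDerivAt_exp x).hasDerivWithinAt) (Real.exp_injective.injOn)]
      refine integral_congr_ae (Eventually.of_forall fun u => ?_)
      simp only
      rw [abs_of_pos (Real.exp_pos u)]
      have e1 : ((Real.exp u : ℝ) : ℂ) ^ (-(1 + z + 1)) = Complex.exp (-(1 + z + 1) * u) := by
        rw [Complex.cpow_def_of_ne_zero (by exact_mod_cast (Real.exp_pos u).ne'),
          ← Complex.ofReal_log (Real.exp_pos u).le, Real.log_exp]
        ring_nf
      rw [e1]
      simp only [ff, hS]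
      rw [Complex.real_smul]
      push_cast
      have e2 : Complex.exp (u:ℂ) * Complex.exp (-(1 + z + 1) * u)
          = Complex.exp (-(u:ℂ)) * Complex.exp (-z * u) := by
        rw [← Complex.exp_add, ← Complex.exp_add]
        congr 1
        ring
      linear_combination (∑ k ∈ Finset.Icc 1 ⌊Real.exp u⌋₊, (f k : ℂ)) * e2
    have hLs : ∫ u in Ioi (0:ℝ), ((ff S u : ℝ) : ℂ) * Complex.exp (-z * u)
        = LSeries (fun n => (f n : ℂ)) (1 + z) / (1 + z) := by
      rw [eq_div_iff hz1, ← hcv, hL]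
      ring
    have hexp : ∫ u in Ioi (0:ℝ), Complex.exp (-z * u) = 1 / z := by
      rw [integral_exp_mul_complex_Ioi (by simpa [hzre] using hσ)]
      simp
    have hiexp : IntegrableOn (fun u : ℝ => Complex.exp (-z * u)) (Ioi 0) :=
      integrableOn_exp_mul_complex_Ioi (by simpa [hzre] using hσ) 0
    have hiff : IntegrableOn (fun u : ℝ => ((ff S u : ℝ) : ℂ) * Complex.exp (-z * u)) (Ioi 0) := by
      refine Integrable.mono' (g := fun u => C * Real.exp (-σ * u)) ?_ ?_ ?_
      · exact (integrableOn_exp_mul_Ioi (by linarith) 0).const_mul C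
      · exact Measurable.aestronglyMeasurable (by fun_prop)
      · refine (ae_restrict_mem measurableSet_Ioi).mono fun u hu => ?_
        have hu' : (0:ℝ) ≤ u := le_of_lt hu
        rw [norm_mul, Complex.norm_exp, Complex.norm_real, Real.norm_of_nonneg (ff_nonneg hS0 u)]
        have e2 : (-z * u).re = -σ * u := by simp [hz]
        rw [e2]
        exact mul_le_mul_of_nonneg_right (ff_le hSC hu') (Real.exp_pos _).le
    have hsplit : ∫ u in Ioi (0:ℝ), ((ff S u - A : ℝ) : ℂ) * Complex.exp (-z * u)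
        = (∫ u in Ioi (0:ℝ), ((ff S u : ℝ) : ℂ) * Complex.exp (-z * u))
          - A * ∫ u in Ioi (0:ℝ), Complex.exp (-z * u) := by
      rw [← integral_const_mul, ← integral_sub hiff (hiexp.const_mul _)]
      refine integral_congr_ae (Eventually.of_forall fun u => ?_)
      simp only
      push_cast
      ring
    rw [hsplit, hLs, hexp]
    simp only
    rw [hFE _ hs1]
    have h2 : 1 + z - 1 = z := by ring
    rw [h2]
    field_simp
    ring
  have hΦ : ContinuousOn (fun z : ℂ => (F (1 + z) - A) / (1 + z)) {z | 0 ≤ z.re} := by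
    refine ContinuousOn.div ?_ (by fun_prop) ?_
    · refine ContinuousOn.sub ?_ continuousOn_const
      refine hF.comp (by fun_prop) ?_
      intro z hz
      simp only [mem_ofPred_eq] at hz ⊢
      simp only [Complex.add_re, Complex.one_re]
      linarith
    · intro z hz h
      simp only [mem_ofPred_eq] at hz
      have : (1 + z).re = 0 := by rw [h]; simp
      simp only [Complex.add_re, Complex.one_re] at this
      linarith
  have hT := tauber hmono hS0 hSC fun L hL => rl_step hmono hS0 hSC hΦ hE L hL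
  have h1 := hT.comp Real.tendsto_log_atTop
  refine h1.congr' ?_
  filter_upwards [eventually_gt_atTop 0] with x hx
  simp only [Function.comp, ff]
  rw [Real.exp_log hx, Real.exp_neg, Real.exp_log hx, div_eq_mul_inv]

/-- Prime number theorem in arithmetic progressions, von Mangoldt form. -/
theorem pnt_residueClass {q : ℕ} [NeZero q] {a : ZMod q} (ha : IsUnit a) :
    Tendsto (fun x : ℝ => (∑ k ∈ Finset.Icc 1 ⌊x⌋₊,
      ArithmeticFunction.vonMangoldt.residueClass a k) / x) atTop (𝓝 ((q.totient : ℝ)⁻¹)) := by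
  refine wiener_ikehara _ (ArithmeticFunction.vonMangoldt.residueClass_nonneg a) (Real.log 4 + 4) _
    ?_ (ArithmeticFunction.vonMangoldt.LFunctionResidueClassAux a)
    (ArithmeticFunction.vonMangoldt.continuousOn_LFunctionResidueClassAux a) ?_
  · intro n
    have h1 : ∑ k ∈ Finset.Icc 1 n, ArithmeticFunction.vonMangoldt.residueClass a k
        ≤ Chebyshev.psi n := by
      unfold Chebyshev.psi
      rw [Nat.floor_natCast]
      exact Finset.sum_le_sum fun k _ => ArithmeticFunction.vonMangoldt.residueClass_le a k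
    exact h1.trans (Chebyshev.psi_le_const_mul_self (Nat.cast_nonneg n))
  · intro s hs
    rw [ArithmeticFunction.vonMangoldt.eqOn_LFunctionResidueClassAux ha hs]
    push_cast
    rfl

/-- Prime number theorem, `ψ(x) ~ x`. -/
theorem psi_div_tendsto : Tendsto (fun x : ℝ => Chebyshev.psi x / x) atTop (𝓝 1) := by
  have h := pnt_residueClass (q := 1) (a := 1) isUnit_one
  simp only [Nat.totient_one, Nat.cast_one, inv_one] at h
  refine h.congr fun x => ?_
  congr 1
  unfold Chebyshev.psi
  refine Finset.sum_congr rfl fun k _ => ?_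
  unfold ArithmeticFunction.vonMangoldt.residueClass
  rw [indicator_of_mem]
  simp only [mem_ofPred_eq]
  exact Subsingleton.elim _ _

/-- Prime number theorem, `θ(x) ~ x`. -/
theorem theta_div_tendsto : Tendsto (fun x : ℝ => Chebyshev.theta x / x) atTop (𝓝 1) := by
  have h1 : Tendsto (fun x : ℝ => (Chebyshev.psi x - Chebyshev.theta x) / x) atTop (𝓝 0) := by
    obtain ⟨C, hC⟩ := Chebyshev.psi_sub_theta_le_mul_sqrt
    have h2 : Tendsto (fun x : ℝ => C * (Real.sqrt x)⁻¹) atTop (𝓝 0) := by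
      have := (tendsto_inv_atTop_zero.comp Real.tendsto_sqrt_atTop).const_mul C
      simpa [Function.comp_def] using this
    refine squeeze_zero' ?_ ?_ h2
    · filter_upwards [eventually_gt_atTop 0] with x hx
      exact div_nonneg (sub_nonneg.mpr (Chebyshev.theta_le_psi x)) hx.le
    · filter_upwards [eventually_gt_atTop 0] with x hx
      rw [div_le_iff₀ hx]
      refine (hC x).trans (le_of_eq ?_)
      have hs : 0 < Real.sqrt x := Real.sqrt_pos.mpr hx
      have hx2 : Real.sqrt x * Real.sqrt x = x := Real.mul_self_sqrt hx.le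
      field_simp
      rw [sq, hx2]
  have h3 := psi_div_tendsto.sub h1
  simp only [sub_zero] at h3
  refine h3.congr fun x => ?_
  ring

/-- Prime number theorem, `π(x) log x / x → 1`. -/
theorem pi_tendsto : Tendsto (fun x : ℝ => (Nat.primeCounting ⌊x⌋₊ : ℝ) * Real.log x / x)
    atTop (𝓝 1) := by
  have h1 := Chebyshev.primeCounting_sub_theta_div_log_isBigO
  obtain ⟨c, hc⟩ := h1.bound
  have h2 : Tendsto (fun x : ℝ => c * (Real.log x)⁻¹) atTop (𝓝 0) := by
    have := (tendsto_inv_atTop_zero.comp Real.tendsto_log_atTop).const_mul c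
    simpa [Function.comp_def] using this
  have h3 : Tendsto (fun x : ℝ => (Nat.primeCounting ⌊x⌋₊ : ℝ) * Real.log x / x -
      Chebyshev.theta x / x) atTop (𝓝 0) := by
    refine squeeze_zero_norm' ?_ h2
    filter_upwards [hc, eventually_gt_atTop 1] with x hx hx1
    have hl : 0 < Real.log x := Real.log_pos hx1
    have hx0 : 0 < x := by linarith
    have e : (Nat.primeCounting ⌊x⌋₊ : ℝ) * Real.log x / x - Chebyshev.theta x / x
      = ((Nat.primeCounting ⌊x⌋₊ : ℝ) - Chebyshev.theta x / Real.log x) * (Real.log x / x) := by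
      field_simp
    rw [e, norm_mul, Real.norm_of_nonneg (div_pos hl hx0).le]
    have hx' : ‖(Nat.primeCounting ⌊x⌋₊ : ℝ) - Chebyshev.theta x / Real.log x‖
        ≤ c * (x / Real.log x ^ 2) := by
      have := hx
      rw [Real.norm_of_nonneg (show 0 ≤ x / Real.log x ^ 2 by positivity)] at this
      exact this
    calc _ ≤ c * (x / Real.log x ^ 2) * (Real.log x / x) :=
          mul_le_mul_of_nonneg_right hx' (div_pos hl hx0).le
      _ = c * (Real.log x)⁻¹ := by field_simp
  have h4 := h3.add theta_div_tendsto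
  simp only [zero_add, sub_add_cancel] at h4
  exact h4

end

end Pool.Agent.Helper923.H403.PNT602
end part_PNT602

section part_Z1
open MeasureTheory Filter Topology Set

namespace Pool.Agent.Helper923.H403.PNTQ

noncomputable section

/-- fractional part cut off at `1` -/
def fr (t : ℝ) : ℂ := (Ioi (1:ℝ)).indicator (fun t => ((Int.fract t : ℝ) : ℂ)) t

lemma fr_measurable : Measurable fr := by
  unfold fr
  refine Measurable.indicator ?_ measurableSet_Ioi
  exact Complex.measurable_ofReal.comp measurable_fract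

lemma fr_norm_le (t : ℝ) : ‖fr t‖ ≤ 1 := by
  unfold fr
  by_cases ht : t ∈ Ioi (1:ℝ)
  · rw [indicator_of_mem ht, Complex.norm_real, Real.norm_of_nonneg (Int.fract_nonneg t)]
    exact (Int.fract_lt_one t).le
  · rw [indicator_of_notMem ht, norm_zero]
    exact zero_le_one

/-- `∫_1^∞ {t} t^(-s-1) dt` as a Mellin transform -/
def Hf (s : ℂ) : ℂ := mellin fr (-s)

lemma Hf_differentiableAt {s : ℂ} (hs : 0 < s.re) : DifferentiableAt ℂ Hf s := by
  have h1 : DifferentiableAt ℂ (mellin fr) (-s) := by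
    refine mellin_differentiableAt_of_isBigO_rpow (a := 0) (b := -s.re - 1) ?_ ?_ ?_ ?_ ?_
    · refine LocallyIntegrable.locallyIntegrableOn ?_ _
      refine LocallyIntegrable.mono (locallyIntegrable_const (1:ℝ)) fr_measurable.aestronglyMeasurable ?_
      refine Eventually.of_forall fun t => ?_
      rw [norm_one]
      exact fr_norm_le t
    · refine Asymptotics.IsBigO.of_bound 1 (Eventually.of_forall fun t => ?_)
      simp only [neg_zero, Real.rpow_zero, norm_one, mul_one]
      exact fr_norm_le t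
    · simpa using hs
    · refine Asymptotics.IsBigO.of_bound 1 ?_
      have h2 : ∀ᶠ t : ℝ in 𝓝[>] 0, t < 1 := nhdsWithin_le_nhds (Iio_mem_nhds one_pos)
      filter_upwards [h2] with t ht
      have : fr t = 0 := by
        unfold fr
        rw [indicator_of_notMem]
        simp only [mem_Ioi, not_lt]
        exact ht.le
      rw [this, norm_zero]
      positivity
    · simp
  exact h1.comp s differentiableAt_id.neg

lemma Hf_eq (s : ℂ) : Hf s = ∫ t in Ioi (1:ℝ), ((Int.fract t : ℝ) : ℂ) * (t : ℂ) ^ (-(s + 1)) := by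
  unfold Hf mellin
  have hsub : Ioi (1:ℝ) ⊆ Ioi 0 := Ioi_subset_Ioi zero_le_one
  have h1 : ∀ t : ℝ, (t : ℂ) ^ (-s - 1) • fr t =
      (Ioi (1:ℝ)).indicator (fun t => ((Int.fract t : ℝ) : ℂ) * (t : ℂ) ^ (-(s + 1))) t := by
    intro t
    unfold fr
    by_cases ht : t ∈ Ioi (1:ℝ)
    · rw [indicator_of_mem ht, indicator_of_mem ht, smul_eq_mul, mul_comm]
      congr 2
      ring
    · rw [indicator_of_notMem ht, indicator_of_notMem ht, smul_zero]
  simp_rw [h1]
  rw [setIntegral_indicator measurableSet_Ioi, inter_eq_self_of_subset_right hsub]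

lemma Hf_norm_le {s : ℂ} (hs : 0 < s.re) : ‖Hf s‖ ≤ 1 / s.re := by
  rw [Hf_eq]
  have h1 : ∫ t in Ioi (1:ℝ), t ^ (-s.re - 1) = 1 / s.re := by
    rw [integral_Ioi_rpow_of_lt (by linarith) one_pos]
    rw [Real.one_rpow]
    have : -s.re - 1 + 1 = -s.re := by ring
    rw [this, neg_div_neg_eq]
  rw [← h1]
  refine norm_integral_le_of_norm_le (integrableOn_Ioi_rpow_of_lt (by linarith) one_pos) ?_
  refine (ae_restrict_mem measurableSet_Ioi).mono fun t ht => ?_
  have ht' : (1:ℝ) < t := ht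
  have ht0 : 0 < t := by linarith
  rw [norm_mul, Complex.norm_real, Real.norm_of_nonneg (Int.fract_nonneg t),
    Complex.norm_cpow_eq_rpow_re_of_pos ht0]
  have h2 : (-(s + 1)).re = -s.re - 1 := by simp; ring
  rw [h2]
  have h3 : 0 ≤ t ^ (-s.re - 1) := (Real.rpow_pos_of_pos ht0 _).le
  have h4 := (Int.fract_lt_one t).le
  calc Int.fract t * t ^ (-s.re - 1) ≤ 1 * t ^ (-s.re - 1) := mul_le_mul_of_nonneg_right h4 h3
    _ = _ := one_mul _

/-- `(s-1)ζ(s)` on `Re s > 0` -/
def Zt (s : ℂ) : ℂ := s - s * (s - 1) * Hf s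

lemma zeta_eq {s : ℂ} (hs : 1 < s.re) : (s - 1) * riemannZeta s = Zt s := by
  have hs0 : 0 < s.re := by linarith
  have hO : (fun n => ∑ k ∈ Finset.Icc 1 n, (fun _ : ℕ => (1:ℝ)) k) =O[atTop]
      fun n : ℕ => (n : ℝ) ^ (1:ℝ) := by
    refine Asymptotics.IsBigO.of_bound 1 (Eventually.of_forall fun n => ?_)
    simp
  have hL := LSeries_eq_mul_integral_of_nonneg (fun _ : ℕ => (1:ℝ)) (r := 1) zero_le_one hs hO
    (fun _ => zero_le_one)
  have hL1 : LSeries (fun n : ℕ => (((fun _ : ℕ => (1:ℝ)) n : ℝ) : ℂ)) s = riemannZeta s := by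
    rw [← LSeries_one_eq_riemannZeta hs]
    congr 1
  rw [hL1] at hL
  have hi1 : IntegrableOn (fun t : ℝ => (t : ℂ) ^ (-s)) (Ioi 1) :=
    integrableOn_Ioi_cpow_of_lt (by simpa using hs) one_pos
  have hi2 : IntegrableOn (fun t : ℝ => ((Int.fract t : ℝ) : ℂ) * (t : ℂ) ^ (-(s + 1))) (Ioi 1) := by
    refine Integrable.mono' (g := fun t : ℝ => t ^ (-s.re - 1))
      (integrableOn_Ioi_rpow_of_lt (by linarith) one_pos) ?_ ?_
    · refine AEStronglyMeasurable.mul ?_ ?_
      · exact (Complex.measurable_ofReal.comp measurable_fract).aestronglyMeasurable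
      · refine ContinuousOn.aestronglyMeasurable ?_ measurableSet_Ioi
        intro t ht
        have ht' : (1:ℝ) < t := ht
        refine ContinuousAt.continuousWithinAt ?_
        exact (Complex.continuousAt_ofReal_cpow_const _ _ (Or.inr (by linarith)))
    · refine (ae_restrict_mem measurableSet_Ioi).mono fun t ht => ?_
      have ht' : (1:ℝ) < t := ht
      have ht0 : 0 < t := by linarith
      rw [norm_mul, Complex.norm_real, Real.norm_of_nonneg (Int.fract_nonneg t),
        Complex.norm_cpow_eq_rpow_re_of_pos ht0]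
      have h2 : (-(s + 1)).re = -s.re - 1 := by simp; ring
      rw [h2]
      have h3 : 0 ≤ t ^ (-s.re - 1) := (Real.rpow_pos_of_pos ht0 _).le
      have h4 := (Int.fract_lt_one t).le
      calc Int.fract t * t ^ (-s.re - 1) ≤ 1 * t ^ (-s.re - 1) := mul_le_mul_of_nonneg_right h4 h3
        _ = _ := one_mul _
  have hint : ∫ t in Ioi (1:ℝ), (∑ k ∈ Finset.Icc 1 ⌊t⌋₊, (((fun _ : ℕ => (1:ℝ)) k : ℝ) : ℂ)) *
      (t : ℂ) ^ (-(s + 1)) = 1 / (s - 1) - Hf s := by
    have h1 : ∫ t in Ioi (1:ℝ), (t : ℂ) ^ (-s) = 1 / (s - 1) := by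
      rw [integral_Ioi_cpow_of_lt (by simpa using hs) one_pos]
      rw [Complex.ofReal_one, Complex.one_cpow]
      have : -s + 1 = -(s - 1) := by ring
      rw [this, neg_div_neg_eq]
    rw [← h1, Hf_eq, ← integral_sub hi1 hi2]
    refine setIntegral_congr_fun measurableSet_Ioi fun t ht => ?_
    have ht' : (1:ℝ) < t := ht
    have ht0 : 0 < t := by linarith
    simp only [Complex.ofReal_one, Finset.sum_const, Nat.card_Icc, add_tsub_cancel_right,
      nsmul_eq_mul, mul_one]
    have e1 : (t : ℂ) ^ (-s) = (t : ℂ) * (t : ℂ) ^ (-(s + 1)) := by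
      have htc : (t : ℂ) ≠ 0 := by exact_mod_cast ht0.ne'
      have e3 : -s = 1 + -(s + 1) := by ring
      rw [e3, Complex.cpow_add _ _ htc, Complex.cpow_one]
    have e2 : ((⌊t⌋₊ : ℕ) : ℂ) = (t : ℂ) - ((Int.fract t : ℝ) : ℂ) := by
      have : ((⌊t⌋₊ : ℕ) : ℝ) = t - Int.fract t := by
        rw [natCast_floor_eq_intCast_floor ht0.le]
        rw [Int.fract]
        ring
      rw [← Complex.ofReal_natCast, this]
      push_cast
      ring
    rw [e1, e2]
    ring
  rw [hint] at hL
  have hs1 : s - 1 ≠ 0 := by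
    intro h
    have : (s - 1).re = 0 := by rw [h]; simp
    simp at this
    linarith
  rw [hL]
  unfold Zt
  field_simp

end

end Pool.Agent.Helper923.H403.PNTQ
end part_Z1

section part_Z2
open MeasureTheory Filter Topology Set

namespace Pool.Agent.Helper923.H403.PNTQ

noncomputable section

lemma Zt_differentiableAt {s : ℂ} (hs : 0 < s.re) : DifferentiableAt ℂ Zt s := by
  unfold Zt
  have h := Hf_differentiableAt hs
  fun_prop

lemma Zt_analyticOn : AnalyticOnNhd ℂ Zt {s | 0 < s.re} :=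
  DifferentiableOn.analyticOnNhd (fun _ hs => (Zt_differentiableAt hs).differentiableWithinAt)
    (isOpen_lt continuous_const Complex.continuous_re)

lemma Zt_one : Zt 1 = 1 := by
  unfold Zt; ring

lemma Zt_norm_le {s : ℂ} (hs : 1 / 2 ≤ s.re) : ‖Zt s‖ ≤ 3 * (‖s‖ + 1) ^ 2 := by
  have hs0 : 0 < s.re := by linarith
  have h1 := Hf_norm_le hs0
  have h2 : 1 / s.re ≤ 2 := by
    rw [div_le_iff₀ hs0]; linarith
  have h3 : ‖s - 1‖ ≤ ‖s‖ + 1 := by
    have := norm_sub_le s 1
    rwa [norm_one] at this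
  unfold Zt
  calc ‖s - s * (s - 1) * Hf s‖ ≤ ‖s‖ + ‖s * (s - 1) * Hf s‖ := norm_sub_le _ _
    _ = ‖s‖ + ‖s‖ * ‖s - 1‖ * ‖Hf s‖ := by rw [norm_mul, norm_mul]
    _ ≤ ‖s‖ + ‖s‖ * (‖s‖ + 1) * 2 := by gcongr; exact h1.trans h2
    _ ≤ 3 * (‖s‖ + 1) ^ 2 := by nlinarith [norm_nonneg s]

lemma dZt_norm_le {s : ℂ} (hs : 3 / 4 ≤ s.re) : ‖deriv Zt s‖ ≤ 12 * (‖s‖ + 2) ^ 2 := by
  have hd : DiffContOnCl ℂ Zt (Metric.ball s (1 / 4)) := by
    refine DifferentiableOn.diffContOnCl ?_
    rw [closure_ball _ (by norm_num)]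
    intro w hw
    refine (Zt_differentiableAt ?_).differentiableWithinAt
    rw [Metric.mem_closedBall, dist_eq_norm] at hw
    have := Complex.abs_re_le_norm (w - s)
    rw [Complex.sub_re] at this
    have := (abs_le.mp (this.trans hw)).1
    linarith
  have h1 : ∀ w ∈ Metric.sphere s (1 / 4), ‖Zt w‖ ≤ 3 * (‖s‖ + 2) ^ 2 := by
    intro w hw
    rw [mem_sphere_iff_norm] at hw
    have h2 := Complex.abs_re_le_norm (w - s)
    rw [Complex.sub_re, hw] at h2
    have h3 := (abs_le.mp h2).1
    refine (Zt_norm_le (by linarith)).trans ?_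
    have h4 : ‖w‖ ≤ ‖s‖ + 1 / 4 := by
      have := norm_add_le (w - s) s
      rw [sub_add_cancel, hw] at this
      linarith
    have h5 := norm_nonneg w
    have h6 : ‖w‖ + 1 ≤ ‖s‖ + 2 := by linarith
    exact mul_le_mul_of_nonneg_left (pow_le_pow_left₀ (by positivity) h6 2) (by norm_num)
  have h2 := Complex.norm_deriv_le_of_forall_mem_sphere_norm_le (by norm_num : (0:ℝ) < 1 / 4) hd h1
  refine h2.trans (le_of_eq ?_)
  ring

lemma ddZt_norm_le {s : ℂ} (hs : 1 ≤ s.re) : ‖deriv (deriv Zt) s‖ ≤ 48 * (‖s‖ + 3) ^ 2 := by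
  have hd : DiffContOnCl ℂ (deriv Zt) (Metric.ball s (1 / 4)) := by
    refine DifferentiableOn.diffContOnCl ?_
    rw [closure_ball _ (by norm_num)]
    intro w hw
    rw [Metric.mem_closedBall, dist_eq_norm] at hw
    have := Complex.abs_re_le_norm (w - s)
    rw [Complex.sub_re] at this
    have := (abs_le.mp (this.trans hw)).1
    have h0 : w ∈ {s : ℂ | 0 < s.re} := by
      change 0 < w.re
      linarith
    exact (Zt_analyticOn w h0).deriv.differentiableAt.differentiableWithinAt
  have h1 : ∀ w ∈ Metric.sphere s (1 / 4), ‖deriv Zt w‖ ≤ 12 * (‖s‖ + 3) ^ 2 := by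
    intro w hw
    rw [mem_sphere_iff_norm] at hw
    have h2 := Complex.abs_re_le_norm (w - s)
    rw [Complex.sub_re, hw] at h2
    have h3 := (abs_le.mp h2).1
    refine (dZt_norm_le (by linarith)).trans ?_
    have h4 : ‖w‖ ≤ ‖s‖ + 1 / 4 := by
      have := norm_add_le (w - s) s
      rw [sub_add_cancel, hw] at this
      linarith
    have h5 := norm_nonneg w
    have h6 : ‖w‖ + 2 ≤ ‖s‖ + 3 := by linarith
    exact mul_le_mul_of_nonneg_left (pow_le_pow_left₀ (by positivity) h6 2) (by norm_num)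
  have h2 := Complex.norm_deriv_le_of_forall_mem_sphere_norm_le (by norm_num : (0:ℝ) < 1 / 4) hd h1
  refine h2.trans (le_of_eq ?_)
  ring

/-- the identity `(s-1)ζ(s) = Zt s` on the closed half plane -/
lemma zeta_eq' {s : ℂ} (hs : 1 ≤ s.re) (hs1 : s ≠ 1) : (s - 1) * riemannZeta s = Zt s := by
  have h1 : Tendsto (fun e : ℝ => s + (e : ℂ)) (𝓝[>] 0) (𝓝 s) := by
    have h0 : Continuous (fun e : ℝ => s + (e : ℂ)) := by fun_prop
    have := h0.tendsto 0
    simp only [Complex.ofReal_zero, add_zero] at this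
    exact this.mono_left nhdsWithin_le_nhds
  have h2 : Tendsto (fun e : ℝ => (s + (e : ℂ) - 1) * riemannZeta (s + (e : ℂ))) (𝓝[>] 0)
      (𝓝 ((s - 1) * riemannZeta s)) := by
    have hc : ContinuousAt (fun z : ℂ => (z - 1) * riemannZeta z) s :=
      (continuousAt_id.sub continuousAt_const).mul (differentiableAt_riemannZeta hs1).continuousAt
    exact hc.tendsto.comp h1
  have h3 : Tendsto (fun e : ℝ => Zt (s + (e : ℂ))) (𝓝[>] 0) (𝓝 (Zt s)) :=
    (Zt_differentiableAt (by linarith)).continuousAt.tendsto.comp h1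
  refine tendsto_nhds_unique h2 (h3.congr' ?_)
  filter_upwards [self_mem_nhdsWithin] with e he
  have he' : (0:ℝ) < e := he
  rw [zeta_eq]
  simp only [Complex.add_re, Complex.ofReal_re]
  linarith

lemma Zt_ne_zero {s : ℂ} (hs : 1 ≤ s.re) : Zt s ≠ 0 := by
  by_cases h : s = 1
  · rw [h, Zt_one]; exact one_ne_zero
  · rw [← zeta_eq' hs h]
    exact mul_ne_zero (sub_ne_zero.mpr h) (riemannZeta_ne_zero_of_one_le_re hs)

open DirichletCharacter in
lemma three_four_one {x : ℝ} (hx : 0 < x) (y : ℝ) :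
    1 ≤ ‖riemannZeta (1 + x)‖ ^ 3 * ‖riemannZeta (1 + x + Complex.I * y)‖ ^ 4 *
      ‖riemannZeta (1 + x + 2 * Complex.I * y)‖ := by
  have h := DirichletCharacter.norm_LSeries_product_ge_one (1 : DirichletCharacter ℂ 1) hx y
  have e0 : 1 < (1 + x : ℂ).re := by simp [hx]
  have e1 : 1 < (1 + x + Complex.I * y : ℂ).re := by simp [hx]
  have e2 : 1 < (1 + x + 2 * Complex.I * y : ℂ).re := by simp [hx]
  have hm : LSeries (fun n : ℕ => (1 : DirichletCharacter ℂ 1) n) = LSeries 1 :=
    DirichletCharacter.LSeries_modOne_eq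
  have hsq : (1 : DirichletCharacter ℂ 1) ^ 2 = 1 := one_pow 2
  rw [hsq, hm, LSeries_one_eq_riemannZeta e0, LSeries_one_eq_riemannZeta e1,
    LSeries_one_eq_riemannZeta e2, norm_mul, norm_mul, norm_pow, norm_pow] at h
  exact h

end

end Pool.Agent.Helper923.H403.PNTQ
end part_Z2

section part_Z3
open MeasureTheory Filter Topology Set

namespace Pool.Agent.Helper923.H403.PNTQ

noncomputable section

lemma Zt_lower_big {y : ℝ} (hy : 1 ≤ |y|) :
    1 / 4000000000 ≤ ‖Zt (1 + Complex.I * y)‖ * (5 + |y|) ^ 8 := by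
  set N : ℝ := 5 + |y| with hN
  have hN6 : 6 ≤ N := by linarith
  have hN0 : 0 < N := by linarith
  set δ : ℝ := 1 / (331776 * 118098) with hδ
  have hδ0 : 0 < δ := by rw [hδ]; norm_num
  set x : ℝ := δ / N ^ 10 with hx
  have hx0 : 0 < x := by positivity
  have hx1 : x ≤ 1 := by
    rw [hx, div_le_one (by positivity)]
    have h1 : (1:ℝ) ≤ N ^ 10 := one_le_pow₀ (by linarith)
    have h2 : δ ≤ 1 := by rw [hδ]; norm_num
    linarith
  have h341 := three_four_one hx0 y
  set s0 : ℂ := 1 + x with hs0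
  set s1 : ℂ := 1 + x + Complex.I * y with hs1
  set s2 : ℂ := 1 + x + 2 * Complex.I * y with hs2
  have e0 : s0.re = 1 + x := by simp [hs0]
  have e1 : s1.re = 1 + x := by simp [hs1]
  have e2 : s2.re = 1 + x := by simp [hs2]
  have n0 : ‖s0‖ ≤ 2 := by
    rw [hs0]
    refine (norm_add_le _ _).trans ?_
    rw [norm_one, Complex.norm_real, Real.norm_of_nonneg hx0.le]
    linarith
  have n1 : ‖s1‖ ≤ 2 + |y| := by
    rw [hs1]
    refine (norm_add_le _ _).trans ?_
    rw [norm_mul, Complex.norm_I, one_mul, Complex.norm_real, Real.norm_eq_abs]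
    linarith
  have n2 : ‖s2‖ ≤ 2 + 2 * |y| := by
    rw [hs2]
    refine (norm_add_le _ _).trans ?_
    rw [norm_mul, norm_mul, Complex.norm_I, mul_one, Complex.norm_real, Real.norm_eq_abs,
      Complex.norm_ofNat]
    linarith
  have b0 : ‖riemannZeta s0‖ * x ≤ 27 := by
    have h1 := zeta_eq (s := s0) (by rw [e0]; linarith)
    have h2 := Zt_norm_le (s := s0) (by rw [e0]; linarith)
    have h3 : ‖s0 - 1‖ = x := by
      rw [hs0]
      have : (1 + (x:ℂ) - 1) = x := by ring
      rw [this, Complex.norm_real, Real.norm_of_nonneg hx0.le]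
    have h4 : ‖riemannZeta s0‖ * x = ‖Zt s0‖ := by
      rw [← h1, norm_mul, h3, mul_comm]
    rw [h4]
    refine h2.trans ?_
    have h5 := norm_nonneg s0
    nlinarith
  have b2 : ‖riemannZeta s2‖ ≤ 6 * N ^ 2 := by
    have h1 := zeta_eq (s := s2) (by rw [e2]; linarith)
    have h2 := Zt_norm_le (s := s2) (by rw [e2]; linarith)
    have h3 : 2 ≤ ‖s2 - 1‖ := by
      have h4 := Complex.abs_im_le_norm (s2 - 1)
      have h5 : (s2 - 1).im = 2 * y := by simp [hs2]
      rw [h5, abs_mul, abs_two] at h4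
      linarith
    have h4 : 2 * ‖riemannZeta s2‖ ≤ ‖Zt s2‖ := by
      rw [← h1, norm_mul]
      exact mul_le_mul_of_nonneg_right h3 (norm_nonneg _)
    have h5 : ‖Zt s2‖ ≤ 12 * N ^ 2 := by
      refine h2.trans ?_
      have h6 := norm_nonneg s2
      have h7 : ‖s2‖ + 1 ≤ 2 * N := by rw [hN]; linarith
      have h8 : (‖s2‖ + 1) ^ 2 ≤ (2 * N) ^ 2 := pow_le_pow_left₀ (by positivity) h7 2
      nlinarith
    linarith
  have b1 : ‖riemannZeta s1‖ ≤ ‖Zt s1‖ := by
    have h1 := zeta_eq (s := s1) (by rw [e1]; linarith)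
    have h3 : 1 ≤ ‖s1 - 1‖ := by
      have h4 := Complex.abs_im_le_norm (s1 - 1)
      have h5 : (s1 - 1).im = y := by simp [hs1]
      rw [h5] at h4
      linarith
    rw [← h1, norm_mul]
    exact le_mul_of_one_le_left (norm_nonneg _) h3
  have key : x ^ 3 ≤ 118098 * N ^ 2 * ‖Zt s1‖ ^ 4 := by
    have z0 := norm_nonneg (riemannZeta s0)
    have z1 := norm_nonneg (riemannZeta s1)
    have z2 := norm_nonneg (riemannZeta s2)
    calc x ^ 3 = x ^ 3 * 1 := by ring
      _ ≤ x ^ 3 * (‖riemannZeta s0‖ ^ 3 * ‖riemannZeta s1‖ ^ 4 * ‖riemannZeta s2‖) := by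
          gcongr
      _ = (‖riemannZeta s0‖ * x) ^ 3 * ‖riemannZeta s1‖ ^ 4 * ‖riemannZeta s2‖ := by ring
      _ ≤ 27 ^ 3 * ‖Zt s1‖ ^ 4 * (6 * N ^ 2) := by gcongr
      _ = _ := by ring
  have low1 : 24 * δ / N ^ 8 ≤ ‖Zt s1‖ := by
    rw [← pow_le_pow_iff_left₀ (by positivity) (norm_nonneg _) (by norm_num : 4 ≠ 0)]
    have h1 : (24 * δ / N ^ 8) ^ 4 * (118098 * N ^ 2) = x ^ 3 := by
      rw [hx]
      field_simp
      rw [hδ]
      ring
    rw [← h1] at key
    have h2 : 0 < 118098 * N ^ 2 := by positivity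
    refine le_of_mul_le_mul_right ?_ h2
    linarith
  have hmv : ‖Zt s1 - Zt (1 + Complex.I * y)‖ ≤ 12 * δ / N ^ 8 := by
    set T : Set ℂ := {s | 1 ≤ s.re} ∩ Metric.closedBall 0 (2 + |y|) with hT
    have hTc : Convex ℝ T :=
      (convex_halfSpace_re_ge 1).inter (convex_closedBall 0 _)
    have hTd : ∀ s ∈ T, DifferentiableAt ℂ Zt s := by
      intro s hs
      refine Zt_differentiableAt ?_
      have : 1 ≤ s.re := hs.1
      linarith
    have hTb : ∀ s ∈ T, ‖deriv Zt s‖ ≤ 12 * N ^ 2 := by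
      intro s hs
      have h1 : 1 ≤ s.re := hs.1
      have h2 : ‖s‖ ≤ 2 + |y| := by
        have := hs.2
        rwa [mem_closedBall_zero_iff] at this
      refine (dZt_norm_le (by linarith)).trans ?_
      have h3 : ‖s‖ + 2 ≤ N := by rw [hN]; linarith
      exact mul_le_mul_of_nonneg_left (pow_le_pow_left₀ (by positivity) h3 2) (by norm_num)
    have m1 : s1 ∈ T := by
      refine ⟨?_, ?_⟩
      · change 1 ≤ s1.re
        rw [e1]; linarith
      · rw [mem_closedBall_zero_iff]; exact n1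
    have m2 : (1 + Complex.I * y : ℂ) ∈ T := by
      refine ⟨?_, ?_⟩
      · change 1 ≤ (1 + Complex.I * y : ℂ).re
        simp
      · rw [mem_closedBall_zero_iff]
        refine (norm_add_le _ _).trans ?_
        rw [norm_mul, Complex.norm_I, one_mul, Complex.norm_real, Real.norm_eq_abs, norm_one]
        linarith
    have h1 := hTc.norm_image_sub_le_of_norm_deriv_le hTd hTb m2 m1
    have h2 : s1 - (1 + Complex.I * y) = x := by rw [hs1]; ring
    rw [h2, Complex.norm_real, Real.norm_of_nonneg hx0.le] at h1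
    refine h1.trans (le_of_eq ?_)
    rw [hx]
    field_simp
  have hfin : 12 * δ / N ^ 8 ≤ ‖Zt (1 + Complex.I * y)‖ := by
    have h1 : ‖Zt s1‖ ≤ ‖Zt s1 - Zt (1 + Complex.I * y)‖ + ‖Zt (1 + Complex.I * y)‖ := by
      have := norm_add_le (Zt s1 - Zt (1 + Complex.I * y)) (Zt (1 + Complex.I * y))
      rwa [sub_add_cancel] at this
    have h2 : 24 * δ / N ^ 8 = 12 * δ / N ^ 8 + 12 * δ / N ^ 8 := by ring
    linarith
  have h1 : 12 * δ ≤ ‖Zt (1 + Complex.I * y)‖ * N ^ 8 := by
    rwa [div_le_iff₀ (by positivity)] at hfin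
  refine le_trans ?_ h1
  rw [hδ]
  norm_num

lemma Zt_lower : ∃ c : ℝ, 0 < c ∧ ∀ y : ℝ, c ≤ ‖Zt (1 + Complex.I * y)‖ * (5 + |y|) ^ 8 := by
  have hcont : ContinuousOn (fun y : ℝ => ‖Zt (1 + Complex.I * y)‖) (Icc (-1) 1) := by
    intro y _
    refine ContinuousAt.continuousWithinAt ?_
    have h1 : ContinuousAt Zt (1 + Complex.I * y) := (Zt_differentiableAt (by simp)).continuousAt
    have h2 : ContinuousAt (fun y : ℝ => (1 + Complex.I * y : ℂ)) y := by fun_prop
    exact (ContinuousAt.comp (f := fun y : ℝ => (1 + Complex.I * y : ℂ)) h1 h2).norm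
  obtain ⟨y0, _, hmin⟩ := isCompact_Icc.exists_isMinOn ⟨0, by norm_num, by norm_num⟩ hcont
  have hpos : 0 < ‖Zt (1 + Complex.I * y0)‖ := norm_pos_iff.mpr (Zt_ne_zero (by simp))
  refine ⟨min (1 / 4000000000) ‖Zt (1 + Complex.I * y0)‖, lt_min (by norm_num) hpos, ?_⟩
  intro y
  by_cases hy : 1 ≤ |y|
  · exact (min_le_left _ _).trans (Zt_lower_big hy)
  · have hy1 : y ∈ Icc (-1:ℝ) 1 := abs_le.mp (not_le.mp hy).le
    have h1 : ‖Zt (1 + Complex.I * y0)‖ ≤ ‖Zt (1 + Complex.I * y)‖ := hmin hy1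
    have h2 : (1:ℝ) ≤ (5 + |y|) ^ 8 := one_le_pow₀ (by linarith [abs_nonneg y])
    refine (min_le_right _ _).trans (h1.trans ?_)
    exact le_mul_of_one_le_right (norm_nonneg _) h2

end

end Pool.Agent.Helper923.H403.PNTQ
end part_Z3

section part_Z4
open MeasureTheory Filter Topology Set

namespace Pool.Agent.Helper923.H403.PNTQ

noncomputable section

/-- `-ζ'/ζ(s) - 1/(s-1)` continued to the closed half plane -/
def Fz (s : ℂ) : ℂ := -deriv Zt s / Zt s

lemma Zt_deriv_analyticAt {s : ℂ} (hs : 0 < s.re) : AnalyticAt ℂ (deriv Zt) s :=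
  (Zt_analyticOn s hs).deriv

lemma Fz_differentiableAt {s : ℂ} (hs : 1 ≤ s.re) : DifferentiableAt ℂ Fz s := by
  have h0 : 0 < s.re := by linarith
  exact (Zt_deriv_analyticAt h0).differentiableAt.neg.div (Zt_differentiableAt h0) (Zt_ne_zero hs)

lemma Fz_continuousOn : ContinuousOn Fz {s | 1 ≤ s.re} := fun _ hs =>
  (Fz_differentiableAt hs).continuousAt.continuousWithinAt

lemma Fz_eq {s : ℂ} (hs : 1 < s.re) :
    Fz s = LSeries (fun n => ((ArithmeticFunction.vonMangoldt n : ℝ) : ℂ)) s -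
      ((1:ℝ) : ℂ) / (s - 1) := by
  have hs1 : s ≠ 1 := by
    rintro rfl
    simp at hs
  have hs1' : s - 1 ≠ 0 := sub_ne_zero.mpr hs1
  have hz : riemannZeta s ≠ 0 := riemannZeta_ne_zero_of_one_le_re hs.le
  have hL := ArithmeticFunction.LSeries_vonMangoldt_eq_deriv_riemannZeta_div hs
  rw [hL]
  have hev : Zt =ᶠ[𝓝 s] fun z => (z - 1) * riemannZeta z := by
    have : {z : ℂ | 1 < z.re} ∈ 𝓝 s :=
      (isOpen_lt continuous_const Complex.continuous_re).mem_nhds hs
    filter_upwards [this] with z hz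
    exact (zeta_eq hz).symm
  have hd : deriv Zt s = riemannZeta s + (s - 1) * deriv riemannZeta s := by
    rw [hev.deriv_eq]
    have h1 : HasDerivAt (fun z : ℂ => z - 1) 1 s := (hasDerivAt_id s).sub_const 1
    have h2 := (differentiableAt_riemannZeta hs1).hasDerivAt
    have h3 := h1.mul h2
    rw [one_mul] at h3
    exact h3.deriv
  unfold Fz
  rw [hd, ← zeta_eq hs]
  push_cast
  field_simp
  ring

/-- the boundary function -/
def gz (s : ℂ) : ℂ := (Fz s - 1) / s

lemma gz_hasDerivAt {s : ℂ} (hs : 1 ≤ s.re) :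
    HasDerivAt gz ((deriv Fz s * s - (Fz s - 1)) / s ^ 2) s := by
  have h0 : s ≠ 0 := by
    rintro rfl
    simp at hs
    linarith
  have h1 := ((Fz_differentiableAt hs).hasDerivAt.sub_const 1).div (hasDerivAt_id s) h0
  have h2 : HasDerivAt gz ((deriv Fz s * id s - (Fz s - 1) * 1) / (id s) ^ 2) s := h1
  simpa using h2

lemma Fz_deriv {s : ℂ} (hs : 1 ≤ s.re) :
    deriv Fz s = -deriv (deriv Zt) s / Zt s + (deriv Zt s / Zt s) ^ 2 := by
  have h0 : 0 < s.re := by linarith
  have hz := Zt_ne_zero hs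
  have h1 := ((Zt_deriv_analyticAt h0).differentiableAt.hasDerivAt.neg.div
    (Zt_differentiableAt h0).hasDerivAt hz)
  have h2 : deriv Fz s = _ := h1.deriv
  rw [h2]
  simp only [Pi.neg_apply]
  field_simp
  ring

lemma gz_bounds : ∃ M : ℝ, 0 < M ∧ ∀ y : ℝ,
    ‖gz (1 + Complex.I * y)‖ ≤ M * (5 + |y|) ^ 20 ∧
    ‖(deriv Fz (1 + Complex.I * y) * (1 + Complex.I * y) - (Fz (1 + Complex.I * y) - 1)) /
      (1 + Complex.I * y) ^ 2‖ ≤ M * (5 + |y|) ^ 20 := by
  obtain ⟨c, hc, hlow⟩ := Zt_lower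
  refine ⟨60 / c + 144 / c ^ 2 + 2, by positivity, fun y => ?_⟩
  set s : ℂ := 1 + Complex.I * y with hsdef
  set N : ℝ := 5 + |y| with hN
  have hN5 : 5 ≤ N := by have := abs_nonneg y; linarith
  have hN1 : 1 ≤ N := by linarith
  have hN0 : 0 < N := by linarith
  have hs : s.re = 1 := by simp [hsdef]
  have hs1 : 1 ≤ s.re := hs.ge
  have hns : ‖s‖ ≤ 1 + |y| := by
    rw [hsdef]
    refine (norm_add_le _ _).trans ?_
    rw [norm_mul, Complex.norm_I, one_mul, Complex.norm_real, Real.norm_eq_abs, norm_one]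
  have hns1 : 1 ≤ ‖s‖ := by
    have := Complex.abs_re_le_norm s
    rw [hs, abs_one] at this
    exact this
  have ha := hlow y
  rw [← hsdef, ← hN] at ha
  have ha0 : 0 < ‖Zt s‖ := norm_pos_iff.mpr (Zt_ne_zero hs1)
  have hinv : 1 / ‖Zt s‖ ≤ N ^ 8 / c := by
    rw [div_le_div_iff₀ ha0 hc]
    linarith
  have hb : ‖deriv Zt s‖ ≤ 12 * N ^ 2 := by
    refine (dZt_norm_le (by rw [hs]; norm_num)).trans ?_
    have h3 : ‖s‖ + 2 ≤ N := by rw [hN]; linarith
    exact mul_le_mul_of_nonneg_left (pow_le_pow_left₀ (by positivity) h3 2) (by norm_num)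
  have hd : ‖deriv (deriv Zt) s‖ ≤ 48 * N ^ 2 := by
    refine (ddZt_norm_le hs1).trans ?_
    have h3 : ‖s‖ + 3 ≤ N := by rw [hN]; linarith
    exact mul_le_mul_of_nonneg_left (pow_le_pow_left₀ (by positivity) h3 2) (by norm_num)
  have hq : ‖deriv Zt s / Zt s‖ ≤ 12 / c * N ^ 10 := by
    rw [norm_div, div_eq_mul_one_div]
    calc ‖deriv Zt s‖ * (1 / ‖Zt s‖) ≤ (12 * N ^ 2) * (N ^ 8 / c) := by gcongr
      _ = 12 / c * N ^ 10 := by ring
  have hF : ‖Fz s‖ ≤ 12 / c * N ^ 10 := by
    unfold Fz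
    rw [neg_div, norm_neg]
    exact hq
  have hF' : ‖deriv Fz s‖ ≤ 48 / c * N ^ 10 + 144 / c ^ 2 * N ^ 20 := by
    rw [Fz_deriv hs1]
    refine (norm_add_le _ _).trans ?_
    refine add_le_add ?_ ?_
    · rw [norm_div, norm_neg, div_eq_mul_one_div]
      calc ‖deriv (deriv Zt) s‖ * (1 / ‖Zt s‖) ≤ (48 * N ^ 2) * (N ^ 8 / c) := by gcongr
        _ = 48 / c * N ^ 10 := by ring
    · rw [norm_pow]
      calc ‖deriv Zt s / Zt s‖ ^ 2 ≤ (12 / c * N ^ 10) ^ 2 := by gcongr
        _ = _ := by ring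
  have hp : N ^ 10 ≤ N ^ 20 := pow_le_pow_right₀ hN1 (by norm_num)
  have hp1 : 1 ≤ N ^ 20 := one_le_pow₀ hN1
  have hF1 : ‖Fz s - 1‖ ≤ 12 / c * N ^ 20 + N ^ 20 := by
    refine (norm_sub_le _ _).trans ?_
    rw [norm_one]
    have : 12 / c * N ^ 10 ≤ 12 / c * N ^ 20 := mul_le_mul_of_nonneg_left hp (by positivity)
    linarith
  have h144 : 0 ≤ 144 / c ^ 2 * N ^ 20 := by positivity
  have h48 : 0 ≤ 48 / c * N ^ 20 := by positivity
  constructor
  · unfold gz
    rw [norm_div]
    refine (div_le_self (norm_nonneg _) hns1).trans (hF1.trans ?_)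
    have : (60 / c + 144 / c ^ 2 + 2) * N ^ 20 =
      12 / c * N ^ 20 + 48 / c * N ^ 20 + 144 / c ^ 2 * N ^ 20 + 2 * N ^ 20 := by ring
    rw [this]
    linarith
  · have hsp : 0 < ‖s‖ := by linarith
    have h1 : (deriv Fz s * s - (Fz s - 1)) / s ^ 2 = deriv Fz s / s - (Fz s - 1) / s ^ 2 := by
      have hs0 : s ≠ 0 := norm_pos_iff.mp hsp
      field_simp
    rw [h1]
    refine (norm_sub_le _ _).trans ?_
    rw [norm_div, norm_div, norm_pow]
    have h2 : ‖deriv Fz s‖ / ‖s‖ ≤ 48 / c * N ^ 20 + 144 / c ^ 2 * N ^ 20 := by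
      refine (div_le_self (norm_nonneg _) hns1).trans (hF'.trans ?_)
      have : 48 / c * N ^ 10 ≤ 48 / c * N ^ 20 := mul_le_mul_of_nonneg_left hp (by positivity)
      linarith
    have h3 : ‖Fz s - 1‖ / ‖s‖ ^ 2 ≤ 12 / c * N ^ 20 + N ^ 20 :=
      (div_le_self (norm_nonneg _) (one_le_pow₀ hns1)).trans hF1
    have : (60 / c + 144 / c ^ 2 + 2) * N ^ 20 =
      12 / c * N ^ 20 + 48 / c * N ^ 20 + 144 / c ^ 2 * N ^ 20 + 2 * N ^ 20 := by ring
    rw [this]
    linarith

/-- the boundary function along the line `Re s = 1` -/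
def phz (y : ℝ) : ℂ := gz (1 + Complex.I * y)

lemma phz_hasDerivAt (y : ℝ) : HasDerivAt phz
    (((deriv Fz (1 + Complex.I * y) * (1 + Complex.I * y) - (Fz (1 + Complex.I * y) - 1)) /
      (1 + Complex.I * y) ^ 2) * Complex.I) y := by
  have h1 := gz_hasDerivAt (s := 1 + Complex.I * y) (by simp)
  have h2 : HasDerivAt (fun y : ℝ => (1 + Complex.I * y : ℂ)) Complex.I y := by
    have h3 := ((hasDerivAt_id y).ofReal_comp.const_mul Complex.I).const_add 1
    simpa using h3
  exact HasDerivAt.comp (h := fun y : ℝ => (1 + Complex.I * y : ℂ)) y h1 h2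

lemma phz_lip : ∃ M : ℝ, 0 < M ∧ ∀ L : ℝ, 0 < L →
    (∀ y ∈ Icc (-L) L, ‖phz y‖ ≤ M * (5 + L) ^ 20) ∧
    ∀ y ∈ Icc (-L) L, ∀ y' ∈ Icc (-L) L, ‖phz y - phz y'‖ ≤ M * (5 + L) ^ 20 * |y - y'| := by
  obtain ⟨M, hM, hb⟩ := gz_bounds
  refine ⟨M, hM, fun L hL => ?_⟩
  have habs : ∀ y ∈ Icc (-L) L, M * (5 + |y|) ^ 20 ≤ M * (5 + L) ^ 20 := by
    intro y hy
    have h1 : |y| ≤ L := abs_le.mpr hy
    have h2 := abs_nonneg y
    gcongr
  refine ⟨fun y hy => (hb y).1.trans (habs y hy), fun y hy y' hy' => ?_⟩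
  have h1 := (convex_Icc (-L) L).norm_image_sub_le_of_norm_hasDerivWithin_le
    (f := phz) (f' := fun y => ((deriv Fz (1 + Complex.I * y) * (1 + Complex.I * y) -
      (Fz (1 + Complex.I * y) - 1)) / (1 + Complex.I * y) ^ 2) * Complex.I)
    (C := M * (5 + L) ^ 20) (fun x _ => (phz_hasDerivAt x).hasDerivWithinAt) (fun x hx => by
      rw [norm_mul, Complex.norm_I, mul_one]
      exact (hb x).2.trans (habs x hx)) hy' hy
  rwa [Real.norm_eq_abs] at h1

end

end Pool.Agent.Helper923.H403.PNTQ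
end part_Z4

section part_Z5
open MeasureTheory Filter Topology Set

namespace Pool.Agent.Helper923.H403.PNTQ

noncomputable section

/-- cut-off boundary function -/
def Gc (φ : ℝ → ℂ) (L : ℝ) (y : ℝ) : ℂ := ((max 0 (1 - |y| / L) : ℝ) : ℂ) * φ y

lemma Gc_zero {φ : ℝ → ℂ} {L y : ℝ} (hL : 0 < L) (hy : L ≤ |y|) : Gc φ L y = 0 := by
  unfold Gc
  have h1 : 1 - |y| / L ≤ 0 := by
    have : 1 ≤ |y| / L := (one_le_div hL).mpr hy
    linarith
  rw [max_eq_left h1, Complex.ofReal_zero, zero_mul]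

lemma tau_lip {L : ℝ} (hL : 0 < L) (y y' : ℝ) :
    |max 0 (1 - |y| / L) - max 0 (1 - |y'| / L)| ≤ |y - y'| / L := by
  have h1 : |max 0 (1 - |y| / L) - max 0 (1 - |y'| / L)| ≤ |(1 - |y| / L) - (1 - |y'| / L)| := by
    have := abs_max_sub_max_le_abs (1 - |y| / L) (1 - |y'| / L) 0
    rwa [max_comm, max_comm (1 - |y'| / L)] at this
  refine h1.trans ?_
  have h2 : (1 - |y| / L) - (1 - |y'| / L) = (|y'| - |y|) / L := by ring
  rw [h2, abs_div, abs_of_pos hL]
  have h3 : abs (|y'| - |y|) ≤ |y' - y| := abs_abs_sub_abs_le _ _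
  rw [abs_sub_comm y' y] at h3
  gcongr

lemma Gc_lip {φ : ℝ → ℂ} {L K : ℝ} (hL : 0 < L) (hK : 0 ≤ K)
    (hb : ∀ y ∈ Icc (-L) L, ‖φ y‖ ≤ K)
    (hl : ∀ y ∈ Icc (-L) L, ∀ y' ∈ Icc (-L) L, ‖φ y - φ y'‖ ≤ K * |y - y'|) (y y' : ℝ) :
    ‖Gc φ L y - Gc φ L y'‖ ≤ (K / L + K) * |y - y'| := by
  -- one point inside
  have hone : ∀ y y' : ℝ, y ∈ Icc (-L) L → y' ∉ Icc (-L) L →
      ‖Gc φ L y - Gc φ L y'‖ ≤ (K / L + K) * |y - y'| := by
    intro y y' hy hy'
    have hy1 : L ≤ |y'| := by
      by_contra hc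
      push Not at hc
      exact hy' (abs_le.mp hc.le)
    rw [Gc_zero hL hy1, sub_zero]
    unfold Gc
    rw [norm_mul, Complex.norm_real]
    have h0 : max 0 (1 - |y'| / L) = 0 := by
      apply max_eq_left
      have : 1 ≤ |y'| / L := (one_le_div hL).mpr hy1
      linarith
    have h1 := tau_lip hL y y'
    rw [h0, sub_zero, ← Real.norm_eq_abs] at h1
    calc ‖max 0 (1 - |y| / L)‖ * ‖φ y‖ ≤ (|y - y'| / L) * K := by
          gcongr
          exact hb y hy
      _ = (K / L) * |y - y'| := by ring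
      _ ≤ (K / L + K) * |y - y'| := by
          have := abs_nonneg (y - y')
          nlinarith
  by_cases hy : y ∈ Icc (-L) L
  · by_cases hy' : y' ∈ Icc (-L) L
    · unfold Gc
      have h1 : ((max 0 (1 - |y| / L) : ℝ) : ℂ) * φ y - ((max 0 (1 - |y'| / L) : ℝ) : ℂ) * φ y' =
          ((max 0 (1 - |y| / L) - max 0 (1 - |y'| / L) : ℝ) : ℂ) * φ y +
          ((max 0 (1 - |y'| / L) : ℝ) : ℂ) * (φ y - φ y') := by
        push_cast
        ring
      rw [h1]
      refine (norm_add_le _ _).trans ?_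
      rw [norm_mul, norm_mul, Complex.norm_real, Complex.norm_real, Real.norm_eq_abs,
        Real.norm_eq_abs]
      have h2 := tau_lip hL y y'
      have h3 : |max 0 (1 - |y'| / L)| ≤ 1 := by
        rw [abs_of_nonneg (le_max_left _ _)]
        apply max_le zero_le_one
        have : 0 ≤ |y'| / L := by positivity
        linarith
      calc |max 0 (1 - |y| / L) - max 0 (1 - |y'| / L)| * ‖φ y‖ +
            |max 0 (1 - |y'| / L)| * ‖φ y - φ y'‖
          ≤ (|y - y'| / L) * K + 1 * (K * |y - y'|) := by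
            gcongr
            · exact hb y hy
            · exact hl y hy y' hy'
        _ = (K / L + K) * |y - y'| := by ring
    · exact hone y y' hy hy'
  · by_cases hy' : y' ∈ Icc (-L) L
    · rw [norm_sub_rev, abs_sub_comm]
      exact hone y' y hy' hy
    · have e1 : L ≤ |y| := by
        by_contra hc
        push Not at hc
        exact hy (abs_le.mp hc.le)
      have e2 : L ≤ |y'| := by
        by_contra hc
        push Not at hc
        exact hy' (abs_le.mp hc.le)
      rw [Gc_zero hL e1, Gc_zero hL e2, sub_zero, norm_zero]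
      positivity

lemma rl_quant {φ : ℝ → ℂ} {L K x : ℝ} (hL : 0 < L) (hK : 0 ≤ K) (hx : 0 < x)
    (hb : ∀ y ∈ Icc (-L) L, ‖φ y‖ ≤ K)
    (hl : ∀ y ∈ Icc (-L) L, ∀ y' ∈ Icc (-L) L, ‖φ y - φ y'‖ ≤ K * |y - y'|) :
    ‖∫ y in (-L)..L, ((1 - |y| / L : ℝ) : ℂ) * Complex.exp (Complex.I * ((x * y : ℝ) : ℂ)) *
      φ y‖ ≤ (K / L + K) * (Real.pi / x) * (2 * L + Real.pi / x) / 2 := by
  have hLL : -L ≤ L := by linarith
  set h : ℝ := Real.pi / x with hh
  have hh0 : 0 < h := div_pos Real.pi_pos hx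
  set e : ℝ → ℂ := fun y => Complex.exp (Complex.I * ((x * y : ℝ) : ℂ)) with he
  have hen : ∀ y, ‖e y‖ = 1 := by
    intro y
    simp only [he]
    rw [mul_comm, Complex.norm_exp_ofReal_mul_I]
  have heh : ∀ y, e (y + h) = - e y := by
    intro y
    simp only [he]
    have h1 : Complex.I * ((x * (y + h) : ℝ) : ℂ) = Complex.I * ((x * y : ℝ) : ℂ) +
        Real.pi * Complex.I := by
      have h2 : x * h = Real.pi := by rw [hh]; field_simp
      have h3 : x * (y + h) = x * y + Real.pi := by rw [mul_add, h2]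
      rw [h3]
      push_cast
      ring
    rw [h1, Complex.exp_add, Complex.exp_pi_mul_I]
    ring
  set G := Gc φ L with hG
  have hGl := Gc_lip (φ := φ) hL hK hb hl
  have hGc : Continuous G := by
    have hlip : LipschitzWith (Real.toNNReal (K / L + K)) G := by
      refine LipschitzWith.of_dist_le_mul fun y y' => ?_
      rw [dist_eq_norm, Real.dist_eq, Real.coe_toNNReal _ (by positivity)]
      exact hGl y y'
    exact hlip.continuous
  have hGe : Continuous (fun y => G y * e y) := by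
    refine hGc.mul ?_
    simp only [he]
    fun_prop
  have hzero : ∀ y, y ∉ Icc (-L) L → G y = 0 := by
    intro y hy
    apply Gc_zero hL
    by_contra hc
    push Not at hc
    exact hy (abs_le.mp hc.le)
  have hGi : Integrable (fun y => G y * e y) := by
    refine (hGe.integrable_of_hasCompactSupport ?_)
    refine HasCompactSupport.intro (isCompact_Icc (a := -L) (b := L)) fun y hy => ?_
    rw [hzero y hy, zero_mul]
  have hGi' : Integrable (fun y => G (y + h) * e y) := by
    have h1 := hGi.comp_add_right h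
    have h2 : (fun y => G (y + h) * e y) = fun y => -(G (y + h) * e (y + h)) := by
      ext y
      rw [heh]
      ring
    rw [h2]
    exact h1.neg
  have hI : ∫ y in (-L)..L, ((1 - |y| / L : ℝ) : ℂ) * Complex.exp (Complex.I * ((x * y : ℝ) : ℂ)) *
      φ y = ∫ y, G y * e y := by
    have hset : ∫ y, G y * e y = ∫ y in Icc (-L) L, G y * e y :=
      (setIntegral_eq_integral_of_forall_compl_eq_zero (s := Icc (-L) L)
        (fun y hy => by rw [hzero y hy, zero_mul])).symm
    rw [hset, intervalIntegral.integral_of_le hLL, ← integral_Icc_eq_integral_Ioc]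
    refine setIntegral_congr_fun measurableSet_Icc fun y hy => ?_
    have hy1 : |y| ≤ L := abs_le.mpr hy
    have hy2 : |y| / L ≤ 1 := (div_le_one hL).mpr hy1
    simp only [hG, Gc, he]
    rw [max_eq_right (by linarith)]
    ring
  have hI2 : ∫ y, G y * e y = - ∫ y, G (y + h) * e y := by
    rw [← integral_add_right_eq_self (fun y => G y * e y) h, ← integral_neg]
    refine integral_congr_ae (Eventually.of_forall fun y => ?_)
    simp only
    rw [heh]
    ring
  have h2I : 2 * ∫ y, G y * e y = ∫ y, (G y - G (y + h)) * e y := by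
    have h3 : ∫ y, (G y - G (y + h)) * e y = (∫ y, G y * e y) - ∫ y, G (y + h) * e y := by
      rw [← integral_sub hGi hGi']
      refine integral_congr_ae (Eventually.of_forall fun y => ?_)
      simp only
      ring
    rw [h3, two_mul]
    nth_rewrite 2 [hI2]
    ring
  have hbd : ‖∫ y, (G y - G (y + h)) * e y‖ ≤ (K / L + K) * h * (2 * L + h) := by
    have h4 : ∫ y, (Icc (-L - h) L).indicator (fun _ => (K / L + K) * h) y =
        (K / L + K) * h * (2 * L + h) := by
      rw [integral_indicator measurableSet_Icc, setIntegral_const, smul_eq_mul,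
        Real.volume_real_Icc_of_le (by linarith)]
      ring
    rw [← h4]
    refine norm_integral_le_of_norm_le ?_ (Eventually.of_forall fun y => ?_)
    · exact (integrable_indicator_iff measurableSet_Icc).mpr
        (integrableOn_const (by simp) )
    · rw [norm_mul, hen, mul_one]
      by_cases hy : y ∈ Icc (-L - h) L
      · rw [indicator_of_mem hy]
        refine (hGl y (y + h)).trans (le_of_eq ?_)
        have : y - (y + h) = -h := by ring
        rw [this, abs_neg, abs_of_pos hh0]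
      · rw [indicator_of_notMem hy]
        have a1 : y ∉ Icc (-L) L := fun hc => hy ⟨by linarith [hc.1], hc.2⟩
        have a2 : y + h ∉ Icc (-L) L := fun hc => hy ⟨by linarith [hc.1], by linarith [hc.2]⟩
        rw [hzero y a1, hzero _ a2, sub_zero, norm_zero]
  rw [hI]
  have h5 : ‖2 * ∫ y, G y * e y‖ ≤ (K / L + K) * h * (2 * L + h) := by
    rw [h2I]; exact hbd
  rw [norm_mul, Complex.norm_ofNat] at h5
  linarith

end

end Pool.Agent.Helper923.H403.PNTQ
end part_Z5

section part_Z6
open MeasureTheory Filter Topology Set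
open Pool.Agent.Helper923.H403.PNT602

namespace Pool.Agent.Helper923.H403.PNTQ

noncomputable section

theorem eta_general (f : ℕ → ℝ) (hf : ∀ n, 0 ≤ f n) (C A : ℝ)
    (hC : ∀ n : ℕ, ∑ k ∈ Finset.Icc 1 n, f k ≤ C * n)
    (F : ℂ → ℂ) (hF : ContinuousOn F {s | 1 ≤ s.re})
    (hFE : ∀ s : ℂ, 1 < s.re → F s = LSeries (fun n => (f n : ℂ)) s - A / (s - 1))
    (L x : ℝ) (hL : 0 < L) :
    ∫ y in (-L)..L, ((1 - |y| / L : ℝ) : ℂ) * Complex.exp (Complex.I * ((x * y : ℝ) : ℂ)) *
      ((F (1 + Complex.I * y) - A) / (1 + Complex.I * y))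
     = ((∫ u in Ioi (0:ℝ), (ff (fun x => ∑ k ∈ Finset.Icc 1 ⌊x⌋₊, f k) u - A) *
        (L * K (L * (x - u))) : ℝ) : ℂ) := by
  set S : ℝ → ℝ := fun x => ∑ k ∈ Finset.Icc 1 ⌊x⌋₊, f k with hS
  have hmono : Monotone S := by
    intro x y hxy
    exact Finset.sum_le_sum_of_subset_of_nonneg
      (Finset.Icc_subset_Icc le_rfl (Nat.floor_mono hxy)) fun k _ _ => hf k
  have hS0 : ∀ x, 0 ≤ S x := fun x => Finset.sum_nonneg fun k _ => hf k
  have hC0 : 0 ≤ C := by
    have := (Finset.sum_nonneg fun k _ => hf k).trans (hC 1)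
    simpa using this
  have hSC : ∀ x, 1 ≤ x → S x ≤ C * x := by
    intro x hx
    exact (hC _).trans (mul_le_mul_of_nonneg_left (Nat.floor_le (by linarith)) hC0)
  have hO : (fun n => ∑ k ∈ Finset.Icc 1 n, f k) =O[atTop] fun n : ℕ => (n : ℝ) ^ (1:ℝ) := by
    refine Asymptotics.IsBigO.of_bound C (Eventually.of_forall fun n => ?_)
    rw [Real.rpow_one, Real.norm_of_nonneg (Finset.sum_nonneg fun k _ => hf k),
      Real.norm_of_nonneg (Nat.cast_nonneg n)]
    exact hC n
  have hSm := ff_measurable hmono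
  -- Laplace transform
  have hE : ∀ σ : ℝ, 0 < σ → ∀ y : ℝ, ∫ u in Ioi (0:ℝ), ((ff S u - A : ℝ) : ℂ) *
      Complex.exp (-((σ:ℂ) + Complex.I * y) * u)
      = (fun z : ℂ => (F (1 + z) - A) / (1 + z)) (σ + Complex.I * y) := by
    intro σ hσ y
    set z : ℂ := (σ:ℂ) + Complex.I * y with hz
    have hzre : z.re = σ := by simp [hz]
    have hs1 : 1 < (1 + z).re := by simp [hzre, hσ]
    have hz0 : z ≠ 0 := by
      intro h
      rw [h] at hzre
      simp at hzre
      linarith
    have hz1 : 1 + z ≠ 0 := by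
      intro h
      rw [h] at hs1
      simp at hs1
      linarith
    have hL := LSeries_eq_mul_integral_of_nonneg f (r := 1) zero_le_one (s := 1 + z) hs1 hO hf
    have himg : Real.exp '' (Ioi 0) = Ioi 1 := by
      ext t
      constructor
      · rintro ⟨u, hu, rfl⟩
        exact Real.one_lt_exp_iff.mpr hu
      · intro ht
        have ht' : (1:ℝ) < t := ht
        exact ⟨Real.log t, Real.log_pos ht', Real.exp_log (by linarith)⟩
    have hcv : ∫ t in Ioi (1:ℝ), (∑ k ∈ Finset.Icc 1 ⌊t⌋₊, (f k : ℂ)) * (t : ℂ) ^ (-(1 + z + 1))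
        = ∫ u in Ioi (0:ℝ), ((ff S u : ℝ) : ℂ) * Complex.exp (-z * u) := by
      rw [← himg, integral_image_eq_integral_abs_deriv_smul measurableSet_Ioi
        (fun x _ => (Real.hasDerivAt_exp x).hasDerivWithinAt) (Real.exp_injective.injOn)]
      refine integral_congr_ae (Eventually.of_forall fun u => ?_)
      simp only
      rw [abs_of_pos (Real.exp_pos u)]
      have e1 : ((Real.exp u : ℝ) : ℂ) ^ (-(1 + z + 1)) = Complex.exp (-(1 + z + 1) * u) := by
        rw [Complex.cpow_def_of_ne_zero (by exact_mod_cast (Real.exp_pos u).ne'),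
          ← Complex.ofReal_log (Real.exp_pos u).le, Real.log_exp]
        ring_nf
      rw [e1]
      simp only [ff, hS]
      rw [Complex.real_smul]
      push_cast
      have e2 : Complex.exp (u:ℂ) * Complex.exp (-(1 + z + 1) * u)
          = Complex.exp (-(u:ℂ)) * Complex.exp (-z * u) := by
        rw [← Complex.exp_add, ← Complex.exp_add]
        congr 1
        ring
      linear_combination (∑ k ∈ Finset.Icc 1 ⌊Real.exp u⌋₊, (f k : ℂ)) * e2
    have hLs : ∫ u in Ioi (0:ℝ), ((ff S u : ℝ) : ℂ) * Complex.exp (-z * u)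
        = LSeries (fun n => (f n : ℂ)) (1 + z) / (1 + z) := by
      rw [eq_div_iff hz1, ← hcv, hL]
      ring
    have hexp : ∫ u in Ioi (0:ℝ), Complex.exp (-z * u) = 1 / z := by
      rw [integral_exp_mul_complex_Ioi (by simpa [hzre] using hσ)]
      simp
    have hiexp : IntegrableOn (fun u : ℝ => Complex.exp (-z * u)) (Ioi 0) :=
      integrableOn_exp_mul_complex_Ioi (by simpa [hzre] using hσ) 0
    have hiff : IntegrableOn (fun u : ℝ => ((ff S u : ℝ) : ℂ) * Complex.exp (-z * u)) (Ioi 0) := by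
      refine Integrable.mono' (g := fun u => C * Real.exp (-σ * u)) ?_ ?_ ?_
      · exact (integrableOn_exp_mul_Ioi (by linarith) 0).const_mul C
      · exact Measurable.aestronglyMeasurable (by fun_prop)
      · refine (ae_restrict_mem measurableSet_Ioi).mono fun u hu => ?_
        have hu' : (0:ℝ) ≤ u := le_of_lt hu
        rw [norm_mul, Complex.norm_exp, Complex.norm_real, Real.norm_of_nonneg (ff_nonneg hS0 u)]
        have e2 : (-z * u).re = -σ * u := by simp [hz]
        rw [e2]
        exact mul_le_mul_of_nonneg_right (ff_le hSC hu') (Real.exp_pos _).le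
    have hsplit : ∫ u in Ioi (0:ℝ), ((ff S u - A : ℝ) : ℂ) * Complex.exp (-z * u)
        = (∫ u in Ioi (0:ℝ), ((ff S u : ℝ) : ℂ) * Complex.exp (-z * u))
          - A * ∫ u in Ioi (0:ℝ), Complex.exp (-z * u) := by
      rw [← integral_const_mul, ← integral_sub hiff (hiexp.const_mul _)]
      refine integral_congr_ae (Eventually.of_forall fun u => ?_)
      simp only
      push_cast
      ring
    rw [hsplit, hLs, hexp]
    simp only
    rw [hFE _ hs1]
    have h2 : 1 + z - 1 = z := by ring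
    rw [h2]
    field_simp
    ring
  have hΦ : ContinuousOn (fun z : ℂ => (F (1 + z) - A) / (1 + z)) {z | 0 ≤ z.re} := by
    refine ContinuousOn.div ?_ (by fun_prop) ?_
    · refine ContinuousOn.sub ?_ continuousOn_const
      refine hF.comp (by fun_prop) ?_
      intro z hz
      simp only [mem_ofPred_eq] at hz ⊢
      simp only [Complex.add_re, Complex.one_re]
      linarith
    · intro z hz h
      simp only [mem_ofPred_eq] at hz
      have : (1 + z).re = 0 := by rw [h]; simp
      simp only [Complex.add_re, Complex.one_re] at this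
      linarith
  exact limit_step hmono hS0 hSC hΦ hE L x hL

end

end Pool.Agent.Helper923.H403.PNTQ
end part_Z6

section part_Z7
open MeasureTheory Filter Topology Set
open Pool.Agent.Helper923.H403.PNT602

namespace Pool.Agent.Helper923.H403.PNTQ

noncomputable section

lemma K_neg (v : ℝ) : K (-v) = K v := by
  unfold K
  simp

lemma K_le_sq {v : ℝ} (hv : 0 < v) : K v ≤ 4 * v ^ (-2 : ℝ) := by
  have h := K_mul_sq_le v
  have h2 : v ^ (-2 : ℝ) = (v ^ 2)⁻¹ := by
    rw [Real.rpow_neg hv.le]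
    norm_num
  rw [h2, ← div_eq_mul_inv, le_div_iff₀ (by positivity)]
  exact h

lemma tail_le {r : ℝ} (hr : 0 < r) : ∫ v in Ioi r, K v ≤ 4 / r := by
  have h1 : ∫ v in Ioi r, (4 * v ^ (-2 : ℝ)) = 4 / r := by
    rw [integral_const_mul, integral_Ioi_rpow_of_lt (by norm_num) hr]
    norm_num
    rw [Real.rpow_neg_one]
    ring
  rw [← h1]
  refine setIntegral_mono_on K_integrable.integrableOn ?_ measurableSet_Ioi ?_
  · exact (integrableOn_Ioi_rpow_of_lt (by norm_num) hr).const_mul 4
  · intro v hv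
    exact K_le_sq (hr.trans hv)

lemma I_sub_J {r : ℝ} (hr : 0 < r) : (∫ v, K v) - J r ≤ 8 / r := by
  have h1 : ∫ v in Iic (-r), K v = ∫ v in Ioi r, K v := by
    have := integral_comp_neg_Iic (-r) K
    rw [neg_neg] at this
    rw [← this]
    refine integral_congr_ae (Eventually.of_forall fun v => ?_)
    simp only [K_neg]
  have h2 : ∫ v, K v = (∫ v in Iic (-r), K v) + ∫ v in Ioi (-r), K v :=
    (intervalIntegral.integral_Iic_add_Ioi K_integrable.integrableOn
      K_integrable.integrableOn).symm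
  have h3 : ∫ v in Ioi (-r), K v = J r + ∫ v in Ioi r, K v := by
    have := intervalIntegral.integral_Ioi_sub_Ioi (f := K) (μ := volume) (a := -r) (b := r)
      K_integrable.integrableOn (by linarith)
    unfold J
    linarith
  have h4 := tail_le hr
  have h5 : 8 / r = 4 / r + 4 / r := by ring
  rw [h2, h1, h3, h5]
  linarith

lemma J_le {r : ℝ} (hr : 0 < r) : J r ≤ ∫ v, K v := by
  unfold J
  rw [intervalIntegral.integral_of_le (by linarith)]
  exact setIntegral_le_integral K_integrable (Eventually.of_forall K_nonneg)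

end

end Pool.Agent.Helper923.H403.PNTQ
end part_Z7

section part_Z8
open MeasureTheory Filter Topology Set
open Pool.Agent.Helper923.H403.PNT602

namespace Pool.Agent.Helper923.H403.PNTQ

noncomputable section

lemma tauber_pt {S : ℝ → ℝ} {C : ℝ} (hmono : Monotone S) (hS0 : ∀ x, 0 ≤ S x)
    (hSC : ∀ x, 1 ≤ x → S x ≤ C * x) {y L δ r η : ℝ} (hδ0 : 0 < δ) (hδ1 : δ ≤ 1 / 2)
    (hL0 : 0 < L) (hr : r = L * δ) (hr2 : 16 / (∫ v, K v) ≤ r) (hy : 2 * δ ≤ y)
    (hη1 : |∫ u in Ioi (0:ℝ), (ff S u - 1) * (L * K (L * ((y + δ) - u)))| ≤ η)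
    (hη2 : |∫ u in Ioi (0:ℝ), (ff S u - 1) * (L * K (L * ((y - δ) - u)))| ≤ η) :
    |ff S y - 1| ≤ 2 / (∫ v, K v) * (4 * δ * (η + ∫ v, K v) + η + 8 * (1 + C) / r) + 4 * C * δ := by
  set I : ℝ := ∫ v, K v with hI
  have hIpos : 0 < I := K_integral_pos
  have hff := ff_measurable hmono
  have hC : 0 ≤ C := (ff_nonneg hS0 0).trans (ff_le hSC le_rfl)
  -- integrability of ff * kernel
  have hPint : ∀ L : ℝ, 0 < L → ∀ x : ℝ,
      IntegrableOn (fun u => ff S u * (L * K (L * (x - u)))) (Ioi 0) := by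
    intro L hL x
    refine Integrable.mono' (((K_shift_integrable L x hL).const_mul C).integrableOn) ?_ ?_
    · refine Measurable.aestronglyMeasurable ?_
      have := K_measurable
      fun_prop
    · refine (ae_restrict_mem measurableSet_Ioi).mono fun u hu => ?_
      have hu' : (0:ℝ) ≤ u := le_of_lt hu
      have hk : 0 ≤ L * K (L * (x - u)) := mul_nonneg hL.le (K_nonneg _)
      rw [norm_mul, Real.norm_of_nonneg (ff_nonneg hS0 u), Real.norm_of_nonneg hk]
      exact mul_le_mul_of_nonneg_right (ff_le hSC hu') hk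
  -- upper inequality
  have hup : ∀ L δ x : ℝ, 0 < L → 0 < δ → δ ≤ x →
      ff S (x - δ) * Real.exp (-(2 * δ)) * J (L * δ) ≤
        ∫ u in Ioi (0:ℝ), ff S u * (L * K (L * (x - u))) := by
    intro L δ x hL hδ hx
    have hle : x - δ ≤ x + δ := by linarith
    rw [← window L x δ, ← intervalIntegral.integral_const_mul, intervalIntegral.integral_of_le hle]
    have hsub : Ioc (x - δ) (x + δ) ⊆ Ioi 0 := by
      intro u hu
      have := hu.1
      simp only [mem_Ioi]
      linarith
    calc ∫ u in Ioc (x - δ) (x + δ), ff S (x - δ) * Real.exp (-(2 * δ)) * (L * K (L * (x - u)))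
        ≤ ∫ u in Ioc (x - δ) (x + δ), ff S u * (L * K (L * (x - u))) := by
          refine setIntegral_mono_on ((K_shift_integrable L x hL).const_mul _).integrableOn
            ((hPint L hL x).mono_set hsub) measurableSet_Ioc fun u hu => ?_
          have hk : 0 ≤ L * K (L * (x - u)) := mul_nonneg hL.le (K_nonneg _)
          refine mul_le_mul_of_nonneg_right ?_ hk
          refine le_trans ?_ (ff_shift hmono hu.1.le)
          refine mul_le_mul_of_nonneg_left ?_ (ff_nonneg hS0 _)
          apply Real.exp_le_exp.mpr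
          have := hu.2
          linarith
      _ ≤ ∫ u in Ioi (0:ℝ), ff S u * (L * K (L * (x - u))) := by
          refine setIntegral_mono_set (hPint L hL x) ?_ hsub.eventuallyLE
          exact Eventually.of_forall fun u =>
            mul_nonneg (ff_nonneg hS0 u) (mul_nonneg hL.le (K_nonneg _))
  have hlow : ∀ L δ x : ℝ, 0 < L → 0 < δ → δ ≤ x →
      ∫ u in Ioi (0:ℝ), ff S u * (L * K (L * (x - u))) ≤
        (ff S (x + δ) * Real.exp (2 * δ) - C) * J (L * δ) + C * I := by
    intro L δ x hL hδ hx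
    have hle : x - δ ≤ x + δ := by linarith
    have hsub : Ioc (x - δ) (x + δ) ⊆ Ioi 0 := by
      intro u hu
      have := hu.1
      simp only [mem_Ioi]
      linarith
    have hk : ∀ u, 0 ≤ L * K (L * (x - u)) := fun u => mul_nonneg hL.le (K_nonneg _)
    have hki := K_shift_integrable L x hL
    have h1 : ∫ u in Ioi (0:ℝ), C * (L * K (L * (x - u))) ≤ C * I := by
      have h2 : ∫ u in Ioi (0:ℝ), L * K (L * (x - u)) ≤ I := by
        have h3 : ∫ u in Ioi (0:ℝ), L * K (L * (x - u)) ≤ ∫ u, L * K (L * (x - u)) :=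
          setIntegral_le_integral hki (Eventually.of_forall hk)
        have h4 : ∫ u, L * K (L * (x - u)) = I := by
          rw [integral_sub_left_eq_self (fun w => L * K (L * w)) volume x, integral_const_mul,
            Measure.integral_comp_mul_left, smul_eq_mul, abs_of_pos (inv_pos.mpr hL)]
          field_simp
          rfl
        linarith
      rw [integral_const_mul]
      exact mul_le_mul_of_nonneg_left h2 hC
    have h5 : ∫ u in Ioi (0:ℝ), (Ioc (x - δ) (x + δ)).indicator
        (fun u => (ff S (x + δ) * Real.exp (2 * δ) - C) * (L * K (L * (x - u)))) u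
        = (ff S (x + δ) * Real.exp (2 * δ) - C) * J (L * δ) := by
      rw [setIntegral_indicator measurableSet_Ioc, inter_eq_self_of_subset_right hsub,
        integral_const_mul, ← window L x δ, intervalIntegral.integral_of_le hle]
    calc ∫ u in Ioi (0:ℝ), ff S u * (L * K (L * (x - u)))
        ≤ ∫ u in Ioi (0:ℝ), ((Ioc (x - δ) (x + δ)).indicator
        (fun u => (ff S (x + δ) * Real.exp (2 * δ) - C) * (L * K (L * (x - u)))) u
          + C * (L * K (L * (x - u)))) := by
          refine setIntegral_mono_on (hPint L hL x) ?_ measurableSet_Ioi fun u hu => ?_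
          · exact (((hki.const_mul _).indicator measurableSet_Ioc).integrableOn).add
              (hki.const_mul _).integrableOn
          · by_cases huw : u ∈ Ioc (x - δ) (x + δ)
            · rw [indicator_of_mem huw]
              have h6 : ff S u ≤ ff S (x + δ) * Real.exp (2 * δ) := by
                have h7 := ff_shift hmono huw.2
                have h8 : ff S u = ff S u * Real.exp (-(x + δ - u)) * Real.exp (x + δ - u) := by
                  rw [mul_assoc, ← Real.exp_add]; simp
                rw [h8]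
                refine mul_le_mul h7 ?_ (Real.exp_pos _).le (ff_nonneg hS0 _)
                apply Real.exp_le_exp.mpr
                have := huw.1
                linarith
              have := mul_le_mul_of_nonneg_right h6 (hk u)
              linarith
            · rw [indicator_of_notMem huw, zero_add]
              exact mul_le_mul_of_nonneg_right (ff_le hSC (le_of_lt hu)) (hk u)
      _ = (ff S (x + δ) * Real.exp (2 * δ) - C) * J (L * δ)
          + ∫ u in Ioi (0:ℝ), C * (L * K (L * (x - u))) := by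
          rw [integral_add, h5]
          · exact ((hki.const_mul _).indicator measurableSet_Ioc).integrableOn
          · exact (hki.const_mul _).integrableOn
      _ ≤ _ := by linarith
  have hr0 : 0 < r := by rw [hr]; positivity
  have hy0 : 0 < y := by linarith
  have hη0 : 0 ≤ η := (abs_nonneg _).trans hη1
  have hPQ : ∀ x : ℝ, ∫ u in Ioi (0:ℝ), ff S u * (L * K (L * (x - u))) =
      (∫ u in Ioi (0:ℝ), (ff S u - 1) * (L * K (L * (x - u)))) +
      ∫ u in Ioi (0:ℝ), L * K (L * (x - u)) := by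
    intro x
    have hki := (K_shift_integrable L x hL0).integrableOn (s := Ioi 0)
    rw [← integral_add]
    · refine integral_congr_ae (Eventually.of_forall fun u => ?_)
      simp only
      ring
    · have e : (fun u => (ff S u - 1) * (L * K (L * (x - u))))
        = fun u => ff S u * (L * K (L * (x - u))) - (L * K (L * (x - u))) := by
        ext u; ring
      rw [e]
      exact (hPint L hL0 x).sub hki
    · exact hki
  have hJI : J r ≤ I := J_le hr0
  have hIJ : I - J r ≤ 8 / r := I_sub_J hr0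
  have h8r : 8 / r ≤ I / 2 := by
    rw [div_le_iff₀ hr0]
    rw [div_le_iff₀ hIpos] at hr2
    linarith
  have hJ2 : I / 2 ≤ J r := by linarith
  have hJ0 : 0 < J r := by linarith
  -- bounds on Q
  have hQu : ∀ x : ℝ, ∫ u in Ioi (0:ℝ), L * K (L * (x - u)) ≤ I := by
    intro x
    have hki := K_shift_integrable L x hL0
    have hk : ∀ u, 0 ≤ L * K (L * (x - u)) := fun u => mul_nonneg hL0.le (K_nonneg _)
    have h3 : ∫ u in Ioi (0:ℝ), L * K (L * (x - u)) ≤ ∫ u, L * K (L * (x - u)) :=
      setIntegral_le_integral hki (Eventually.of_forall hk)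
    have h4 : ∫ u, L * K (L * (x - u)) = I := by
      rw [integral_sub_left_eq_self (fun w => L * K (L * w)) volume x, integral_const_mul,
        Measure.integral_comp_mul_left, smul_eq_mul, abs_of_pos (inv_pos.mpr hL0)]
      field_simp
      rfl
    linarith
  have hQl : ∀ x : ℝ, δ ≤ x → J r ≤ ∫ u in Ioi (0:ℝ), L * K (L * (x - u)) := by
    intro x hx
    have hle : x - δ ≤ x + δ := by linarith
    have hsub : Ioc (x - δ) (x + δ) ⊆ Ioi 0 := by
      intro u hu
      have := hu.1
      simp only [mem_Ioi]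
      linarith
    rw [hr, ← window L x δ, intervalIntegral.integral_of_le hle]
    refine setIntegral_mono_set (K_shift_integrable L x hL0).integrableOn ?_ hsub.eventuallyLE
    exact Eventually.of_forall fun u => mul_nonneg hL0.le (K_nonneg _)
  have hexp : Real.exp (2 * δ) ≤ 1 + 4 * δ := by
    have h1 : |2 * δ| ≤ 1 := by rw [abs_of_pos (by linarith)]; linarith
    have h2 := Real.abs_exp_sub_one_le h1
    rw [abs_of_pos (by linarith : (0:ℝ) < 2 * δ)] at h2
    have h3 := le_abs_self (Real.exp (2 * δ) - 1)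
    linarith
  have hexp1 : 1 ≤ Real.exp (2 * δ) := Real.one_le_exp (by linarith)
  have hfC : ff S y ≤ C := ff_le hSC hy0.le
  have hf0 : 0 ≤ ff S y := ff_nonneg hS0 y
  have h2I : 0 < 2 / I := by positivity
  have hIJ' : 1 / J r ≤ 2 / I := by
    rw [div_le_div_iff₀ hJ0 hIpos]
    linarith
  have hcr : 8 * (1 + C) / r = 8 / r + C * (8 / r) := by ring
  have h8r0 : 0 < 8 / r := by positivity
  rw [abs_le]
  constructor
  · -- lower bound
    have h1 := hlow L δ (y - δ) hL0 hδ0 (by linarith)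
    rw [sub_add_cancel, ← hr, hPQ] at h1
    have h2 := hQl (y - δ) (by linarith)
    have h3 := (abs_le.mp hη2).1
    -- J r - η ≤ (f e - C) J + C I
    have h4 : J r - η - C * (I - J r) ≤ ff S y * Real.exp (2 * δ) * J r := by linarith
    have h5 : C * (I - J r) ≤ C * (8 / r) := mul_le_mul_of_nonneg_left hIJ hC
    have h6 : J r - (η + C * (8 / r)) ≤ ff S y * Real.exp (2 * δ) * J r := by linarith
    have h7 : 1 - (η + C * (8 / r)) * (1 / J r) ≤ ff S y * Real.exp (2 * δ) := by
      have := mul_le_mul_of_nonneg_right h6 (by positivity : 0 ≤ 1 / J r)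
      have e1 : J r * (1 / J r) = 1 := by field_simp
      have e2 : (J r - (η + C * (8 / r))) * (1 / J r) = 1 - (η + C * (8 / r)) * (1 / J r) := by
        rw [sub_mul, e1]
      have e3 : ff S y * Real.exp (2 * δ) * J r * (1 / J r) = ff S y * Real.exp (2 * δ) := by
        rw [mul_assoc _ (J r), e1, mul_one]
      rw [e2, e3] at this
      exact this
    have h8 : (η + C * (8 / r)) * (1 / J r) ≤ (η + C * (8 / r)) * (2 / I) :=
      mul_le_mul_of_nonneg_left hIJ' (by positivity)
    have h9 : ff S y * Real.exp (2 * δ) ≤ ff S y * (1 + 4 * δ) :=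
      mul_le_mul_of_nonneg_left hexp hf0
    have h10 : ff S y * (4 * δ) ≤ C * (4 * δ) := mul_le_mul_of_nonneg_right hfC (by positivity)
    have h11 : (η + C * (8 / r)) * (2 / I) ≤
        2 / I * (4 * δ * (η + I) + η + 8 * (1 + C) / r) := by
      rw [mul_comm, hcr]
      refine mul_le_mul_of_nonneg_left ?_ h2I.le
      have : 0 ≤ 4 * δ * (η + I) := by positivity
      linarith
    linarith
  · -- upper bound
    have h1 := hup L δ (y + δ) hL0 hδ0 (by linarith)
    rw [add_sub_cancel_right, ← hr, hPQ] at h1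
    have h2 := hQu (y + δ)
    have h3 := (abs_le.mp hη1).2
    have h4 : ff S y * Real.exp (-(2 * δ)) * J r ≤ η + I := by linarith
    have h5 : ff S y * J r ≤ Real.exp (2 * δ) * (η + I) := by
      have h6 := mul_le_mul_of_nonneg_left h4 (Real.exp_pos (2 * δ)).le
      have e : Real.exp (2 * δ) * Real.exp (-(2 * δ)) = 1 := by rw [← Real.exp_add]; simp
      calc ff S y * J r = (Real.exp (2 * δ) * Real.exp (-(2 * δ))) * (ff S y * J r) := by
            rw [e, one_mul]
        _ = Real.exp (2 * δ) * (ff S y * Real.exp (-(2 * δ)) * J r) := by ring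
        _ ≤ _ := h6
    have h7 : Real.exp (2 * δ) * (η + I) ≤ (1 + 4 * δ) * (η + I) :=
      mul_le_mul_of_nonneg_right hexp (by positivity)
    have h8 : (ff S y - 1) * J r ≤ 4 * δ * (η + I) + η + 8 / r := by
      have : (ff S y - 1) * J r = ff S y * J r - J r := by ring
      rw [this]
      linarith
    have h9 : ff S y - 1 ≤ (4 * δ * (η + I) + η + 8 / r) * (1 / J r) := by
      rw [mul_one_div, le_div_iff₀ hJ0]
      exact h8
    have h10 : (4 * δ * (η + I) + η + 8 / r) * (1 / J r) ≤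
        (4 * δ * (η + I) + η + 8 / r) * (2 / I) :=
      mul_le_mul_of_nonneg_left hIJ' (by positivity)
    have h11 : (4 * δ * (η + I) + η + 8 / r) * (2 / I) ≤
        2 / I * (4 * δ * (η + I) + η + 8 * (1 + C) / r) := by
      rw [mul_comm, hcr]
      refine mul_le_mul_of_nonneg_left ?_ h2I.le
      have : 0 ≤ C * (8 / r) := by positivity
      linarith
    have h12 : 0 ≤ 4 * C * δ := by positivity
    linarith

end

end Pool.Agent.Helper923.H403.PNTQ
end part_Z8

section part_Z9
open MeasureTheory Filter Topology Set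
open Pool.Agent.Helper923.H403.PNT602

namespace Pool.Agent.Helper923.H403.PNTQ

noncomputable section

/-- the summatory function of the von Mangoldt function -/
def Sp (x : ℝ) : ℝ := ∑ k ∈ Finset.Icc 1 ⌊x⌋₊, ArithmeticFunction.vonMangoldt k

lemma Sp_eq (x : ℝ) : Sp x = Chebyshev.psi x := rfl

lemma Sp_mono : Monotone Sp := by
  intro x y hxy
  exact Finset.sum_le_sum_of_subset_of_nonneg
    (Finset.Icc_subset_Icc le_rfl (Nat.floor_mono hxy))
    fun k _ _ => ArithmeticFunction.vonMangoldt_nonneg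

lemma Sp_nonneg (x : ℝ) : 0 ≤ Sp x :=
  Finset.sum_nonneg fun k _ => ArithmeticFunction.vonMangoldt_nonneg

lemma Sp_le (x : ℝ) (hx : 1 ≤ x) : Sp x ≤ (Real.log 4 + 4) * x :=
  Chebyshev.psi_le_const_mul_self (by linarith)

lemma eta_bound : ∃ C1 : ℝ, 0 < C1 ∧ ∀ L x : ℝ, 1 ≤ L → 1 ≤ x →
    |∫ u in Ioi (0:ℝ), (ff Sp u - 1) * (L * K (L * (x - u)))| ≤ C1 * (5 + L) ^ 21 / x := by
  obtain ⟨M, hM, hM2⟩ := phz_lip
  refine ⟨2 * Real.pi * M, by positivity, fun L x hL hx => ?_⟩
  have hL0 : 0 < L := by linarith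
  have hx0 : 0 < x := by linarith
  have h1 := eta_general (fun n => ArithmeticFunction.vonMangoldt n)
    (fun n => ArithmeticFunction.vonMangoldt_nonneg) (Real.log 4 + 4) 1
    (fun n => by
      have := Chebyshev.psi_le_const_mul_self (x := (n:ℝ)) (Nat.cast_nonneg n)
      unfold Chebyshev.psi at this
      rw [Nat.floor_natCast] at this
      exact this) Fz Fz_continuousOn
    (fun s hs => Fz_eq hs) L x hL0
  have h2 : ∫ y in (-L)..L, ((1 - |y| / L : ℝ) : ℂ) *
      Complex.exp (Complex.I * ((x * y : ℝ) : ℂ)) * phz y =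
      ((∫ u in Ioi (0:ℝ), (ff Sp u - 1) * (L * K (L * (x - u))) : ℝ) : ℂ) := by
    rw [show (fun x : ℝ => ∑ k ∈ Finset.Icc 1 ⌊x⌋₊, ArithmeticFunction.vonMangoldt k) = Sp from
      rfl] at h1
    rw [← h1]
    refine intervalIntegral.integral_congr fun y _ => ?_
    simp only [phz, gz, Complex.ofReal_one]
  obtain ⟨hb, hl⟩ := hM2 L hL0
  have h3 := rl_quant hL0 (by positivity : 0 ≤ M * (5 + L) ^ 20) hx0 hb hl
  rw [h2, Complex.norm_real, Real.norm_eq_abs] at h3
  refine h3.trans ?_
  set N : ℝ := M * (5 + L) ^ 20 with hN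
  have hN0 : 0 < N := by positivity
  have hNL : N / L ≤ N := div_le_self hN0.le hL
  have hpi := Real.pi_pos
  have hpi4 : Real.pi ≤ 4 := Real.pi_le_four
  have hpx : Real.pi / x ≤ Real.pi := div_le_self hpi.le hx
  have h4 : (N / L + N) * (Real.pi / x) * (2 * L + Real.pi / x) / 2 ≤
      (2 * N) * (Real.pi / x) * (2 * (5 + L)) / 2 := by
    have h5 : N / L + N ≤ 2 * N := by linarith
    have h6 : 2 * L + Real.pi / x ≤ 2 * (5 + L) := by linarith
    have h7 : 0 ≤ 2 * L + Real.pi / x := by positivity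
    have h8 : 0 ≤ Real.pi / x := by positivity
    have h9 : (N / L + N) * (Real.pi / x) ≤ (2 * N) * (Real.pi / x) :=
      mul_le_mul_of_nonneg_right h5 h8
    have h10 : (N / L + N) * (Real.pi / x) * (2 * L + Real.pi / x) ≤
        (2 * N) * (Real.pi / x) * (2 * (5 + L)) :=
      mul_le_mul h9 h6 h7 (by positivity)
    linarith
  refine h4.trans (le_of_eq ?_)
  rw [hN]
  field_simp

lemma main_T : ∃ C2 T0 : ℝ, 0 < C2 ∧ 2 ≤ T0 ∧ ∀ T : ℝ, T0 ≤ T → |ff Sp (T ^ 50) - 1| ≤ C2 / T := by
  obtain ⟨C1, hC1, hη⟩ := eta_bound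
  set I : ℝ := ∫ v, K v with hI
  have hIpos : 0 < I := K_integral_pos
  set C : ℝ := Real.log 4 + 4 with hC
  have hC0 : 0 < C := by
    have : 0 < Real.log 4 := Real.log_pos (by norm_num)
    positivity
  set D : ℝ := 2 * 3 ^ 21 * C1 with hD
  have hD0 : 0 < D := by positivity
  refine ⟨2 / I * (4 * (D + I) + D + 8 * (1 + C)) + 4 * C, max 2 (16 / I), by positivity,
    le_max_left _ _, fun T hT => ?_⟩
  have hT2 : 2 ≤ T := (le_max_left _ _).trans hT
  have hTI : 16 / I ≤ T := (le_max_right _ _).trans hT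
  have hT0 : 0 < T := by linarith
  have hT1 : 1 ≤ T := by linarith
  have hδ0 : 0 < 1 / T := by positivity
  have hδ1 : 1 / T ≤ 1 / 2 := one_div_le_one_div_of_le (by norm_num) hT2
  have hL1 : 1 ≤ T ^ 2 := one_le_pow₀ hT1
  have hL0 : 0 < T ^ 2 := by positivity
  have hTr : T = T ^ 2 * (1 / T) := by field_simp
  have hT50 : T ≤ T ^ 50 := le_self_pow₀ hT1 (by norm_num)
  have hy2 : 2 ≤ T ^ 50 := hT2.trans hT50
  have hbd : ∀ x : ℝ, T ^ 50 / 2 ≤ x → 1 ≤ x → C1 * (5 + T ^ 2) ^ 21 / x ≤ D / T := by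
    intro x hx hx1
    have hx0 : 0 < x := by linarith
    have h1 : 5 + T ^ 2 ≤ 3 * T ^ 2 := by nlinarith
    have h2 : (5 + T ^ 2) ^ 21 ≤ (3 * T ^ 2) ^ 21 := by gcongr
    rw [div_le_div_iff₀ hx0 hT0]
    have h3 : C1 * (5 + T ^ 2) ^ 21 * T ≤ C1 * (3 * T ^ 2) ^ 21 * T := by gcongr
    refine h3.trans ?_
    have h4 : C1 * (3 * T ^ 2) ^ 21 * T = D * (T ^ 43 / 2) := by
      rw [hD]; ring
    rw [h4]
    refine mul_le_mul_of_nonneg_left ?_ hD0.le
    have h5 : T ^ 43 ≤ T ^ 50 := pow_le_pow_right₀ hT1 (by norm_num)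
    linarith
  have hη1 := (hη (T ^ 2) (T ^ 50 + 1 / T) hL1 (by linarith)).trans
    (hbd (T ^ 50 + 1 / T) (by linarith) (by linarith))
  have hη2 := (hη (T ^ 2) (T ^ 50 - 1 / T) hL1 (by linarith)).trans
    (hbd (T ^ 50 - 1 / T) (by linarith) (by linarith))
  have h := tauber_pt Sp_mono Sp_nonneg Sp_le hδ0 hδ1 hL0 hTr hTI (by linarith) hη1 hη2
  refine h.trans ?_
  rw [← hI, ← hC]
  have hDT : D / T ≤ D := div_le_self hD0.le hT1
  have h1 : 4 * (1 / T) * (D / T + I) ≤ 4 * (D + I) / T := by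
    have : 4 * (1 / T) * (D / T + I) ≤ 4 * (1 / T) * (D + I) := by gcongr
    refine this.trans (le_of_eq ?_)
    ring
  have h2 : 4 * (1 / T) * (D / T + I) + D / T + 8 * (1 + C) / T ≤
      (4 * (D + I) + D + 8 * (1 + C)) / T := by
    rw [add_div, add_div]
    linarith
  have h3 := mul_le_mul_of_nonneg_left h2 (by positivity : 0 ≤ 2 / I)
  have h4 : (2 / I * (4 * (D + I) + D + 8 * (1 + C)) + 4 * C) / T =
      2 / I * ((4 * (D + I) + D + 8 * (1 + C)) / T) + 4 * C * (1 / T) := by ring
  rw [h4]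
  linarith

lemma psi_quant : ∃ C3 : ℝ, 0 < C3 ∧ ∀ x : ℝ, 2 ≤ x →
    |Chebyshev.psi x - x| ≤ C3 * x / (Real.log x) ^ (1 / 50 : ℝ) := by
  obtain ⟨C2, T0, hC2, hT0, h⟩ := main_T
  set C : ℝ := Real.log 4 + 4 with hC
  have hC0 : 0 < C := by
    have : 0 < Real.log 4 := Real.log_pos (by norm_num)
    positivity
  refine ⟨C2 + (C + 1) * T0, by positivity, fun x hx => ?_⟩
  have hx0 : 0 < x := by linarith
  have hlog : 0 < Real.log x := Real.log_pos (by linarith)
  set T : ℝ := (Real.log x) ^ (1 / 50 : ℝ) with hT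
  have hTpos : 0 < T := Real.rpow_pos_of_pos hlog _
  have hT50 : T ^ 50 = Real.log x := by
    rw [hT, ← Real.rpow_natCast, ← Real.rpow_mul hlog.le]
    norm_num
  have hff : ff Sp (T ^ 50) = Chebyshev.psi x / x := by
    rw [hT50]
    unfold ff
    rw [Real.exp_neg, Real.exp_log hx0, Sp_eq, div_eq_mul_inv]
  have hkey : |ff Sp (T ^ 50) - 1| ≤ (C2 + (C + 1) * T0) / T := by
    rcases le_or_gt T0 T with h1 | h1
    · refine (h T h1).trans ?_
      refine div_le_div_of_nonneg_right ?_ hTpos.le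
      have : 0 ≤ (C + 1) * T0 := by positivity
      linarith
    · have h2 : |ff Sp (T ^ 50) - 1| ≤ C + 1 := by
        have h3 : ff Sp (T ^ 50) ≤ C := ff_le Sp_le (by positivity)
        have h4 : 0 ≤ ff Sp (T ^ 50) := ff_nonneg Sp_nonneg _
        rw [abs_le]
        constructor <;> linarith
      refine h2.trans ?_
      rw [le_div_iff₀ hTpos]
      have : (C + 1) * T ≤ (C + 1) * T0 := mul_le_mul_of_nonneg_left h1.le (by positivity)
      linarith
  rw [hff] at hkey
  have e : Chebyshev.psi x - x = (Chebyshev.psi x / x - 1) * x := by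
    field_simp
  rw [e, abs_mul, abs_of_pos hx0]
  calc |Chebyshev.psi x / x - 1| * x ≤ (C2 + (C + 1) * T0) / T * x :=
        mul_le_mul_of_nonneg_right hkey hx0.le
    _ = _ := by ring

end

end Pool.Agent.Helper923.H403.PNTQ

namespace Pool.Agent.Helper923.PNTQ
/-- Prime number theorem with a power-of-log error term. -/
theorem theta_quant : ∃ C : ℝ, 0 < C ∧ ∀ x : ℝ, 2 ≤ x →
    |Chebyshev.theta x - x| ≤ C * x / (Real.log x) ^ (1 / 50 : ℝ) := by
  obtain ⟨C3, hC3, h⟩ := Pool.Agent.Helper923.H403.PNTQ.psi_quant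
  obtain ⟨C4, hC4⟩ := Chebyshev.psi_sub_theta_le_mul_sqrt
  refine ⟨C3 + |C4|, by positivity, fun x hx => ?_⟩
  have hx0 : 0 < x := by linarith
  have hlog : 0 < Real.log x := Real.log_pos (by linarith)
  have hTpos : 0 < (Real.log x) ^ (1 / 50 : ℝ) := Real.rpow_pos_of_pos hlog _
  have h1 := h x hx
  have h2 := hC4 x
  have h3 := Chebyshev.theta_le_psi x
  have h4 : Real.sqrt x ≤ x / (Real.log x) ^ (1 / 50 : ℝ) := by
    rw [le_div_iff₀ hTpos]
    have h5 : (Real.log x) ^ (1 / 50 : ℝ) ≤ Real.sqrt x := by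
      rw [Real.sqrt_eq_rpow]
      calc (Real.log x) ^ (1 / 50 : ℝ) ≤ x ^ (1 / 50 : ℝ) :=
            Real.rpow_le_rpow hlog.le (by linarith [Real.log_le_sub_one_of_pos hx0]) (by norm_num)
        _ ≤ x ^ (1 / 2 : ℝ) := Real.rpow_le_rpow_of_exponent_le (by linarith) (by norm_num)
    have h6 : 0 ≤ Real.sqrt x := Real.sqrt_nonneg x
    calc Real.sqrt x * (Real.log x) ^ (1 / 50 : ℝ) ≤ Real.sqrt x * Real.sqrt x :=
          mul_le_mul_of_nonneg_left h5 h6
      _ = x := Real.mul_self_sqrt hx0.le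
  have h7 : C4 * Real.sqrt x ≤ |C4| * (x / (Real.log x) ^ (1 / 50 : ℝ)) :=
    (mul_le_mul_of_nonneg_right (le_abs_self C4) (Real.sqrt_nonneg x)).trans
      (mul_le_mul_of_nonneg_left h4 (abs_nonneg _))
  have e : (C3 + |C4|) * x / (Real.log x) ^ (1 / 50 : ℝ) =
      C3 * x / (Real.log x) ^ (1 / 50 : ℝ) + |C4| * (x / (Real.log x) ^ (1 / 50 : ℝ)) := by ring
  rw [e]
  have h8 := abs_le.mp h1
  have h9 : 0 ≤ |C4| * (x / (Real.log x) ^ (1 / 50 : ℝ)) := by positivity
  rw [abs_le]
  constructor <;> linarith [h8.1, h8.2]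
end Pool.Agent.Helper923.PNTQ
end part_Z9
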