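import Mathlib

set_option autoImplicit false

namespace Pool.Agent.Helper923.Refine

open Finset

lemma refine_step (N : ℕ) (d : ℕ) : ∀ f : ℕ → ℕ, ((Icc 1 N).image f).card + d ≤ N →
    ∃ f' : ℕ → ℕ, (∀ a b, f' a = f' b → f a = f b) ∧
      ((Icc 1 N).image f').card = ((Icc 1 N).image f).card + d := by
  induction d with
  | zero => intro f _; exact ⟨f, fun a b h => h, rfl⟩
  | succ d ih =>
    intro f hf
    obtain ⟨f1, h1, h2⟩ := ih f (by omega)
    have hlt : ((Icc 1 N).image f1).card < (Icc 1 N).card := by
      rw [h2, Nat.card_Icc]; omega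
    obtain ⟨x, hx, y, hy, hne, hxy⟩ := exists_ne_map_eq_of_card_lt_of_maps_to hlt
      (fun a ha => mem_image_of_mem f1 ha)
    -- injective recolouring: double all colours, give x an odd colour
    refine ⟨fun a => if a = x then 2 * f1 x + 1 else 2 * f1 a, ?_, ?_⟩
    · intro a b hab
      apply h1
      beta_reduce at hab
      by_cases ha : a = x
      · by_cases hb : b = x
        · rw [ha, hb]
        · rw [if_pos ha, if_neg hb] at hab; omega
      · by_cases hb : b = x
        · rw [if_neg ha, if_pos hb] at hab; omega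
        · rw [if_neg ha, if_neg hb] at hab; omega
    · have e : (Icc 1 N).image (fun a => if a = x then 2 * f1 x + 1 else 2 * f1 a)
          = insert (2 * f1 x + 1) (((Icc 1 N).image f1).image (fun v => 2 * v)) := by
        ext v
        simp only [mem_image, mem_insert]
        constructor
        · rintro ⟨a, ha, rfl⟩
          by_cases hax : a = x
          · left; rw [if_pos hax]
          · right; rw [if_neg hax]; exact ⟨f1 a, ⟨a, ha, rfl⟩, rfl⟩
        · rintro (rfl | ⟨w, ⟨a, ha, rfl⟩, rfl⟩)
          · exact ⟨x, hx, by simp⟩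
          · by_cases hax : a = x
            · exact ⟨y, hy, by rw [if_neg (Ne.symm hne), hax, hxy]⟩
            · exact ⟨a, ha, by rw [if_neg hax]⟩
      rw [e, card_insert_of_notMem, card_image_of_injective, h2]
      · omega
      · intro a b hab; simp only at hab; omega
      · intro h
        rw [mem_image] at h
        obtain ⟨w, _, hw⟩ := h
        omega

/-- every colouring with at most `k ≤ N` colours refines to one using exactly the colours `Fin k` -/
theorem exists_surj {ι : Type} [Fintype ι] (N k : ℕ) (hk : Fintype.card ι ≤ k) (hk0 : 0 < k)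
    (hkN : k ≤ N)
    (c : ℕ → ι) : ∃ c' : ℕ → Fin k, (∀ i, ∃ a, 1 ≤ a ∧ a ≤ N ∧ c' a = i) ∧
      ∀ a b, 1 ≤ a → a ≤ N → 1 ≤ b → b ≤ N → c' a = c' b → c a = c b := by
  classical
  set f : ℕ → ℕ := fun a => (Fintype.equivFin ι (c a)).val with hf
  have hcard : ((Icc 1 N).image f).card ≤ k := by
    refine le_trans ?_ hk
    calc ((Icc 1 N).image f).card ≤ (range (Fintype.card ι)).card := by
          apply card_le_card
          intro v hv
          rw [mem_image] at hv
          obtain ⟨a, _, rfl⟩ := hv
          rw [mem_range]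
          exact (Fintype.equivFin ι (c a)).isLt
      _ = _ := card_range _
  obtain ⟨f', h1, h2⟩ := refine_step N (k - ((Icc 1 N).image f).card) f (by omega)
  have h3 : ((Icc 1 N).image f').card = k := by omega
  let e : ((Icc 1 N).image f') ≃ Fin k := Finset.equivFinOfCardEq h3
  refine ⟨fun a => if h : f' a ∈ (Icc 1 N).image f' then e ⟨f' a, h⟩ else ⟨0, hk0⟩, ?_, ?_⟩
  · intro i
    have hm := (e.symm i).2
    rw [mem_image] at hm
    obtain ⟨a, ha, hfa⟩ := hm
    rw [mem_Icc] at ha
    refine ⟨a, ha.1, ha.2, ?_⟩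
    have hmem : f' a ∈ (Icc 1 N).image f' := mem_image_of_mem _ (mem_Icc.mpr ha)
    beta_reduce
    rw [dif_pos hmem]
    have : (⟨f' a, hmem⟩ : ((Icc 1 N).image f')) = e.symm i := Subtype.ext hfa
    rw [this, Equiv.apply_symm_apply]
  · intro a b ha1 ha2 hb1 hb2 hab
    have hma : f' a ∈ (Icc 1 N).image f' := mem_image_of_mem _ (mem_Icc.mpr ⟨ha1, ha2⟩)
    have hmb : f' b ∈ (Icc 1 N).image f' := mem_image_of_mem _ (mem_Icc.mpr ⟨hb1, hb2⟩)
    beta_reduce at hab
    rw [dif_pos hma, dif_pos hmb] at hab
    have h4 := e.injective hab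
    have h5 : f' a = f' b := congrArg Subtype.val h4
    have h6 := h1 a b h5
    simp only [hf] at h6
    exact (Fintype.equivFin ι).injective (Fin.ext h6)

end Pool.Agent.Helper923.Refine
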