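import Mathlib
import Pool.Agent.Helper923.Cover
import Pool.Agent.Helper923.Refine

set_option autoImplicit false

namespace Pool.Agent.Helper923.Upper

open Finset Filter Pool.Agent.Helper923.Geo Pool.Agent.Helper923.Digits Pool.Agent.Helper923.Tails
  Pool.Agent.Helper923.Cover

lemma exp_neg_one_le : Real.exp (-1) ≤ 0.4 := by
  rw [Real.exp_neg]
  have := Real.exp_one_gt_d9
  rw [inv_le_comm₀ (by positivity) (by norm_num)]
  norm_num
  linarith

/-- the final numerical inequality -/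
lemma final_ineq {w v : ℝ} (hv : 20 ≤ v) (hw : 1000 * v ^ 3 ≤ w) :
    (4 + 8 * v) + 0.6932 * (9 * (w ^ 8 + 2) / (8 * v) + 1) + (2 + 50 * v * (v + 3) * w ^ 6)
      ≤ 10 * w ^ 8 / (8 * v) := by
  have hv0 : 0 < v := by linarith
  have hv3 : v ^ 2 * (v + 3) ≤ 2 * v ^ 3 := by nlinarith [sq_nonneg v]
  have hw1 : v ≤ w := by
    have h1 : v ≤ v ^ 3 := by nlinarith [sq_nonneg v]
    have : 0 ≤ v ^ 3 := by positivity
    linarith
  have hw20 : 20 ≤ w := by linarith
  rw [← sub_nonneg]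
  have e : 10 * w ^ 8 / (8 * v) - ((4 + 8 * v) + 0.6932 * (9 * (w ^ 8 + 2) / (8 * v) + 1)
      + (2 + 50 * v * (v + 3) * w ^ 6))
      = (10 * w ^ 8 - 0.6932 * (9 * (w ^ 8 + 2) + 8 * v) - 8 * v * (6 + 8 * v)
        - 400 * (v ^ 2 * (v + 3)) * w ^ 6) / (8 * v) := by
    field_simp
    ring
  rw [e]
  apply div_nonneg _ (by positivity)
  have h6 : 0 < w ^ 6 := by positivity
  have a1 : 400 * (v ^ 2 * (v + 3)) * w ^ 6 ≤ 0.8 * w ^ 7 := by
    have h1 : 400 * (v ^ 2 * (v + 3)) ≤ 0.8 * w := by linarith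
    calc 400 * (v ^ 2 * (v + 3)) * w ^ 6 ≤ 0.8 * w * w ^ 6 := by gcongr
      _ = 0.8 * w ^ 7 := by ring
  have a2 : 20 * w ^ 7 ≤ w ^ 8 := by
    have : w ^ 8 = w * w ^ 7 := by ring
    rw [this]
    have : 0 < w ^ 7 := by positivity
    gcongr
  have a3 : v ^ 2 ≤ w ^ 2 := by gcongr
  have a4 : w ^ 2 * 1000 ≤ w ^ 8 := by
    have : w ^ 8 = w ^ 2 * w ^ 6 := by ring
    rw [this]
    have h7 : (1000 : ℝ) ≤ w ^ 6 := by
      calc (1000 : ℝ) ≤ 20 ^ 6 := by norm_num
        _ ≤ w ^ 6 := by gcongr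
    gcongr
  have a5 : w ≤ w ^ 2 := by nlinarith
  nlinarith

set_option maxHeartbeats 2000000 in
theorem main_bound {N : ℕ} {w v : ℝ} (hN : 1 ≤ N) (hw8 : Real.log N = w ^ 8)
    (hvw : v = Real.log w) (hw0 : 0 < w)
    (hv : 20 ≤ v) (hw : 1000 * v ^ 3 ≤ w) :
    ∃ (ι : Type) (_ : Fintype ι) (c : ℕ → ι) (T : Finset ℕ),
      (Fintype.card ι : ℝ) ≤ Real.exp (10 * w ^ 8 / (8 * v)) ∧
      (T.card : ℝ) < N / 10 ∧ ∀ x ≤ N, ∀ y < x, c x = c y → x + y ∈ T := by
  have hv0 : 0 < v := by linarith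
  have hvw1 : v ≤ w := by
    have h1 : v ≤ v ^ 3 := by nlinarith [sq_nonneg v]
    have : 0 ≤ v ^ 3 := by positivity
    linarith
  have hw1000 : 1000 ≤ w := by
    have : (1 : ℝ) ≤ v ^ 3 := by
      have : (1 : ℝ) ≤ v := by linarith
      exact one_le_pow₀ this
    linarith
  have hNr : (1 : ℝ) ≤ N := by exact_mod_cast hN
  have hNpos : (0 : ℝ) < N := by linarith
  -- m
  obtain ⟨m, hm⟩ : ∃ m : ℕ, m = ⌊w⌋₊ := ⟨_, rfl⟩
  have hmle : (m : ℝ) ≤ w := by rw [hm]; exact Nat.floor_le hw0.le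
  have hmge : w / 2 ≤ m := by
    have := Nat.lt_floor_add_one w
    rw [← hm] at this
    linarith
  have hm2 : 2 ≤ m := by
    have : (2 : ℝ) ≤ m := by linarith
    exact_mod_cast this
  have hmpos : (0 : ℝ) < m := by linarith
  have hlogm : 8 * v / 9 ≤ Real.log m := by
    have h1 : Real.log (w / 2) ≤ Real.log m := Real.log_le_log (by positivity) hmge
    rw [Real.log_div (by positivity) (by norm_num), ← hvw] at h1
    have := Real.log_two_lt_d9
    linarith
  have hlogmpos : 0 < Real.log m := by linarith [show 0 < 8 * v / 9 by positivity]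
  -- n
  obtain ⟨n, hn⟩ : ∃ n : ℕ, n = ⌈Real.log (2 * (N + 1)) / Real.log m⌉₊ := ⟨_, rfl⟩
  have hlog2N : Real.log (2 * ((N : ℝ) + 1)) ≤ w ^ 8 + 2 := by
    have h1 : Real.log (2 * ((N : ℝ) + 1)) ≤ Real.log (4 * N) :=
      Real.log_le_log (by positivity) (by linarith)
    rw [Real.log_mul (x := 4) (by norm_num) (by positivity), hw8] at h1
    have h2 : Real.log 4 ≤ 2 := by
      have : Real.log 4 = 2 * Real.log 2 := by
        rw [show (4 : ℝ) = 2 ^ 2 by norm_num, Real.log_pow]; norm_num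
      rw [this]
      have := Real.log_two_lt_d9
      linarith
    linarith
  have hlog2Npos : 0 < Real.log (2 * ((N : ℝ) + 1)) := Real.log_pos (by linarith)
  have hnge : Real.log (2 * (N + 1)) / Real.log m ≤ n := by rw [hn]; exact Nat.le_ceil _
  have hnle : (n : ℝ) ≤ 9 * (w ^ 8 + 2) / (8 * v) + 1 := by
    have h1 : (n : ℝ) < Real.log (2 * (N + 1)) / Real.log m + 1 := by
      rw [hn]; exact Nat.ceil_lt_add_one (by positivity)
    have h2 : Real.log (2 * ((N : ℝ) + 1)) / Real.log m ≤ (w ^ 8 + 2) / (8 * v / 9) := by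
      gcongr
    have h3 : (w ^ 8 + 2) / (8 * v / 9) = 9 * (w ^ 8 + 2) / (8 * v) := by
      field_simp
    linarith
  have hn1 : 1 ≤ n := by
    have : 0 < Real.log (2 * ((N : ℝ) + 1)) / Real.log m := by positivity
    have : (0 : ℝ) < n := by linarith
    exact_mod_cast this
  have hn1r : (1 : ℝ) ≤ n := by exact_mod_cast hn1
  have hpow : 2 * (N + 1) ≤ m ^ n := by
    have h1 : Real.log (2 * ((N : ℝ) + 1)) ≤ n * Real.log m := by
      rwa [div_le_iff₀ hlogmpos] at hnge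
    rw [← Real.log_pow] at h1
    have h2 := (Real.log_le_log_iff (by positivity) (by positivity)).mp h1
    exact_mod_cast h2
  have hw8pos : 0 < w ^ 8 := by positivity
  have hny : (n : ℝ) ≤ w ^ 8 := by
    refine hnle.trans ?_
    have h1 : 9 * (w ^ 8 + 2) / (8 * v) ≤ 9 * (w ^ 8 + 2) / (8 * 20) := by gcongr
    have h2 : (1000 : ℝ) ≤ w ^ 8 := by
      calc (1000 : ℝ) ≤ w := hw1000
        _ = w ^ 1 := by ring
        _ ≤ w ^ 8 := pow_le_pow_right₀ (by linarith) (by norm_num)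
    linarith
  -- l
  obtain ⟨l, hl⟩ : ∃ l : ℕ, l = ⌈3 * Real.log (N + 1)⌉₊ + 1 := ⟨_, rfl⟩
  have hlogN1 : Real.log ((N : ℝ) + 1) ≤ w ^ 8 + 1 := by
    have h1 : Real.log ((N : ℝ) + 1) ≤ Real.log (2 * N) :=
      Real.log_le_log (by positivity) (by linarith)
    rw [Real.log_mul (by norm_num) (by positivity), hw8] at h1
    have := Real.log_two_lt_d9
    linarith
  have hlogN1pos : 0 ≤ Real.log ((N : ℝ) + 1) := Real.log_nonneg (by linarith)
  have hlge : 3 * Real.log ((N : ℝ) + 1) + 1 ≤ l := by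
    rw [hl]; push_cast
    have := Nat.le_ceil (3 * Real.log ((N : ℝ) + 1))
    linarith
  have hlle : (l : ℝ) ≤ 4 * w ^ 8 := by
    rw [hl]; push_cast
    have := Nat.ceil_lt_add_one (show 0 ≤ 3 * Real.log ((N : ℝ) + 1) by positivity)
    have h2 : (1000 : ℝ) ≤ w ^ 8 := by
      calc (1000 : ℝ) ≤ w := hw1000
        _ = w ^ 1 := by ring
        _ ≤ w ^ 8 := pow_le_pow_right₀ (by linarith) (by norm_num)
    linarith
  have hl1 : (1 : ℝ) ≤ l := by linarith
  have hlN : (2 / 3 : ℝ) ^ l * (N + 1) < 1 := by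
    have h1 : (2 / 3 : ℝ) ≤ Real.exp (-(1 / 3)) := by
      have := Real.add_one_le_exp (-(1 / 3) : ℝ)
      linarith
    have h2 : (2 / 3 : ℝ) ^ l ≤ Real.exp (-(l / 3)) := by
      calc (2 / 3 : ℝ) ^ l ≤ Real.exp (-(1 / 3)) ^ l := by gcongr
        _ = Real.exp (-(l / 3)) := by
          rw [← Real.exp_nat_mul]; congr 1; ring
    have h3 : Real.exp (-(l / 3)) < Real.exp (-Real.log ((N : ℝ) + 1)) := by
      rw [Real.exp_lt_exp]; linarith
    rw [Real.exp_neg (Real.log ((N : ℝ) + 1)), Real.exp_log (by positivity)] at h3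
    have h4 := lt_of_le_of_lt h2 h3
    have h5 : (0 : ℝ) < N + 1 := by positivity
    calc (2 / 3 : ℝ) ^ l * (N + 1) < ((N : ℝ) + 1)⁻¹ * (N + 1) := by gcongr
      _ = 1 := inv_mul_cancel₀ h5.ne'
  -- lambda
  obtain ⟨lam0, hlam0⟩ : ∃ a : ℝ, a = √(2 * Real.log (200 * l)) := ⟨_, rfl⟩
  have hlog200 : 0 ≤ 2 * Real.log (200 * (l : ℝ)) := by
    have : 0 ≤ Real.log (200 * (l : ℝ)) := Real.log_nonneg (by linarith)
    linarith
  have hlam0nn : 0 ≤ lam0 := by rw [hlam0]; exact Real.sqrt_nonneg _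
  have hlam0sq : lam0 ^ 2 = 2 * Real.log (200 * l) := by
    rw [hlam0]; exact Real.sq_sqrt hlog200
  have hlam0v : lam0 ≤ v := by
    have h1 : Real.log (200 * (l : ℝ)) ≤ Real.log (200 * (4 * w ^ 8)) :=
      Real.log_le_log (by positivity) (by gcongr)
    have h2 : Real.log (200 * (4 * w ^ 8)) = Real.log 800 + 8 * v := by
      rw [show 200 * (4 * w ^ 8) = 800 * w ^ 8 by ring, Real.log_mul (by norm_num) (by positivity),
        Real.log_pow, hvw]
      norm_num
    have h3 : Real.log 800 ≤ 7 := by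
      have h4 : Real.log 800 ≤ Real.log 1024 := Real.log_le_log (by norm_num) (by norm_num)
      have h5 : Real.log 1024 = 10 * Real.log 2 := by
        rw [show (1024 : ℝ) = 2 ^ 10 by norm_num, Real.log_pow]; norm_num
      have := Real.log_two_lt_d9
      linarith
    have h4 : lam0 ^ 2 ≤ v ^ 2 := by
      rw [hlam0sq]
      have h6 : 20 * v ≤ v ^ 2 := by
        rw [sq]; exact mul_le_mul_of_nonneg_right hv hv0.le
      linarith
    exact le_of_sq_le_sq h4 hv0.le
  have hsqrtn : √(n : ℝ) ≤ w ^ 4 := by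
    rw [Real.sqrt_le_left (by positivity)]
    refine hny.trans (le_of_eq (by ring))
  have hsqrtn1 : 1 ≤ √(n : ℝ) := by
    rw [Real.one_le_sqrt]; exact hn1r
  have hsqrtsq : √(n : ℝ) ^ 2 = n := Real.sq_sqrt (by positivity)
  -- e1, mu, lam, D
  obtain ⟨lam, hlamdef⟩ : ∃ a : ℝ, a = lam0 * √n + 1 / 2 := ⟨_, rfl⟩
  obtain ⟨mu, hmudef⟩ : ∃ a : ℝ, a = 2 * √n := ⟨_, rfl⟩
  obtain ⟨e1, he1def⟩ : ∃ a : ℝ, a = Real.exp (-(lam0 ^ 2 / 2)) := ⟨_, rfl⟩
  have he1pos : 0 < e1 := by rw [he1def]; exact Real.exp_pos _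
  have he1eq : e1 = 1 / (200 * l) := by
    rw [he1def, hlam0sq]
    rw [show -(2 * Real.log (200 * (l : ℝ)) / 2) = -Real.log (200 * (l : ℝ)) by ring,
      Real.exp_neg, Real.exp_log (by positivity), one_div]
  have h1 : ∀ s, (((Om m n).filter (fun R => F m n R s ≤ n / 3 - lam)).card : ℝ)
      ≤ (Om m n).card * e1 := by
    intro s
    have := tail_lower hm2 (n := n) s (t := lam0 / √n) (lam := lam) (by positivity)
    refine this.trans (le_of_eq ?_)
    rw [he1def]
    congr 2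
    rw [hlamdef]
    have hne : √(n : ℝ) ≠ 0 := by positivity
    rw [div_pow, hsqrtsq]
    field_simp
    ring
  have h2 : ∀ s, (((Om m n).filter (fun R => n / 3 + mu < F m n R s)).card : ℝ)
      ≤ (Om m n).card * 0.4 := by
    intro s
    have := tail_upper hm2 (n := n) s (t := 1 / √n) (lam := mu) (by positivity)
      (by rw [div_le_one (by positivity)]; exact hsqrtn1)
    refine this.trans ?_
    apply mul_le_mul_of_nonneg_left _ (by positivity)
    refine le_trans (le_of_eq ?_) exp_neg_one_le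
    congr 1
    rw [hmudef]
    have hne : √(n : ℝ) ≠ 0 := by positivity
    rw [div_pow, hsqrtsq]
    field_simp
    norm_num
  obtain ⟨c, T, hT, hcT⟩ := construction (D := lam + mu) hm2 he1pos h1 h2 le_rfl hlN
  refine ⟨_, inferInstance, c, T, ?_, ?_, hcT⟩
  · -- the number of colours
    obtain ⟨h, hh⟩ : ∃ h : ℕ, h = ⌈4 * (m : ℝ) ^ 2 * (lam + mu)⌉₊ := ⟨_, rfl⟩
    have hD : lam + mu ≤ (v + 3) * w ^ 4 := by
      rw [hlamdef, hmudef]
      have h3 : lam0 * √(n : ℝ) ≤ v * w ^ 4 := by gcongr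
      have h4 : (1 : ℝ) ≤ w ^ 4 := one_le_pow₀ (by linarith)
      linarith [show (v + 3) * w ^ 4 = v * w ^ 4 + 3 * w ^ 4 by ring]
    have hDnn : 0 ≤ lam + mu := by rw [hlamdef, hmudef]; positivity
    have hhge : 4 * (m : ℝ) ^ 2 * (lam + mu) ≤ h := by rw [hh]; exact Nat.le_ceil _
    have hhle : (h : ℝ) ≤ 5 * (v + 3) * w ^ 6 := by
      have h3 : (h : ℝ) < 4 * (m : ℝ) ^ 2 * (lam + mu) + 1 := by
        rw [hh]; exact Nat.ceil_lt_add_one (by positivity)
      have h4 : 4 * (m : ℝ) ^ 2 * (lam + mu) ≤ 4 * w ^ 2 * ((v + 3) * w ^ 4) := by gcongr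
      have h5 : (1 : ℝ) ≤ w ^ 6 := one_le_pow₀ (by linarith)
      have h6 : 4 * w ^ 2 * ((v + 3) * w ^ 4) + w ^ 6 ≤ 5 * (v + 3) * w ^ 6 := by
        have h7 : 1 * w ^ 6 ≤ (v + 3) * w ^ 6 := by
          apply mul_le_mul_of_nonneg_right _ (by positivity)
          linarith
        linarith [show 4 * w ^ 2 * ((v + 3) * w ^ 4) = 4 * ((v + 3) * w ^ 6) by ring,
          show 5 * (v + 3) * w ^ 6 = 5 * ((v + 3) * w ^ 6) by ring]
      linarith
    obtain ⟨X, hX⟩ : ∃ X : ℝ, X = 2 * m * n := ⟨_, rfl⟩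
    have hm1r : (2 : ℝ) ≤ m := by exact_mod_cast hm2
    have hX1 : 1 ≤ X := by rw [hX]; nlinarith
    have hZ := Z_card (N := N + 1) (by omega : 1 ≤ m) hpow hhge hX1
    have hZ2 : ((Z m n (N + 1) (lam + mu)).card : ℝ) ≤ X ^ h * 3 := by
      refine hZ.trans ?_
      have h3 : (1 + 2 * m / X) ^ n ≤ 3 := by
        have h4 : 1 + 2 * (m : ℝ) / X ≤ Real.exp (1 / n) := by
          have h5 : 2 * (m : ℝ) / X = 1 / n := by
            rw [hX]; field_simp
          rw [h5]
          have := Real.add_one_le_exp (1 / (n : ℝ))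
          linarith
        calc (1 + 2 * (m : ℝ) / X) ^ n ≤ Real.exp (1 / n) ^ n := by
              have : 0 ≤ 1 + 2 * (m : ℝ) / X := by
                have : 0 < X := by linarith
                positivity
              gcongr
          _ = Real.exp 1 := by
            rw [← Real.exp_nat_mul]; congr 1; field_simp
          _ ≤ 3 := Real.exp_one_lt_three.le
      gcongr
    have hXle : X ≤ Real.exp (10 * v) := by
      have h3 : X ≤ 2 * w * w ^ 8 := by rw [hX]; gcongr
      have h4 : 2 * w * w ^ 8 ≤ w ^ 10 := by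
        have : w ^ 10 = w * w * w ^ 8 := by ring
        rw [this]
        gcongr
        linarith
      have h5 : w ^ 10 = Real.exp (10 * v) := by
        rw [hvw, show (10 : ℝ) * Real.log w = ((10 : ℕ) : ℝ) * Real.log w by norm_num,
          Real.exp_nat_mul, Real.exp_log hw0]
      linarith
    have hXh : X ^ h ≤ Real.exp (50 * v * (v + 3) * w ^ 6) := by
      calc X ^ h ≤ Real.exp (10 * v) ^ h := by gcongr
        _ = Real.exp (h * (10 * v)) := by rw [← Real.exp_nat_mul]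
        _ ≤ _ := by
          rw [Real.exp_le_exp]
          have h3 := mul_le_mul_of_nonneg_right hhle (show 0 ≤ 10 * v by positivity)
          refine h3.trans (le_of_eq ?_)
          ring
    have hZ3 : ((Z m n (N + 1) (lam + mu)).card : ℝ) + 1
        ≤ Real.exp (2 + 50 * v * (v + 3) * w ^ 6) := by
      rw [Real.exp_add]
      have h3 : (1 : ℝ) ≤ Real.exp (50 * v * (v + 3) * w ^ 6) := by
        apply Real.one_le_exp; positivity
      have h4 : (4 : ℝ) ≤ Real.exp 2 := by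
        have := Real.exp_one_gt_d9
        have h5 : Real.exp 2 = Real.exp 1 * Real.exp 1 := by rw [← Real.exp_add]; norm_num
        rw [h5]; nlinarith
      have h6 : 4 * Real.exp (50 * v * (v + 3) * w ^ 6)
          ≤ Real.exp 2 * Real.exp (50 * v * (v + 3) * w ^ 6) := by gcongr
      linarith
    have hl3 : (l : ℝ) ≤ Real.exp (4 + 8 * v) := by
      rw [Real.exp_add]
      have h3 : Real.exp (8 * v) = w ^ 8 := by
        rw [hvw, show (8 : ℝ) * Real.log w = ((8 : ℕ) : ℝ) * Real.log w by norm_num,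
          Real.exp_nat_mul, Real.exp_log hw0]
      rw [h3]
      have h4 : (4 : ℝ) ≤ Real.exp 4 := by
        have := Real.add_one_le_exp (4 : ℝ); linarith
      calc (l : ℝ) ≤ 4 * w ^ 8 := hlle
        _ ≤ _ := by gcongr
    have h2n : (2 : ℝ) ^ n ≤ Real.exp (0.6932 * (9 * (w ^ 8 + 2) / (8 * v) + 1)) := by
      have h3 : (2 : ℝ) ^ n = Real.exp (n * Real.log 2) := by
        rw [Real.exp_nat_mul, Real.exp_log (by norm_num)]
      rw [h3, Real.exp_le_exp]
      have h4 : Real.log 2 ≤ 0.6932 := by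
        have := Real.log_two_lt_d9; linarith
      calc (n : ℝ) * Real.log 2 ≤ (9 * (w ^ 8 + 2) / (8 * v) + 1) * 0.6932 := by
            have := Real.log_nonneg (show (1 : ℝ) ≤ 2 by norm_num)
            gcongr
        _ = _ := by ring
    have hcard : (Fintype.card (Fin l × (Fin n → Bool)
        × Fin ((Z m n (N + 1) (lam + mu)).card + 1)) : ℝ)
        = l * (2 ^ n * (((Z m n (N + 1) (lam + mu)).card : ℝ) + 1)) := by
      simp [Fintype.card_prod, Fintype.card_fin]
    rw [hcard]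
    calc (l : ℝ) * (2 ^ n * (((Z m n (N + 1) (lam + mu)).card : ℝ) + 1))
        ≤ Real.exp (4 + 8 * v) * (Real.exp (0.6932 * (9 * (w ^ 8 + 2) / (8 * v) + 1))
          * Real.exp (2 + 50 * v * (v + 3) * w ^ 6)) := by gcongr
      _ = Real.exp ((4 + 8 * v) + 0.6932 * (9 * (w ^ 8 + 2) / (8 * v) + 1)
          + (2 + 50 * v * (v + 3) * w ^ 6)) := by
          rw [← Real.exp_add, ← Real.exp_add]; congr 1; ring
      _ ≤ _ := by
          rw [Real.exp_le_exp]
          exact final_ineq hv hw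
  · refine lt_of_le_of_lt hT ?_
    rw [he1eq]
    have : (l : ℝ) * (4 * (2 * N + 1) * (1 / (200 * l))) = (2 * N + 1) / 50 := by
      field_simp
      ring
    rw [this]
    linarith

end Pool.Agent.Helper923.Upper
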